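import Pool.Agent.TBirP.Def
import Pool.Agent.TBir.AdjN

/-!
# The adjoint: the class of symbols

`pstar phi w = conj (phi (1 / conj w))`, on the circle it is `conj phi` (`pstar_sphere` in TBirG/Main.lean). `PwA.pstar`: `pstar phi` is analytic at `z` of the circle if `phi` is analytic at `1 / conj z = z` (see `pstar_ana` in
TBirG; here a local version; derivative `≠ 0`: chain rule, or write it as the composition, `z * deriv (pstar phi) z = - conj (z * deriv phi z)`); `Side`: `psi` is replaced by `pstar psi`.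
`fin_sim`: let `G` be the set of the `z` on the circle with `z ∈ F ∪ D` or `phi z = phi z'` for some `z' ∈ F ∪ D` of the circle. A point of the circle not in `G` is simple. `G` is finite: for each `z'` the
set `{z | phi z = phi z'} \ D` has at most one point by `hinj`.
-/

set_option autoImplicit false

open MeasureTheory Complex Set Filter Topology Metric AddCircle
open scoped ComplexConjugate InnerProductSpace ENNReal

namespace Pool.Agent.TBirP

open Pool.Agent.TBir Pool.Agent.TBirG Pool.Agent.TBirC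

variable {phi : ℂ → ℂ} {F : Set ℂ}

namespace AdjQ

theorem inv_conj {w : ℂ} (hw : ‖w‖ = 1) : (conj w)⁻¹ = w := by
  have h2 : w * conj w = 1 := by
    rw [Complex.mul_conj, Complex.normSq_eq_norm_sq, hw]
    norm_num
  exact (eq_inv_of_mul_eq_one_left h2).symm

theorem ne0 {w : ℂ} (hw : ‖w‖ = 1) : w ≠ 0 := by
  rintro rfl
  rw [norm_zero] at hw
  exact zero_ne_one hw

theorem on {phi : ℂ → ℂ} {w : ℂ} (hw : ‖w‖ = 1) : pstar phi w = conj (phi w) := by
  rw [pstar, inv_conj hw]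

theorem hasDer {phi : ℂ → ℂ} {w f' : ℂ} (hw : w ≠ 0) (h : HasDerivAt phi f' (conj w)⁻¹) :
    HasDerivAt (pstar phi) (conj f' * -(w ^ 2)⁻¹) w := by
  have h1 : HasDerivAt (conj ∘ phi ∘ conj) (conj f') w⁻¹ := by
    have := h.conj_conj
    rwa [map_inv₀, Complex.conj_conj] at this
  have h2 : HasDerivAt (fun v : ℂ => v⁻¹) (-(w ^ 2)⁻¹) w := hasDerivAt_inv hw
  have h3 := h1.comp w h2
  refine h3.congr_of_eventuallyEq (Eventually.of_forall fun v => ?_)
  simp [pstar, map_inv₀]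

theorem tend {w : ℂ} (hw : ‖w‖ = 1) : Tendsto (fun v : ℂ => (conj v)⁻¹) (𝓝 w) (𝓝 w) := by
  have hc : ContinuousAt (fun v : ℂ => (conj v)⁻¹) w :=
    (Complex.continuous_conj.continuousAt).inv₀ (by simpa using ne0 hw)
  have := hc.tendsto
  rwa [inv_conj hw] at this

theorem ana {phi : ℂ → ℂ} {w : ℂ} (hw : ‖w‖ = 1) (h : AnalyticAt ℂ phi w) :
    AnalyticAt ℂ (pstar phi) w := by
  rw [Complex.analyticAt_iff_eventually_differentiableAt] at h ⊢
  have h0 : ∀ᶠ v in 𝓝 w, v ≠ 0 := isOpen_ne.mem_nhds (ne0 hw)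
  filter_upwards [(tend hw).eventually h, h0] with v hv hv0
  exact (hasDer hv0 hv.hasDerivAt).differentiableAt

theorem der {phi : ℂ → ℂ} {w : ℂ} (hw : ‖w‖ = 1) (h : AnalyticAt ℂ phi w) :
    w * deriv (pstar phi) w = -conj (w * deriv phi w) := by
  have h1 : HasDerivAt phi (deriv phi w) (conj w)⁻¹ := by
    rw [inv_conj hw]
    exact h.differentiableAt.hasDerivAt
  rw [(hasDer (ne0 hw) h1).deriv, map_mul]
  have h2 : conj w = w⁻¹ := by
    have := inv_conj hw
    rw [← inv_inv (conj w), this]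
  rw [h2]
  have h3 := ne0 hw
  field_simp

theorem side {phi psi : ℂ → ℂ} {t : ℂ} {s : ℝ} (ht : ‖t‖ = 1) (h : Side phi psi t s) :
    Side (pstar phi) (pstar psi) t s := by
  obtain ⟨h1, h2, h3⟩ := h
  refine ⟨ana ht h1, fun h4 => h2 ?_, ?_⟩
  · filter_upwards [(tend ht).eventually h4] with z hz
    rw [on ht, pstar, map_inv₀, Complex.conj_conj, inv_inv] at hz
    exact (starRingEnd ℂ).injective hz
  · filter_upwards [h3] with x hx
    have h5 : ‖t * E (s * x)‖ = 1 := by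
      rw [norm_mul, ht, one_mul, E]
      exact Complex.norm_exp_ofReal_mul_I _
    rw [on h5, on h5, hx]

end AdjQ

theorem pstar_loc {z : ℂ} (hz : ‖z‖ = 1) (h : AnalyticAt ℂ phi z) :
    AnalyticAt ℂ (pstar phi) z ∧ z * deriv (pstar phi) z = - conj (z * deriv phi z) :=
  ⟨AdjQ.ana hz h, AdjQ.der hz h⟩

theorem AdjQ.der_ne {z : ℂ} (hz : ‖z‖ = 1) (h : AnalyticAt ℂ phi z) (hd : deriv phi z ≠ 0) :
    deriv (TBir.pstar phi) z ≠ 0 := by
  intro h0
  have h1 := (pstar_loc hz h).2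
  rw [h0, mul_zero, zero_eq_neg, map_eq_zero, mul_eq_zero] at h1
  rcases h1 with h1 | h1
  · exact AdjQ.ne0 hz h1
  · exact hd h1

theorem PwA.pstar (h : PwA phi F) : PwA (pstar phi) F where
  fin := h.fin
  cont := by
    refine (Complex.continuous_conj.comp_continuousOn h.cont).congr fun z hz => ?_
    exact AdjQ.on (by simpa using hz)
  reg := fun z hz hF => by
    obtain ⟨h1, h2⟩ := h.reg z hz hF
    have h3 : ‖z‖ = 1 := by simpa using hz
    exact ⟨AdjQ.ana h3 h1, AdjQ.der_ne h3 h1 h2⟩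
  side := fun t ht hF => by
    obtain ⟨⟨p1, h1⟩, p2, h2⟩ := h.side t ht hF
    have h3 : ‖t‖ = 1 := by simpa using ht
    exact ⟨⟨_, AdjQ.side h3 h1⟩, _, AdjQ.side h3 h2⟩

theorem Sim.pstar {z : ℂ} (h : Sim phi z) : Sim (pstar phi) z := by
  obtain ⟨h1, h2, h3, h4⟩ := h
  refine ⟨h1, AdjQ.ana h1 h2, AdjQ.der_ne h1 h2 h3, fun z' hz' h5 => h4 z' hz' ?_⟩
  rw [AdjQ.on hz', AdjQ.on h1] at h5
  exact (starRingEnd ℂ).injective h5

/-- The non-simple points are finitely many if `phi` is injective off a finite set. -/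
theorem fin_sim (h : PwA phi F) {D : Set ℂ} (hD : D.Finite) (hinj : InjOn phi (sphere 0 1 \ D)) :
    {z : ℂ | ‖z‖ = 1 ∧ ¬ Sim phi z}.Finite := by
  have h1 : ∀ z' ∈ D, {z : ℂ | z ∈ sphere (0 : ℂ) 1 \ D ∧ phi z = phi z'}.Finite := by
    intro z' _
    refine Set.Subsingleton.finite fun a ha b hb => ?_
    exact hinj ha.1 hb.1 (ha.2.trans hb.2.symm)
  refine ((h.fin.union hD).union (hD.biUnion h1)).subset ?_
  rintro z ⟨hz, hs⟩
  by_contra hcon
  simp only [mem_union, mem_iUnion, not_or, not_exists] at hcon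
  obtain ⟨⟨h2, h3⟩, h4⟩ := hcon
  have hzs : z ∈ sphere (0 : ℂ) 1 := by simpa using hz
  obtain ⟨h5, h6⟩ := h.reg z hzs h2
  refine hs ⟨hz, h5, h6, fun z' hz' he => ?_⟩
  by_cases h7 : z' ∈ D
  · exact absurd ⟨⟨hzs, h3⟩, he.symm⟩ (h4 z' h7)
  · exact hinj ⟨by simpa using hz', h7⟩ ⟨hzs, h3⟩ he

end Pool.Agent.TBirP
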