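import Pool.Agent.TBirP.MnP
import Pool.Agent.TBirP.AdjQ

/-!
# The adjoint

`pstar phi w = conj (phi (1 / conj w))`, on the circle it is `conj phi` (`pstar_sphere` in TBirG/Main.lean), `T (star Phi) = adjoint (T Phi)` (`adjoint_T`, `bir_adj`, see `bir_goodO` in
TBirR/Main.lean). `PwA.pstar`, `Sim.pstar`: AdjQ. `Wn`: `conj (phi z - l) = conj (z ^ n) * exp (conj (h z)) = z ^ (-n) * exp (conj (h z))` on the circle. `Inq`: `conj (z - t_j) = - conj t_j * z ^ (-1) * (z - t_j)` for `z`, `t_j` on the circle,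
so `conj (phi z - q) = z ^ (-x - k) * prod (z - t_j) * const * exp (conj h)`, a nonzero constant is `exp` of something.
`Onq phi q y`: `y` is the outer winding number (`y = x + k`).
-/

set_option autoImplicit false

open MeasureTheory Complex Set Filter Topology Metric AddCircle
open scoped ComplexConjugate InnerProductSpace ENNReal

namespace Pool.Agent.TBirP

open Pool.Agent.TBir Pool.Agent.TBirG Pool.Agent.TBirC

variable {phi : ℂ → ℂ} {F : Set ℂ} {Phi : CT}

/-- The points of the circle sent to `q` are regular, `y` is the outer winding number. -/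
def Onq (phi : ℂ → ℂ) (q : ℂ) (y : ℤ) : Prop :=
  ∃ (k : ℕ) (t : Fin k → ℂ), Function.Injective t ∧
    (∀ j, ‖t j‖ = 1 ∧ AnalyticAt ℂ phi (t j) ∧ phi (t j) = q ∧ deriv phi (t j) ≠ 0) ∧
    ∃ h : ℂ → ℂ, ContinuousOn h (sphere 0 1) ∧
      ∀ z ∈ sphere (0 : ℂ) 1, phi z - q = z ^ (y - k) * (∏ j, (z - t j)) * exp (h z)

/-- `Good` with the signs reversed. -/
def GoodO (phi : ℂ → ℂ) (q : ℂ) : Prop :=
  (∃ y : ℤ, y ≤ 0 ∧ Onq phi q y) ∨ ∃ (m : ℕ) (A B : Set ℂ), IsPreconnected A ∧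
    (IsPreconnected B ∨ m = 0) ∧ (∀ l ∈ A, Wn phi l (-(m + 1))) ∧ (∀ l ∈ B, Wn phi l (-m)) ∧
    ∀ᶠ l in 𝓝 q, l ∉ J phi → l ∈ A ∨ l ∈ B

theorem ap_conj {z : ℂ} (hz : z ∈ sphere (0 : ℂ) 1) : conj z = z⁻¹ := by
  have h := mem_sphere_zero_iff_norm.1 hz
  have h2 : z * conj z = 1 := by
    rw [Complex.mul_conj, Complex.normSq_eq_norm_sq, h]
    norm_num
  exact eq_inv_of_mul_eq_one_right h2

theorem Wn.pstar {l : ℂ} {n : ℤ} (h : Wn phi l n) : Wn (pstar phi) (conj l) (-n) := by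
  obtain ⟨g, hg, hg'⟩ := h
  refine ⟨fun z => conj (g z), Complex.continuous_conj.comp_continuousOn hg, fun z hz => ?_⟩
  rw [pstar_sphere phi (mem_sphere_zero_iff_norm.1 hz), ← map_sub, hg' z hz, map_mul, map_zpow₀,
    ap_conj hz, Complex.exp_conj, inv_zpow, zpow_neg]

theorem ap_pstar_pstar {z : ℂ} (hz : z ∈ sphere (0 : ℂ) 1) : pstar (pstar phi) z = phi z := by
  rw [pstar_sphere _ (mem_sphere_zero_iff_norm.1 hz), pstar_sphere _ (mem_sphere_zero_iff_norm.1 hz),
    Complex.conj_conj]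

theorem wn_pstar_iff {l : ℂ} {n : ℤ} : Wn (pstar phi) (conj l) n ↔ Wn phi l (-n) := by
  constructor
  · intro h
    obtain ⟨g, hg, hg'⟩ := h.pstar
    refine ⟨g, hg, fun z hz => ?_⟩
    rw [← hg' z hz, ap_pstar_pstar hz, Complex.conj_conj]
  · intro h
    have h1 := h.pstar
    rwa [neg_neg] at h1

theorem Onq.pstar {q : ℂ} {y : ℤ} (h : Onq phi q y) : Inq (pstar phi) (conj q) (-y) := by
  obtain ⟨k, t, hinj, ht, g, hg, hg'⟩ := h
  have ht0 : ∀ j, t j ≠ 0 := by
    intro j h0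
    have h1 := (ht j).1
    rw [h0, norm_zero] at h1
    exact zero_ne_one h1
  have hc0 : (∏ j, (-(t j)⁻¹)) ≠ 0 :=
    Finset.prod_ne_zero_iff.2 fun j _ => neg_ne_zero.2 (inv_ne_zero (ht0 j))
  refine ⟨k, t, hinj, fun j => ?_, fun z => conj (g z) + Complex.log (∏ j, (-(t j)⁻¹)),
    (Complex.continuous_conj.comp_continuousOn hg).add continuousOn_const, fun z hz => ?_⟩
  · obtain ⟨h1, h2, h3, h4⟩ := ht j
    obtain ⟨h5, h6⟩ := pstar_loc h1 h2
    refine ⟨h1, h5, ?_, fun h0 => ?_⟩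
    · rw [pstar_sphere phi h1, h3]
    · rw [h0, mul_zero] at h6
      have h7 : conj (t j * deriv phi (t j)) = 0 := neg_eq_zero.1 h6.symm
      rw [map_eq_zero] at h7
      exact mul_ne_zero (ht0 j) h4 h7
  · have hz0 : z ≠ 0 := lg_ne hz
    have h1 : ∀ j, conj (z - t j) = -(t j)⁻¹ * (z⁻¹ * (z - t j)) := by
      intro j
      have h2 := ht0 j
      rw [map_sub, ap_conj hz, ap_conj (mem_sphere_zero_iff_norm.2 (ht j).1)]
      field_simp
      ring
    have h2 : conj (∏ j, (z - t j)) = (∏ j, (-(t j)⁻¹)) * ((z⁻¹) ^ k * ∏ j, (z - t j)) := by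
      rw [map_prod, Finset.prod_congr rfl fun j _ => h1 j, Finset.prod_mul_distrib,
        Finset.prod_mul_distrib, Finset.prod_const, Finset.card_univ, Fintype.card_fin]
    have h3 : (z⁻¹) ^ (y - k) * (z⁻¹) ^ k = z ^ (-y) := by
      rw [← zpow_natCast (z⁻¹) k, ← zpow_add₀ (inv_ne_zero hz0), sub_add_cancel, inv_zpow, zpow_neg]
    rw [pstar_sphere phi (mem_sphere_zero_iff_norm.1 hz), ← map_sub, hg' z hz, map_mul, map_mul,
      map_zpow₀, ap_conj hz, ← Complex.exp_conj, h2, Complex.exp_add, Complex.exp_log hc0, ← h3]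
    ring

theorem good_pstar {q : ℂ} (h : GoodO phi q) : Good (pstar phi) (conj q) := by
  rcases h with ⟨y, hy, hO⟩ | ⟨m, A, B, hA, hB, hA1, hB1, hn⟩
  · exact Or.inl ⟨-y, by omega, hO.pstar⟩
  · right
    have himg : ∀ S : Set ℂ, IsPreconnected S → IsPreconnected ((fun l : ℂ => conj l) '' S) :=
      fun S hS => hS.image _ Complex.continuous_conj.continuousOn
    refine ⟨m, (fun l : ℂ => conj l) '' A, (fun l : ℂ => conj l) '' B, himg A hA,
      hB.imp (himg B) id, ?_, ?_, ?_⟩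
    · rintro _ ⟨l, hl, rfl⟩
      have h1 := (hA1 l hl).pstar
      rwa [neg_neg] at h1
    · rintro _ ⟨l, hl, rfl⟩
      have h1 := (hB1 l hl).pstar
      rwa [neg_neg] at h1
    · have hc : Tendsto (fun l : ℂ => conj l) (𝓝 (conj q)) (𝓝 q) := by
        have h1 := (Complex.continuous_conj.tendsto (conj q))
        rwa [Complex.conj_conj] at h1
      filter_upwards [hc.eventually hn] with l hl hlJ
      have h1 : conj l ∉ J phi := by
        rw [← mem_J_pstar, Complex.conj_conj]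
        exact hlJ
      rcases hl h1 with h2 | h2
      · exact Or.inl ⟨_, h2, Complex.conj_conj l⟩
      · exact Or.inr ⟨_, h2, Complex.conj_conj l⟩

theorem main_goodO (h : PwA phi F) (hPhi : ∀ x, Phi x = phi (e x))
    (hsim : {z : ℂ | ‖z‖ = 1 ∧ ¬ Sim phi z}.Finite) (hg : ∀ q, GoodO phi q) :
    CompletelyIrreducible (T Phi) := by
  rw [← bir_adj, adjoint_T]
  refine main_good (phi := pstar phi) h.pstar (fun x => ?_) (hsim.subset ?_) fun q => ?_
  · rw [pstar_e, ← hPhi]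
    rfl
  · rintro z ⟨hz, hns⟩
    exact ⟨hz, fun hs => hns hs.pstar⟩
  · have h1 := good_pstar (hg (conj q))
    rwa [Complex.conj_conj] at h1

theorem exists_ct (hc : ContinuousOn phi (sphere 0 1)) : ∃ Phi : CT, ∀ x, Phi x = phi (e x) :=
  ⟨⟨fun x => phi (e x), hc.comp_continuous wi_e_cont fun x => by
    rw [mem_sphere_zero_iff_norm]
    exact norm_e x⟩, fun _ => rfl⟩

theorem exists_unique_cont (hc : ContinuousOn phi (sphere 0 1)) :
    ∀ f ∈ H2, ∃! g, IsToeplitz phi f g := by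
  intro f hf
  obtain ⟨Phi, hPhi⟩ := exists_ct hc
  obtain ⟨f', rfl⟩ := exists_incl hf
  exact ⟨_, isToeplitz_incl hPhi f', fun g hg => isToeplitz_unique hg (isToeplitz_incl hPhi f')⟩

theorem bir_of_ct (hPhi : ∀ x, Phi x = phi (e x)) :
    BIR H2 (IsToeplitz phi) ↔ CompletelyIrreducible (T Phi) :=
  bir_iff_rel hPhi

end Pool.Agent.TBirP
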