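import Pool.Agent.TBirP.Ang

/-!
# Local geometry of a piecewise analytic curve

Paper proof. At the point `t = E x0` and for a side `s = 1` or `s = -1` let `psi` be the analytic function (`psi = phi` if
`t` is not in `F`; `phi` is nonconstant near `t` there because of the derivative; `sphere` and `E` are related by
`E (x0 + s x) = t * E (s x)`). `G x = psi (t * E (s x))` is the restriction to the reals of a function `k` analytic at `0` and not
constant, `k' z = z ^ (m - 1) * r z`, `r` analytic, `r 0 ≠ 0` (`AnalyticAt.exists_eventuallyEq_pow_smul_nonzero_iff` for `k'`,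
which is not eventually zero). Direction `u = 2 * r 0 / ‖r 0‖` (times `-1` for `s = -1`, because the order of the points is
reversed): for small `x ≥ 0` `‖G' x‖ ≤ re (G' x * conj u)`, as `‖r x - r 0‖ ≤ ‖r 0‖ / 4`. Integrate: `‖G y - G x‖ ≤ ∫ ‖G'‖ ≤ re ((G y - G x) conj u)`.
Lipschitz: `G'` is bounded near `0`. `lip`: `interval_ind` for the relation (exists K, Lipschitz with `K` on `[a, b]`), on
`[0, 4 pi]`, and periodicity.
-/

set_option autoImplicit false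

open MeasureTheory Complex Set Filter Topology Metric AddCircle
open scoped ComplexConjugate InnerProductSpace ENNReal

namespace Pool.Agent.TBirP

open Pool.Agent.TBir Pool.Agent.TBirG Pool.Agent.TBirC

private theorem norm_E (x : ℝ) : ‖E x‖ = 1 := by
  unfold E
  exact Complex.norm_exp_ofReal_mul_I x

private theorem E_mem (x : ℝ) : E x ∈ sphere (0 : ℂ) 1 := by
  rw [mem_sphere_zero_iff_norm]
  exact norm_E x

private theorem E_add (x y : ℝ) : E (x + y) = E x * E y := by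
  unfold E
  rw [← Complex.exp_add]
  push_cast
  rw [add_mul]

private theorem E_sub_int (x : ℝ) (n : ℤ) : E (x - n * (2 * Real.pi)) = E x := by
  unfold E
  have h1 := Complex.exp_periodic.sub_int_mul_eq (x := x * I) n
  rw [← h1]
  congr 1
  push_cast
  ring

private theorem side_exists {phi : ℂ → ℂ} {F : Set ℂ} (h : PwA phi F) (x : ℝ) {s : ℝ} (hs : s = 1 ∨ s = -1) :
    ∃ psi, Side phi psi (E x) s := by
  by_cases hF : E x ∈ F
  · obtain ⟨h1, h2⟩ := h.side _ (E_mem x) hF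
    rcases hs with rfl | rfl
    · exact h1
    · exact h2
  · obtain ⟨h1, h2⟩ := h.reg _ (E_mem x) hF
    refine ⟨phi, h1, ?_, Eventually.of_forall fun _ => rfl⟩
    intro h3
    apply h2
    have h4 : phi =ᶠ[𝓝 (E x)] fun _ => phi (E x) := h3
    rw [h4.deriv_eq, deriv_const]

private theorem core {phi psi : ℂ → ℂ} {t : ℂ} {s : ℝ} (ht : t ≠ 0) (hs : s ≠ 0) (h : Side phi psi t s) :
    ∃ k : ℂ → ℂ, AnalyticAt ℂ k 0 ∧ (¬ ∀ᶠ z in 𝓝 (0 : ℂ), k z = k 0) ∧
      ∀ᶠ x : ℝ in 𝓝[≥] 0, phi (t * E (s * x)) = k x := by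
  obtain ⟨h1, h2, h3⟩ := h
  have hs' : (s : ℂ) ≠ 0 := by exact_mod_cast hs
  have g0 : (fun z : ℂ => t * exp (s * z * I)) 0 = t := by simp
  have gan : AnalyticAt ℂ (fun z : ℂ => t * exp (s * z * I)) 0 := by fun_prop
  have hd : HasDerivAt (fun z : ℂ => t * exp (s * z * I)) (t * (exp (s * 0 * I) * (s * 1 * I))) 0 :=
    ((((hasDerivAt_id (0 : ℂ)).const_mul (s : ℂ)).mul_const I).cexp).const_mul t
  have hd0 : deriv (fun z : ℂ => t * exp (s * z * I)) 0 ≠ 0 := by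
    rw [hd.deriv]
    simp [ht, hs']
  have hmap := gan.hasStrictDerivAt.map_nhds_eq hd0
  rw [show t * exp (s * (0 : ℂ) * I) = t from g0] at hmap
  refine ⟨fun z => psi (t * exp (s * z * I)), ?_, ?_, ?_⟩
  · refine AnalyticAt.fun_comp ?_ gan
    rw [show t * exp (s * (0 : ℂ) * I) = t from g0]
    exact h1
  · intro h4
    apply h2
    rw [← hmap, Filter.eventually_map]
    filter_upwards [h4] with z hz
    rw [hz]
    simp
  · filter_upwards [h3] with x hx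
    rw [hx]
    unfold E
    push_cast
    rfl

private theorem core_cone {k : ℂ → ℂ} (hk : AnalyticAt ℂ k 0) (hn : ¬ ∀ᶠ z in 𝓝 (0 : ℂ), k z = k 0) :
    ∃ δ > 0, ∃ u : ℂ, ∀ x y : ℝ, 0 ≤ x → x ≤ y → y ≤ δ → ‖k y - k x‖ ≤ ((k y - k x) * conj u).re := by
  have hd : ¬ ∀ᶠ z in 𝓝 (0 : ℂ), deriv k z = 0 := by
    intro h0
    apply hn
    obtain ⟨ε, hε, hb⟩ := Metric.eventually_nhds_iff_ball.mp (h0.and hk.eventually_analyticAt)
    filter_upwards [Metric.ball_mem_nhds (0 : ℂ) hε] with z hz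
    refine (convex_ball (0 : ℂ) ε).is_const_of_fderivWithin_eq_zero (𝕜 := ℂ) (f := k)
      (fun z hz => (hb z hz).2.differentiableAt.differentiableWithinAt) ?_ hz (Metric.mem_ball_self hε)
    intro z hz
    rw [fderivWithin_of_isOpen Metric.isOpen_ball hz]
    ext
    simpa using (hb z hz).1
  obtain ⟨m, r, hr, hr0, hre⟩ := (AnalyticAt.exists_eventuallyEq_pow_smul_nonzero_iff hk.deriv).mpr hd
  have hr0' : 0 < ‖r 0‖ := norm_pos_iff.mpr hr0
  have hrc : ∀ᶠ z in 𝓝 (0 : ℂ), ‖r z - r 0‖ ≤ ‖r 0‖ / 4 := by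
    have := hr.continuousAt.tendsto
    have h1 := (tendsto_iff_norm_sub_tendsto_zero.mp this).eventually (gt_mem_nhds (show 0 < ‖r 0‖ / 4 by positivity))
    filter_upwards [h1] with z hz
    exact hz.le
  obtain ⟨ε, hε, hb⟩ := Metric.eventually_nhds_iff_ball.mp ((hre.and hk.eventually_analyticAt).and hrc)
  refine ⟨ε / 2, by positivity, 2 * r 0 / ‖r 0‖, ?_⟩
  intro x y hx hxy hy
  have hmem : ∀ z : ℝ, 0 ≤ z → z ≤ ε / 2 → (z : ℂ) ∈ ball (0 : ℂ) ε := by
    intro z h1 h2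
    rw [mem_ball_zero_iff, Complex.norm_real, Real.norm_of_nonneg h1]
    linarith
  have hder : ∀ z : ℝ, 0 ≤ z → z ≤ ε / 2 → HasDerivAt (fun v : ℝ => k v - k x) (deriv k z) z := by
    intro z h1 h2
    exact ((hb _ (hmem z h1 h2)).1.2.differentiableAt.hasDerivAt.comp_ofReal).sub_const _
  set u : ℂ := 2 * r 0 / ‖r 0‖ with hu
  have hder2 : ∀ z : ℝ, 0 ≤ z → z ≤ ε / 2 →
      HasDerivAt (fun v : ℝ => ((k v - k x) * conj u).re) (deriv k z * conj u).re z := by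
    intro z h1 h2
    exact (Complex.reCLM.hasFDerivAt.comp_hasDerivAt z ((hder z h1 h2).mul_const (conj u)))
  have hbound : ∀ z : ℝ, 0 ≤ z → z ≤ ε / 2 → ‖deriv k z‖ ≤ (deriv k z * conj u).re := by
    intro z h1 h2
    obtain ⟨⟨h3, -⟩, h4⟩ := hb _ (hmem z h1 h2)
    rw [h3, sub_zero, smul_eq_mul]
    have e1 : ((z : ℂ) ^ m * r z * conj u).re = z ^ m * (r z * conj u).re := by
      rw [mul_assoc, ← Complex.ofReal_pow, Complex.re_ofReal_mul]
    rw [e1, norm_mul, norm_pow, Complex.norm_real, Real.norm_of_nonneg h1]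
    refine mul_le_mul_of_nonneg_left ?_ (pow_nonneg h1 m)
    have hr4 : r z = r 0 + (r z - r 0) := by ring
    have e2 : (r 0 * conj u).re = 2 * ‖r 0‖ := by
      rw [hu]
      have : conj (2 * r 0 / (‖r 0‖ : ℂ)) = 2 * conj (r 0) / (‖r 0‖ : ℂ) := by
        rw [map_div₀, map_mul, Complex.conj_ofReal]
        congr 2
        exact Complex.conj_ofNat 2
      rw [this, show r 0 * (2 * conj (r 0) / (‖r 0‖ : ℂ)) = 2 * (r 0 * conj (r 0)) / (‖r 0‖ : ℂ) by ring,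
        Complex.mul_conj, Complex.normSq_eq_norm_sq]
      have h5 : (2 * ((‖r 0‖ ^ 2 : ℝ) : ℂ) / (‖r 0‖ : ℂ)) = ((2 * ‖r 0‖ : ℝ) : ℂ) := by
        have : (‖r 0‖ : ℂ) ≠ 0 := by exact_mod_cast hr0'.ne'
        push_cast
        field_simp
      rw [h5, Complex.ofReal_re]
    have e3 : ‖u‖ = 2 := by
      rw [hu, norm_div, norm_mul, Complex.norm_real, norm_norm]
      rw [mul_div_assoc, div_self hr0'.ne', mul_one]
      simp
    have e4 : -(‖r 0‖ / 4 * 2) ≤ ((r z - r 0) * conj u).re := by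
      have h6 := Complex.abs_re_le_norm ((r z - r 0) * conj u)
      rw [norm_mul, RCLike.norm_conj, e3] at h6
      have h7 := (abs_le.mp h6).1
      nlinarith
    have e5 : ‖r z‖ ≤ ‖r 0‖ + ‖r 0‖ / 4 := by
      calc ‖r z‖ = ‖r 0 + (r z - r 0)‖ := by rw [← hr4]
        _ ≤ ‖r 0‖ + ‖r z - r 0‖ := norm_add_le _ _
        _ ≤ _ := by linarith
    have e6 : (r z * conj u).re = (r 0 * conj u).re + ((r z - r 0) * conj u).re := by
      rw [← Complex.add_re, ← add_mul, ← hr4]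
    rw [e6, e2]
    linarith
  have key := image_norm_le_of_norm_deriv_right_le_deriv_boundary' (f := fun v : ℝ => k v - k x)
    (f' := fun z => deriv k z) (a := x) (b := y) (B := fun v : ℝ => ((k v - k x) * conj u).re)
    (B' := fun z => (deriv k z * conj u).re)
    (fun z hz => (hder z (hx.trans hz.1) (hz.2.trans hy)).continuousAt.continuousWithinAt)
    (fun z hz => (hder z (hx.trans hz.1) (hz.2.le.trans hy)).hasDerivWithinAt) (by simp)
    (fun z hz => (hder2 z (hx.trans hz.1) (hz.2.trans hy)).continuousAt.continuousWithinAt)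
    (fun z hz => (hder2 z (hx.trans hz.1) (hz.2.le.trans hy)).hasDerivWithinAt)
    (fun z hz => hbound z (hx.trans hz.1) (hz.2.le.trans hy))
  exact key (right_mem_Icc.mpr hxy)

private theorem core_lip {k : ℂ → ℂ} (hk : AnalyticAt ℂ k 0) :
    ∃ δ > 0, ∃ K : ℝ, 0 ≤ K ∧ ∀ x y : ℝ, 0 ≤ x → x ≤ δ → 0 ≤ y → y ≤ δ → ‖k x - k y‖ ≤ K * |x - y| := by
  obtain ⟨K, s, hs, hK⟩ := hk.hasStrictDerivAt.hasStrictFDerivAt.exists_lipschitzOnWith
  obtain ⟨ε, hε, hb⟩ := Metric.mem_nhds_iff.mp hs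
  refine ⟨ε / 2, by positivity, K, K.2, ?_⟩
  intro x y hx hx2 hy hy2
  have hmem : ∀ z : ℝ, 0 ≤ z → z ≤ ε / 2 → (z : ℂ) ∈ s := by
    intro z h1 h2
    apply hb
    rw [mem_ball_zero_iff, Complex.norm_real, Real.norm_of_nonneg h1]
    linarith
  have h1 := hK.dist_le_mul _ (hmem x hx hx2) _ (hmem y hy hy2)
  rw [dist_eq_norm, dist_eq_norm, ← Complex.ofReal_sub, Complex.norm_real, Real.norm_eq_abs] at h1
  exact h1

private theorem loc {phi : ℂ → ℂ} {F : Set ℂ} (h : PwA phi F) (x : ℝ) {s : ℝ} (hs : s = 1 ∨ s = -1) :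
    ∃ k : ℂ → ℂ, AnalyticAt ℂ k 0 ∧ (¬ ∀ᶠ z in 𝓝 (0 : ℂ), k z = k 0) ∧
      ∃ δ > 0, ∀ y : ℝ, 0 ≤ y → y ≤ δ → phi (E (x + s * y)) = k y := by
  obtain ⟨psi, hpsi⟩ := side_exists h x hs
  have ht : E x ≠ 0 := by
    intro h0
    have := norm_E x
    rw [h0, norm_zero] at this
    norm_num at this
  have hs0 : s ≠ 0 := by
    rcases hs with rfl | rfl <;> norm_num
  obtain ⟨k, h1, h2, h3⟩ := core ht hs0 hpsi
  refine ⟨k, h1, h2, ?_⟩
  rw [eventually_nhdsWithin_iff, Metric.eventually_nhds_iff] at h3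
  obtain ⟨ε, hε, h4⟩ := h3
  refine ⟨ε / 2, by positivity, ?_⟩
  intro y hy hy2
  rw [E_add]
  apply h4 _ hy
  rw [Real.dist_eq, sub_zero, abs_of_nonneg hy]
  linarith

theorem cone_right {phi : ℂ → ℂ} {F : Set ℂ} (h : PwA phi F) (x : ℝ) :
    ∃ δ > 0, ∀ y, x ≤ y → y ≤ x + δ → Cone phi x y := by
  obtain ⟨k, h1, h2, δ, hδ, h3⟩ := loc h x (Or.inl rfl)
  obtain ⟨δ', hδ', u, h4⟩ := core_cone h1 h2
  refine ⟨min δ δ', lt_min hδ hδ', ?_⟩
  intro y hy hy2
  refine ⟨u, ?_⟩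
  intro a ha b hb hab
  have m1 := min_le_left δ δ'
  have m2 := min_le_right δ δ'
  have e1 := h3 (a - x) (by linarith [ha.1]) (by linarith [ha.2])
  have e2 := h3 (b - x) (by linarith [hb.1]) (by linarith [hb.2])
  rw [show x + 1 * (a - x) = a by ring] at e1
  rw [show x + 1 * (b - x) = b by ring] at e2
  rw [e1, e2]
  exact h4 _ _ (by linarith [ha.1]) (by linarith) (by linarith [hb.2])

theorem cone_left {phi : ℂ → ℂ} {F : Set ℂ} (h : PwA phi F) (x : ℝ) :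
    ∃ δ > 0, ∀ y, x - δ ≤ y → y ≤ x → Cone phi y x := by
  obtain ⟨k, h1, h2, δ, hδ, h3⟩ := loc h x (Or.inr rfl)
  obtain ⟨δ', hδ', u, h4⟩ := core_cone h1 h2
  refine ⟨min δ δ', lt_min hδ hδ', ?_⟩
  intro y hy hy2
  refine ⟨-u, ?_⟩
  intro a ha b hb hab
  have m1 := min_le_left δ δ'
  have m2 := min_le_right δ δ'
  have e1 := h3 (x - a) (by linarith [ha.2]) (by linarith [ha.1])
  have e2 := h3 (x - b) (by linarith [hb.2]) (by linarith [hb.1])
  rw [show x + -1 * (x - a) = a by ring] at e1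
  rw [show x + -1 * (x - b) = b by ring] at e2
  rw [e1, e2]
  have h5 := h4 (x - b) (x - a) (by linarith [hb.2]) (by linarith) (by linarith [ha.1])
  rw [map_neg, mul_neg, ← neg_mul, neg_sub, norm_sub_rev]
  exact h5

theorem lip_right {phi : ℂ → ℂ} {F : Set ℂ} (h : PwA phi F) (x : ℝ) :
    ∃ δ > 0, ∃ K : ℝ, 0 ≤ K ∧ ∀ y ∈ Icc x (x + δ), ∀ z ∈ Icc x (x + δ),
      ‖phi (E y) - phi (E z)‖ ≤ K * |y - z| := by
  obtain ⟨k, h1, -, δ, hδ, h3⟩ := loc h x (Or.inl rfl)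
  obtain ⟨δ', hδ', K, hK, h4⟩ := core_lip h1
  refine ⟨min δ δ', lt_min hδ hδ', K, hK, ?_⟩
  intro a ha b hb
  have m1 := min_le_left δ δ'
  have m2 := min_le_right δ δ'
  have e1 := h3 (a - x) (by linarith [ha.1]) (by linarith [ha.2])
  have e2 := h3 (b - x) (by linarith [hb.1]) (by linarith [hb.2])
  rw [show x + 1 * (a - x) = a by ring] at e1
  rw [show x + 1 * (b - x) = b by ring] at e2
  rw [e1, e2]
  have h5 := h4 (a - x) (b - x) (by linarith [ha.1]) (by linarith [ha.2]) (by linarith [hb.1]) (by linarith [hb.2])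
  rwa [show a - x - (b - x) = a - b by ring] at h5

theorem lip_left {phi : ℂ → ℂ} {F : Set ℂ} (h : PwA phi F) (x : ℝ) :
    ∃ δ > 0, ∃ K : ℝ, 0 ≤ K ∧ ∀ y ∈ Icc (x - δ) x, ∀ z ∈ Icc (x - δ) x,
      ‖phi (E y) - phi (E z)‖ ≤ K * |y - z| := by
  obtain ⟨k, h1, -, δ, hδ, h3⟩ := loc h x (Or.inr rfl)
  obtain ⟨δ', hδ', K, hK, h4⟩ := core_lip h1
  refine ⟨min δ δ', lt_min hδ hδ', K, hK, ?_⟩
  intro a ha b hb
  have m1 := min_le_left δ δ'
  have m2 := min_le_right δ δ'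
  have e1 := h3 (x - a) (by linarith [ha.2]) (by linarith [ha.1])
  have e2 := h3 (x - b) (by linarith [hb.2]) (by linarith [hb.1])
  rw [show x + -1 * (x - a) = a by ring] at e1
  rw [show x + -1 * (x - b) = b by ring] at e2
  rw [e1, e2]
  have h5 := h4 (x - a) (x - b) (by linarith [ha.2]) (by linarith [ha.1]) (by linarith [hb.2]) (by linarith [hb.1])
  rwa [show x - a - (x - b) = -(a - b) by ring, abs_neg] at h5

private theorem lip_Icc {phi : ℂ → ℂ} {F : Set ℂ} (h : PwA phi F) (a b : ℝ) (hab : a ≤ b) :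
    ∃ K : ℝ, 0 ≤ K ∧ ∀ y ∈ Icc a b, ∀ z ∈ Icc a b, ‖phi (E y) - phi (E z)‖ ≤ K * |y - z| := by
  refine interval_ind (R := fun a b => ∃ K : ℝ, 0 ≤ K ∧ ∀ y ∈ Icc a b, ∀ z ∈ Icc a b,
    ‖phi (E y) - phi (E z)‖ ≤ K * |y - z|) ?_ ?_ ?_ a b hab
  · rintro a b c hab hbc ⟨K1, h1, h1'⟩ ⟨K2, h2, h2'⟩
    have main : ∀ y ∈ Icc a c, ∀ z ∈ Icc a c, y ≤ z → ‖phi (E y) - phi (E z)‖ ≤ max K1 K2 * |y - z| := by
      intro y hy z hz hyz
      have l1 := le_max_left K1 K2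
      have l2 := le_max_right K1 K2
      rcases le_total z b with hzb | hzb
      · exact (h1' y ⟨hy.1, by linarith⟩ z ⟨hz.1, hzb⟩).trans (mul_le_mul_of_nonneg_right l1 (abs_nonneg _))
      · rcases le_total b y with hby | hby
        · exact (h2' y ⟨hby, hy.2⟩ z ⟨hzb, hz.2⟩).trans (mul_le_mul_of_nonneg_right l2 (abs_nonneg _))
        · have k1 := h1' y ⟨hy.1, hby⟩ b ⟨hab, le_rfl⟩
          have k2 := h2' b ⟨le_rfl, hbc⟩ z ⟨hzb, hz.2⟩
          rw [abs_of_nonpos (by linarith)] at k1 k2 ⊢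
          calc ‖phi (E y) - phi (E z)‖ = ‖(phi (E y) - phi (E b)) + (phi (E b) - phi (E z))‖ := by
                congr 1
                ring
            _ ≤ ‖phi (E y) - phi (E b)‖ + ‖phi (E b) - phi (E z)‖ := norm_add_le _ _
            _ ≤ K1 * -(y - b) + K2 * -(b - z) := add_le_add k1 k2
            _ ≤ max K1 K2 * -(y - b) + max K1 K2 * -(b - z) :=
                add_le_add (mul_le_mul_of_nonneg_right l1 (by linarith))
                  (mul_le_mul_of_nonneg_right l2 (by linarith))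
            _ = max K1 K2 * -(y - z) := by ring
    refine ⟨max K1 K2, h1.trans (le_max_left _ _), ?_⟩
    intro y hy z hz
    rcases le_total y z with hyz | hyz
    · exact main y hy z hz hyz
    · rw [norm_sub_rev, abs_sub_comm]
      exact main z hz y hy hyz
  · intro x
    obtain ⟨δ, hδ, K, hK, h1⟩ := lip_right h x
    refine ⟨δ, hδ, ?_⟩
    intro y hy hy2
    exact ⟨K, hK, fun v hv w hw => h1 v ⟨hv.1, hv.2.trans hy2⟩ w ⟨hw.1, hw.2.trans hy2⟩⟩
  · intro x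
    obtain ⟨δ, hδ, K, hK, h1⟩ := lip_left h x
    refine ⟨δ, hδ, ?_⟩
    intro y hy hy2
    exact ⟨K, hK, fun v hv w hw => h1 v ⟨hy.trans hv.1, hv.2⟩ w ⟨hy.trans hw.1, hw.2⟩⟩

theorem lip {phi : ℂ → ℂ} {F : Set ℂ} (h : PwA phi F) :
    ∃ K : ℝ, 0 ≤ K ∧ ∀ x y : ℝ, ‖phi (E x) - phi (E y)‖ ≤ K * |x - y| := by
  have hpi := Real.pi_pos
  obtain ⟨K, hK, h1⟩ := lip_Icc h 0 (2 * (2 * Real.pi)) (by positivity)
  have main : ∀ x y : ℝ, x ≤ y → ‖phi (E x) - phi (E y)‖ ≤ K * |x - y| := by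
    intro x y hxy
    have hp : 0 < 2 * Real.pi := by positivity
    set m : ℤ := ⌊(y - x) / (2 * Real.pi)⌋ with hm
    set n : ℤ := ⌊x / (2 * Real.pi)⌋ with hn
    have m0 : 0 ≤ m := Int.floor_nonneg.mpr (div_nonneg (by linarith) hp.le)
    have m1 : (m : ℝ) * (2 * Real.pi) ≤ y - x := (le_div_iff₀ hp).mp (Int.floor_le _)
    have m2 : y - x < (m + 1) * (2 * Real.pi) := (div_lt_iff₀ hp).mp (Int.lt_floor_add_one _)
    have n1 : (n : ℝ) * (2 * Real.pi) ≤ x := (le_div_iff₀ hp).mp (Int.floor_le _)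
    have n2 : x < (n + 1) * (2 * Real.pi) := (div_lt_iff₀ hp).mp (Int.lt_floor_add_one _)
    have m0' : (0 : ℝ) ≤ m * (2 * Real.pi) := mul_nonneg (by exact_mod_cast m0) hp.le
    have k1 := h1 (x - n * (2 * Real.pi)) ⟨by linarith, by linarith⟩
      (y - m * (2 * Real.pi) - n * (2 * Real.pi)) ⟨by linarith, by linarith⟩
    rw [E_sub_int, E_sub_int, E_sub_int] at k1
    refine k1.trans (mul_le_mul_of_nonneg_left ?_ hK)
    rw [abs_of_nonpos (by linarith), abs_of_nonpos (by linarith)]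
    linarith
  refine ⟨K, hK, ?_⟩
  intro x y
  rcases le_total x y with hxy | hxy
  · exact main x y hxy
  · rw [norm_sub_rev, abs_sub_comm]
    exact main y x hxy

theorem ang {phi : ℂ → ℂ} {F : Set ℂ} (h : PwA phi F) :
    ∃ A : ℝ, ∀ (l : ℂ) (n : ℤ) (g : ℂ → ℂ), ContinuousOn g (sphere 0 1) →
      (∀ z ∈ sphere (0 : ℂ) 1, phi z - l = z ^ n * exp (g z)) →
      |(n : ℝ)| ≤ A ∧ ∀ z ∈ sphere (0 : ℂ) 1, ∀ z' ∈ sphere (0 : ℂ) 1, |(g z).im - (g z').im| ≤ A :=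
  ang_of_cone h.cont (cone_right h) (cone_left h)

end Pool.Agent.TBirP
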