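import Pool.Agent.TBirP.Def

/-!
# Coburn's lemma

Paper proof. Suppose `R ≠ 0`: there is `u ≠ 0` in the range of `R` with `T Phi u = b u`, and `g ≠ 0` in the range of the adjoint of `R` with
`(T Phi)^* g = conj b g`. On the circle `(phi - b) u` has only Fourier coefficients of negative index, `conj (phi - b) g` too, so
`(phi - b) conj g` only of positive index. `w = (phi - b) u conj g` is integrable; as the product of `(phi - b) u` (negative
indices) with `conj g` (indices `≤ 0`) it has only negative indices, as the product of `u` (indices `≥ 0`) with `(phi - b) conj g` (positive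
indices) only positive ones: so `w = 0` almost everywhere (the Fourier coefficients of a product of two `L2` functions are
sums of products, Parseval: `∫ conj a b = sum conj a_k b_k`; an integrable function with zero coefficients is zero a.e.).
`phi ≠ b` a.e., so `u conj g = 0` a.e., so one of `u`, `g` vanishes on a set of positive measure, and is zero by `riesz`.
`riesz` (Beurling's argument): let `f ≠ 0` vanish on `A`, `M` the closed span of `S^n f`, `n ≥ 0`. All elements of `M` vanish a.e. on `A`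
(closed subspace). `M ≠ S M`, because otherwise `M = S^n M` for all `n` and `M` is in the intersection of the `S^n Hardy`, which is `0`. `S M` is
closed (`S` is an isometry). Take `g ∈ M`, `g ≠ 0`, orthogonal to `S M`: `⟨S^n g, g⟩ = 0` for `n ≥ 1`, that is, the integrable function
`|g|^2` has zero Fourier coefficients of index `≠ 0`, so `|g|^2` is a.e. a constant, `‖g‖^2 > 0`. Contradiction on `A`.
-/

set_option autoImplicit false

open MeasureTheory Complex Set Filter Topology Metric AddCircle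
open scoped ComplexConjugate InnerProductSpace ENNReal

namespace Pool.Agent.TBirP

open Pool.Agent.TBir Pool.Agent.TBirG Pool.Agent.TBirC

/-- An integrable function with vanishing Fourier coefficients vanishes almost everywhere. -/
private theorem cob_l1 {w : UnitAddCircle → ℂ} (hw : Integrable w mu0)
    (h : ∀ n : ℤ, ∫ x, (fourier n : CT) x * w x ∂mu0 = 0) : w =ᵐ[mu0] 0 := by
  have hint : ∀ a : CT, Integrable (fun x => a x * w x) mu0 := fun a =>
    hw.bdd_mul (c := ‖a‖) a.continuous.aestronglyMeasurable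
      (Filter.Eventually.of_forall fun x => a.norm_coe_le_norm x)
  let l : CT →ₗ[ℂ] ℂ :=
    { toFun := fun a => ∫ x, a x * w x ∂mu0
      map_add' := fun a b => by
        rw [← integral_add (hint a) (hint b)]
        refine integral_congr_ae (Filter.Eventually.of_forall fun x => ?_)
        simp only [ContinuousMap.add_apply, add_mul]
      map_smul' := fun c a => by
        rw [RingHom.id_apply, smul_eq_mul, ← integral_const_mul]
        refine integral_congr_ae (Filter.Eventually.of_forall fun x => ?_)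
        simp only [ContinuousMap.smul_apply, smul_eq_mul, mul_assoc] }
  let G : CT →L[ℂ] ℂ := l.mkContinuous (∫ x, ‖w x‖ ∂mu0) fun a => by
    show ‖∫ x, a x * w x ∂mu0‖ ≤ _
    rw [mul_comm, ← integral_const_mul]
    refine norm_integral_le_of_norm_le (hw.norm.const_mul _)
      (Filter.Eventually.of_forall fun x => ?_)
    rw [norm_mul]
    exact mul_le_mul_of_nonneg_right (a.norm_coe_le_norm x) (norm_nonneg _)
  have hG : ∀ a : CT, G a = ∫ x, a x * w x ∂mu0 := fun a => rfl
  have h0 : ∀ a : CT, G a = 0 := by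
    have h1 : (Submodule.span ℂ (range fun n : ℤ => (fourier n : CT))).topologicalClosure ≤
        LinearMap.ker (G : CT →ₗ[ℂ] ℂ) := by
      refine Submodule.topologicalClosure_minimal _ ?_ G.isClosed_ker
      rw [Submodule.span_le]
      rintro _ ⟨n, rfl⟩
      exact (hG _).trans (h n)
    intro a
    have h2 : a ∈ (Submodule.span ℂ (range fun n : ℤ => (fourier n : CT))).topologicalClosure := by
      have h3 := span_fourier_closure_eq_top (T := (1 : ℝ))
      rw [h3]
      trivial
    exact h1 h2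
  refine ae_eq_zero_of_forall_setIntegral_isClosed_eq_zero hw fun s hs => ?_
  have hm : Tendsto (fun n : ℕ => ∫ x, ((hs.apprSeq n x : NNReal) : ℂ) * w x ∂mu0) atTop
      (𝓝 (∫ x, s.indicator w x ∂mu0)) := by
    refine tendsto_integral_of_dominated_convergence (fun x => ‖w x‖) (fun n => ?_) hw.norm
      (fun n => ?_) ?_
    · refine AEStronglyMeasurable.mul ?_ hw.1
      have hc : Continuous fun x : UnitAddCircle => ((hs.apprSeq n x : NNReal) : ℂ) := by
        refine Complex.continuous_ofReal.comp (NNReal.continuous_coe.comp ?_)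
        exact (hs.apprSeq n).continuous
      exact hc.aestronglyMeasurable
    · refine Filter.Eventually.of_forall fun x => ?_
      rw [norm_mul]
      refine mul_le_of_le_one_left (norm_nonneg _) ?_
      rw [Complex.norm_real, Real.norm_of_nonneg (NNReal.coe_nonneg _)]
      exact_mod_cast HasOuterApproxClosed.apprSeq_apply_le_one hs n x
    · refine Filter.Eventually.of_forall fun x => ?_
      have h4 := (tendsto_pi_nhds.1 (HasOuterApproxClosed.tendsto_apprSeq hs)) x
      have h5 : Tendsto (fun n => ((hs.apprSeq n x : NNReal) : ℂ) * w x) atTop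
          (𝓝 (((s.indicator (fun _ => (1 : NNReal)) x : NNReal) : ℂ) * w x)) := by
        refine Tendsto.mul_const _ ?_
        exact (Complex.continuous_ofReal.tendsto _).comp
          ((NNReal.continuous_coe.tendsto _).comp h4)
      have h6 : ((s.indicator (fun _ => (1 : NNReal)) x : NNReal) : ℂ) * w x = s.indicator w x := by
        by_cases hx : x ∈ s
        · simp [hx]
        · simp [hx]
      rw [← h6]
      exact h5
  rw [integral_indicator hs.measurableSet] at hm
  have hz : ∀ n : ℕ, ∫ x, ((hs.apprSeq n x : NNReal) : ℂ) * w x ∂mu0 = 0 := fun n =>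
    h0 ⟨fun x => ((hs.apprSeq n x : NNReal) : ℂ), by
      refine Complex.continuous_ofReal.comp (NNReal.continuous_coe.comp ?_)
      exact (hs.apprSeq n).continuous⟩
  simp only [hz] at hm
  exact (tendsto_nhds_unique hm tendsto_const_nhds)

private theorem cob_plus (n : ℕ) : Plus (fourier (n : ℤ) : CT) := by
  intro k hk
  have h := fourierCoeff_fourier (T := (1 : ℝ)) (n : ℤ)
  rw [h]
  have : k ≠ (n : ℤ) := by omega
  simp [Pi.single_apply, this]

private theorem cob_int (f g : L2) :
    Integrable (fun x => conj ((f : UnitAddCircle → ℂ) x) * (g : UnitAddCircle → ℂ) x) mu0 := by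
  have h := L2.integrable_inner (𝕜 := ℂ) f g
  refine h.congr (Filter.Eventually.of_forall fun x => ?_)
  simp only [RCLike.inner_apply]
  ring

private theorem cob_inner (a : CT) (f g : L2) : ∫ x, a x *
    (conj ((f : UnitAddCircle → ℂ) x) * (g : UnitAddCircle → ℂ) x) ∂mu0 =
      inner ℂ f (mul a g) := by
  rw [L2.inner_def]
  refine integral_congr_ae ?_
  filter_upwards [mul_ae a g] with x h1
  rw [h1, RCLike.inner_apply]
  ring

private theorem cob_star (n : ℤ) : star (fourier n : CT) = fourier (-n) := by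
  ext x
  rw [ContinuousMap.star_apply, fourier_neg]
  rfl

private theorem cob_move (n : ℤ) (f g : L2) :
    inner ℂ f (mul (fourier n) g) = inner ℂ (mul (fourier (-n)) f) g := by
  rw [inner_mul_symbol, cob_star]

private theorem cob_shift (n k : ℤ) :
    mul (fourier n) (fourierLp 2 k : L2) = (fourierLp 2 (n + k) : L2) := by
  refine Lp.ext ?_
  filter_upwards [mul_ae (fourier n) (fourierLp 2 k : L2), coeFn_fourierLp (T := (1 : ℝ)) 2 k,
    coeFn_fourierLp (T := (1 : ℝ)) 2 (n + k)] with x h1 h2 h3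
  rw [h1, h2, h3]
  exact fourier_add.symm

/-- the coefficient `k` as an inner product -/
private theorem cob_coeff (k : ℤ) (x : L2) :
    inner ℂ (fourierLp 2 k : L2) x = fourierCoeff (x : UnitAddCircle → ℂ) k := by
  rw [← fourierBasis_repr, HilbertBasis.repr_apply_apply, coe_fourierBasis]

/-- coefficients of `zeta ^ n f` -/
private theorem cob_coeff_mul (n k : ℤ) (x : L2) :
    fourierCoeff (mul (fourier n) x : UnitAddCircle → ℂ) k =
      fourierCoeff (x : UnitAddCircle → ℂ) (k - n) := by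
  rw [← cob_coeff, cob_move, cob_shift, cob_coeff]
  congr 1
  ring

private theorem cob_TT (m n : ℕ) (f : Hardy) :
    T (fourier (m : ℤ)) (T (fourier (n : ℤ)) f) = T (fourier ((m + n : ℕ) : ℤ)) f := by
  have h := T_mul_right (fourier (m : ℤ)) (cob_plus n)
  have h2 : (fourier (m : ℤ) : CT) * fourier (n : ℤ) = fourier ((m + n : ℕ) : ℤ) := by
    ext x
    rw [ContinuousMap.mul_apply, Nat.cast_add, fourier_add]
  rw [h2] at h
  rw [h]
  rfl

private theorem cob_fint (n : ℤ) : ∫ x, (fourier n : CT) x ∂mu0 = if n = 0 then 1 else 0 := by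
  have h := congrFun (fourierCoeff_fourier (T := (1 : ℝ)) n) 0
  rw [fourierCoeff] at h
  have h2 : ∫ x, (fourier n : CT) x ∂mu0 =
      ∫ t, (fourier (-0) : CT) t • (fourier n : CT) t ∂haarAddCircle := by
    refine integral_congr_ae (Filter.Eventually.of_forall fun x => ?_)
    simp
  rw [h2, h]
  by_cases hn : n = 0
  · subst hn
    simp
  · rw [if_neg hn, Pi.single_eq_of_ne (Ne.symm hn)]

/-- the functions which vanish on `Z` -/
private theorem cob_van {Z : Set UnitAddCircle} (hZm : MeasurableSet Z) :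
    ∃ L : Hardy →L[ℂ] L2,
      (∀ g : Hardy, L g = 0 ↔ ∀ᵐ x ∂mu0, x ∈ Z → (incl g : UnitAddCircle → ℂ) x = 0) ∧
      ∀ (n : ℕ) (g : Hardy), L g = 0 → L (T (fourier (n : ℤ)) g) = 0 := by
  have hindM : MemLp (Z.indicator fun _ => (1 : ℂ)) ∞ mu0 := (memLp_const (1 : ℂ)).indicator hZm
  have key : ∀ g : L2, mf (Z.indicator fun _ => (1 : ℂ)) g = 0 ↔
      ∀ᵐ x ∂mu0, x ∈ Z → (g : UnitAddCircle → ℂ) x = 0 := by
    intro g
    constructor
    · intro h1
      have h2 := mf_coe hindM g
      rw [h1] at h2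
      filter_upwards [h2, Lp.coeFn_zero ℂ 2 mu0] with x h3 h4 hx
      rw [h3, indicator_of_mem hx, one_mul] at h4
      exact h4
    · intro h1
      refine Lp.ext ?_
      filter_upwards [mf_coe hindM g, Lp.coeFn_zero ℂ 2 mu0, h1] with x h2 h3 h4
      rw [h3, h2]
      by_cases hx : x ∈ Z
      · rw [h4 hx, mul_zero]
        rfl
      · rw [indicator_of_notMem hx, zero_mul]
        rfl
  refine ⟨(mf (Z.indicator fun _ => (1 : ℂ))) ∘L incl, fun g => key (incl g), fun n g hg => ?_⟩
  have h3 : mf (Z.indicator fun _ => (1 : ℂ)) (incl g) = 0 := hg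
  have h2 : (mf (Z.indicator fun _ => (1 : ℂ)) * mul (fourier (n : ℤ))) (incl g) =
      (mul (fourier (n : ℤ)) * mf (Z.indicator fun _ => (1 : ℂ))) (incl g) := by
    rw [Cm.mf _ (fourier (n : ℤ))]
  change mf (Z.indicator fun _ => (1 : ℂ)) (mul (fourier (n : ℤ)) (incl g)) =
    mul (fourier (n : ℤ)) (mf (Z.indicator fun _ => (1 : ℂ)) (incl g)) at h2
  change mf (Z.indicator fun _ => (1 : ℂ)) (incl (T (fourier (n : ℤ)) g)) = 0
  rw [incl_T (cob_plus n), h2, h3, map_zero]

/-- the first coefficient which is not zero -/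
private theorem cob_first {f : Hardy} (hf : f ≠ 0) : ∃ k : ℕ, coL k f ≠ 0 ∧
    ∀ n : ℕ, coL k (T (fourier ((n + 1 : ℕ) : ℤ)) f) = 0 := by
  classical
  have hk : ∃ k : ℕ, co f k ≠ 0 := by
    by_contra hcon
    push Not at hcon
    apply hf
    refine incl_inj (ext_coeff fun n => ?_)
    rw [map_zero]
    have hz : fourierCoeff ((0 : L2) : UnitAddCircle → ℂ) n = 0 := by
      rw [← cob_coeff, inner_zero_right]
    rw [hz]
    rcases lt_or_ge n 0 with hn | hn
    · exact incl_mem f n hn
    · obtain ⟨k, rfl⟩ := Int.eq_ofNat_of_zero_le hn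
      exact hcon k
  have hk1 : co f (Nat.find hk) ≠ 0 := Nat.find_spec hk
  have hk2 : ∀ j < Nat.find hk, co f j = 0 := fun j hj => by
    by_contra h1
    exact Nat.find_min hk hj h1
  generalize Nat.find hk = k at hk1 hk2
  refine ⟨k, by rwa [coL_apply], fun n => ?_⟩
  rw [coL_apply, co, incl_T (cob_plus (n + 1)), cob_coeff_mul]
  rcases lt_or_ge ((k : ℤ) - ((n + 1 : ℕ) : ℤ)) 0 with h1 | h1
  · exact incl_mem f _ h1
  · have h2 : (k : ℤ) - ((n + 1 : ℕ) : ℤ) = ((k - (n + 1) : ℕ) : ℤ) := by
      push_cast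
      omega
    rw [h2]
    exact hk2 _ (by omega)

/-- Beurling's argument -/
private theorem cob_abs {E F : Type*} [NormedAddCommGroup E] [InnerProductSpace ℂ E]
    [CompleteSpace E] [NormedAddCommGroup F] [NormedSpace ℂ F] (S : ℕ → E →L[ℂ] E)
    (hS : ∀ m n x, S m (S n x) = S (m + n) x) {f : E} {k : E →L[ℂ] ℂ} (hk : k f ≠ 0)
    (hk2 : ∀ n : ℕ, k (S (n + 1) f) = 0) (L : E →L[ℂ] F) (hL : ∀ n : ℕ, L (S n f) = 0)
    (hLf : L f = 0) :
    ∃ g : E, g ≠ 0 ∧ L g = 0 ∧ ∀ m : ℕ, 1 ≤ m → inner ℂ g (S m g) = 0 := by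
  let N0 : Submodule ℂ E := Submodule.span ℂ (range fun n : ℕ => S (n + 1) f)
  have hNc : IsClosed (N0.topologicalClosure : Set E) := N0.isClosed_topologicalClosure
  have hmin : ∀ K : Submodule ℂ E, IsClosed (K : Set E) →
      (∀ n : ℕ, S (n + 1) f ∈ K) → N0.topologicalClosure ≤ K := by
    intro K hK h1
    refine Submodule.topologicalClosure_minimal _ ?_ hK
    rw [Submodule.span_le]
    rintro _ ⟨n, rfl⟩
    exact h1 n
  have hNf : ∀ m : ℕ, 1 ≤ m → S m f ∈ N0.topologicalClosure := by
    intro m hm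
    obtain ⟨n, rfl⟩ : ∃ n, m = n + 1 := ⟨m - 1, by omega⟩
    exact N0.le_topologicalClosure (Submodule.subset_span ⟨n, rfl⟩)
  generalize N0.topologicalClosure = N at hNc hmin hNf
  have hNL : ∀ g ∈ N, L g = 0 := fun g hg =>
    hmin (LinearMap.ker (L : E →ₗ[ℂ] F)) L.isClosed_ker (fun n => hL (n + 1)) hg
  have hNk : ∀ g ∈ N, k g = 0 := fun g hg =>
    hmin (LinearMap.ker (k : E →ₗ[ℂ] ℂ)) k.isClosed_ker hk2 hg
  have hNT : ∀ m : ℕ, ∀ g ∈ N, S m g ∈ N := fun m g hg =>
    hmin (N.comap ((S m : E →L[ℂ] E) : E →ₗ[ℂ] E)) (hNc.preimage (S m).continuous) (fun n => by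
        change S m (S (n + 1) f) ∈ N
        rw [hS]
        exact hNf _ (by omega)) hg
  haveI : CompleteSpace N := hNc.completeSpace_coe
  obtain ⟨y, hy, g, hg, hfg⟩ := N.exists_add_mem_mem_orthogonal f
  have hg' : g = f - y := by rw [hfg, add_sub_cancel_left]
  refine ⟨g, ?_, ?_, ?_⟩
  · intro h0
    apply hk
    rw [hfg, map_add, hNk y hy, h0, map_zero, zero_add]
  · rw [hg', map_sub, hLf, hNL y hy, sub_zero]
  · intro m hm
    have h1 : S m g ∈ N := by
      rw [hg', map_sub]
      exact N.sub_mem (hNf m hm) (hNT m y hy)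
    exact (N.mem_orthogonal' g).1 hg _ h1

private theorem cob_beur {f : Hardy} {k : ℕ} (hk : coL k f ≠ 0)
    (hk2 : ∀ n : ℕ, coL k (T (fourier ((n + 1 : ℕ) : ℤ)) f) = 0) (L : Hardy →L[ℂ] L2)
    (hL : ∀ n : ℕ, L (T (fourier (n : ℤ)) f) = 0) (hLf : L f = 0) :
    ∃ g : Hardy, g ≠ 0 ∧ L g = 0 ∧ ∀ m : ℕ, 1 ≤ m → inner ℂ g (T (fourier (m : ℤ)) g) = 0 :=
  cob_abs (fun m : ℕ => T (fourier (m : ℤ))) (fun m n x => cob_TT m n x) hk hk2 L hL hLf

private theorem cob_const {g : Hardy}
    (h : ∀ m : ℕ, 1 ≤ m → inner ℂ g (T (fourier (m : ℤ)) g) = 0) :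
    ∀ᵐ x ∂mu0, conj ((incl g : UnitAddCircle → ℂ) x) * (incl g : UnitAddCircle → ℂ) x =
      ((‖g‖ : ℂ)) ^ 2 := by
  have hgT : ∀ m : ℕ, 1 ≤ m → inner ℂ (incl g) (mul (fourier (m : ℤ)) (incl g)) = 0 := by
    intro m hm
    rw [← incl_T (cob_plus m)]
    exact h m hm
  have hgn : ∀ n : ℤ, n ≠ 0 → inner ℂ (incl g) (mul (fourier n) (incl g)) = 0 := by
    intro n hn
    rcases lt_or_gt_of_ne hn with h1 | h1
    · rw [cob_move, ← inner_conj_symm]
      have h2 := hgT (-n).toNat (by omega)
      have h3 : (((-n).toNat : ℕ) : ℤ) = -n := Int.toNat_of_nonneg (by omega)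
      rw [h3] at h2
      rw [h2, map_zero]
    · have h2 := hgT n.toNat (by omega)
      have h3 : ((n.toNat : ℕ) : ℤ) = n := Int.toNat_of_nonneg (by omega)
      rwa [h3] at h2
  have hg1 : inner ℂ (incl g) (mul (fourier 0) (incl g)) = ((‖g‖ : ℂ)) ^ 2 := by
    have h1 : (fourier 0 : CT) = 1 := by
      ext x
      simp
    rw [h1, mul_one_symbol, ContinuousLinearMap.id_apply]
    have h2 := inner_self_eq_norm_sq_to_K (𝕜 := ℂ) (incl g)
    rw [TpB_norm_incl] at h2
    exact h2
  have hint := cob_int (incl g) (incl g)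
  generalize ((‖g‖ : ℂ)) ^ 2 = c at hg1
  have hb : ∀ n : ℤ, ∀ w : UnitAddCircle → ℂ, Integrable w mu0 →
      Integrable (fun x => (fourier n : CT) x * w x) mu0 := fun n w hw =>
    hw.bdd_mul (c := ‖(fourier n : CT)‖) (fourier n : CT).continuous.aestronglyMeasurable
      (Filter.Eventually.of_forall fun x => (fourier n : CT).norm_coe_le_norm x)
  have hw : (fun x => conj ((incl g : UnitAddCircle → ℂ) x) *
      (incl g : UnitAddCircle → ℂ) x - c) =ᵐ[mu0] 0 := by
    refine cob_l1 (hint.sub (integrable_const _)) fun n => ?_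
    have h1 : ∫ x, (fourier n : CT) x * (conj ((incl g : UnitAddCircle → ℂ) x) *
        (incl g : UnitAddCircle → ℂ) x - c) ∂mu0 =
        (∫ x, (fourier n : CT) x * (conj ((incl g : UnitAddCircle → ℂ) x) *
        (incl g : UnitAddCircle → ℂ) x) ∂mu0) - ∫ x, (fourier n : CT) x * c ∂mu0 := by
      rw [← integral_sub (hb n _ hint) (hb n _ (integrable_const _))]
      refine integral_congr_ae (Filter.Eventually.of_forall fun x => ?_)
      simp only [mul_sub]
    rw [h1, cob_inner, integral_mul_const, cob_fint]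
    by_cases hn : n = 0
    · subst hn
      rw [hg1, if_pos rfl, one_mul, sub_self]
    · rw [hgn n hn, if_neg hn, zero_mul, sub_zero]
  filter_upwards [hw] with x hx
  exact sub_eq_zero.1 hx

/-- Uniqueness theorem. -/
theorem riesz {f : Hardy} {A : Set UnitAddCircle} (hA : mu0 A ≠ 0)
    (h : ∀ᵐ x ∂mu0, x ∈ A → (incl f : UnitAddCircle → ℂ) x = 0) : f = 0 := by
  by_contra hf
  have hZm : MeasurableSet {x | (incl f : UnitAddCircle → ℂ) x = 0} :=
    (Lp.stronglyMeasurable (incl f)).measurable (measurableSet_singleton 0)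
  have hZ : mu0 {x | (incl f : UnitAddCircle → ℂ) x = 0} ≠ 0 := by
    intro h0
    apply hA
    refine le_antisymm ?_ zero_le
    rw [← h0]
    exact measure_mono_ae h
  obtain ⟨L, hL1, hL2⟩ := cob_van hZm
  obtain ⟨k, hk, hk2⟩ := cob_first hf
  have hLf : L f = 0 := (hL1 f).2 (Filter.Eventually.of_forall fun x hx => hx)
  obtain ⟨g, hg0, hgL, hg⟩ := cob_beur hk hk2 L (fun n => hL2 n f hLf) hLf
  have hfin : ∀ᵐ x ∂mu0, x ∉ {x | (incl f : UnitAddCircle → ℂ) x = 0} := by
    filter_upwards [cob_const hg, (hL1 g).1 hgL] with x h1 h2 hx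
    rw [h2 hx, mul_zero] at h1
    have h4 : (‖g‖ : ℂ) = 0 := (pow_eq_zero_iff (two_ne_zero)).1 h1.symm
    exact hg0 (norm_eq_zero.1 (by exact_mod_cast h4))
  apply hZ
  have h5 := ae_iff.1 hfin
  simp only [not_not] at h5
  exact h5

theorem coburn {phi : ℂ → ℂ} {Phi : CT} (hPhi : ∀ x, Phi x = phi (e x))
    (hnull : ∀ b, mu0 {x : UnitAddCircle | phi (e x) = b} = 0) {R : Op} {b : ℂ}
    (h1 : (T Phi - b • (1 : Op)) * R = 0) (h2 : R * (T Phi - b • (1 : Op)) = 0) : R = 0 := by
  by_contra hR
  set Psi : CT := Phi - algebraMap ℂ CT b with hPsi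
  have hTP : T Psi = T Phi - b • (1 : Op) := by rw [hPsi, T_sub, T_algebraMap]
  rw [← hTP] at h1 h2
  obtain ⟨x0, hx0⟩ : ∃ x, R x ≠ 0 := by
    by_contra hcon
    push Not at hcon
    exact hR (ContinuousLinearMap.ext hcon)
  have hRs : ContinuousLinearMap.adjoint R ≠ 0 := by
    intro h0
    apply hR
    have h3 := congrArg ContinuousLinearMap.adjoint h0
    rwa [ContinuousLinearMap.adjoint_adjoint, map_zero] at h3
  obtain ⟨y0, hy0⟩ : ∃ y, ContinuousLinearMap.adjoint R y ≠ 0 := by
    by_contra hcon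
    push Not at hcon
    exact hRs (ContinuousLinearMap.ext hcon)
  set u := R x0 with hu
  set v := ContinuousLinearMap.adjoint R y0 with hv
  have hTu : T Psi u = 0 := by
    have h3 := congrArg (fun X : Op => X x0) h1
    exact h3
  have hTv : ∀ z : Hardy, inner ℂ v (T Psi z) = 0 := by
    intro z
    rw [hv, ContinuousLinearMap.adjoint_inner_left]
    have h3 : R (T Psi z) = 0 := congrArg (fun X : Op => X z) h2
    rw [h3, inner_zero_right]
  have hcomm : ∀ n : ℤ, mul (fourier n) (mul Psi (incl u)) = mul Psi (mul (fourier n) (incl u)) := by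
    intro n
    have h3 : mul (fourier n) * mul Psi = mul Psi * mul (fourier n) := by
      rw [← mul_ct, ← mul_ct, mul_comm]
    exact congrArg (fun X : Op2 => X (incl u)) h3
  have hz : ∀ n : ℤ, inner ℂ (incl v) (mul (fourier n) (mul Psi (incl u))) = 0 := by
    intro n
    rcases le_or_gt 0 n with hn | hn
    · obtain ⟨k, rfl⟩ := Int.eq_ofNat_of_zero_le hn
      rw [hcomm, ← incl_T (cob_plus k), ← TpB_inner_proj]
      exact hTv _
    · rw [cob_move]
      obtain ⟨k, hk⟩ := Int.eq_ofNat_of_zero_le (a := -n) (by omega)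
      rw [hk, ← incl_T (cob_plus k), ← TpB_inner_proj]
      have h3 : proj (mul Psi (incl u)) = 0 := hTu
      rw [h3, inner_zero_right]
  have hae : ∀ᵐ x ∂mu0, conj ((incl v : UnitAddCircle → ℂ) x) *
      (mul Psi (incl u) : UnitAddCircle → ℂ) x = 0 := by
    refine cob_l1 (cob_int (incl v) (mul Psi (incl u))) fun n => ?_
    rw [cob_inner]
    exact hz n
  have hne : ∀ᵐ x ∂mu0, Psi x ≠ 0 := by
    rw [ae_iff]
    have h3 : {x : UnitAddCircle | ¬ Psi x ≠ 0} = {x : UnitAddCircle | phi (e x) = b} := by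
      ext x
      simp only [ne_eq, not_not, mem_ofPred_eq]
      rw [hPsi, ContinuousMap.sub_apply, hPhi x, sub_eq_zero]
      rfl
    rw [h3]
    exact hnull b
  have huv : ∀ᵐ x ∂mu0, (incl v : UnitAddCircle → ℂ) x = 0 ∨ (incl u : UnitAddCircle → ℂ) x = 0 := by
    filter_upwards [hae, hne, mul_ae Psi (incl u)] with x h3 h4 h5
    rw [h5, mul_eq_zero, mul_eq_zero, map_eq_zero] at h3
    rcases h3 with h3 | h3 | h3
    · exact Or.inl h3
    · exact absurd h3 h4
    · exact Or.inr h3
  by_cases hA : mu0 {x : UnitAddCircle | (incl u : UnitAddCircle → ℂ) x = 0} = 0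
  · have hu0 : ∀ᵐ x ∂mu0, (incl u : UnitAddCircle → ℂ) x ≠ 0 := by
      rw [ae_iff]
      simpa only [ne_eq, not_not] using hA
    apply hy0
    refine incl_inj (Lp.ext ?_)
    rw [map_zero]
    filter_upwards [huv, hu0, Lp.coeFn_zero ℂ 2 mu0] with x h3 h4 h5
    rw [h5]
    rcases h3 with h3 | h3
    · exact h3
    · exact absurd h3 h4
  · exact hx0 (riesz hA (Filter.Eventually.of_forall fun x hx => hx))

end Pool.Agent.TBirP
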