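import Pool.Agent.TBirP.ColE

/-!
# Colours near a point with nonnegative inner winding number

Chart `c` at `q = phi t`, `x = c.x ≥ 0`, `t = g j q` for some `j` (`c.zer`). For `w` in a ball around `t`, `‖w‖ < 1`, `l = phi w` (so `g j l = w`, `c.loc`) put
`p w = T (fourier x * B.pj j l) 1` (`1 = mono 0`), `a w = ev w (Z l (P (Y l (p w))))`, `b w = ev w (p w) = w ^ x * prod_(i ≠ j) (w - g i l)`. `a` and `b` are
differentiable on the convex set `{w ∈ ball t s, ‖w‖ < 1}` (`p w` is a polynomial in `S` applied to `1`, coefficients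
differentiable in `w`; `ev w` is analytic in `w`, `ev_diffOn`), `b w ≠ 0`. Let `z1` be a simple point in the ball with the colour `c1`: for `w` near `z1`,
`‖w‖ < 1`: `P (qT w 1) - c1 qT w 1 = (T Phi - l) g`, `qT w = Y l * T (fourier x * B.pj j l)` (`c.qs`), `T Phi - l = Y l * T (fourier x * B.pz l)` (`c.fac`): apply
`Z l` and `ev w`: `a w - c1 * b w = ev w (T (fourier x * B.pz l) g) = 0` (`ev_pz`, the factor `w - g j l` is zero). So `a = c1 b` near `z1` in the disc
and, by the identity theorem, on the whole convex set. Two simple points `z1`, `z2` in the ball: `c1 b = c2 b`, `c1 = c2`. Reference: `loc_const` in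
TBirG/Cst.lean.
-/

set_option autoImplicit false

open MeasureTheory Complex Set Filter Topology Metric AddCircle
open scoped ComplexConjugate InnerProductSpace ENNReal

namespace Pool.Agent.TBirP

open Pool.Agent.TBir Pool.Agent.TBirG Pool.Agent.TBirC

variable {phi : ℂ → ℂ} {Phi : CT}

/-- The coefficient function is differentiable. -/
private theorem pj_diff {q : ℂ} (c : Chart phi Phi q) (j : Fin c.B.k) :
    DifferentiableOn ℂ (fun l => T (fourier c.x * c.B.pj j l)) (ball q c.s) := by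
  obtain ⟨TL, hTL⟩ := exists_TL
  have h : (fun l => T (fourier c.x * c.B.pj j l)) = fun l => TL (fourier c.x * c.B.pj j l) :=
    funext fun l => (hTL _).symm
  rw [h]
  refine TL.differentiable.comp_differentiableOn ?_
  refine DifferentiableOn.const_mul ?_ _
  unfold Br.pj
  refine DifferentiableOn.fun_finsetProd fun i _ => ?_
  refine DifferentiableOn.const_sub ?_ _
  have h2 : DifferentiableOn ℂ (c.B.g i) (ball q c.s) := (c.B.diff i).mono (ball_subset_ball c.s_le)
  have h3 : (fun l => algebraMap ℂ CT (c.B.g i l)) = fun l => c.B.g i l • (1 : CT) :=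
    funext fun l => Algebra.algebraMap_eq_smul_one _
  rw [h3]
  exact h2.smul_const _

theorem col_const (hc : ContinuousOn phi (sphere 0 1)) (hPhi : ∀ x, Phi x = phi (e x)) {t : ℂ}
    (ht : ‖t‖ = 1) {x : ℤ} (hx : 0 ≤ x) (hI : Inq phi (phi t) x) (P : Op) :
    ∃ s > 0, ∀ z1 ∈ ball t s, ∀ z2 ∈ ball t s, Sim phi z1 → Sim phi z2 → ∀ c1 c2,
      Col phi Phi P z1 c1 → Col phi Phi P z2 c2 → c1 = c2 := by
  obtain ⟨c, hcx⟩ := exists_chart hc hPhi hI
  have hx' : 0 ≤ c.x := by rw [hcx]; exact hx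
  obtain ⟨j, hj⟩ := (c.zer (phi t) (mem_ball_self c.s_pos) t ht).1 rfl
  have e1 := c.loc j
  have e2 := (c.B.an j).eventually_analyticAt
  rw [hj] at e1 e2
  obtain ⟨s0, hs0, hs0'⟩ := Metric.eventually_nhds_iff_ball.1 (e1.and e2)
  obtain ⟨s, hsdef⟩ : ∃ s : ℝ, s = min s0 1 := ⟨_, rfl⟩
  have hs : 0 < s := by rw [hsdef]; exact lt_min hs0 one_pos
  have hs1 : s ≤ 1 := by rw [hsdef]; exact min_le_right _ _
  have hsub0 : ball t s ⊆ ball t s0 := ball_subset_ball (by rw [hsdef]; exact min_le_left _ _)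
  have hin : ∀ w ∈ ball t s, phi w ∈ ball (phi t) c.s := fun w hw => (hs0' w (hsub0 hw)).1.1
  have hgw : ∀ w ∈ ball t s, c.B.g j (phi w) = w := fun w hw => (hs0' w (hsub0 hw)).1.2
  have hd : DifferentiableOn ℂ phi (ball t s) := fun w hw =>
    ((hs0' w (hsub0 hw)).2).differentiableAt.differentiableWithinAt
  have hw0 : ∀ w ∈ ball t s, w ≠ 0 := by
    rintro w hw rfl
    rw [mem_ball, dist_eq_norm, zero_sub, norm_neg, ht] at hw
    linarith
  refine ⟨s, hs, fun z1 hz1 z2 hz2 s1 s2 c1 c2 f1 f2 => ?_⟩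
  obtain ⟨U, hU⟩ : ∃ U : Set ℂ, U = ball t s ∩ ball 0 1 := ⟨_, rfl⟩
  have hUo : IsOpen U := by rw [hU]; exact isOpen_ball.inter isOpen_ball
  have hpre : IsPreconnected U := by
    rw [hU]
    exact ((convex_ball t s).inter (convex_ball 0 1)).isPreconnected
  have hUs : U ⊆ ball t s := by rw [hU]; exact inter_subset_left
  have hU1 : U ⊆ ball 0 1 := by rw [hU]; exact inter_subset_right
  -- the vectors
  obtain ⟨p, hp⟩ : ∃ p : ℂ → Hardy, p = fun w => T (fourier c.x * c.B.pj j (phi w)) (mono 0) :=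
    ⟨_, rfl⟩
  obtain ⟨a, ha⟩ : ∃ a : ℂ → ℂ, a = fun w => ev w (c.Z (phi w) (P (c.Y (phi w) (p w)))) := ⟨_, rfl⟩
  obtain ⟨b, hb⟩ : ∃ b : ℂ → ℂ, b = fun w => ev w (p w) := ⟨_, rfl⟩
  have hdU : DifferentiableOn ℂ phi U := hd.mono hUs
  have hmaps : MapsTo phi U (ball (phi t) c.s) := fun w hw => hin w (hUs hw)
  have hevU : DifferentiableOn ℂ ev U := ev_diffOn.mono hU1
  have hpd : DifferentiableOn ℂ p U := by
    rw [hp]
    exact (((pj_diff c j).comp hdU hmaps).clm_apply (differentiableOn_const _))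
  have hbd : DifferentiableOn ℂ b U := by
    rw [hb]
    exact hevU.clm_apply hpd
  have had : DifferentiableOn ℂ a U := by
    rw [ha]
    have d1 : DifferentiableOn ℂ (fun w => c.Y (phi w)) U := c.dY.comp hdU hmaps
    have d2 : DifferentiableOn ℂ (fun w => c.Z (phi w)) U := c.dZ.comp hdU hmaps
    have d3 := d1.clm_apply hpd
    have d4 : DifferentiableOn ℂ (fun w => P (c.Y (phi w) (p w))) U :=
      P.differentiable.comp_differentiableOn d3
    exact hevU.clm_apply (d2.clm_apply d4)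
  have hb0 : ∀ w ∈ U, b w ≠ 0 := by
    intro w hw
    have hw1 : ‖w‖ < 1 := by simpa using hU1 hw
    rw [hb, hp]
    change ev w (T (fourier c.x * c.B.pj j (phi w)) (mono 0)) ≠ 0
    rw [ev_pj c hx' j (phi w) hw1, ev_mono hw1, pow_zero, mul_one]
    refine mul_ne_zero (zpow_ne_zero _ (hw0 w (hUs hw))) (Finset.prod_ne_zero_iff.2 ?_)
    intro i hi h0
    refine (Finset.ne_of_mem_erase hi) (c.inj (phi w) (hin w (hUs hw)) i j ?_)
    rw [hgw w (hUs hw)]
    exact (sub_eq_zero.1 h0).symm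
  have key : ∀ z k, z ∈ ball t s → Sim phi z → Col phi Phi P z k → ∀ w ∈ U, a w = k * b w := by
    intro z k hz hsim hf w hw
    obtain ⟨r, hr, h1⟩ := hf
    obtain ⟨ε, hε, h2⟩ := Metric.isOpen_iff.1 (isOpen_ball (x := t) (ε := s)) z hz
    obtain ⟨z', h3, h4⟩ := tendsto_in hsim.1 (lt_min hr hε)
    have h5 : z' ∈ ball z r := ball_subset_ball (min_le_left _ _) h3
    have h6 : z' ∈ U := by
      rw [hU]
      exact ⟨h2 (ball_subset_ball (min_le_right _ _) h3), by simpa using h4⟩
    have h7 : (fun w => a w - k * b w) =ᶠ[𝓝 z'] 0 := by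
      filter_upwards [isOpen_ball.mem_nhds h5, hUo.mem_nhds h6] with v hv hv'
      change a v - k * b v = 0
      have hv1 : ‖v‖ < 1 := by simpa using hU1 hv'
      have hvs : v ∈ ball t s := hUs hv'
      obtain ⟨g, hg⟩ := h1 v hv hv1 (mono 0)
      have hl := hin v hvs
      have hq := c.qs hx' j (phi v) hl (by rw [hgw v hvs]; exact hv1)
      rw [hgw v hvs] at hq
      have hqp : qT phi v (mono 0) = c.Y (phi v) (p v) := by
        rw [hq, hp]
        rfl
      rw [hqp, c.fac hx' (phi v) hl] at hg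
      have hZY : ∀ u : Hardy, c.Z (phi v) (c.Y (phi v) u) = u := fun u =>
        congrArg (fun A : Op => A u) (c.ZY (phi v) hl)
      have hg2 := congrArg (c.Z (phi v)) hg
      rw [map_sub, map_smul, hZY] at hg2
      have hg3 : c.Z (phi v) (P (c.Y (phi v) (p v))) - k • p v =
          T (fourier c.x * c.B.pz (phi v)) g := by
        rw [hg2]
        exact hZY _
      have hg4 := congrArg (ev v) hg3
      rw [map_sub, map_smul, smul_eq_mul, ev_pz c hx' (phi v) hv1] at hg4
      have hz0 : ∏ i, (v - c.B.g i (phi v)) = 0 :=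
        Finset.prod_eq_zero (Finset.mem_univ j) (by rw [hgw v hvs, sub_self])
      rw [hz0, mul_zero, zero_mul] at hg4
      rw [ha, hb]
      exact hg4
    have h8 : DifferentiableOn ℂ (fun w => a w - k * b w) U := had.sub (hbd.const_mul k)
    have h9 := (h8.analyticOnNhd hUo).eqOn_zero_of_preconnected_of_eventuallyEq_zero hpre h6 h7 hw
    exact sub_eq_zero.1 h9
  obtain ⟨z', h3, h4⟩ := tendsto_in ht hs
  have h5 : z' ∈ U := by
    rw [hU]
    exact ⟨h3, by simpa using h4⟩
  have h6 := key z1 c1 hz1 s1 f1 z' h5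
  have h7 := key z2 c2 hz2 s2 f2 z' h5
  exact mul_right_cancel₀ (hb0 z' h5) (h6.symm.trans h7)

end Pool.Agent.TBirP
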