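import Pool.Agent.TBirP.Def

/-!
# The local factor depends analytically on the parameter

Paper proof. `Psi.key` (TBirC/Psi.lean, namespace PsiAux): for `l` in a ball and almost all `x` `‖B.ps l x‖ ≤ C1`. Fix `x` with
`‖phi (e x)‖ ≤ M` and `e x ≠ B.g j q` for all `j`. The function `l ↦ B.ps l x = (phi (e x) - l) / prod (e x - B.g j l)` is differentiable on the ball
off the points `l` with `e x = B.g j l` for some `j`; such an `l` is `phi (e x)` (`B.inv`), so there is at most one, and the function is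
bounded: the singularity is removable. So `l ↦ B.ps l x` agrees off one point with a function `G x` differentiable on the
ball and bounded by `C1` (`Function.update` with the limit, `Complex.differentiableOn_update_limUnder_of_bddAbove`). Cauchy
estimates on a smaller ball: `‖G x l' - G x l - (l' - l) * deriv (G x) l‖ ≤ C2 ‖l' - l‖ ^ 2`. For fixed `l` the derivative `D x = deriv (G x) l`
is the limit of `n (B.ps (l + 1 / n) x - B.ps l x)` for almost all `x`, so it is a.e. strongly measurable and bounded, and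
`‖Th l' - Th l - (l' - l) • mf (zeta ^ n D)‖ ≤ C2 ‖l' - l‖ ^ 2` (`mf_sub`, `norm_mf_le`; `B.ps l' x = G x l'` for almost all `x`,
`ae_ne`). So `B.Th n` has a derivative.
-/

set_option autoImplicit false

open MeasureTheory Complex Set Filter Topology Metric AddCircle
open scoped ComplexConjugate InnerProductSpace ENNReal

namespace Pool.Agent.TBirP

open Pool.Agent.TBir Pool.Agent.TBirG Pool.Agent.TBirC

namespace ThdAux

open Pool.Agent.TBirC.PsiAux

theorem cauchy2 {G : ℂ → ℂ} {l : ℂ} {r C : ℝ} (hr : 0 < r)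
    (hd : DifferentiableOn ℂ G (ball l r)) (hb : ∀ z ∈ ball l r, ‖G z‖ ≤ C) :
    ‖deriv G l‖ ≤ 2 * C / r ∧
      ∀ z ∈ ball l r, ‖G z - G l - (z - l) * deriv G l‖ ≤ 4 * C / r ^ 2 * ‖z - l‖ ^ 2 := by
  have hl : l ∈ ball l r := mem_ball_self hr
  have h1 : ∀ z ∈ ball l r, ‖dslope G l z‖ ≤ 2 * C / r := by
    intro z hz
    refine norm_dslope_le_div_of_mapsTo_ball hd (fun w hw => ?_) hz
    rw [mem_closedBall, dist_eq_norm]
    calc ‖G w - G l‖ ≤ ‖G w‖ + ‖G l‖ := norm_sub_le _ _
      _ ≤ C + C := add_le_add (hb w hw) (hb l hl)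
      _ = 2 * C := by ring
  have hd2 : DifferentiableOn ℂ (dslope G l) (ball l r) :=
    (differentiableOn_dslope (ball_mem_nhds l hr)).2 hd
  have h2 : ∀ z ∈ ball l r, ‖dslope (dslope G l) l z‖ ≤ (4 * C / r) / r := by
    intro z hz
    refine norm_dslope_le_div_of_mapsTo_ball hd2 (fun w hw => ?_) hz
    rw [mem_closedBall, dist_eq_norm]
    calc ‖dslope G l w - dslope G l l‖ ≤ ‖dslope G l w‖ + ‖dslope G l l‖ := norm_sub_le _ _
      _ ≤ 2 * C / r + 2 * C / r := add_le_add (h1 w hw) (h1 l hl)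
      _ = 4 * C / r := by ring
  refine ⟨?_, fun z hz => ?_⟩
  · have := h1 l hl
    rwa [dslope_same] at this
  · have e1 : G z - G l = (z - l) * dslope G l z := by
      rw [← smul_eq_mul, sub_smul_dslope]
    have e2 : dslope G l z - dslope G l l = (z - l) * dslope (dslope G l) l z := by
      rw [← smul_eq_mul, sub_smul_dslope]
    have e3 : G z - G l - (z - l) * deriv G l =
        (z - l) * (z - l) * dslope (dslope G l) l z := by
      rw [e1, ← mul_sub, ← dslope_same G l, e2]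
      ring
    rw [e3, norm_mul, norm_mul]
    calc ‖z - l‖ * ‖z - l‖ * ‖dslope (dslope G l) l z‖
        ≤ ‖z - l‖ * ‖z - l‖ * ((4 * C / r) / r) := by
          gcongr
          exact h2 z hz
      _ = 4 * C / r ^ 2 * ‖z - l‖ ^ 2 := by
          field_simp

theorem exists_G {phi : ℂ → ℂ} {q : ℂ} (B : Br phi q) {M C1 s : ℝ} (hsR : s ≤ B.R)
    (h1 : ∀ l ∈ ball q s, ∀ x : UnitAddCircle, ‖phi (e x)‖ ≤ M → (∀ j, e x ≠ B.g j l) →
      ‖B.ps l x‖ ≤ C1)
    (x : UnitAddCircle) (hx : ‖phi (e x)‖ ≤ M) :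
    ∃ G : ℂ → ℂ, DifferentiableOn ℂ G (ball q s) ∧ (∀ l ∈ ball q s, ‖G l‖ ≤ C1) ∧
      ∀ l ∈ ball q s, (∀ j, e x ≠ B.g j l) → G l = B.ps l x := by
  have hdf : ∀ T : Set ℂ, T ⊆ ball q s → (∀ l ∈ T, ∀ j, e x ≠ B.g j l) →
      DifferentiableOn ℂ (fun l => B.ps l x) T := by
    intro T hT hne
    have hTR : T ⊆ ball q B.R := hT.trans (ball_subset_ball hsR)
    unfold Br.ps
    refine DifferentiableOn.div ?_ ?_ ?_
    · exact (differentiableOn_const _).sub differentiableOn_id
    · refine DifferentiableOn.fun_finsetProd fun j _ => ?_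
      exact (differentiableOn_const _).sub ((B.diff j).mono hTR)
    · intro l hl
      rw [Finset.prod_ne_zero_iff]
      exact fun j _ => sub_ne_zero.2 (hne l hl j)
  have hbad : ∀ l ∈ ball q s, ∀ j, e x = B.g j l → l = phi (e x) := by
    intro l hl j hj
    rw [hj, B.inv j l (ball_subset_ball hsR hl)]
  by_cases hA : phi (e x) ∈ ball q s ∧ ∃ j, e x = B.g j (phi (e x))
  · obtain ⟨hp, j0, hj0⟩ := hA
    set p := phi (e x) with hpdef
    have hne : ∀ l ∈ ball q s \ {p}, ∀ j, e x ≠ B.g j l := by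
      intro l hl j hj
      exact hl.2 (hbad l hl.1 j hj)
    have hd := hdf (ball q s \ {p}) sdiff_subset hne
    have hnh : ball q s ∈ 𝓝 p := isOpen_ball.mem_nhds hp
    have hbd : BddAbove (norm ∘ (fun l => B.ps l x) '' (ball q s \ {p})) := by
      refine ⟨C1, ?_⟩
      rintro _ ⟨l, hl, rfl⟩
      exact h1 l hl.1 x hx (hne l hl)
    have hG := differentiableOn_update_limUnder_of_bddAbove hnh hd hbd
    set G : ℂ → ℂ := Function.update (fun l => B.ps l x) p
      (limUnder (𝓝[≠] p) fun l => B.ps l x) with hGdef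
    have hGe : ∀ l, l ≠ p → G l = B.ps l x := by
      intro l hl
      rw [hGdef, Function.update_of_ne hl]
    have hGb : ∀ l ∈ ball q s, l ≠ p → ‖G l‖ ≤ C1 := by
      intro l hl hlp
      rw [hGe l hlp]
      exact h1 l hl x hx (hne l ⟨hl, hlp⟩)
    refine ⟨G, hG, fun l hl => ?_, fun l hl hne' => ?_⟩
    · by_cases hlp : l = p
      · rw [hlp]
        have hc : Tendsto G (𝓝[≠] p) (𝓝 (G p)) :=
          ((hG.differentiableAt hnh).continuousAt.tendsto).mono_left nhdsWithin_le_nhds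
        refine le_of_tendsto hc.norm ?_
        have h3 : ∀ᶠ z in 𝓝[≠] p, z ∈ ball q s := nhdsWithin_le_nhds hnh
        filter_upwards [h3, self_mem_nhdsWithin] with z hz hz'
        exact hGb z hz hz'
      · exact hGb l hl hlp
    · refine hGe l fun hlp => ?_
      rw [hlp] at hne'
      exact hne' j0 hj0
  · have hne : ∀ l ∈ ball q s, ∀ j, e x ≠ B.g j l := by
      intro l hl j hj
      have h2 := hbad l hl j hj
      apply hA
      rw [← h2]
      exact ⟨hl, j, hj⟩
    exact ⟨fun l => B.ps l x, hdf _ subset_rfl hne, fun l hl => h1 l hl x hx (hne l hl),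
      fun _ _ _ => rfl⟩

end ThdAux

open ThdAux

open Pool.Agent.TBirC.PsiAux in
theorem Th_diff {phi : ℂ → ℂ} (hb : MemLp (fun x : UnitAddCircle => phi (e x)) ∞ mu0) {q : ℂ}
    (B : Br phi q) (n : ℤ) : ∃ s > 0, s ≤ B.R ∧ DifferentiableOn ℂ (fun l => B.Th n l) (ball q s) := by
  obtain ⟨M, hM0, hM⟩ := bound hb
  obtain ⟨C1, s, hC1, hs, hsR, h1, -⟩ := key B hM0
  refine ⟨s / 2, by positivity, by linarith, ?_⟩
  intro l hl
  refine DifferentiableAt.differentiableWithinAt ?_
  set r : ℝ := s / 2 with hr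
  have hr0 : 0 < r := by positivity
  have hsub : ball l r ⊆ ball q s := by
    intro z hz
    rw [mem_ball] at hz hl ⊢
    have := dist_triangle z l q
    linarith
  have hex : ∀ x : UnitAddCircle, ‖phi (e x)‖ ≤ M → ∃ G : ℂ → ℂ,
      DifferentiableOn ℂ G (ball q s) ∧ (∀ l ∈ ball q s, ‖G l‖ ≤ C1) ∧
      ∀ l ∈ ball q s, (∀ j, e x ≠ B.g j l) → G l = B.ps l x := fun x hx =>
    exists_G B hsR h1 x hx
  choose! G hG1 hG2 hG3 using hex
  set D : UnitAddCircle → ℂ := fun x => deriv (G x) l with hD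
  have hcau : ∀ x, ‖phi (e x)‖ ≤ M → ‖D x‖ ≤ 2 * C1 / r ∧ ∀ z ∈ ball l r,
      ‖G x z - G x l - (z - l) * D x‖ ≤ 4 * C1 / r ^ 2 * ‖z - l‖ ^ 2 := fun x hx =>
    cauchy2 hr0 ((hG1 x hx).mono hsub) fun z hz => hG2 x hx z (hsub hz)
  have hll : l ∈ ball q s := hsub (mem_ball_self hr0)
  -- measurability of the derivative
  set lk : ℕ → ℂ := fun k => l + ((r / ((k : ℝ) + 2) : ℝ) : ℂ) with hlk
  have hlk1 : ∀ k, lk k ∈ ball l r := by
    intro k
    rw [mem_ball, dist_eq_norm, hlk]
    have e1 : l + ((r / ((k : ℝ) + 2) : ℝ) : ℂ) - l = ((r / ((k : ℝ) + 2) : ℝ) : ℂ) := by ring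
    change ‖l + ((r / ((k : ℝ) + 2) : ℝ) : ℂ) - l‖ < r
    rw [e1, Complex.norm_real, Real.norm_eq_abs, abs_of_nonneg (by positivity),
      div_lt_iff₀ (by positivity)]
    have : (0 : ℝ) ≤ k := Nat.cast_nonneg k
    nlinarith
  have hlk2 : ∀ k, lk k ≠ l := by
    intro k h
    have e1 : ((r / ((k : ℝ) + 2) : ℝ) : ℂ) = 0 := by
      have e2 : lk k = l + ((r / ((k : ℝ) + 2) : ℝ) : ℂ) := rfl
      rw [e2] at h
      exact add_eq_left.1 h
    rw [Complex.ofReal_eq_zero] at e1
    have : 0 < r / ((k : ℝ) + 2) := by positivity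
    exact this.ne' e1
  have hlk3 : Tendsto lk atTop (𝓝[≠] l) := by
    rw [tendsto_nhdsWithin_iff]
    refine ⟨?_, Eventually.of_forall fun k => hlk2 k⟩
    have h3 : Tendsto (fun k : ℕ => r / ((k : ℝ) + 2)) atTop (𝓝 0) :=
      Tendsto.div_atTop tendsto_const_nhds
        (tendsto_atTop_add_const_right _ _ tendsto_natCast_atTop_atTop)
    have h4 : Tendsto (fun k : ℕ => ((r / ((k : ℝ) + 2) : ℝ) : ℂ)) atTop (𝓝 ((0 : ℝ) : ℂ)) :=
      (Complex.continuous_ofReal.tendsto 0).comp h3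
    have h5 := (tendsto_const_nhds (x := l)).add h4
    rw [Complex.ofReal_zero, add_zero] at h5
    exact h5
  have hDm : AEStronglyMeasurable D mu0 := by
    refine aestronglyMeasurable_of_tendsto_ae atTop
      (f := fun (k : ℕ) x => (lk k - l)⁻¹ * (B.ps (lk k) x - B.ps l x)) (fun k => ?_) ?_
    · exact ((aesm hb B (lk k)).sub (aesm hb B l)).const_mul _
    · have h3 : ∀ᵐ x ∂mu0, ∀ k, ∀ j, e x ≠ B.g j (lk k) := ae_all_iff.2 fun k => ae_ne B (lk k)
      filter_upwards [hM, ae_ne B l, h3] with x hx h4 h5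
      have h6 : HasDerivAt (G x) (D x) l :=
        ((hG1 x hx).differentiableAt (isOpen_ball.mem_nhds hll)).hasDerivAt
      rw [hasDerivAt_iff_tendsto_slope] at h6
      refine (h6.comp hlk3).congr fun k => ?_
      change slope (G x) l (lk k) = _
      rw [slope_def_field, hG3 x hx l hll h4, hG3 x hx (lk k) (hsub (hlk1 k)) (h5 k)]
      exact div_eq_inv_mul _ _
  have hzn : ∀ (x : UnitAddCircle) (w : ℂ), ‖e x ^ n * w‖ = ‖w‖ := by
    intro x w
    rw [norm_mul, norm_zpow, norm_e', one_zpow, one_mul]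
  have cz : Continuous fun x : UnitAddCircle => (e x) ^ n :=
    cont_e.zpow₀ n fun x => Or.inl (e_ne x)
  have mD : MemLp (fun x => e x ^ n * D x) ∞ mu0 := by
    refine memLp_top_of_bound (cz.aestronglyMeasurable.mul hDm) (2 * C1 / r) ?_
    filter_upwards [hM] with x hx
    rw [hzn]
    exact (hcau x hx).1
  have m2 : ∀ l' ∈ ball q s, MemLp (fun x => (e x) ^ n * B.ps l' x) ∞ mu0 := by
    intro l' hl'
    refine memLp_top_of_bound (aesm_n hb B n l') C1 ?_
    filter_upwards [hM, ae_ne B l'] with x hx hx'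
    rw [hzn]
    exact h1 l' hl' x hx hx'
  have hder : HasDerivAt (fun l => B.Th n l) (mf fun x => e x ^ n * D x) l := by
    rw [hasDerivAt_iff_isLittleO]
    refine Asymptotics.IsBigO.trans_isLittleO (g := fun l' => ‖l' - l‖ ^ 2)
      (Asymptotics.IsBigO.of_bound (4 * C1 / r ^ 2) ?_)
      (Asymptotics.isLittleO_pow_sub_sub l one_lt_two)
    filter_upwards [ball_mem_nhds l hr0] with l' hl'
    have e1 : B.Th n l' - B.Th n l - (l' - l) • mf (fun x => e x ^ n * D x) =
        mf fun x => e x ^ n * B.ps l' x - e x ^ n * B.ps l x - (l' - l) * (e x ^ n * D x) := by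
      have e2 : mf (fun x => (l' - l) * (e x ^ n * D x)) =
          (l' - l) • mf (fun x => e x ^ n * D x) := by
        rw [mf_mul (a := fun _ => l' - l) (memLp_const _) mD, mf_const,
          Algebra.algebraMap_eq_smul_one, smul_mul_assoc, one_mul]
      have m3 : MemLp (fun x => e x ^ n * B.ps l' x - e x ^ n * B.ps l x) ∞ mu0 :=
        (m2 l' (hsub hl')).sub (m2 l hll)
      have m4 : MemLp (fun x => (l' - l) * (e x ^ n * D x)) ∞ mu0 :=
        memLp_mul (a := fun _ => l' - l) (memLp_const _) mD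
      rw [mf_sub m3 m4, mf_sub (m2 l' (hsub hl')) (m2 l hll), e2]
      rfl
    rw [e1, norm_pow, norm_norm]
    refine norm_mf_le (by positivity) ?_
    filter_upwards [hM, ae_ne B l, ae_ne B l'] with x hx h3 h4
    have e3 : e x ^ n * B.ps l' x - e x ^ n * B.ps l x - (l' - l) * (e x ^ n * D x) =
        e x ^ n * (G x l' - G x l - (l' - l) * D x) := by
      rw [hG3 x hx l hll h3, hG3 x hx l' (hsub hl') h4]
      ring
    rw [e3, hzn]
    exact (hcau x hx).2 l' hl'
  exact hder.differentiableAt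

end Pool.Agent.TBirP
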