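import Pool.Agent.TBirP.ChB
import Pool.Agent.TBirP.Thd
import Pool.Agent.TBirC.Itp

/-!
# Existence of charts

Paper proof. `Y l = TM (B.Th (-x) l)`, `Z l = Ring.inverse (Y l)`. `cht_unit`: at `q` the function `z ^ (-x) * ps q z` is `exp (h z)` for almost all
`z` of the circle, so `Y q = TM (mf (exp h))` (`mf_congr`), a unit by `isUnit_exp`. Near `q`: `exists_Th` of TBirC/Psi.lean. `Y` is
differentiable (`Th_diff`, `exists_TML`), `Z` too (`differentiableAt_inverse` for `Ring.inverse` at units). `fac`: `T Phi - l = TM (mf (phi e) - l)`,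
`phi (e x) - l = (e x ^ (-x) * ps l x) * (e x ^ x * prod (e x - g j l))` almost everywhere, so the operator is
`TM (B.Th (-x) l * mul (fourier x * B.pz l))` (`mf_mul`, `mf_ct`), and `TM_plus` with `fourier x * B.pz l` plus (`x ≥ 0`; products of plus
symbols are plus). `qs`: for `w = g j l`, `‖w‖ < 1`: `(phi (e x) - phi w) / (e x - w) = (e x ^ (-x) * ps l x) * (e x ^ x * prod_(i ≠ j) (e x - g i l))` a.e. (`phi w = l`),
again `TM_plus`. `s` is the minimum of all radii.
-/

set_option autoImplicit false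

open MeasureTheory Complex Set Filter Topology Metric AddCircle
open scoped ComplexConjugate InnerProductSpace ENNReal

namespace Pool.Agent.TBirP

open Pool.Agent.TBir Pool.Agent.TBirG Pool.Agent.TBirC

open Pool.Agent.TBirC.PsiAux in
theorem cht_unit {phi : ℂ → ℂ} {q : ℂ} {B : Br phi q} {x : ℤ} (h : BrAt phi B x) :
    IsUnit (TM (B.Th (-x) q)) := by
  obtain ⟨h0, hc, h1⟩ := h
  have h2 : B.Th (-x) q = mf fun y => exp (h0 (e y)) := by
    unfold Br.Th
    refine mf_congr ?_
    filter_upwards [ae_ne B q] with y hy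
    have hprod : ∏ j, (e y - B.g j q) ≠ 0 := by
      rw [Finset.prod_ne_zero_iff]
      exact fun j _ => sub_ne_zero.2 (hy j)
    have hey : e y ∈ sphere (0 : ℂ) 1 := by
      rw [mem_sphere_zero_iff_norm]
      exact norm_e' y
    have he : (e y) ^ x ≠ 0 := zpow_ne_zero x (e_ne y)
    unfold Br.ps
    rw [h1 _ hey, zpow_neg]
    field_simp
  rw [h2]
  exact isUnit_exp hc

theorem plus_pz {phi : ℂ → ℂ} {q : ℂ} (B : Br phi q) {x : ℤ} (hx : 0 ≤ x) (l : ℂ) :
    Plus (fourier x * B.pz l) :=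
  (plus_fourier hx).mul (TBirM.plus_prod _ fun j _ => TBirM.plus_sub (B.g j l))

theorem plus_pj {phi : ℂ → ℂ} {q : ℂ} (B : Br phi q) {x : ℤ} (hx : 0 ≤ x) (j : Fin B.k) (l : ℂ) :
    Plus (fourier x * B.pj j l) :=
  (plus_fourier hx).mul (TBirM.plus_prod _ fun j _ => TBirM.plus_sub (B.g j l))

open Pool.Agent.TBirC.PsiAux in
theorem exists_chart {phi : ℂ → ℂ} (hc : ContinuousOn phi (sphere 0 1)) {Phi : CT}
    (hPhi : ∀ x, Phi x = phi (e x)) {q : ℂ} {x : ℤ} (h : Inq phi q x) :
    ∃ c : Chart phi Phi q, c.x = x := by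
  obtain ⟨B, hB⟩ := exists_B h
  have hfe : (fun y : UnitAddCircle => phi (e y)) = fun y => Phi y := by
    funext y
    exact (hPhi y).symm
  have hb : MemLp (fun y : UnitAddCircle => phi (e y)) ∞ mu0 := by
    rw [hfe]
    exact memLp_ct Phi
  have hmf : mf (fun y : UnitAddCircle => phi (e y)) = mul Phi := by
    rw [hfe, mf_ct]
  obtain ⟨C, s1, hC, hs1, hs1R, hTh⟩ := exists_Th hb B (cht_unit hB)
  obtain ⟨s2, hs2, hs2R, hzer⟩ := cht_zer hc hB
  obtain ⟨s3, hs3, hs3R, hinj⟩ := cht_inj B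
  obtain ⟨s4, hs4, hs4R, hwn⟩ := cht_wn hc hB
  obtain ⟨s5, hs5, hs5R, hdf⟩ := Th_diff hb B (-x)
  set s : ℝ := min s1 (min s2 (min s3 (min s4 s5))) with hs
  have hs0 : 0 < s := by positivity
  have b1 : s ≤ s1 := min_le_left _ _
  have b2 : s ≤ s2 := (min_le_right _ _).trans (min_le_left _ _)
  have b3 : s ≤ s3 := (min_le_right _ _).trans ((min_le_right _ _).trans (min_le_left _ _))
  have b4 : s ≤ s4 := (min_le_right _ _).trans ((min_le_right _ _).trans
    ((min_le_right _ _).trans (min_le_left _ _)))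
  have b5 : s ≤ s5 := (min_le_right _ _).trans ((min_le_right _ _).trans
    ((min_le_right _ _).trans (min_le_right _ _)))
  obtain ⟨L, hL⟩ := exists_TML
  have hY : ∀ l ∈ ball q s, IsUnit (TM (B.Th (-x) l)) := fun l hl =>
    (hTh l (ball_subset_ball b1 hl)).2.2.2.2.2.2.1
  have hdY : DifferentiableOn ℂ (fun l => TM (B.Th (-x) l)) (ball q s) := by
    have h1 : DifferentiableOn ℂ (fun l => L (B.Th (-x) l)) (ball q s) :=
      L.differentiable.comp_differentiableOn (hdf.mono (ball_subset_ball b5))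
    simp only [hL] at h1
    exact h1
  have hdZ : DifferentiableOn ℂ (fun l => Ring.inverse (TM (B.Th (-x) l))) (ball q s) := by
    intro l hl
    obtain ⟨u, hu⟩ := hY l hl
    have h1 : DifferentiableAt ℂ (Ring.inverse : Op → Op) (TM (B.Th (-x) l)) := by
      rw [← hu]
      exact differentiableAt_inverse (𝕜 := ℂ) u.isUnit
    exact (h1.comp l (hdY.differentiableAt (isOpen_ball.mem_nhds hl))).differentiableWithinAt
  refine ⟨⟨B, x, s, fun l => TM (B.Th (-x) l), fun l => Ring.inverse (TM (B.Th (-x) l)), hs0,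
    b1.trans hs1R, hdY, hdZ, fun l hl => Ring.mul_inverse_cancel _ (hY l hl),
    fun l hl => Ring.inverse_mul_cancel _ (hY l hl), ?_, ?_,
    fun l hl => hzer l (ball_subset_ball b2 hl), fun l hl => (hinj l (ball_subset_ball b3 hl)).1,
    fun l hl => (hinj l (ball_subset_ball b3 hl)).2, cht_loc B hs0,
    fun l hl => hwn l (ball_subset_ball b4 hl)⟩, rfl⟩
  · intro hx l hl
    have h1 := (hTh l (ball_subset_ball b1 hl)).2.2.2.2.2.2.2.2
    rw [neg_neg, hmf] at h1
    have h2 := congrArg TM h1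
    rw [TM_plus _ (plus_pz B hx l), TM_sub, TM_mul, TM_algebraMap,
      Algebra.algebraMap_eq_smul_one] at h2
    exact h2
  · intro hx j l hl hj
    have hT := hTh l (ball_subset_ball b1 hl)
    have hinv : phi (B.g j l) = l := B.inv j l (ball_subset_ball (b1.trans hs1R) hl)
    have h3 : mf (fun y => (phi (e y) - phi (B.g j l)) / (e y - B.g j l)) =
        B.Th (-x) l * mul (fourier x * B.pj j l) := by
      unfold Br.Th
      rw [← mf_ct (fourier x * B.pj j l), ← mf_mul hT.2.1 (memLp_ct _)]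
      refine mf_congr ?_
      filter_upwards [ae_ne B l] with y hy
      have hpj : (B.pj j l : CT) y = ∏ i ∈ Finset.univ.erase j, (e y - B.g i l) := by
        unfold Br.pj
        rw [ContinuousMap.prod_apply]
        refine Finset.prod_congr rfl fun i _ => ?_
        rw [ContinuousMap.sub_apply, four_e, zpow_one]
        rfl
      have hne : e y - B.g j l ≠ 0 := sub_ne_zero.2 (hy j)
      have hprod : ∏ i ∈ Finset.univ.erase j, (e y - B.g i l) ≠ 0 := by
        rw [Finset.prod_ne_zero_iff]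
        exact fun i _ => sub_ne_zero.2 (hy i)
      have he : (e y) ^ x ≠ 0 := zpow_ne_zero x (e_ne y)
      rw [ContinuousMap.mul_apply, hpj, four_e, hinv]
      unfold Br.ps
      rw [← Finset.mul_prod_erase Finset.univ (fun i => e y - B.g i l) (Finset.mem_univ j), zpow_neg]
      field_simp
    unfold qT
    rw [h3, TM_plus _ (plus_pj B hx j l)]

end Pool.Agent.TBirP
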