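import Pool.Agent.TBirP.Loc1

/-!
# Area of the neighbourhoods of the curve, level sets, density of the complement

Paper proof. `vol_nbhd`: as in TBirR/Vol.lean, from `lip`. `dense_J`: the area of `J phi` is `0` (from `vol_nbhd`, `eps → 0`), a
nonempty open set has positive area. Level sets: `{z ∈ circle | phi z = b}` is finite: otherwise it has an accumulation
point `t` on the circle (compactness); if `t` is not in `F` `phi - b` is eventually zero near `t`, so `deriv phi t = 0`; if `t` is in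
`F` infinitely many of the points are on one side (accumulation on one side), and there `psi = b` at points accumulating at `t`,
so `psi` is constant near `t`.
-/

set_option autoImplicit false

open MeasureTheory Complex Set Filter Topology Metric AddCircle
open scoped ComplexConjugate InnerProductSpace ENNReal

namespace Pool.Agent.TBirP

open Pool.Agent.TBir Pool.Agent.TBirG Pool.Agent.TBirC

theorem vol_nbhd {phi : ℂ → ℂ} {F : Set ℂ} (h : PwA phi F) :
    ∃ A : ℝ, 0 < A ∧ ∀ eps : ℝ, 0 < eps → eps ≤ 1 →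
      volume {l : ℂ | infDist l (J phi) ≤ eps} ≤ ENNReal.ofReal (A * eps) := by
  obtain ⟨K, hK0, hK⟩ := lip h
  have hpi := Real.pi_pos
  refine ⟨(2 * Real.pi + 2) * (Real.pi * (1 + K) ^ 2), by positivity, fun eps he he1 => ?_⟩
  set n : ℕ := ⌈2 * Real.pi / eps⌉₊ with hn
  have hJc : IsCompact (J phi) := (isCompact_sphere 0 1).image_of_continuousOn h.cont
  have hJn : (J phi).Nonempty := ⟨phi 1, 1, by simp, rfl⟩
  have hsub : {l : ℂ | infDist l (J phi) ≤ eps} ⊆
      ⋃ j ∈ Finset.range (n + 1), closedBall (phi (E (j * eps : ℝ))) ((1 + K) * eps) := by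
    intro l hl
    obtain ⟨_, ⟨z, hz, rfl⟩, hzl⟩ := hJc.exists_infDist_eq_dist hJn l
    rw [mem_setOf_eq, hzl] at hl
    -- the argument of `z`
    obtain ⟨t, ht0, ht1, rfl⟩ : ∃ t : ℝ, 0 ≤ t ∧ t ≤ 2 * Real.pi ∧ E t = z := by
      have hz1 : ‖z‖ = 1 := by simpa using hz
      have hza : exp ((arg z : ℂ) * I) = z := by
        have := Complex.norm_mul_exp_arg_mul_I z
        rwa [hz1, ofReal_one, one_mul] at this
      by_cases h : 0 ≤ arg z
      · exact ⟨arg z, h, by linarith [Complex.arg_le_pi z], hza⟩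
      · refine ⟨arg z + 2 * Real.pi, by linarith [Complex.neg_pi_lt_arg z], by linarith, ?_⟩
        unfold E
        push_cast
        rw [add_mul, Complex.exp_add, Complex.exp_two_pi_mul_I, mul_one, hza]
    have hj0 : 0 ≤ t / eps := by positivity
    have hj1 : (⌊t / eps⌋₊ : ℝ) ≤ t / eps := Nat.floor_le hj0
    have hj2 : t / eps < ⌊t / eps⌋₊ + 1 := Nat.lt_floor_add_one _
    have hjn : ⌊t / eps⌋₊ < n + 1 := by
      have h1 : t / eps ≤ 2 * Real.pi / eps := by gcongr
      have h2 : (⌊t / eps⌋₊ : ℝ) ≤ n := hj1.trans (h1.trans (Nat.le_ceil _))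
      exact Nat.lt_succ_of_le (by exact_mod_cast h2)
    refine mem_iUnion₂.mpr ⟨⌊t / eps⌋₊, Finset.mem_range.mpr hjn, ?_⟩
    rw [mem_closedBall]
    have hd : |t - ⌊t / eps⌋₊ * eps| ≤ eps := by
      have h3 : (⌊t / eps⌋₊ : ℝ) * eps ≤ t := (le_div_iff₀ he).mp hj1
      have h4 : t < (⌊t / eps⌋₊ + 1) * eps := (div_lt_iff₀ he).mp hj2
      rw [abs_of_nonneg (by linarith)]
      linarith
    have h5 := hK t (⌊t / eps⌋₊ * eps)
    rw [← dist_eq_norm] at h5
    have h6 : K * |t - ⌊t / eps⌋₊ * eps| ≤ K * eps := by gcongr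
    calc dist l (phi (E (⌊t / eps⌋₊ * eps : ℝ)))
        ≤ dist l (phi (E t)) + dist (phi (E t)) (phi (E (⌊t / eps⌋₊ * eps : ℝ))) :=
          dist_triangle _ _ _
      _ ≤ eps + K * eps := add_le_add hl (h5.trans h6)
      _ = (1 + K) * eps := by ring
  have hnle : ((n : ℝ) + 1) ≤ (2 * Real.pi + 2) / eps := by
    have h1 : (n : ℝ) < 2 * Real.pi / eps + 1 := Nat.ceil_lt_add_one (by positivity)
    have h2 : (1 : ℝ) ≤ 1 / eps := by rw [le_div_iff₀ he]; linarith
    have h3 : (2 * Real.pi + 2) / eps = 2 * Real.pi / eps + 1 / eps + 1 / eps := by ring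
    rw [h3]; linarith
  calc volume {l : ℂ | infDist l (J phi) ≤ eps}
      ≤ volume (⋃ j ∈ Finset.range (n + 1),
          closedBall (phi (E (j * eps : ℝ))) ((1 + K) * eps)) := measure_mono hsub
    _ ≤ ∑ j ∈ Finset.range (n + 1),
          volume (closedBall (phi (E (j * eps : ℝ))) ((1 + K) * eps)) :=
        measure_biUnion_finset_le _ _
    _ = ∑ j ∈ Finset.range (n + 1), ENNReal.ofReal (Real.pi * ((1 + K) * eps) ^ 2) := by
        refine Finset.sum_congr rfl fun j _ => ?_
        rw [Complex.volume_closedBall, ← ENNReal.ofReal_pow (by positivity),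
          ENNReal.ofReal_mul hpi.le, mul_comm]
        congr 1
        rw [← NNReal.coe_real_pi, ENNReal.ofReal_coe_nnreal]
    _ = ENNReal.ofReal (((n : ℝ) + 1) * (Real.pi * ((1 + K) * eps) ^ 2)) := by
        rw [Finset.sum_const, Finset.card_range, nsmul_eq_mul,
          ENNReal.ofReal_mul (p := (n : ℝ) + 1) (by positivity), ← ENNReal.ofReal_natCast,
          Nat.cast_add, Nat.cast_one]
    _ ≤ ENNReal.ofReal ((2 * Real.pi + 2) * (Real.pi * (1 + K) ^ 2) * eps) := by
        refine ENNReal.ofReal_le_ofReal ?_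
        have h7 : ((n : ℝ) + 1) * (Real.pi * ((1 + K) * eps) ^ 2) ≤
            (2 * Real.pi + 2) / eps * (Real.pi * ((1 + K) * eps) ^ 2) := by gcongr
        refine h7.trans (le_of_eq ?_)
        field_simp

/-- The area of the curve is zero. -/
theorem vol_J {phi : ℂ → ℂ} {F : Set ℂ} (h : PwA phi F) : volume (J phi) = 0 := by
  obtain ⟨A, hA, hv⟩ := vol_nbhd h
  have h1 : ∀ eps : ℝ, 0 < eps → eps ≤ 1 → volume (J phi) ≤ ENNReal.ofReal (A * eps) := by
    intro eps he he1
    refine (measure_mono fun l hl => ?_).trans (hv eps he he1)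
    rw [mem_setOf_eq, infDist_zero_of_mem hl]
    exact he.le
  have h2 : Tendsto (fun eps : ℝ => ENNReal.ofReal (A * eps)) (𝓝[>] 0) (𝓝 0) := by
    have h3 : Tendsto (fun eps : ℝ => A * eps) (𝓝[>] 0) (𝓝 0) := by
      have h4 : Tendsto (fun eps : ℝ => A * eps) (𝓝 0) (𝓝 (A * 0)) :=
        (continuous_const.mul continuous_id).tendsto 0
      rw [mul_zero] at h4
      exact h4.mono_left nhdsWithin_le_nhds
    have h5 := ENNReal.tendsto_ofReal h3
    rwa [ENNReal.ofReal_zero] at h5
  have h6 : ∀ᶠ eps : ℝ in 𝓝[>] 0, volume (J phi) ≤ ENNReal.ofReal (A * eps) := by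
    have h7 : ∀ᶠ eps : ℝ in 𝓝[>] 0, eps ≤ 1 :=
      nhdsWithin_le_nhds (Iic_mem_nhds one_pos)
    filter_upwards [h7, self_mem_nhdsWithin] with eps he1 he
    exact h1 eps he he1
  exact le_antisymm (ge_of_tendsto h2 h6) bot_le

theorem dense_J {phi : ℂ → ℂ} {F : Set ℂ} (h : PwA phi F) : Dense (J phi)ᶜ := by
  rw [← interior_eq_empty_iff_dense_compl]
  exact Measure.interior_eq_empty_of_null (vol_J h)

/-- Near a point of `F` the function is given by one of the two analytic functions. -/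
theorem side_or {phi psi psi' : ℂ → ℂ} {t : ℂ} (ht : ‖t‖ = 1) (h : Side phi psi t 1)
    (h' : Side phi psi' t (-1)) :
    ∀ᶠ z in 𝓝 t, z ∈ sphere (0 : ℂ) 1 → phi z = psi z ∨ phi z = psi' z := by
  have ht0 : t ≠ 0 := by
    rintro rfl
    rw [norm_zero] at ht
    exact zero_ne_one ht
  have hc : Tendsto (fun z : ℂ => arg (z / t)) (𝓝 t) (𝓝 0) := by
    have h1 : ContinuousAt arg (t / t) := by
      rw [div_self ht0]
      exact continuousAt_arg (by simp)
    have h2 : ContinuousAt (fun z : ℂ => z / t) t := by fun_prop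
    have h3 : ContinuousAt (fun z : ℂ => arg (z / t)) t :=
      ContinuousAt.comp (f := fun z : ℂ => z / t) (g := arg) h1 h2
    have h4 := h3.tendsto
    rwa [div_self ht0, arg_one] at h4
  have h1 := h.2.2
  have h2 := h'.2.2
  rw [eventually_nhdsWithin_iff] at h1 h2
  have h3 : Tendsto (fun z : ℂ => -arg (z / t)) (𝓝 t) (𝓝 0) := by
    have := hc.neg
    rwa [neg_zero] at this
  filter_upwards [hc.eventually h1, h3.eventually h2] with z hz1 hz2 hz
  have hzt : t * E (arg (z / t)) = z := by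
    have h4 : ‖z / t‖ = 1 := by
      rw [norm_div, ht, mem_sphere_zero_iff_norm.1 hz, div_one]
    have h5 := Complex.norm_mul_exp_arg_mul_I (z / t)
    rw [h4, ofReal_one, one_mul] at h5
    unfold E
    rw [h5, mul_div_cancel₀ _ ht0]
  rcases le_total 0 (arg (z / t)) with h4 | h4
  · left
    have h5 := hz1 h4
    rw [one_mul, hzt] at h5
    exact h5
  · right
    have h5 := hz2 (show (0 : ℝ) ≤ -arg (z / t) by linarith)
    rw [neg_mul_neg, one_mul, hzt] at h5
    exact h5

theorem not_freq {psi : ℂ → ℂ} {t b : ℂ} (h : AnalyticAt ℂ psi t)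
    (h' : ¬ ∀ᶠ z in 𝓝 t, psi z = psi t) : ∀ᶠ z in 𝓝[≠] t, psi z ≠ b := by
  rcases h.eventually_eq_or_eventually_ne (analyticAt_const (v := b)) with h1 | h1
  · exfalso
    apply h'
    have h2 : psi t = b := h1.self_of_nhds
    filter_upwards [h1] with z hz
    rw [hz, h2]
  · exact h1

theorem level_fin {phi : ℂ → ℂ} {F : Set ℂ} (h : PwA phi F) (b : ℂ) :
    {z : ℂ | z ∈ sphere (0 : ℂ) 1 ∧ phi z = b}.Finite := by
  by_contra hinf
  obtain ⟨t, ht, hacc⟩ := Set.Infinite.exists_accPt_of_subset_isCompact hinf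
    (isCompact_sphere (0 : ℂ) 1) (fun z hz => hz.1)
  rw [accPt_iff_frequently_nhdsNE] at hacc
  apply hacc
  by_cases htF : t ∈ F
  · obtain ⟨⟨psi, h1⟩, ⟨psi', h2⟩⟩ := h.side t ht htF
    have h3 := side_or (mem_sphere_zero_iff_norm.1 ht) h1 h2
    filter_upwards [nhdsWithin_le_nhds h3, not_freq (b := b) h1.1 h1.2.1,
      not_freq (b := b) h2.1 h2.2.1] with z z1 z2 z3 hz
    rcases z1 hz.1 with h4 | h4
    · exact z2 (h4.symm.trans hz.2)
    · exact z3 (h4.symm.trans hz.2)
  · obtain ⟨h1, h2⟩ := h.reg t ht htF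
    have h3 : ¬ ∀ᶠ z in 𝓝 t, phi z = phi t := by
      intro h4
      apply h2
      have h5 : phi =ᶠ[𝓝 t] fun _ => phi t := h4
      rw [h5.deriv_eq, deriv_const]
    filter_upwards [not_freq (b := b) h1 h3] with z z1 hz
    exact z1 hz.2

theorem level_null {phi : ℂ → ℂ} {F : Set ℂ} (h : PwA phi F) (b : ℂ) :
    mu0 {x : UnitAddCircle | phi (e x) = b} = 0 := by
  apply PsiAux.null
  have h1 := (level_fin h b).preimage (f := e) (fun x _ y _ hxy => PsiAux.e_inj hxy)
  refine h1.subset fun x hx => ⟨?_, hx⟩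
  rw [mem_sphere_zero_iff_norm]
  unfold e
  simp

end Pool.Agent.TBirP
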