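import Pool.Agent.TBirP.ChC
import Pool.Agent.TBirP.VolP

/-!
# Elementary consequences of a chart

`c : Chart phi Phi q`, `x = c.x ≥ 0`, `l ∈ ball q c.s`. For `v : Hardy`, `z` in the disc: `ev z (T (fourier x * B.pz l) v) = z ^ x * prod (z - g j l) * ev z v`
(plus symbols, `ev` is multiplicative; older lemmas in TBir and TBirG: `ev_S`, `evB`, induct on the product). Range: if no `g j l` is on
the circle, `v` is in the range of `T (fourier x * B.pz l)` iff `co v i = 0` for `i < x` and `ev (g j l) v = 0` for all `j` with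
`‖g j l‖ < 1` (`‖g j l‖ > 1`: `S - g` is invertible; `‖g j l‖ < 1`: the range of `S - g` is the kernel of `ev g`; `T (fourier 1) = S`; the range of `S ^ x`;
different points). Injectivity. `l ∈ J phi` iff some `‖g j l‖ = 1` (`c.zer`).
`ext`: `hh l` with `(T Phi - l) (hh l) = f`: `z ^ x * prod (z - g j l) * ev z (hh l) = ev z (Z l f)`, so
`ev z (hh l) = ev z (Z l f) / (z ^ x * prod (z - g j l))`, differentiable in `l` near `q` for fixed `z ≠ 0` in the disc.
-/

set_option autoImplicit false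

open MeasureTheory Complex Set Filter Topology Metric AddCircle
open scoped ComplexConjugate InnerProductSpace ENNReal

namespace Pool.Agent.TBirP

open Pool.Agent.TBir Pool.Agent.TBirG Pool.Agent.TBirC

variable {phi : ℂ → ℂ} {Phi : CT} {q : ℂ}

/-- The product of the factors `zeta - a i`. -/
private noncomputable def xP {ι : Type} (s : Finset ι) (a : ι → ℂ) : CT :=
  ∏ i ∈ s, (fourier 1 - algebraMap ℂ CT (a i))

private theorem xP_plus {ι : Type} (s : Finset ι) (a : ι → ℂ) : Plus (xP s a) :=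
  TBirM.plus_prod _ fun j _ => TBirM.plus_sub (a j)

private theorem xT_empty {ι : Type} (a : ι → ℂ) : T (xP (∅ : Finset ι) a) = 1 := by
  unfold xP
  rw [Finset.prod_empty, T_one]

private theorem xT_insert {ι : Type} [DecidableEq ι] {s : Finset ι} {j : ι} (hj : j ∉ s)
    (a : ι → ℂ) : T (xP (insert j s) a) = (S - a j • (1 : Op)) * T (xP s a) := by
  have h1 : xP (insert j s) a = (fourier 1 - algebraMap ℂ CT (a j)) * xP s a := by
    unfold xP
    rw [Finset.prod_insert hj]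
  rw [h1, T_mul_right _ (xP_plus s a), T_sub, T_algebraMap]
  rfl

private theorem xT_four (n : ℕ) {ι : Type} (s : Finset ι) (a : ι → ℂ) :
    T (fourier (n : ℤ) * xP s a) = S ^ n * T (xP s a) := by
  rw [T_mul_right _ (xP_plus s a)]
  congr 1
  induction n with
  | zero => rw [Nat.cast_zero, idx_fourier_zero, T_one, pow_zero]
  | succ n ih =>
    rw [Nat.cast_succ, ← idx_fourier_mul, T_mul_right _ (plus_fourier (by norm_num)), ih, pow_succ]
    rfl

private theorem ev_pow {z : ℂ} (hz : ‖z‖ < 1) (n : ℕ) (v : Hardy) :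
    ev z ((S ^ n) v) = z ^ n * ev z v := by
  induction n with
  | zero => simp
  | succ n ih =>
    have h1 : (S ^ (n + 1)) v = S ((S ^ n) v) := by
      rw [pow_succ']
      rfl
    rw [h1, ev_S hz, ih, pow_succ]
    ring

private theorem ev_xT {ι : Type} (s : Finset ι) (a : ι → ℂ) {z : ℂ} (hz : ‖z‖ < 1) (v : Hardy) :
    ev z (T (xP s a) v) = (∏ i ∈ s, (z - a i)) * ev z v := by
  classical
  induction s using Finset.induction_on with
  | empty => rw [xT_empty]; simp
  | insert j s hj ih =>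
    rw [xT_insert hj, Finset.prod_insert hj, mul_apply_eq_comp, ev_S_sub hz, ih]
    ring

private theorem co_pow (n : ℕ) (v : Hardy) (i : ℕ) :
    co ((S ^ n) v) i = if i < n then 0 else co v (i - n) := by
  induction n generalizing i with
  | zero => simp
  | succ n ih =>
    have h1 : (S ^ (n + 1)) v = S ((S ^ n) v) := by
      rw [pow_succ']
      rfl
    rw [h1]
    cases i with
    | zero => rw [co_S_zero, if_pos (by omega)]
    | succ i =>
      rw [co_S_succ, ih]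
      by_cases hi : i < n
      · rw [if_pos hi, if_pos (by omega)]
      · rw [if_neg hi, if_neg (by omega)]
        congr 1
        omega

private theorem range_pow (n : ℕ) (v : Hardy) :
    (∃ w, (S ^ n) w = v) ↔ ∀ i < n, co v i = 0 := by
  constructor
  · rintro ⟨w, rfl⟩ i hi
    rw [co_pow, if_pos hi]
  · intro h
    refine ⟨Sa^[n] v, ext_co fun i => ?_⟩
    rw [co_pow]
    by_cases hi : i < n
    · rw [if_pos hi, h i hi]
    · rw [if_neg hi, evB_co_iter]
      congr 1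
      omega

private theorem range_xT {ι : Type} (s : Finset ι) (a : ι → ℂ)
    (ha : ∀ i ∈ s, ‖a i‖ ≠ 1) (hinj : ∀ i ∈ s, ∀ j ∈ s, a i = a j → i = j) (v : Hardy) :
    (∃ u, T (xP s a) u = v) ↔ ∀ i ∈ s, ‖a i‖ < 1 → ev (a i) v = 0 := by
  classical
  induction s using Finset.induction_on generalizing v with
  | empty =>
    rw [xT_empty]
    simp
  | insert j s hj ih =>
    have ih' := ih (fun i hi => ha i (Finset.mem_insert_of_mem hi))
      (fun i hi k hk => hinj i (Finset.mem_insert_of_mem hi) k (Finset.mem_insert_of_mem hk))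
    have hne : ∀ i ∈ s, a i - a j ≠ 0 := by
      intro i hi h0
      have h1 := hinj i (Finset.mem_insert_of_mem hi) j (Finset.mem_insert_self j s)
        (sub_eq_zero.1 h0)
      subst h1
      exact hj hi
    rw [xT_insert hj]
    constructor
    · rintro ⟨u, rfl⟩ i hi hlt
      rw [mul_apply_eq_comp, ev_S_sub hlt]
      rcases Finset.mem_insert.1 hi with rfl | hi'
      · rw [sub_self, zero_mul]
      · have h1 := (ih' (T (xP s a) u)).1 ⟨u, rfl⟩ i hi' hlt
        rw [h1, mul_zero]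
    · intro h
      obtain ⟨w, hw⟩ : ∃ w, (S - a j • (1 : Op)) w = v := by
        rcases lt_or_gt_of_ne (ha j (Finset.mem_insert_self j s)) with hlt | hgt
        · exact div_of_ev hlt (h j (Finset.mem_insert_self j s) hlt)
        · obtain ⟨U, hU⟩ := isUnit_S_sub hgt
          refine ⟨(↑U⁻¹ : Op) v, ?_⟩
          rw [← hU]
          have h1 : (↑U * ↑U⁻¹ : Op) = 1 := U.mul_inv
          calc (↑U : Op) ((↑U⁻¹ : Op) v) = (↑U * ↑U⁻¹ : Op) v := rfl
            _ = v := by rw [h1]; rfl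
      obtain ⟨u, hu⟩ := (ih' w).2 (by
        intro i hi hlt
        have h1 := h i (Finset.mem_insert_of_mem hi) hlt
        rw [← hw, ev_S_sub hlt] at h1
        exact (mul_eq_zero.1 h1).resolve_left (hne i hi))
      refine ⟨u, ?_⟩
      rw [mul_apply_eq_comp, hu, hw]

private theorem range_all (n : ℕ) {ι : Type} (s : Finset ι) (a : ι → ℂ)
    (ha : ∀ i ∈ s, ‖a i‖ ≠ 1) (ha0 : ∀ i ∈ s, a i ≠ 0)
    (hinj : ∀ i ∈ s, ∀ j ∈ s, a i = a j → i = j) (v : Hardy) :
    (∃ u, T (fourier (n : ℤ) * xP s a) u = v) ↔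
      (∀ i < n, co v i = 0) ∧ ∀ i ∈ s, ‖a i‖ < 1 → ev (a i) v = 0 := by
  rw [xT_four]
  constructor
  · rintro ⟨u, rfl⟩
    refine ⟨(range_pow n _).1 ⟨T (xP s a) u, rfl⟩, fun i hi hlt => ?_⟩
    rw [mul_apply_eq_comp, ev_pow hlt,
      (range_xT s a ha hinj (T (xP s a) u)).1 ⟨u, rfl⟩ i hi hlt, mul_zero]
  · rintro ⟨h1, h2⟩
    obtain ⟨w, rfl⟩ := (range_pow n v).2 h1
    obtain ⟨u, hu⟩ := (range_xT s a ha hinj w).2 (by
      intro i hi hlt
      have h3 := h2 i hi hlt
      rw [ev_pow hlt] at h3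
      exact (mul_eq_zero.1 h3).resolve_left (pow_ne_zero _ (ha0 i hi)))
    refine ⟨u, ?_⟩
    rw [mul_apply_eq_comp, hu]

private theorem inj_xT {ι : Type} (s : Finset ι) (a : ι → ℂ) {u : Hardy}
    (h : T (xP s a) u = 0) : u = 0 := by
  classical
  induction s using Finset.induction_on with
  | empty =>
    rw [xT_empty] at h
    exact h
  | insert j s hj ih =>
    rw [xT_insert hj, mul_apply_eq_comp] at h
    exact ih ((injective_iff_map_eq_zero _).1 (S_sub_injective (a j)) _ h)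

private theorem inj_pow (n : ℕ) {u : Hardy} (h : (S ^ n) u = 0) : u = 0 := by
  refine ext_co fun i => ?_
  have h1 := co_pow n u (i + n)
  rw [h, if_neg (by omega), Nat.add_sub_cancel] at h1
  rw [← h1, ← coL_apply, ← coL_apply, map_zero, map_zero]

private theorem pz_eq (B : Br phi q) (l : ℂ) : B.pz l = xP Finset.univ fun j => B.g j l := rfl

private theorem pj_eq (B : Br phi q) (j : Fin B.k) (l : ℂ) :
    B.pj j l = xP (Finset.univ.erase j) fun i => B.g i l := rfl

theorem ev_pz (c : Chart phi Phi q) (hx : 0 ≤ c.x) (l : ℂ) {z : ℂ} (hz : ‖z‖ < 1) (v : Hardy) :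
    ev z (T (fourier c.x * c.B.pz l) v) = z ^ c.x * (∏ j, (z - c.B.g j l)) * ev z v := by
  obtain ⟨n, hn⟩ := Int.eq_ofNat_of_zero_le hx
  rw [hn, pz_eq, xT_four, mul_apply_eq_comp, ev_pow hz, ev_xT _ _ hz, zpow_natCast]
  ring

theorem ev_pj (c : Chart phi Phi q) (hx : 0 ≤ c.x) (j : Fin c.B.k) (l : ℂ) {z : ℂ} (hz : ‖z‖ < 1)
    (v : Hardy) : ev z (T (fourier c.x * c.B.pj j l) v) =
      z ^ c.x * (∏ i ∈ Finset.univ.erase j, (z - c.B.g i l)) * ev z v := by
  obtain ⟨n, hn⟩ := Int.eq_ofNat_of_zero_le hx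
  rw [hn, pj_eq, xT_four, mul_apply_eq_comp, ev_pow hz, ev_xT _ _ hz, zpow_natCast]
  ring

theorem mem_J_iff (c : Chart phi Phi q) {l : ℂ} (hl : l ∈ ball q c.s) :
    l ∈ J phi ↔ ∃ j, ‖c.B.g j l‖ = 1 := by
  constructor
  · rintro ⟨z, hz, hzl⟩
    rw [mem_sphere_zero_iff_norm] at hz
    obtain ⟨j, hj⟩ := (c.zer l hl z hz).1 hzl
    exact ⟨j, by rw [hj]; exact hz⟩
  · rintro ⟨j, hj⟩
    exact ⟨c.B.g j l, mem_sphere_zero_iff_norm.2 hj, (c.zer l hl _ hj).2 ⟨j, rfl⟩⟩

theorem range_pz (c : Chart phi Phi q) (hx : 0 ≤ c.x) {l : ℂ} (hl : l ∈ ball q c.s) (hJ : l ∉ J phi)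
    (v : Hardy) : (∃ u, T (fourier c.x * c.B.pz l) u = v) ↔
      (∀ i : ℕ, (i : ℤ) < c.x → co v i = 0) ∧ ∀ j, ‖c.B.g j l‖ < 1 → ev (c.B.g j l) v = 0 := by
  obtain ⟨n, hn⟩ := Int.eq_ofNat_of_zero_le hx
  rw [mem_J_iff c hl] at hJ
  push Not at hJ
  rw [hn, pz_eq, range_all n Finset.univ (fun j => c.B.g j l) (fun j _ => hJ j)
    (fun j _ => norm_pos_iff.1 (lt_trans (by norm_num) (c.bd l hl j).1))
    (fun i _ j _ h => c.inj l hl i j h) v]
  simp only [Finset.mem_univ, true_imp_iff, Nat.cast_lt]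

theorem inj_pz (c : Chart phi Phi q) (hx : 0 ≤ c.x) {l : ℂ} {u : Hardy}
    (h : T (fourier c.x * c.B.pz l) u = 0) : u = 0 := by
  obtain ⟨n, hn⟩ := Int.eq_ofNat_of_zero_le hx
  rw [hn, pz_eq, xT_four, mul_apply_eq_comp] at h
  exact inj_xT _ _ (inj_pow n h)

private theorem sol_iff (c : Chart phi Phi q) (hx : 0 ≤ c.x) {l : ℂ} (hl : l ∈ ball q c.s)
    (h f : Hardy) : (T Phi - l • (1 : Op)) h = f ↔ T (fourier c.x * c.B.pz l) h = c.Z l f := by
  rw [c.fac hx l hl, mul_apply_eq_comp]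
  constructor
  · intro h1
    rw [← h1]
    calc T (fourier c.x * c.B.pz l) h = (c.Z l * c.Y l) (T (fourier c.x * c.B.pz l) h) := by
          rw [c.ZY l hl]; rfl
      _ = _ := rfl
  · intro h1
    rw [h1]
    calc c.Y l (c.Z l f) = (c.Y l * c.Z l) f := rfl
      _ = f := by rw [c.YZ l hl]; rfl

theorem rg_iff (c : Chart phi Phi q) (hx : 0 ≤ c.x) {l : ℂ} (hl : l ∈ ball q c.s) (hJ : l ∉ J phi)
    (f : Hardy) : Rg Phi f l ↔ (∀ i : ℕ, (i : ℤ) < c.x → co (c.Z l f) i = 0) ∧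
      ∀ j, ‖c.B.g j l‖ < 1 → ev (c.B.g j l) (c.Z l f) = 0 := by
  rw [← range_pz c hx hl hJ]
  unfold Rg
  exact exists_congr fun h => sol_iff c hx hl h f

theorem Chart.ext_loc (c : Chart phi Phi q) (hx : 0 ≤ c.x) {f : Hardy} {hh : ℂ → Hardy}
    (hh1 : ∀ l ∉ J phi, (T Phi - l • (1 : Op)) (hh l) = f) {z : ℂ} (hz : ‖z‖ < 1) (hz0 : z ≠ 0) :
    ∃ r > 0, ∃ G : ℂ → ℂ, DifferentiableOn ℂ G (ball q r) ∧
      ∀ l ∈ ball q r, l ∉ J phi → G l = ev z (hh l) := by
  have hqs : q ∈ ball q c.s := mem_ball_self c.s_pos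
  have hdg : ∀ j, DifferentiableOn ℂ (c.B.g j) (ball q c.s) := fun j =>
    (c.B.diff j).mono (ball_subset_ball c.s_le)
  have hdP : DifferentiableOn ℂ (fun l => ∏ j, (z - c.B.g j l)) (ball q c.s) := by
    refine DifferentiableOn.fun_finsetProd fun j _ => ?_
    exact (differentiableOn_const z).sub (hdg j)
  have hPq : ∏ j, (z - c.B.g j q) ≠ 0 := by
    rw [Finset.prod_ne_zero_iff]
    intro j _ h0
    have h1 := c.B.norm_q j
    rw [← sub_eq_zero.1 h0] at h1
    linarith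
  have hcP : ContinuousAt (fun l => ∏ j, (z - c.B.g j l)) q :=
    (hdP.differentiableAt (isOpen_ball.mem_nhds hqs)).continuousAt
  have hev : ∀ᶠ l in 𝓝 q, ∏ j, (z - c.B.g j l) ≠ 0 ∧ l ∈ ball q c.s :=
    (hcP.eventually_ne hPq).and (isOpen_ball.mem_nhds hqs)
  obtain ⟨r, hr, hball⟩ := Metric.mem_nhds_iff.1 hev
  refine ⟨r, hr, fun l => ev z (c.Z l f) / (z ^ c.x * ∏ j, (z - c.B.g j l)), ?_, ?_⟩
  · have hZ : DifferentiableOn ℂ (fun l => ev z (c.Z l f)) (ball q r) := by
      have h1 : DifferentiableOn ℂ c.Z (ball q r) := c.dZ.mono fun l hl => (hball hl).2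
      exact (ev z).differentiable.comp_differentiableOn (h1.clm_apply (differentiableOn_const f))
    refine hZ.div ((differentiableOn_const _).mul (hdP.mono fun l hl => (hball hl).2)) ?_
    intro l hl
    exact mul_ne_zero (zpow_ne_zero _ hz0) (hball hl).1
  · intro l hl hJ
    have h1 := (sol_iff c hx (hball hl).2 (hh l) f).1 (hh1 l hJ)
    have h2 := ev_pz c hx l hz (hh l)
    rw [h1] at h2
    have h3 : z ^ c.x * ∏ j, (z - c.B.g j l) ≠ 0 :=
      mul_ne_zero (zpow_ne_zero _ hz0) (hball hl).1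
    simp only
    rw [h2, mul_div_cancel_left₀ _ h3]

end Pool.Agent.TBirP
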