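import Pool.Agent.TBirP.Loc1

/-!
# The logarithm is Lipschitz

Paper proof. `d = infDist l (J phi) > 0` (`J phi` is compact), `K` the Lipschitz constant of `phi (E x)`, `A` the bound of
`|n|`. For `|x - y| ≤ d / (2 (K + 1))`: `(phi (E y) - l) / (phi (E x) - l) = 1 + w`, `‖w‖ ≤ K |x - y| / d ≤ 1 / 2`, so
`g (E y) - g (E x) + i n (y - x)` is `log (1 + w)` up to a constant in `2 pi i ℤ`, which is `0` by continuity along the segment from
`x` to `y` (continuous function with values in a discrete set), and `‖log (1 + w)‖ ≤ 2 ‖w‖`. Subdivide a long interval.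
So the constant is `(2 K + A) / d`, with `d ≤ 1`.
-/

set_option autoImplicit false

open MeasureTheory Complex Set Filter Topology Metric AddCircle
open scoped ComplexConjugate InnerProductSpace ENNReal

namespace Pool.Agent.TBirP

open Pool.Agent.TBir Pool.Agent.TBirG Pool.Agent.TBirC

private theorem lh_norm_E (x : ℝ) : ‖E x‖ = 1 := by
  unfold E
  exact Complex.norm_exp_ofReal_mul_I x

private theorem lh_cont_E : Continuous E := by
  unfold E
  fun_prop

/-- The step for short intervals. -/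
private theorem lh_loc {Phi : ℝ → ℂ} {G : ℝ → ℂ} (hG : Continuous G) (hP : ∀ x, Phi x = exp (G x))
    {K d : ℝ} (hK : 0 ≤ K) (hd : 0 < d) (hd1 : ∀ x, d ≤ ‖Phi x‖)
    (hL : ∀ x y, ‖Phi x - Phi y‖ ≤ K * |x - y|) {x y : ℝ} (hxy : K * |x - y| ≤ d / 2) :
    ‖G y - G x‖ ≤ 2 * (K / d) * |x - y| := by
  have hPx : Phi x ≠ 0 := by
    intro h0
    have := hd1 x
    rw [h0, norm_zero] at this
    linarith
  have hPc : Continuous Phi := by
    have : Phi = fun x => exp (G x) := funext hP
    rw [this]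
    exact Complex.continuous_exp.comp hG
  set w : ℝ → ℂ := fun t => (Phi t - Phi x) / Phi x with hw
  have hwc : Continuous w := by
    rw [hw]
    exact (hPc.sub continuous_const).div_const _
  have hwb : ∀ t ∈ uIcc x y, ‖w t‖ ≤ K * |x - t| / d ∧ ‖w t‖ ≤ 1 / 2 := by
    intro t ht
    have h1 : |x - t| ≤ |x - y| := by
      have := abs_sub_left_of_mem_uIcc ht
      rw [abs_sub_comm x t, abs_sub_comm x y]
      exact this
    have h2 : ‖w t‖ ≤ K * |x - t| / d := by
      simp only [hw]
      rw [norm_div]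
      have a1 : ‖Phi t - Phi x‖ ≤ K * |x - t| := by
        rw [abs_sub_comm]
        exact hL t x
      have a2 : 0 ≤ K * |x - t| := mul_nonneg hK (abs_nonneg _)
      calc ‖Phi t - Phi x‖ / ‖Phi x‖ ≤ K * |x - t| / ‖Phi x‖ :=
            div_le_div_of_nonneg_right a1 (norm_nonneg _)
        _ ≤ K * |x - t| / d := div_le_div_of_nonneg_left a2 hd (hd1 x)
    refine ⟨h2, h2.trans ?_⟩
    rw [div_le_iff₀ hd]
    have := mul_le_mul_of_nonneg_left h1 hK
    linarith
  have hslit : ∀ t ∈ uIcc x y, 1 + w t ∈ slitPlane := fun t ht =>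
    Complex.mem_slitPlane_of_norm_lt_one (lt_of_le_of_lt (hwb t ht).2 (by norm_num))
  set H : ℝ → ℂ := fun t => G t - G x - log (1 + w t) with hH
  have hHc : ContinuousOn H (uIcc x y) := by
    rw [hH]
    refine ((hG.sub continuous_const).continuousOn).sub ?_
    exact ContinuousOn.clog (continuous_const.add hwc).continuousOn hslit
  have hexp : ∀ t ∈ uIcc x y, exp (H t) = 1 := by
    intro t ht
    have hne : 1 + w t ≠ 0 := Complex.slitPlane_ne_zero (hslit t ht)
    have h1w : 1 + w t = Phi t / Phi x := by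
      simp only [hw]
      field_simp
      ring
    simp only [hH]
    rw [Complex.exp_sub, Complex.exp_sub, Complex.exp_log hne, ← hP, ← hP, h1w]
    rw [h1w] at hne
    exact div_self hne
  have hHx : H x = 0 := by
    simp [hH, hw]
  have hHy : H y = 0 := by
    obtain ⟨k, hk⟩ := Complex.exp_eq_one_iff.1 (hexp y right_mem_uIcc)
    have him : ∀ t ∈ uIcc x y, ∃ m : ℤ, (H t).im = 2 * Real.pi * m := by
      intro t ht
      obtain ⟨m, hm⟩ := Complex.exp_eq_one_iff.1 (hexp t ht)
      refine ⟨m, ?_⟩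
      rw [hm]
      simp
      ring
    have hfc : ContinuousOn (fun t => (H t).im) (uIcc x y) :=
      Complex.continuous_im.comp_continuousOn hHc
    have hiv := intermediate_value_uIcc hfc
    have hyk : (H y).im = 2 * Real.pi * k := by
      rw [hk]
      simp
      ring
    have hx0 : (H x).im = 0 := by rw [hHx]; rfl
    have hpi := Real.pi_pos
    have hno : ∀ t ∈ uIcc x y, ∀ s : ℤ, (s = 1 ∨ s = -1) → (H t).im ≠ Real.pi * s := by
      intro t ht s hs he
      obtain ⟨m, hm⟩ := him t ht
      rw [hm] at he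
      have h2 : (2 * m : ℝ) = s := by
        have : Real.pi * (2 * m) = Real.pi * s := by linarith
        exact mul_left_cancel₀ hpi.ne' this
      have h3 : (2 * m : ℤ) = s := by exact_mod_cast h2
      omega
    rcases lt_trichotomy k 0 with hk0 | hk0 | hk0
    · exfalso
      have hk1 : (k : ℝ) ≤ -1 := by
        have : k ≤ -1 := by omega
        exact_mod_cast this
      have hmem : (-Real.pi) ∈ uIcc ((H x).im) ((H y).im) := by
        rw [hx0, hyk, mem_uIcc]
        right
        constructor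
        · nlinarith
        · linarith
      obtain ⟨t, ht, hte⟩ := hiv hmem
      refine hno t ht (-1) (Or.inr rfl) ?_
      simp only at hte
      rw [hte]
      push_cast
      ring
    · rw [hk, hk0]
      simp
    · exfalso
      have hk1 : (1 : ℝ) ≤ k := by
        have : 1 ≤ k := by omega
        exact_mod_cast this
      have hmem : Real.pi ∈ uIcc ((H x).im) ((H y).im) := by
        rw [hx0, hyk, mem_uIcc]
        left
        constructor
        · exact hpi.le
        · nlinarith
      obtain ⟨t, ht, hte⟩ := hiv hmem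
      refine hno t ht 1 (Or.inl rfl) ?_
      simp only at hte
      rw [hte]
      push_cast
      ring
  have hfin : G y - G x = log (1 + w y) := by
    have : G y - G x - log (1 + w y) = 0 := hHy
    linear_combination this
  rw [hfin]
  obtain ⟨b1, b2⟩ := hwb y right_mem_uIcc
  calc ‖log (1 + w y)‖ ≤ 3 / 2 * ‖w y‖ := Complex.norm_log_one_add_half_le_self b2
    _ ≤ 3 / 2 * (K * |x - y| / d) := by linarith
    _ ≤ 2 * (K / d) * |x - y| := by
      have : 0 ≤ K * |x - y| / d := div_nonneg (mul_nonneg hK (abs_nonneg _)) hd.le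
      have e : 2 * (K / d) * |x - y| = 2 * (K * |x - y| / d) := by ring
      rw [e]
      linarith

/-- Subdivision. -/
private theorem lh_glob {G : ℝ → ℂ} {L r : ℝ} (hr : 0 < r)
    (h : ∀ x y, |x - y| ≤ r → ‖G y - G x‖ ≤ L * |x - y|) (x y : ℝ) :
    ‖G y - G x‖ ≤ L * |x - y| := by
  obtain ⟨N, hN⟩ := exists_nat_gt (|x - y| / r)
  have hN0 : (0 : ℝ) < N := lt_of_le_of_lt (div_nonneg (abs_nonneg _) hr.le) hN
  have hNr : |x - y| / N ≤ r := by
    rw [div_lt_iff₀ hr] at hN
    rw [div_le_iff₀ hN0]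
    linarith
  set p : ℕ → ℝ := fun i => x + i * ((y - x) / N) with hp
  have hp0 : p 0 = x := by simp [hp]
  have hpN : p N = y := by
    simp only [hp]
    field_simp
    ring
  have hstep : ∀ i, |p i - p (i + 1)| = |x - y| / N := by
    intro i
    have : p i - p (i + 1) = (x - y) / N := by
      simp only [hp]
      push_cast
      ring
    rw [this, abs_div, abs_of_pos hN0]
  have hsum : G y - G x = ∑ i ∈ Finset.range N, (G (p (i + 1)) - G (p i)) := by
    rw [Finset.sum_range_sub (fun i => G (p i)), hp0, hpN]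
  rw [hsum]
  calc ‖∑ i ∈ Finset.range N, (G (p (i + 1)) - G (p i))‖
      ≤ ∑ i ∈ Finset.range N, ‖G (p (i + 1)) - G (p i)‖ := norm_sum_le _ _
    _ ≤ ∑ _i ∈ Finset.range N, L * (|x - y| / N) := by
        refine Finset.sum_le_sum fun i _ => ?_
        have := h (p i) (p (i + 1)) (by rw [hstep]; exact hNr)
        rwa [hstep] at this
    _ = L * |x - y| := by
        rw [Finset.sum_const, Finset.card_range, nsmul_eq_mul]
        field_simp

theorem lip_log {phi : ℂ → ℂ} {F : Set ℂ} (h : PwA phi F) :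
    ∃ C : ℝ, 0 < C ∧ ∀ (l : ℂ) (n : ℤ) (g : ℂ → ℂ), ContinuousOn g (sphere 0 1) →
      (∀ z ∈ sphere (0 : ℂ) 1, phi z - l = z ^ n * exp (g z)) → infDist l (J phi) ≤ 1 →
      ∀ x y : ℝ, ‖g (E x) - g (E y)‖ ≤ C * (infDist l (J phi))⁻¹ * |x - y| := by
  obtain ⟨K, hK, hlip⟩ := lip h
  obtain ⟨A, hA⟩ := ang h
  refine ⟨2 * K + |A| + 1, by positivity, ?_⟩
  intro l n g hg hfac hd1 x y
  set d := infDist l (J phi) with hd
  have hE : ∀ t : ℝ, E t ∈ sphere (0 : ℂ) 1 := fun t => by
    rw [mem_sphere_zero_iff_norm]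
    exact lh_norm_E t
  have hne : (J phi).Nonempty := ⟨phi (E 0), E 0, hE 0, rfl⟩
  have hcl : IsClosed (J phi) := ((isCompact_sphere (0 : ℂ) 1).image_of_continuousOn h.cont).isClosed
  have hlJ : l ∉ J phi := by
    rintro ⟨z, hz, hzl⟩
    have h1 := hfac z hz
    rw [hzl, sub_self] at h1
    have hz0 : z ≠ 0 := by
      intro h0
      rw [h0, mem_sphere_zero_iff_norm, norm_zero] at hz
      exact zero_ne_one hz
    exact mul_ne_zero (zpow_ne_zero n hz0) (Complex.exp_ne_zero _) h1.symm
  have hd0 : 0 < d := (hcl.notMem_iff_infDist_pos hne).1 hlJ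
  set G : ℝ → ℂ := fun t => g (E t) + n * (t * I) with hG
  have hgE : Continuous fun t : ℝ => g (E t) := by
    rw [← continuousOn_univ]
    exact hg.comp lh_cont_E.continuousOn fun t _ => hE t
  have hGc : Continuous G := by
    rw [hG]
    refine hgE.add ?_
    fun_prop
  have hP : ∀ t : ℝ, phi (E t) - l = exp (G t) := by
    intro t
    rw [hfac (E t) (hE t)]
    simp only [hG]
    rw [Complex.exp_add, mul_comm (exp (g (E t)))]
    congr 1
    unfold E
    rw [← Complex.exp_int_mul]
  have hdn : ∀ t : ℝ, d ≤ ‖phi (E t) - l‖ := by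
    intro t
    have := infDist_le_dist_of_mem (x := l) (s := J phi) (⟨E t, hE t, rfl⟩ : phi (E t) ∈ J phi)
    rw [dist_comm, dist_eq_norm] at this
    exact this
  have hL : ∀ s t : ℝ, ‖(phi (E s) - l) - (phi (E t) - l)‖ ≤ K * |s - t| := by
    intro s t
    rw [sub_sub_sub_cancel_right]
    exact hlip s t
  have hr : 0 < d / (2 * (K + 1)) := by positivity
  have hloc : ∀ s t : ℝ, |s - t| ≤ d / (2 * (K + 1)) → ‖G t - G s‖ ≤ 2 * (K / d) * |s - t| := by
    intro s t hst
    refine lh_loc hGc hP hK hd0 hdn hL ?_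
    rw [le_div_iff₀ (by positivity)] at hst
    nlinarith [abs_nonneg (s - t)]
  have hglob := lh_glob hr hloc x y
  have hn : |(n : ℝ)| ≤ |A| := (hA l n g hg hfac).1.trans (le_abs_self A)
  have hsub : g (E x) - g (E y) = -(G y - G x) - n * ((x - y : ℝ) * I) := by
    simp only [hG]
    push_cast
    ring
  have hnI : ‖(n : ℂ) * ((x - y : ℝ) * I)‖ = |(n : ℝ)| * |x - y| := by
    rw [norm_mul, norm_mul, Complex.norm_I, mul_one, Complex.norm_real, Real.norm_eq_abs]
    congr 1
    rw [Complex.norm_intCast]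
  rw [hsub]
  calc ‖-(G y - G x) - n * ((x - y : ℝ) * I)‖
      ≤ ‖-(G y - G x)‖ + ‖(n : ℂ) * ((x - y : ℝ) * I)‖ := norm_sub_le _ _
    _ ≤ 2 * (K / d) * |x - y| + |A| * |x - y| := by
        rw [norm_neg, hnI]
        exact add_le_add hglob (mul_le_mul_of_nonneg_right hn (abs_nonneg _))
    _ ≤ (2 * K + |A| + 1) * d⁻¹ * |x - y| := by
        have h1 : 1 ≤ d⁻¹ := (one_le_inv₀ hd0).2 hd1
        have h2 : |A| ≤ |A| * d⁻¹ := le_mul_of_one_le_right (abs_nonneg _) h1
        have h3 : 0 ≤ d⁻¹ := by positivity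
        have h4 : 2 * (K / d) + |A| ≤ (2 * K + |A| + 1) * d⁻¹ := by
          rw [div_eq_mul_inv]
          nlinarith
        calc 2 * (K / d) * |x - y| + |A| * |x - y| = (2 * (K / d) + |A|) * |x - y| := by ring
          _ ≤ (2 * K + |A| + 1) * d⁻¹ * |x - y| := mul_le_mul_of_nonneg_right h4 (abs_nonneg _)

end Pool.Agent.TBirP
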