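import Pool.Agent.TBirP.Def
import Pool.Agent.TBirC.Wi

/-!
# Continuous logarithms on the circle

Paper proof. `exists_log`: `u` continuous and without zeros on the circle, `U x = u (E x)` on `[0, 2 pi]`; uniform
continuity: a partition `x_0 < ... < x_N` with `|U x / U x_k - 1| < 1` for `x` in `[x_k, x_(k+1)]`; the logarithm is
`log (U x_0) + sum_(i<k) log (U x_(i+1) / U x_i) + log (U x / U x_k)`; its values at `0` and `2 pi` differ by `2 pi i n`; subtract
`i n x` to get a function on the circle (`h z` with `E x = z`; continuity because `E` is a quotient map of `[0, 2 pi]`).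
Another way: `u (e x)` is a uniform limit of trigonometric polynomials (`wi_span`, proof of `exists_isUnit_T` in
TBirC/Wi.lean), `u = P * exp (small)`, and `P` is analytic near the circle without zeros (older modules of TBir give
`P = z ^ n * exp g`). `log_unique`: `exp` of a continuous function equals `z ^ m` times a constant, `m = 0`: lift to
`[0, 2 pi]`. `isUnit_exp`: approximate `h` by a trigonometric polynomial `p = p1 + p2`, `p1` plus, `p2` minus, `‖h - p‖ ≤ 1 / 4`;
`T (exp h) = T (exp p2) T (exp (h - p)) T (exp p1)`, three units.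
-/

set_option autoImplicit false

open MeasureTheory Complex Set Filter Topology Metric AddCircle
open scoped ComplexConjugate InnerProductSpace ENNReal

namespace Pool.Agent.TBirP

open Pool.Agent.TBir Pool.Agent.TBirG Pool.Agent.TBirC

theorem lg_summable {C eta : ℝ} (heta : 0 < eta) :
    Summable fun k : ℤ => C * Real.exp (-(eta * k.natAbs)) := by
  have h : Summable fun j : ℕ => C * Real.exp (-(eta * j)) := by
    refine Summable.mul_left _ ?_
    have h1 : (fun j : ℕ => Real.exp (-(eta * j))) = fun j : ℕ => Real.exp (-eta) ^ j := by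
      funext j
      rw [← Real.exp_nat_mul]
      congr 1
      ring
    rw [h1]
    exact summable_geometric_of_lt_one (Real.exp_pos _).le
      (by rw [Real.exp_lt_one_iff]; linarith)
  refine Summable.of_nat_of_neg ?_ ?_
  · simpa using h
  · simpa using h

theorem lg_mem {z : ℂ} (hz : z ∈ sphere (0 : ℂ) 1) : z ∈ Submonoid.unitSphere ℂ := hz

/-- A function on the circle, lifted to the plane. -/
theorem lg_lift {g : UnitAddCircle → ℂ} (hg : Continuous g) :
    ∃ h : ℂ → ℂ, ContinuousOn h (sphere 0 1) ∧ ∀ x, h (e x) = g x := by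
  classical
  set Ph := (homeomorphCircle (T := (1 : ℝ)) one_ne_zero) with hPh
  let h : ℂ → ℂ := fun z => if hz : z ∈ sphere (0 : ℂ) 1 then
    g (Ph.symm (⟨z, lg_mem hz⟩ : Circle)) else 0
  have hh : ∀ z (hz : z ∈ sphere (0 : ℂ) 1), h z = g (Ph.symm (⟨z, lg_mem hz⟩ : Circle)) :=
    fun z hz => dif_pos hz
  refine ⟨h, ?_, fun x => ?_⟩
  · rw [continuousOn_iff_continuous_domRestrict]
    have h1 : (sphere (0 : ℂ) 1).domRestrict h =
        fun z : sphere (0 : ℂ) 1 => g (Ph.symm (⟨(z : ℂ), lg_mem z.2⟩ : Circle)) := by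
      funext z
      exact hh z z.2
    rw [h1]
    have h2 : Continuous fun z : sphere (0 : ℂ) 1 => (⟨(z : ℂ), lg_mem z.2⟩ : Circle) :=
      continuous_subtype_val.subtype_mk _
    exact hg.comp (Ph.symm.continuous.comp h2)
  · have hx : e x ∈ sphere (0 : ℂ) 1 := by
      rw [mem_sphere_zero_iff_norm]
      exact norm_e x
    rw [hh _ hx]
    congr 1
    rw [Homeomorph.symm_apply_eq]
    apply Subtype.ext
    rw [hPh, homeomorphCircle_apply]
    rfl

theorem lg_factor {psi : CT} (h : ∀ x, psi x ≠ 0) :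
    ∃ (n : ℤ) (g : UnitAddCircle → ℂ), Continuous g ∧ ∀ x, psi x = e x ^ n * exp (g x) := by
  obtain ⟨x0, -, hx0⟩ := isCompact_univ.exists_isMinOn (univ_nonempty (α := UnitAddCircle))
    (f := fun x => ‖psi x‖) (by fun_prop)
  set c : ℝ := ‖psi x0‖ with hc
  have hc0 : 0 < c := norm_pos_iff.2 (h x0)
  have hcx : ∀ x, c ≤ ‖psi x‖ := fun x => hx0 (mem_univ x)
  have hcl : psi ∈ closure ((Submodule.span ℂ (range fun n : ℤ => (fourier n : CT)) :
      Submodule ℂ CT) : Set CT) := by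
    rw [← Submodule.topologicalClosure_coe, span_fourier_closure_eq_top]
    exact mem_univ psi
  obtain ⟨p, hp, hdist⟩ := Metric.mem_closure_iff.1 hcl (c / 3) (by positivity)
  rw [dist_eq_norm] at hdist
  have hpx : ∀ x, ‖psi x - p x‖ ≤ c / 3 := fun x =>
    ((psi - p).norm_coe_le_norm x).trans hdist.le
  have hplb : ∀ x, 2 * c / 3 ≤ ‖p x‖ := fun x => by
    have h1 := hpx x
    have h2 := hcx x
    have h3 : ‖psi x‖ ≤ ‖psi x - p x‖ + ‖p x‖ := by
      simpa using norm_add_le (psi x - p x) (p x)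
    linarith
  have hp0 : ∀ x, p x ≠ 0 := fun x => norm_pos_iff.1 (lt_of_lt_of_le (by positivity) (hplb x))
  obtain ⟨P, hP, hPe⟩ := wi_span hp
  have hP0 : ∀ z ∈ sphere (0 : ℂ) 1, P z ≠ 0 := by
    intro z hz
    obtain ⟨x, rfl⟩ := wi_exists_e hz
    rw [← hPe]
    exact hp0 x
  obtain ⟨n, hn⟩ := wind_int hP hP0
  obtain ⟨d, m, M, hd, hd1, hm, h1, h2⟩ := exists_ann hP hP0
  obtain ⟨C, eta, hC, heta, h3⟩ := Pool.Agent.TBir.exists_log (M := M) hd hd1 hm n
  obtain ⟨u, hu, hu'⟩ := h3 P h1 h2 hn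
  have hlt : ∀ x, ‖(psi x - p x) / p x‖ < 1 := fun x => by
    rw [norm_div, div_lt_one (norm_pos_iff.2 (hp0 x))]
    have h4 := hpx x
    have h5 := hplb x
    linarith
  refine ⟨n, fun x => (∑' k : ℤ, u k * (fourier k : CT) x) +
    Complex.log (1 + (psi x - p x) / p x), ?_, fun x => ?_⟩
  · refine Continuous.add ?_ ?_
    · refine continuous_tsum (fun k => by fun_prop) (lg_summable (C := C) heta) fun k x => ?_
      rw [norm_mul]
      have h4 : ‖(fourier k : CT) x‖ = 1 := by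
        rw [wi_fourier_e, norm_zpow, norm_e, one_zpow]
      rw [h4, mul_one]
      exact hu k
    · refine Continuous.clog ?_ fun x => Complex.mem_slitPlane_of_norm_lt_one (hlt x)
      exact continuous_const.add ((psi.continuous.sub p.continuous).div p.continuous hp0)
  · have h4 : 1 + (psi x - p x) / p x ≠ 0 :=
      Complex.slitPlane_ne_zero (Complex.mem_slitPlane_of_norm_lt_one (hlt x))
    rw [Complex.exp_add, Complex.exp_log h4, ← mul_assoc, ← hu' x, ← hPe x]
    have h5 := hp0 x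
    field_simp
    ring

theorem exists_log {u : ℂ → ℂ} (hu : ContinuousOn u (sphere 0 1))
    (h0 : ∀ z ∈ sphere (0 : ℂ) 1, u z ≠ 0) :
    ∃ n : ℤ, ∃ h : ℂ → ℂ, ContinuousOn h (sphere 0 1) ∧ ∀ z ∈ sphere (0 : ℂ) 1, u z = z ^ n * exp (h z) := by
  have he : ∀ x : UnitAddCircle, e x ∈ sphere (0 : ℂ) 1 := fun x => by
    rw [mem_sphere_zero_iff_norm]
    exact norm_e x
  let psi : CT := ⟨fun x => u (e x), hu.comp_continuous wi_e_cont he⟩
  obtain ⟨n, g, hg, hg'⟩ := lg_factor (psi := psi) fun x => h0 _ (he x)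
  obtain ⟨h, hh, hh'⟩ := lg_lift hg
  refine ⟨n, h, hh, fun z hz => ?_⟩
  obtain ⟨x, rfl⟩ := wi_exists_e hz
  rw [hh' x]
  exact hg' x

theorem lg_E_mem (x : ℝ) : E x ∈ sphere (0 : ℂ) 1 := by
  rw [mem_sphere_zero_iff_norm]
  exact Complex.norm_exp_ofReal_mul_I x

theorem lg_ne {z : ℂ} (hz : z ∈ sphere (0 : ℂ) 1) : z ≠ 0 := by
  rintro rfl
  simp at hz

theorem log_unique {n m : ℤ} {h k : ℂ → ℂ} (hh : ContinuousOn h (sphere 0 1))
    (hk : ContinuousOn k (sphere 0 1))
    (he : ∀ z ∈ sphere (0 : ℂ) 1, z ^ n * exp (h z) = z ^ m * exp (k z)) : n = m := by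
  have hE : Continuous E := by
    unfold E
    fun_prop
  have hF : Continuous fun x : ℝ => k (E x) - h (E x) :=
    (hk.sub hh).comp_continuous hE lg_E_mem
  have h1 : ∀ x : ℝ, ∃ j : ℤ, (((n - m : ℤ) : ℂ) * (x * I)) =
      (k (E x) - h (E x)) + j * (2 * Real.pi * I) := by
    intro x
    rw [← Complex.exp_eq_exp_iff_exists_int, Complex.exp_int_mul, Complex.exp_sub]
    have h2 := he (E x) (lg_E_mem x)
    have h3 : E x ≠ 0 := lg_ne (lg_E_mem x)
    have h4 : exp (x * I) = E x := rfl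
    rw [h4, zpow_sub₀ h3, div_eq_div_iff (zpow_ne_zero _ h3) (Complex.exp_ne_zero _)]
    rw [h2]
    ring
  choose f hf using h1
  have hpi : (2 * Real.pi * I : ℂ) ≠ 0 := Complex.two_pi_I_ne_zero
  have hf1 : ∀ x : ℝ, ((f x : ℝ) : ℂ) =
      ((((n - m : ℤ) : ℂ) * (x * I)) - (k (E x) - h (E x))) / (2 * Real.pi * I) := by
    intro x
    rw [hf x, eq_div_iff hpi]
    push_cast
    ring
  have hf2 : ∀ x : ℝ, (f x : ℝ) =
      (((((n - m : ℤ) : ℂ) * (x * I)) - (k (E x) - h (E x))) / (2 * Real.pi * I)).re := by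
    intro x
    rw [← hf1 x, Complex.ofReal_re]
  have hf3 : Continuous fun x : ℝ => (f x : ℝ) := by
    simp only [hf2]
    refine Complex.continuous_re.comp ?_
    refine Continuous.div_const ?_ _
    refine Continuous.sub ?_ hF
    fun_prop
  have hf4 : Continuous f := Int.isClosedEmbedding_coe_real.isInducing.continuous_iff.2 hf3
  have hf5 : f 0 = f (2 * Real.pi) :=
    (isPreconnected_univ : IsPreconnected (univ : Set ℝ)).constant hf4.continuousOn
      (mem_univ _) (mem_univ _)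
  have hE0 : E 0 = 1 := by simp [E]
  have hE1 : E (2 * Real.pi) = 1 := by
    unfold E
    push_cast
    exact Complex.exp_two_pi_mul_I
  have h2 := hf 0
  have h3 := hf (2 * Real.pi)
  rw [hE0] at h2
  rw [hE1, ← hf5] at h3
  have h4 : (((n - m : ℤ) : ℂ) * (2 * Real.pi * I)) = 0 := by
    push_cast at h2 h3 ⊢
    linear_combination h3 - h2
  rcases mul_eq_zero.1 h4 with h5 | h5
  · have h6 : n - m = 0 := by exact_mod_cast h5
    omega
  · exact absurd h5 hpi

theorem exists_wn {phi : ℂ → ℂ} (hc : ContinuousOn phi (sphere 0 1)) {l : ℂ} (hl : l ∉ J phi) :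
    ∃ n, Wn phi l n := by
  obtain ⟨n, h, hh, hh'⟩ := exists_log (u := fun z => phi z - l) (hc.sub continuousOn_const)
    fun z hz h0 => hl ⟨z, hz, sub_eq_zero.1 h0⟩
  exact ⟨n, h, hh, hh'⟩

theorem Wn.unique {phi : ℂ → ℂ} {l : ℂ} {n m : ℤ} (h : Wn phi l n) (h' : Wn phi l m) : n = m := by
  obtain ⟨g, hg, hg'⟩ := h
  obtain ⟨k, hk, hk'⟩ := h'
  exact log_unique hg hk fun z hz => (hg' z hz).symm.trans (hk' z hz)

theorem Wn.not_mem {phi : ℂ → ℂ} {l : ℂ} {n : ℤ} (h : Wn phi l n) : l ∉ J phi := by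
  rintro ⟨z, hz, hzl⟩
  obtain ⟨g, hg, hg'⟩ := h
  have h1 := hg' z hz
  rw [hzl, sub_self] at h1
  exact mul_ne_zero (zpow_ne_zero _ (lg_ne hz)) (Complex.exp_ne_zero _) h1.symm

theorem lg_pert {phi : ℂ → ℂ} (hc : ContinuousOn phi (sphere 0 1)) {l l' : ℂ} {n : ℤ}
    (h : Wn phi l n) (hlt : ∀ z ∈ sphere (0 : ℂ) 1, ‖l - l'‖ < ‖phi z - l‖) : Wn phi l' n := by
  obtain ⟨g, hg, hg'⟩ := h
  have h0 : ∀ z ∈ sphere (0 : ℂ) 1, phi z - l ≠ 0 := fun z hz =>
    norm_pos_iff.1 (lt_of_le_of_lt (norm_nonneg _) (hlt z hz))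
  have h1 : ∀ z ∈ sphere (0 : ℂ) 1, ‖(l - l') / (phi z - l)‖ < 1 := fun z hz => by
    rw [norm_div, div_lt_one (norm_pos_iff.2 (h0 z hz))]
    exact hlt z hz
  refine ⟨fun z => g z + Complex.log (1 + (l - l') / (phi z - l)), hg.add ?_, fun z hz => ?_⟩
  · refine ContinuousOn.clog ?_ fun z hz => Complex.mem_slitPlane_of_norm_lt_one (h1 z hz)
    exact continuousOn_const.add
      (continuousOn_const.div (hc.sub continuousOn_const) h0)
  · have h2 : 1 + (l - l') / (phi z - l) ≠ 0 :=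
      Complex.slitPlane_ne_zero (Complex.mem_slitPlane_of_norm_lt_one (h1 z hz))
    have h3 := h0 z hz
    rw [Complex.exp_add, Complex.exp_log h2, ← mul_assoc, ← hg' z hz]
    field_simp
    ring

theorem lg_nonempty : (sphere (0 : ℂ) 1).Nonempty := ⟨1, by simp⟩

theorem Wn.nhds {phi : ℂ → ℂ} (hc : ContinuousOn phi (sphere 0 1)) {l : ℂ} {n : ℤ}
    (h : Wn phi l n) : ∀ᶠ l' in 𝓝 l, Wn phi l' n := by
  obtain ⟨z0, hz0, hmin⟩ := (isCompact_sphere (0 : ℂ) 1).exists_isMinOn lg_nonempty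
    (f := fun z => ‖phi z - l‖) (hc.sub continuousOn_const).norm
  have hpos : 0 < ‖phi z0 - l‖ := by
    rw [norm_pos_iff]
    intro h0
    exact h.not_mem ⟨z0, hz0, sub_eq_zero.1 h0⟩
  filter_upwards [Metric.ball_mem_nhds l hpos] with l' hl'
  refine lg_pert hc h fun z hz => lt_of_lt_of_le ?_ (hmin hz)
  rw [Metric.mem_ball, dist_comm, dist_eq_norm] at hl'
  exact hl'

theorem Wn.of_preconnected {phi : ℂ → ℂ} (hc : ContinuousOn phi (sphere 0 1)) {A : Set ℂ}
    (hA : IsPreconnected A) (hJ : ∀ l ∈ A, l ∉ J phi) {l l' : ℂ} (hl : l ∈ A) (hl' : l' ∈ A)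
    {n : ℤ} (h : Wn phi l n) : Wn phi l' n := by
  classical
  let f : ℂ → ℤ := fun l => if h : ∃ n, Wn phi l n then h.choose else 0
  have hf : ∀ l n, Wn phi l n → f l = n := by
    intro l n h
    have h1 : ∃ n, Wn phi l n := ⟨n, h⟩
    have h2 : f l = h1.choose := dif_pos h1
    rw [h2]
    exact h1.choose_spec.unique h
  have hcont : ContinuousOn f A := by
    intro a ha
    obtain ⟨m, hm⟩ := exists_wn hc (hJ a ha)
    have h1 : f =ᶠ[𝓝 a] fun _ => m := by
      filter_upwards [hm.nhds hc] with b hb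
      exact hf b m hb
    exact (continuousAt_const.congr h1.symm).continuousWithinAt
  have h1 := hA.constant hcont hl hl'
  obtain ⟨m, hm⟩ := exists_wn hc (hJ l' hl')
  rw [hf l n h, hf l' m hm] at h1
  rw [h1]
  exact hm

theorem wn_large {phi : ℂ → ℂ} (hc : ContinuousOn phi (sphere 0 1)) :
    ∃ R : ℝ, ∀ l : ℂ, R < ‖l‖ → Wn phi l 0 := by
  obtain ⟨z0, hz0, hmax⟩ := (isCompact_sphere (0 : ℂ) 1).exists_isMaxOn lg_nonempty
    (f := fun z => ‖phi z‖) hc.norm
  refine ⟨‖phi z0‖, fun l hl => ?_⟩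
  have hl0 : l ≠ 0 := norm_pos_iff.1 (lt_of_le_of_lt (norm_nonneg _) hl)
  have h1 : ∀ z ∈ sphere (0 : ℂ) 1, ‖-(phi z / l)‖ < 1 := fun z hz => by
    rw [norm_neg, norm_div, div_lt_one (norm_pos_iff.2 hl0)]
    exact lt_of_le_of_lt (hmax hz) hl
  refine ⟨fun z => Complex.log (-l) + Complex.log (1 + -(phi z / l)), ?_, fun z hz => ?_⟩
  · refine continuousOn_const.add (ContinuousOn.clog ?_
      fun z hz => Complex.mem_slitPlane_of_norm_lt_one (h1 z hz))
    exact continuousOn_const.add (hc.div_const l).neg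
  · have h2 : 1 + -(phi z / l) ≠ 0 :=
      Complex.slitPlane_ne_zero (Complex.mem_slitPlane_of_norm_lt_one (h1 z hz))
    rw [Complex.exp_add, Complex.exp_log h2, Complex.exp_log (neg_ne_zero.2 hl0), zpow_zero,
      one_mul]
    field_simp
    ring

/-- A point off the curve. -/
theorem inq_iff_wn {phi : ℂ → ℂ} {l : ℂ} (hl : l ∉ J phi) {n : ℤ} : Inq phi l n ↔ Wn phi l n := by
  constructor
  · rintro ⟨k, t, _, ht, h, hh, hh'⟩
    have hk : k = 0 := by
      by_contra hk
      have h1 := ht ⟨0, Nat.pos_of_ne_zero hk⟩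
      exact hl ⟨_, mem_sphere_zero_iff_norm.2 h1.1, h1.2.2.1⟩
    subst hk
    refine ⟨h, hh, fun z hz => ?_⟩
    rw [hh' z hz, Finset.univ_eq_empty, Finset.prod_empty, mul_one]
  · rintro ⟨h, hh, hh'⟩
    refine ⟨0, Fin.elim0, fun i => i.elim0, fun i => i.elim0, h, hh, fun z hz => ?_⟩
    rw [hh' z hz, Finset.univ_eq_empty, Finset.prod_empty, mul_one]

theorem lg_wind_exp {P : ℂ → ℂ} (hP : AnalyticOnNhd ℂ P (sphere 0 1)) :
    wind (fun w => exp (P w)) = 0 := by
  have h1 : (∮ w in C(0, 1), deriv (fun w => exp (P w)) w / exp (P w)) =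
      ∮ w in C(0, 1), deriv P w := by
    apply circleIntegral.integral_congr zero_le_one
    intro z hz
    simp only
    have h2 := (hP z hz).differentiableAt
    rw [(h2.hasDerivAt.cexp).deriv, mul_div_assoc, mul_comm,
      div_mul_cancel₀ _ (Complex.exp_ne_zero _)]
  unfold wind
  rw [h1, circleIntegral.integral_eq_zero_of_hasDerivWithinAt' (f := P), mul_zero]
  intro z hz
  rw [abs_one] at hz
  exact (hP z hz).differentiableAt.hasDerivAt.hasDerivWithinAt

theorem isUnit_exp {h : ℂ → ℂ} (hh : ContinuousOn h (sphere 0 1)) :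
    IsUnit (TM (mf fun x => exp (h (e x)))) := by
  have he : ∀ x : UnitAddCircle, e x ∈ sphere (0 : ℂ) 1 := fun x => by
    rw [mem_sphere_zero_iff_norm]
    exact norm_e x
  let H : CT := ⟨fun x => h (e x), hh.comp_continuous wi_e_cont he⟩
  have hcl : H ∈ closure ((Submodule.span ℂ (range fun n : ℤ => (fourier n : CT)) :
      Submodule ℂ CT) : Set CT) := by
    rw [← Submodule.topologicalClosure_coe, span_fourier_closure_eq_top]
    exact mem_univ H
  obtain ⟨p, hp, hdist⟩ := Metric.mem_closure_iff.1 hcl (1 / 8) (by norm_num)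
  rw [dist_eq_norm] at hdist
  have hpx : ∀ x, ‖h (e x) - p x‖ ≤ 1 / 8 := fun x =>
    ((H - p).norm_coe_le_norm x).trans hdist.le
  obtain ⟨P, hP, hPe⟩ := wi_span hp
  let Q : CT := ⟨fun x => exp (p x), by fun_prop⟩
  have hQ : AnalyticOnNhd ℂ (fun w => exp (P w)) (sphere 0 1) := fun z hz => (hP z hz).cexp
  obtain ⟨C, eta, hC, heta, bp, bm, cp, cm, hbp, hbm, hcp, hcm, h1, h2, h3⟩ :=
    exists_hasWH (Psi := Q) (n := 0) hQ (fun z _ => Complex.exp_ne_zero _)
      (fun x => by
        change exp (p x) = exp (P (e x))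
        rw [hPe x]) (by rw [lg_wind_exp hP, Int.cast_zero])
  have sbp := summable_of_dec heta hbp
  have sbm := summable_of_dec heta hbm
  have scp := summable_of_dec heta hcp
  have scm := summable_of_dec heta hcm
  have e1 : T (plusS bp) * T (plusS cp) = 1 := by
    rw [← T_mul_right _ (plus_plusS scp), h1, T_one]
  have e1' : T (plusS cp) * T (plusS bp) = 1 := by
    rw [← T_mul_right _ (plus_plusS sbp), mul_comm, h1, T_one]
  have e2 : T (minusS bm) * T (minusS cm) = 1 := by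
    rw [← T_mul_left (minus_minusS sbm), h2, T_one]
  have e2' : T (minusS cm) * T (minusS bm) = 1 := by
    rw [← T_mul_left (minus_minusS scm), mul_comm, h2, T_one]
  let ep : CT := ⟨fun x => exp (H x - p x) - 1, by fun_prop⟩
  have hepx : ∀ x, ep x = exp (h (e x) - p x) - 1 := fun x => rfl
  have hep : ‖ep‖ ≤ 1 / 2 := by
    rw [ContinuousMap.norm_le _ (by norm_num)]
    intro x
    rw [hepx]
    have h4 := Complex.norm_exp_sub_one_le (x := h (e x) - p x) ((hpx x).trans (by norm_num))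
    have h5 := hpx x
    linarith
  have u3 : IsUnit (T (1 + ep)) := by
    have h4 : T (1 + ep) = 1 - (-T ep) := by rw [T_add, T_one, sub_neg_eq_add]
    rw [h4]
    apply isUnit_one_sub_of_norm_lt_one
    rw [norm_neg]
    exact ((norm_T_le ep).trans hep).trans_lt (by norm_num)
  have u1 : IsUnit (T (plusS cp)) := ⟨⟨T (plusS cp), T (plusS bp), e1', e1⟩, rfl⟩
  have u2 : IsUnit (T (minusS cm)) := ⟨⟨T (minusS cm), T (minusS bm), e2', e2⟩, rfl⟩
  have h5 : (fun x : UnitAddCircle => exp (h (e x))) =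
      fun x => (minusS cm * ((1 + ep) * plusS cp) : CT) x := by
    have h6 : (minusS cm * ((1 + ep) * plusS cp) : CT) = Q * (1 + ep) := by
      rw [h3, idx_fourier_zero, one_mul]
      ring
    rw [h6]
    funext x
    rw [ContinuousMap.mul_apply, ContinuousMap.add_apply, ContinuousMap.one_apply, hepx]
    change exp (h (e x)) = exp (p x) * _
    rw [add_sub_cancel, ← Complex.exp_add, add_sub_cancel]
  rw [h5, mf_ct, TM_mul, T_mul_left (minus_minusS scm), T_mul_right _ (plus_plusS scp)]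
  exact u2.mul (u3.mul u1)

end Pool.Agent.TBirP
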