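import Pool.Agent.TBirP.Poi
import Pool.Agent.TBirP.LipH
import Pool.Agent.TBirP.Lg

/-!
# Growth of the inverse

Paper proof of `growP`. `d = infDist l (J phi)`, `0 < d ≤ 1`, `phi z - l = z ^ n exp (g z)`, `h x = g (e x)` in `CT` (`e x = E (2 pi x)`),
Lipschitz constant `L = 2 pi C / d` (`lip_log`). Subtract from `g` a constant in `2 pi i ℤ` such that `|im (g 1)| ≤ pi`: then `|im h| ≤ M2 = A + pi`
(`ang`). `|re h| = |log ‖phi - l‖| ≤ M1 = log (1 / d) + C` (`d ≤ ‖phi - l‖ ≤ 2 sup ‖phi‖ + 1`). `poi` with `δ` such that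
`C L √δ ≤ 1 / 4`, that is `δ = c d ^ 2`, `log (1 / δ) ≤ C + 2 log (1 / d)`. `lb_exp` with `s = h - p - m`, `‖exp s - 1‖ ≤ 2 ‖s‖ ≤ 1 / 2`: lower bound
`exp (-(a + b)) / 2`, where `a = b = M1 + C (1 + log (1 / δ)) M2 ≤ C' + N' log (1 / d)`.
`lb_exp`: `Psi = exp m * (exp s * fourier n) * exp p`, `T Psi = T (exp m) T (exp s) T (fourier n) T (exp p)` (`T_mul_left`,
`T_mul_right`), `T (exp (-p)) T (exp p) = 1`, `‖T (exp (-p))‖ ≤ exp a`, so `exp (-a) ‖u‖ ≤ ‖T (exp p) u‖`, the same for `m`, `‖T (fourier n) u‖ = ‖u‖`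
for `n ≥ 0`, `‖T (exp s) u‖ ≥ ‖u‖ / 2`. See TBirR/Lb.lean (`LB`, `LB.mul`, `LB.of_left`, `lb_fourier`).
-/

set_option autoImplicit false

open MeasureTheory Complex Set Filter Topology Metric AddCircle
open scoped ComplexConjugate InnerProductSpace ENNReal

namespace Pool.Agent.TBirP

open Pool.Agent.TBir Pool.Agent.TBirG Pool.Agent.TBirC

open Pool.Agent.TBirR (LB)

/-- The Fourier coefficient as a continuous functional. -/
private noncomputable def fc (n : ℤ) : CT →L[ℂ] ℂ :=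
  LinearMap.mkContinuous
    { toFun := fun f => fourierCoeff f n
      map_add' := by
        intro f g
        exact congrFun (fourierCoeff.add (f.continuous.integrable_of_hasCompactSupport
          (HasCompactSupport.of_compactSpace _)) (g.continuous.integrable_of_hasCompactSupport
          (HasCompactSupport.of_compactSpace _))) n
      map_smul' := by
        intro c f
        exact fourierCoeff.const_smul f c n } 1 (by
    intro f
    change ‖fourierCoeff f n‖ ≤ 1 * ‖f‖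
    rw [one_mul]
    unfold fourierCoeff
    refine (norm_integral_le_integral_norm _).trans ?_
    refine (integral_mono_of_nonneg (ae_of_all _ fun _ => norm_nonneg _)
      (integrable_const ‖f‖) (ae_of_all _ fun x => ?_)).trans ?_
    · simp only [norm_smul]
      have : ‖(fourier (-n) : CT) x‖ = 1 := Circle.norm_coe _
      rw [this, one_mul]
      exact f.norm_coe_le_norm x
    · simp)

private theorem fc_apply (n : ℤ) (f : CT) : fc n f = fourierCoeff f n := rfl

/-- The exponential of a symbol. -/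
private noncomputable def ex (p : CT) : CT := ⟨fun x => exp (p x), by fun_prop⟩

private theorem ex_apply (p : CT) (x : UnitAddCircle) : ex p x = exp (p x) := rfl

private theorem ex_hasSum (p : CT) :
    HasSum (fun n : ℕ => ((n.factorial : ℂ)⁻¹) • p ^ n) (ex p) := by
  have h1 : HasSum (fun n : ℕ => ((n.factorial : ℂ)⁻¹) • p ^ n) (NormedSpace.exp p) :=
    NormedSpace.exp_series_hasSum_exp' p
  have h2 : NormedSpace.exp p = ex p := by
    ext x
    have h3 := h1.mapL (ContinuousMap.evalCLM ℂ x)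
    have h4 : HasSum (fun n : ℕ => ((n.factorial : ℂ)⁻¹) • (p x) ^ n) (NormedSpace.exp (p x)) :=
      NormedSpace.exp_series_hasSum_exp' (p x)
    have h5 : (fun n : ℕ => ContinuousMap.evalCLM ℂ x (((n.factorial : ℂ)⁻¹) • p ^ n)) =
        fun n : ℕ => ((n.factorial : ℂ)⁻¹) • (p x) ^ n := by
      funext n
      rfl
    rw [h5] at h3
    have h6 := h3.unique h4
    rw [ex_apply, Complex.exp_eq_exp_ℂ]
    exact h6
  rw [← h2]
  exact h1

private theorem plus_one : Plus (1 : CT) := by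
  have := plus_algebraMap (1 : ℂ)
  rwa [map_one] at this

private theorem minus_one : Minus (1 : CT) := by
  have := minus_algebraMap (1 : ℂ)
  rwa [map_one] at this

private theorem plus_ex {p : CT} (hp : Plus p) : Plus (ex p) := by
  have h1 : ∀ k : ℕ, Plus (p ^ k) := by
    intro k
    induction k with
    | zero =>
      rw [pow_zero]
      exact plus_one
    | succ k ih =>
      rw [pow_succ]
      exact ih.mul hp
  intro n hn
  have h2 := (ex_hasSum p).mapL (fc n)
  have h3 : (fun k : ℕ => fc n (((k.factorial : ℂ)⁻¹) • p ^ k)) = fun _ => 0 := by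
    funext k
    rw [map_smul, fc_apply, h1 k n hn, smul_zero]
  rw [h3] at h2
  exact h2.unique hasSum_zero

private theorem minus_ex {p : CT} (hp : Minus p) : Minus (ex p) := by
  have h1 : ∀ k : ℕ, Minus (p ^ k) := by
    intro k
    induction k with
    | zero =>
      rw [pow_zero]
      exact minus_one
    | succ k ih =>
      rw [pow_succ]
      exact ih.mul hp
  intro n hn
  have h2 := (ex_hasSum p).mapL (fc n)
  have h3 : (fun k : ℕ => fc n (((k.factorial : ℂ)⁻¹) • p ^ k)) = fun _ => 0 := by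
    funext k
    rw [map_smul, fc_apply, h1 k n hn, smul_zero]
  rw [h3] at h2
  exact h2.unique hasSum_zero

private theorem ex_neg_mul (p : CT) : ex (-p) * ex p = 1 := by
  ext x
  rw [ContinuousMap.mul_apply, ex_apply, ex_apply, ContinuousMap.neg_apply, ← Complex.exp_add,
    neg_add_cancel, Complex.exp_zero, ContinuousMap.one_apply]

private theorem norm_ex_neg {p : CT} {a : ℝ} (ha : ∀ x, |(p x).re| ≤ a) :
    ‖ex (-p)‖ ≤ Real.exp a := by
  rw [ContinuousMap.norm_le _ (Real.exp_pos _).le]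
  intro x
  rw [ex_apply, Complex.norm_exp, ContinuousMap.neg_apply, Complex.neg_re]
  exact Real.exp_le_exp.2 ((neg_le_abs _).trans (ha x))

theorem lb_exp {p m s Psi : CT} (hp : Plus p) (hm : Minus m) (hs : ‖s‖ ≤ 1 / 4) {n : ℤ}
    (hn : 0 ≤ n) (hPsi : ∀ x, Psi x = e x ^ n * exp (p x + m x + s x)) {a b : ℝ}
    (ha : ∀ x, |(p x).re| ≤ a) (hb : ∀ x, |(m x).re| ≤ b) :
    LB (Real.exp (-(a + b)) / 2) (T Psi) := by
  have hnp : Plus (-p) := by
    have : (-p : CT) = 0 - p := by rw [zero_sub]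
    rw [this]
    refine Plus.sub ?_ hp
    have := plus_algebraMap (0 : ℂ)
    rwa [map_zero] at this
  have hnm : Minus (-m) := by
    have : (-m : CT) = 0 - m := by rw [zero_sub]
    rw [this]
    refine Minus.sub ?_ hm
    have := minus_algebraMap (0 : ℂ)
    rwa [map_zero] at this
  have hfac : Psi = ex m * ((ex s * fourier n) * ex p) := by
    ext x
    rw [hPsi, ContinuousMap.mul_apply, ContinuousMap.mul_apply, ContinuousMap.mul_apply, ex_apply,
      ex_apply, ex_apply, wi_fourier_e, Complex.exp_add, Complex.exp_add]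
    ring
  have hT : T Psi = T (ex m) * ((T (ex s) * T (fourier n)) * T (ex p)) := by
    rw [hfac, T_mul_left (minus_ex hm), T_mul_right _ (plus_ex hp), T_mul_right _ (plus_fourier hn)]
  have l1 : LB (Real.exp a)⁻¹ (T (ex p)) := by
    refine LB.of_left (Real.exp_pos _) ((norm_T_le _).trans (norm_ex_neg ha)) ?_
    rw [← T_mul_right _ (plus_ex hp), ex_neg_mul, T_one]
  have l2 : LB (Real.exp b)⁻¹ (T (ex m)) := by
    refine LB.of_left (Real.exp_pos _) ((norm_T_le _).trans (norm_ex_neg hb)) ?_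
    rw [← T_mul_left (minus_ex hnm), ex_neg_mul, T_one]
  have l3 : LB (1 / 2) (T (ex s)) := by
    intro u
    have hep : ‖ex s - 1‖ ≤ 1 / 2 := by
      rw [ContinuousMap.norm_le _ (by norm_num)]
      intro x
      rw [ContinuousMap.sub_apply, ContinuousMap.one_apply, ex_apply]
      have h5 : ‖s x‖ ≤ 1 / 4 := (s.norm_coe_le_norm x).trans hs
      have h4 := Complex.norm_exp_sub_one_le (x := s x) (h5.trans (by norm_num))
      linarith
    have h1 : T (ex s) = 1 + T (ex s - 1) := by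
      rw [← T_one, ← T_add]
      congr 1
      ring
    have h2 : T (ex s) u = u + T (ex s - 1) u := by
      rw [h1]
      rfl
    have h3 : ‖T (ex s - 1) u‖ ≤ 1 / 2 * ‖u‖ :=
      ((T (ex s - 1)).le_opNorm u).trans
        (mul_le_mul_of_nonneg_right ((norm_T_le _).trans hep) (norm_nonneg _))
    have h4 : ‖u‖ ≤ ‖u + T (ex s - 1) u‖ + ‖T (ex s - 1) u‖ := by
      have := norm_sub_le (u + T (ex s - 1) u) (T (ex s - 1) u)
      rwa [add_sub_cancel_right] at this
    rw [h2]
    linarith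
  have l4 : LB 1 (T (fourier n)) := Pool.Agent.TBirR.lb_fourier hn
  rw [hT]
  have l5 := l2.mul (by positivity) ((l3.mul (by norm_num) l4).mul (by norm_num) l1)
  have e1 : (Real.exp b)⁻¹ * (1 / 2 * 1 * (Real.exp a)⁻¹) = Real.exp (-(a + b)) / 2 := by
    rw [neg_add, Real.exp_add, Real.exp_neg, Real.exp_neg]
    ring
  rwa [e1] at l5

private theorem e_eq (x : ℝ) : e (x : UnitAddCircle) = E (2 * Real.pi * x) := by
  rw [e_coe, circleMap, E]
  simp

private theorem e_mem (x : UnitAddCircle) : e x ∈ sphere (0 : ℂ) 1 := by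
  rw [mem_sphere_zero_iff_norm]
  exact norm_e x

/-- Adding a constant to the logarithm. -/
private theorem adjust {phi : ℂ → ℂ} {l : ℂ} {n : ℤ} {g : ℂ → ℂ} (hg : ContinuousOn g (sphere 0 1))
    (hg' : ∀ z ∈ sphere (0 : ℂ) 1, phi z - l = z ^ n * exp (g z)) :
    ∃ k : ℂ → ℂ, ContinuousOn k (sphere 0 1) ∧
      (∀ z ∈ sphere (0 : ℂ) 1, phi z - l = z ^ n * exp (k z)) ∧ |(k 1).im| ≤ Real.pi := by
  set j : ℤ := round ((g 1).im / (2 * Real.pi)) with hj
  refine ⟨fun z => g z - j * (2 * Real.pi * I), hg.sub continuousOn_const, fun z hz => ?_, ?_⟩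
  · rw [hg' z hz, Complex.exp_sub, Complex.exp_int_mul_two_pi_mul_I, div_one]
  · have h1 : (g 1 - j * (2 * Real.pi * I)).im = (g 1).im - j * (2 * Real.pi) := by
      simp
    rw [h1]
    have h2 := abs_sub_round ((g 1).im / (2 * Real.pi))
    rw [← hj] at h2
    have hpi : 0 < 2 * Real.pi := by positivity
    have h3 : (g 1).im - j * (2 * Real.pi) = ((g 1).im / (2 * Real.pi) - j) * (2 * Real.pi) := by
      field_simp
    rw [h3, abs_mul, abs_of_pos hpi]
    calc |(g 1).im / (2 * Real.pi) - j| * (2 * Real.pi) ≤ 1 / 2 * (2 * Real.pi) :=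
          mul_le_mul_of_nonneg_right h2 hpi.le
      _ = Real.pi := by ring

theorem growP {phi : ℂ → ℂ} {F : Set ℂ} (h : PwA phi F) {Phi : CT} (hPhi : ∀ x, Phi x = phi (e x)) :
    ∃ (C : ℝ) (N : ℕ), 0 < C ∧ ∀ l ∉ J phi, infDist l (J phi) ≤ 1 → ∀ n : ℤ, 0 ≤ n → Wn phi l n →
      ∀ u : Hardy, ‖u‖ ≤ C * (infDist l (J phi))⁻¹ ^ N * ‖(T Phi - l • (1 : Op)) u‖ := by
  obtain ⟨A0, hA0⟩ := ang h
  obtain ⟨C1, hC1, hlip⟩ := lip_log h
  obtain ⟨C2, hC2, hpoi⟩ := poi
  have hJc : IsCompact (J phi) := (isCompact_sphere (0 : ℂ) 1).image_of_continuousOn h.cont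
  have hJn : (J phi).Nonempty := ⟨phi 1, 1, by simp, rfl⟩
  obtain ⟨B, hB⟩ := hJc.isBounded.exists_norm_le
  set A : ℝ := max A0 0 with hA
  have hA00 : 0 ≤ A := le_max_right _ _
  have hAA : A0 ≤ A := le_max_left _ _
  have hB0 : 0 ≤ B := by
    obtain ⟨w, hw⟩ := hJn
    exact (norm_nonneg _).trans (hB w hw)
  set M2 : ℝ := Real.pi + A with hM2
  have hpi := Real.pi_pos
  have hM20 : 0 ≤ M2 := by positivity
  set K0 : ℝ := Real.log (2 * B + 2) with hK0
  have hK00 : 0 ≤ K0 := Real.log_nonneg (by linarith)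
  set c0 : ℝ := min (1 / (8 * Real.pi * C1 * C2)) (1 / 2) with hc0
  have hc00 : 0 < c0 := lt_min (by positivity) (by norm_num)
  have hc01 : c0 ≤ 1 / 2 := min_le_right _ _
  have hc02 : c0 * (8 * Real.pi * C1 * C2) ≤ 1 := by
    have h1 : c0 ≤ 1 / (8 * Real.pi * C1 * C2) := min_le_left _ _
    rwa [le_div_iff₀ (by positivity)] at h1
  set K1 : ℝ := 2 * K0 + 2 * C2 * M2 * (1 + 2 * Real.log (1 / c0)) with hK1
  set K2 : ℝ := 2 + 4 * C2 * M2 with hK2
  refine ⟨2 * Real.exp K1, ⌈K2⌉₊, by positivity, ?_⟩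
  intro l hl hd1 n hn hW u
  obtain ⟨g0, hg0, hg0'⟩ := hW
  obtain ⟨g, hg, hg', hg1⟩ := adjust hg0 hg0'
  set d : ℝ := infDist l (J phi) with hd
  have hd0 : 0 < d := (hJc.isClosed.notMem_iff_infDist_pos hJn).1 hl
  have him : ∀ z ∈ sphere (0 : ℂ) 1, |(g z).im| ≤ M2 := by
    intro z hz
    have h1 := (hA0 l n g hg hg').2 z hz 1 (by simp)
    have h2 : |(g z).im| ≤ |(g z).im - (g 1).im| + |(g 1).im| := by
      have := abs_add_le ((g z).im - (g 1).im) (g 1).im
      rwa [sub_add_cancel] at this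
    linarith
  have hld : 0 ≤ Real.log (1 / d) := Real.log_nonneg (by rw [le_div_iff₀ hd0]; linarith)
  have hre : ∀ z ∈ sphere (0 : ℂ) 1, |(g z).re| ≤ Real.log (1 / d) + K0 := by
    intro z hz
    have hz0 : z ≠ 0 := lg_ne hz
    have h1 : Real.exp (g z).re = ‖phi z - l‖ := by
      rw [hg' z hz, norm_mul, norm_zpow, mem_sphere_zero_iff_norm.1 hz, one_zpow, one_mul,
        Complex.norm_exp]
    have h2 : d ≤ ‖phi z - l‖ := by
      rw [← dist_eq_norm, dist_comm]
      exact infDist_le_dist_of_mem ⟨z, hz, rfl⟩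
    have h3 : ‖phi z - l‖ ≤ 2 * B + 2 := by
      obtain ⟨w, hw, hwd⟩ := hJc.exists_infDist_eq_dist hJn l
      have e1 : ‖l‖ ≤ ‖l - w‖ + ‖w‖ := by
        have := norm_add_le (l - w) w
        rwa [sub_add_cancel] at this
      have e2 : ‖l - w‖ ≤ 1 := by
        rw [← dist_eq_norm, ← hwd]
        exact hd1
      have e3 := hB w hw
      have e4 := hB (phi z) ⟨z, hz, rfl⟩
      have e5 := norm_sub_le (phi z) l
      linarith
    have h4 : (g z).re = Real.log ‖phi z - l‖ := by rw [← h1, Real.log_exp]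
    have h5 : Real.log d ≤ Real.log ‖phi z - l‖ := Real.log_le_log hd0 h2
    have h6 : Real.log ‖phi z - l‖ ≤ K0 := Real.log_le_log (hd0.trans_le h2) h3
    have h7 : Real.log (1 / d) = - Real.log d := by rw [one_div, Real.log_inv]
    rw [abs_le, h4]
    constructor
    · rw [h7]
      linarith
    · linarith
  let H : CT := ⟨fun x => g (e x), hg.comp_continuous wi_e_cont e_mem⟩
  have hHx : ∀ x, H x = g (e x) := fun x => rfl
  set δ : ℝ := (c0 * d) ^ 2 with hδ
  have hcd : 0 < c0 * d := mul_pos hc00 hd0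
  have hcd1 : c0 * d ≤ 1 / 2 := by
    calc c0 * d ≤ 1 / 2 * 1 := mul_le_mul hc01 hd1 hd0.le (by norm_num)
      _ = 1 / 2 := by norm_num
  have hsq : Real.sqrt δ = c0 * d := Real.sqrt_sq hcd.le
  obtain ⟨p, m, hp, hm, hs, hap, ham⟩ := hpoi H (C1 * d⁻¹ * (2 * Real.pi)) (Real.log (1 / d) + K0)
    M2 δ (by positivity) (by positivity) (by rw [hδ]; nlinarith) (by
      intro x y
      rw [hHx, hHx, e_eq, e_eq]
      refine (hlip l n g hg hg' hd1 _ _).trans (le_of_eq ?_)
      have : 2 * Real.pi * x - 2 * Real.pi * y = 2 * Real.pi * (x - y) := by ring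
      rw [this, abs_mul, abs_of_pos (by positivity : (0 : ℝ) < 2 * Real.pi), ← hd]
      ring) (fun x => hre _ (e_mem x)) (fun x => him _ (e_mem x))
  have hs' : ‖H - p - m‖ ≤ 1 / 4 := by
    refine hs.trans ?_
    rw [hsq]
    have : C2 * (C1 * d⁻¹ * (2 * Real.pi)) * (c0 * d) = c0 * (8 * Real.pi * C1 * C2) / 4 * (d⁻¹ * d) := by
      ring
    rw [this, inv_mul_cancel₀ hd0.ne', mul_one]
    linarith
  set a : ℝ := Real.log (1 / d) + K0 + C2 * (1 + Real.log (1 / δ)) * M2 with ha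
  have hlb := lb_exp (Psi := Phi - algebraMap ℂ CT l) hp hm hs' hn (by
    intro x
    have e1 : (Phi - algebraMap ℂ CT l) x = phi (e x) - l := by
      rw [ContinuousMap.sub_apply, hPhi]
      rfl
    have e2 : p x + m x + (H - p - m) x = g (e x) := by
      rw [ContinuousMap.sub_apply, ContinuousMap.sub_apply, hHx]
      ring
    rw [e1, e2]
    exact hg' _ (e_mem x)) hap ham u
  rw [T_sub_smul] at hlb
  have hlδ : Real.log (1 / δ) = 2 * Real.log (1 / c0) + 2 * Real.log (1 / d) := by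
    have : 1 / δ = (1 / c0 * (1 / d)) ^ 2 := by
      rw [hδ]
      field_simp
    rw [this, Real.log_pow, Real.log_mul (by positivity) (by positivity)]
    push_cast
    ring
  have hab : a + a = K1 + K2 * Real.log (1 / d) := by
    rw [ha, hlδ, hK1, hK2]
    ring
  have hexp : Real.exp (a + a) ≤ Real.exp K1 * d⁻¹ ^ ⌈K2⌉₊ := by
    rw [hab, Real.exp_add]
    refine mul_le_mul_of_nonneg_left ?_ (Real.exp_pos _).le
    have h1 : d⁻¹ ^ ⌈K2⌉₊ = Real.exp (⌈K2⌉₊ * Real.log (1 / d)) := by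
      rw [mul_comm, Real.exp_mul, Real.exp_log (by positivity), Real.rpow_natCast, one_div]
    rw [h1]
    exact Real.exp_le_exp.2 (mul_le_mul_of_nonneg_right (Nat.le_ceil K2) hld)
  have hfin : ‖u‖ ≤ 2 * Real.exp (a + a) * ‖(T Phi - l • (1 : Op)) u‖ := by
    have h1 : Real.exp (-(a + a)) / 2 * ‖u‖ ≤ ‖(T Phi - l • (1 : Op)) u‖ := hlb
    have h2 := mul_le_mul_of_nonneg_left h1 (by positivity : (0 : ℝ) ≤ 2 * Real.exp (a + a))
    have h3 : 2 * Real.exp (a + a) * (Real.exp (-(a + a)) / 2 * ‖u‖) = ‖u‖ := by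
      rw [Real.exp_neg]
      field_simp
    rwa [h3] at h2
  refine hfin.trans (mul_le_mul_of_nonneg_right ?_ (norm_nonneg _))
  calc 2 * Real.exp (a + a) ≤ 2 * (Real.exp K1 * d⁻¹ ^ ⌈K2⌉₊) :=
        mul_le_mul_of_nonneg_left hexp (by norm_num)
    _ = 2 * Real.exp K1 * d⁻¹ ^ ⌈K2⌉₊ := by ring

end Pool.Agent.TBirP
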