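import Pool.Agent.TBirP.Inx
import Pool.Agent.TBirP.LbP
import Pool.Agent.TBirP.Cob

/-!
# An operator with values in all ranges is zero

As `eq_zero_fin`, `zero_of_list`, `zero_of_ext` of TBirR/Zero.lean. For each vector `f` let `hh l` be the solutions, `(T Phi - l) (hh l) = P f`. For `z ≠ 0` in the disc
`l ↦ ev z (hh l)` extends differentiably near every `q` which is not in the finite set `Bad = {q | ¬ ∃ x, 0 ≤ x ∧ Inq phi q x}` (`Chart.ext_loc`, `exists_chart`); near the points of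
`Bad` `growP` (winding numbers `≥ 0`) and `pole_bound` (TBirR/Pole.lean, with `vol_nbhd`) give a pole of order at most `n`, `n` independent of `z` and `f`. As in
`zero_of_list` (without the injectivity) conclude for the list `L` of the bad points, each `n` times, that `prod_(q ∈ L) (T Phi - q) (P f) = 0`, with `L`
independent of `f`. So `(T Phi - q_1) ... (T Phi - q_N) P = 0` as operators. If `P ≠ 0` remove the factors one by one (the factors commute with `P`): `R = (T Phi - q_(i+1)) ... P`, with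
`(T Phi - q_i) R = 0` and `R (T Phi - q_i) = 0`, so `R = 0` by `coburn` (`level_null`).
-/

set_option autoImplicit false

open MeasureTheory Complex Set Filter Topology Metric AddCircle
open scoped ComplexConjugate InnerProductSpace ENNReal

namespace Pool.Agent.TBirP

open Pool.Agent.TBir Pool.Agent.TBirG Pool.Agent.TBirC

variable {phi : ℂ → ℂ} {F : Set ℂ} {Phi : CT}

/-- Liouville: the case without poles. -/
private theorem zp_nil (h : PwA phi F) {f : Hardy} {hh : ℂ → Hardy}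
    (hh1 : ∀ l ∉ J phi, (T Phi - l • (1 : Op)) (hh l) = f)
    (hext : ∀ z : ℂ, ‖z‖ < 1 → z ≠ 0 → ∀ l0 : ℂ, ∃ r > 0, ∃ G : ℂ → ℂ,
      DifferentiableOn ℂ G (ball l0 r) ∧ ∀ l ∈ ball l0 r, l ∉ J phi → G l = ev z (hh l)) :
    f = 0 := by
  have hJc : IsCompact (J phi) := (isCompact_sphere 0 1).image_of_continuousOn h.cont
  obtain ⟨R, hR⟩ : ∃ R : ℝ, ∀ w ∈ J phi, ‖w‖ ≤ R := hJc.isBounded.exists_norm_le
  have key : ∀ z : ℂ, ‖z‖ < 1 → z ≠ 0 → ∀ l ∉ J phi, ev z (hh l) = 0 := by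
    intro z hz hz0 l hl
    obtain ⟨F', hF', hF⟩ := glue (dense_J h) isOpen_univ (F := fun l => ev z (hh l))
      (fun l0 _ => hext z hz hz0 l0)
    have hd : Differentiable ℂ F' := differentiableOn_univ.1 hF'
    have ht : Tendsto F' (cocompact ℂ) (𝓝 0) := by
      rw [tendsto_zero_iff_norm_tendsto_zero]
      have hb : ∀ᶠ w in cocompact ℂ, ‖F' w‖ ≤ ‖ev z‖ * (‖f‖ / (‖w‖ - ‖T Phi‖)) := by
        have h1 : ∀ᶠ w in cocompact ℂ, max R ‖T Phi‖ < ‖w‖ :=
          (tendsto_norm_cocompact_atTop (E := ℂ)).eventually_gt_atTop _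
        filter_upwards [h1] with w hw
        have hwJ : w ∉ J phi := fun hwJ =>
          absurd (hR w hwJ) (not_le.2 ((le_max_left _ _).trans_lt hw))
        rw [hF w (mem_univ w) hwJ]
        refine ((ev z).le_opNorm _).trans ?_
        exact mul_le_mul_of_nonneg_left
          (LiouA_bound (hh1 w hwJ) ((le_max_right _ _).trans_lt hw)) (norm_nonneg _)
      refine squeeze_zero' (Eventually.of_forall fun _ => norm_nonneg _) hb ?_
      have h2 : Tendsto (fun w : ℂ => ‖w‖ - ‖T Phi‖) (cocompact ℂ) atTop :=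
        tendsto_atTop_add_const_right _ _ (tendsto_norm_cocompact_atTop (E := ℂ))
      have h3 : Tendsto (fun w : ℂ => ‖f‖ / (‖w‖ - ‖T Phi‖)) (cocompact ℂ) (𝓝 0) :=
        h2.const_div_atTop _
      simpa using h3.const_mul ‖ev z‖
    rw [← hF l (mem_univ l) hl]
    exact hd.apply_eq_of_tendsto_cocompact l ht
  obtain ⟨l, hlJ⟩ : ∃ l : ℂ, l ∉ J phi := (dense_J h).nonempty
  have hO : IsOpen (ball (0 : ℂ) 1 \ {0}) := isOpen_ball.sdiff isClosed_singleton
  have h0 : hh l = 0 := by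
    refine ev_ext hO ⟨1 / 2, ?_, ?_⟩ sdiff_subset fun z hz => key z (by simpa using hz.1) hz.2 l hlJ
    · rw [mem_ball_zero_iff]
      norm_num
    · rw [mem_singleton_iff]
      norm_num
  rw [← hh1 l hlJ, h0, map_zero]

/-- Poles: multiply by `T Phi - q`, and use Coburn's lemma. -/
private theorem zp_list (h : PwA phi F) (hPhi : ∀ x, Phi x = phi (e x)) (L : List ℂ) :
    ∀ R : Op, R * T Phi = T Phi * R →
    (∀ f : Hardy, ∃ hh : ℂ → Hardy, (∀ l ∉ J phi, (T Phi - l • (1 : Op)) (hh l) = R f) ∧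
      ∀ z : ℂ, ‖z‖ < 1 → z ≠ 0 → ∀ l0 : ℂ, ∃ r > 0, ∃ G : ℂ → ℂ,
        DifferentiableOn ℂ G (ball l0 r) ∧ ∀ l ∈ ball l0 r, l ∉ J phi →
          G l = (L.map fun q => l - q).prod * ev z (hh l)) → R = 0 := by
  induction L with
  | nil =>
    intro R _ hR
    refine ContinuousLinearMap.ext fun f => ?_
    obtain ⟨hh, h1, h2⟩ := hR f
    rw [zp_nil h h1 fun z hz hz0 l0 => by
      obtain ⟨r, hr, G, hG, hG'⟩ := h2 z hz hz0 l0
      exact ⟨r, hr, G, hG, fun l hl hlJ => by rw [hG' l hl hlJ]; simp⟩]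
    rfl
  | cons q L ih =>
    intro R hc hR
    have h3 : (T Phi - q • (1 : Op)) * R = 0 := by
      refine ih _ ?_ fun f => ?_
      · rw [mul_assoc, hc, ← mul_assoc, ← mul_assoc, sub_mul, mul_sub, smul_mul_assoc,
          mul_smul_comm, one_mul, mul_one]
      · obtain ⟨hh, h1, h2⟩ := hR f
        refine ⟨fun l => (l - q) • hh l + R f, fun l hl => ?_, fun z hz hz0 l0 => ?_⟩
        · have e1 := h1 l hl
          change T Phi ((l - q) • hh l + R f) - l • ((l - q) • hh l + R f) =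
            T Phi (R f) - q • R f
          change T Phi (hh l) - l • hh l = R f at e1
          have e2 : T Phi (hh l) = R f + l • hh l := by rw [← e1]; abel
          rw [map_add, map_smul, e2]
          module
        · obtain ⟨r, hr, G, hG, hG'⟩ := h2 z hz hz0 l0
          refine ⟨r, hr, fun l => G l + (L.map fun q => l - q).prod * ev z (R f),
            hG.add ((TBirR.prod_diff L).differentiableOn.mul_const _), fun l hl hlJ => ?_⟩
          simp only
          rw [hG' l hl hlJ, map_add, map_smul, smul_eq_mul, List.map_cons, List.prod_cons]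
          ring
    refine coburn hPhi (level_null h) h3 ?_
    rw [mul_sub, hc, mul_smul_comm, mul_one, ← h3, sub_mul, smul_mul_assoc, one_mul]

theorem zero_P (h : PwA phi F) (hPhi : ∀ x, Phi x = phi (e x)) (hw : ∀ l n, Wn phi l n → 0 ≤ n)
    (hfin : {q : ℂ | ¬ ∃ x : ℤ, 0 ≤ x ∧ Inq phi q x}.Finite) {P : Op}
    (hP : P * T Phi = T Phi * P) (hr : ∀ f : Hardy, ∀ l ∉ J phi, Rg Phi (P f) l) : P = 0 := by
  have hJc : IsCompact (J phi) := (isCompact_sphere 0 1).image_of_continuousOn h.cont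
  have hJn : (J phi).Nonempty := ⟨phi 1, 1, by simp, rfl⟩
  obtain ⟨A, hA, hvol⟩ := vol_nbhd h
  obtain ⟨C, N, hC, hgr⟩ := growP h hPhi
  obtain ⟨n, hn⟩ := TBirR.pole_bound hJc.isClosed hJn hA hvol N
  obtain ⟨E, hE⟩ : ∃ E : Finset ℂ, ∀ l, l ∈ E ↔ ¬ ∃ x : ℤ, 0 ≤ x ∧ Inq phi l x :=
    ⟨hfin.toFinset, fun l => by rw [hfin.mem_toFinset]; rfl⟩
  obtain ⟨L, hL⟩ : ∃ L : List ℂ, ∀ l : ℂ, (L.map fun q => l - q).prod = ∏ q ∈ E, (l - q) ^ n := by
    clear hE
    induction E using Finset.induction_on with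
    | empty => exact ⟨[], fun l => by simp⟩
    | insert a s ha ih =>
      obtain ⟨L, hL⟩ := ih
      refine ⟨List.replicate n a ++ L, fun l => ?_⟩
      rw [List.map_append, List.prod_append, hL, Finset.prod_insert ha, List.map_replicate,
        List.prod_replicate]
  refine zp_list h hPhi L P hP fun f => ?_
  have hrf : ∀ l ∉ J phi, ∃ u : Hardy, (T Phi - l • (1 : Op)) u = P f := hr f
  choose! hh hh1 using hrf
  refine ⟨hh, hh1, fun z hz hz0 l0 => ?_⟩
  have hgood : ∀ q : ℂ, (∃ x : ℤ, 0 ≤ x ∧ Inq phi q x) → ∃ r > 0, ∃ G : ℂ → ℂ,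
      DifferentiableOn ℂ G (ball q r) ∧ ∀ l ∈ ball q r, l ∉ J phi → G l = ev z (hh l) := by
    rintro q ⟨x, hx, hI⟩
    obtain ⟨c, hc⟩ := exists_chart h.cont hPhi hI
    exact c.ext_loc (by rw [hc]; exact hx) hh1 hz hz0
  by_cases hl0 : ∃ x : ℤ, 0 ≤ x ∧ Inq phi l0 x
  · obtain ⟨r, hr', G, hG, hG'⟩ := hgood l0 hl0
    exact ⟨r, hr', fun l => (L.map fun q => l - q).prod * G l,
      (TBirR.prod_diff L).differentiableOn.mul hG,
      fun l hl hlJ => by simp only; rw [hG' l hl hlJ]⟩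
  · have hqJ : l0 ∈ J phi := by
      by_contra hqJ
      obtain ⟨m, hm⟩ := exists_wn h.cont hqJ
      exact hl0 ⟨m, hw _ _ hm, (inq_iff_wn hqJ).2 hm⟩
    have h1 : ∀ᶠ l in 𝓝 l0, l ∉ {q : ℂ | ¬ ∃ x : ℤ, 0 ≤ x ∧ Inq phi q x} \ {l0} :=
      (hfin.subset sdiff_subset).isClosed.isOpen_compl.mem_nhds fun h => h.2 rfl
    obtain ⟨rho', hrho', h2⟩ := Metric.eventually_nhds_iff_ball.1 h1
    obtain ⟨r, hr'⟩ : ∃ r : ℝ, r = min 1 rho' := ⟨_, rfl⟩
    have hr0 : 0 < r := by rw [hr']; exact lt_min one_pos hrho'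
    obtain ⟨F', hF', hF⟩ := glue (dense_J h) (isOpen_ball.sdiff isClosed_singleton)
      (O := ball l0 r \ {l0}) (F := fun l => ev z (hh l)) (fun l1 hl1 => by
        have h3 := h2 l1 (ball_subset_ball (by rw [hr']; exact min_le_right _ _) hl1.1)
        refine hgood l1 ?_
        by_contra h5
        exact h3 ⟨h5, hl1.2⟩)
    obtain ⟨s, hs, G, hG, hG'⟩ := hn l0 r (‖ev z‖ * (C * ‖P f‖)) F' hr0 hF' fun l hl hlJ => by
      have hlq : l ≠ l0 := fun h => hlJ (h ▸ hqJ)
      rw [hF l ⟨hl, hlq⟩ hlJ]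
      have h4 : infDist l (J phi) ≤ 1 := by
        refine (infDist_le_dist_of_mem hqJ).trans ((mem_ball.1 hl).le.trans ?_)
        rw [hr']
        exact min_le_left _ _
      obtain ⟨m, hm⟩ := exists_wn h.cont hlJ
      have h5 := hgr l hlJ h4 m (hw _ _ hm) hm (hh l)
      rw [hh1 l hlJ] at h5
      refine ((ev z).le_opNorm _).trans ?_
      refine (mul_le_mul_of_nonneg_left h5 (norm_nonneg _)).trans (le_of_eq ?_)
      ring
    refine ⟨min s r, lt_min hs hr0, fun l => (∏ q ∈ E.erase l0, (l - q) ^ n) * G l, ?_,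
      fun l hl hlJ => ?_⟩
    · refine DifferentiableOn.mul ?_ (hG.mono (ball_subset_ball (min_le_left _ _)))
      exact DifferentiableOn.fun_finsetProd fun i _ => (differentiableOn_id.sub_const _).pow _
    · have hlq : l ≠ l0 := fun h => hlJ (h ▸ hqJ)
      simp only
      rw [hG' l (ball_subset_ball (min_le_left _ _) hl) hlq,
        hF l ⟨ball_subset_ball (min_le_right _ _) hl, hlq⟩ hlJ, hL,
        ← Finset.mul_prod_erase E (fun q => (l - q) ^ n) ((hE l0).2 hl0)]
      ring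

end Pool.Agent.TBirP
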