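import Pool.Agent.TBirP.VolP

/-!
# The two sides of a point near which the curve is simple

`t` is in `F`: on each side `phi` is given by a nonconstant analytic function (corner, cusp or critical point), and the points of the circle near
`t` (including `t`) are simple: no other point of the circle has the same value.

Paper proof. `p = phi t`. `R1 x = ‖phi (t E x) - p‖` and `R2 x = ‖phi (t E (-x)) - p‖` are continuous and strictly increasing on `[0, r]` for small `r`: with `k z = z ^ (m + 1) * v z`,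
`v 0 ≠ 0`, `v` Lipschitz near `0`. The rest of the circle, `{t E x | r ≤ |x|}`, is mapped off the ball of
radius `rho0` around `p` (compactness, `t` simple). So for `0 < rho < rho1` there are unique points `a1 rho = phi (t E x)`, `a2 rho = phi (t E (-y))`, `x, y` in `(0, r)`, at distance `rho` from `p`,
continuous in `rho` (continuous inverses of strictly monotone functions), these are the only points of the curve at distance `rho` from `p`, and `a1 rho ≠ a2 rho` (`t E x` is simple). Put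
`w rho = (a2 rho - p) / (a1 rho - p)`, `‖w rho‖ = 1`, `w rho ≠ 1`, `al rho = pi + arg (- w rho)` in `(0, 2 pi)`, continuous (`- w rho` is in the slit plane), `w = E al`.
`A` = image of `(0, rho1) × (0, 1)` under `(rho, s) ↦ p + (a1 rho - p) * E (s al rho)`, `B` = image under `(rho, s) ↦ p + (a1 rho - p) * E (al rho + s (2 pi - al rho))`: images of a convex set
under continuous maps. Every `l` with `0 < ‖l - p‖ < rho1` off the curve is in `A` or in `B`, and `p` is on the curve.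
-/

set_option autoImplicit false

open MeasureTheory Complex Set Filter Topology Metric AddCircle
open scoped ComplexConjugate InnerProductSpace ENNReal

namespace Pool.Agent.TBirP

open Pool.Agent.TBir Pool.Agent.TBirG Pool.Agent.TBirC

namespace GrC

theorem core {phi psi : ℂ → ℂ} {t : ℂ} {s : ℝ} (ht : t ≠ 0) (hs : s ≠ 0) (h : Side phi psi t s) :
    ∃ k : ℂ → ℂ, AnalyticAt ℂ k 0 ∧ (¬ ∀ᶠ z in 𝓝 (0 : ℂ), k z = k 0) ∧
      ∀ᶠ x : ℝ in 𝓝[≥] 0, phi (t * E (s * x)) = k x := by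
  obtain ⟨h1, h2, h3⟩ := h
  have hs' : (s : ℂ) ≠ 0 := by exact_mod_cast hs
  have g0 : (fun z : ℂ => t * exp (s * z * I)) 0 = t := by simp
  have gan : AnalyticAt ℂ (fun z : ℂ => t * exp (s * z * I)) 0 := by fun_prop
  have hd : HasDerivAt (fun z : ℂ => t * exp (s * z * I)) (t * (exp (s * 0 * I) * (s * 1 * I))) 0 :=
    ((((hasDerivAt_id (0 : ℂ)).const_mul (s : ℂ)).mul_const I).cexp).const_mul t
  have hd0 : deriv (fun z : ℂ => t * exp (s * z * I)) 0 ≠ 0 := by
    rw [hd.deriv]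
    simp [ht, hs']
  have hmap := gan.hasStrictDerivAt.map_nhds_eq hd0
  rw [show t * exp (s * (0 : ℂ) * I) = t from g0] at hmap
  refine ⟨fun z => psi (t * exp (s * z * I)), ?_, ?_, ?_⟩
  · refine AnalyticAt.fun_comp ?_ gan
    rw [show t * exp (s * (0 : ℂ) * I) = t from g0]
    exact h1
  · intro h4
    apply h2
    rw [← hmap, Filter.eventually_map]
    filter_upwards [h4] with z hz
    rw [hz]
    simp
  · filter_upwards [h3] with x hx
    rw [hx]
    unfold E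
    push_cast
    rfl

theorem core_lip {k : ℂ → ℂ} (hk : AnalyticAt ℂ k 0) :
    ∃ δ > 0, ∃ K : ℝ, 0 ≤ K ∧ ∀ x y : ℝ, 0 ≤ x → x ≤ δ → 0 ≤ y → y ≤ δ → ‖k x - k y‖ ≤ K * |x - y| := by
  obtain ⟨K, s, hs, hK⟩ := hk.hasStrictDerivAt.hasStrictFDerivAt.exists_lipschitzOnWith
  obtain ⟨ε, hε, hb⟩ := Metric.mem_nhds_iff.mp hs
  refine ⟨ε / 2, by positivity, K, K.2, ?_⟩
  intro x y hx hx2 hy hy2
  have hmem : ∀ z : ℝ, 0 ≤ z → z ≤ ε / 2 → (z : ℂ) ∈ s := by
    intro z h1 h2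
    apply hb
    rw [mem_ball_zero_iff, Complex.norm_real, Real.norm_of_nonneg h1]
    linarith
  have h1 := hK.dist_le_mul _ (hmem x hx hx2) _ (hmem y hy hy2)
  rw [dist_eq_norm, dist_eq_norm, ← Complex.ofReal_sub, Complex.norm_real, Real.norm_eq_abs] at h1
  exact h1

/-- The distance from the point `k 0` is strictly increasing. -/
theorem radial {k : ℂ → ℂ} (hk : AnalyticAt ℂ k 0) (hn : ¬ ∀ᶠ z in 𝓝 (0 : ℂ), k z = k 0) :
    ∃ δ > 0, ∀ x y : ℝ, 0 ≤ x → x < y → y ≤ δ → ‖k x - k 0‖ < ‖k y - k 0‖ := by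
  have hf : AnalyticAt ℂ (fun z => k z - k 0) 0 := hk.sub analyticAt_const
  have hf0 : ¬ ∀ᶠ z in 𝓝 (0 : ℂ), (fun z => k z - k 0) z = 0 := by
    intro h0
    apply hn
    filter_upwards [h0] with z hz
    exact sub_eq_zero.1 hz
  obtain ⟨m, v, hv, hv0, hre⟩ := (AnalyticAt.exists_eventuallyEq_pow_smul_nonzero_iff hf).mpr hf0
  have hm : m ≠ 0 := by
    rintro rfl
    have h1 := hre.self_of_nhds
    simp only [sub_self, pow_zero, one_smul] at h1
    exact hv0 h1.symm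
  obtain ⟨n, rfl⟩ : ∃ n, m = n + 1 := ⟨m - 1, by omega⟩
  have hv0' : 0 < ‖v 0‖ := norm_pos_iff.mpr hv0
  obtain ⟨δ1, hδ1, L, hL, hlip⟩ := core_lip hv
  obtain ⟨ε, hε, hb⟩ := Metric.eventually_nhds_iff_ball.mp hre
  have hL1 : 0 < L + 1 := by linarith
  refine ⟨min (min δ1 (ε / 2)) (‖v 0‖ / (4 * (L + 1))), by positivity, ?_⟩
  intro x y hx hxy hy
  have hy1 : y ≤ δ1 := hy.trans ((min_le_left _ _).trans (min_le_left _ _))
  have hy2 : y ≤ ε / 2 := hy.trans ((min_le_left _ _).trans (min_le_right _ _))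
  have hy3 : y ≤ ‖v 0‖ / (4 * (L + 1)) := hy.trans (min_le_right _ _)
  have hy0 : 0 < y := lt_of_le_of_lt hx hxy
  have hy4 : y * (L + 1) ≤ ‖v 0‖ / 4 := by
    rw [le_div_iff₀ (by positivity)] at hy3
    linarith
  have hmem : ∀ z : ℝ, 0 ≤ z → z ≤ ε / 2 → (z : ℂ) ∈ ball (0 : ℂ) ε := by
    intro z h1 h2
    rw [mem_ball_zero_iff, Complex.norm_real, Real.norm_of_nonneg h1]
    linarith
  have hnorm : ∀ z : ℝ, 0 ≤ z → z ≤ ε / 2 → ‖k z - k 0‖ = z ^ (n + 1) * ‖v z‖ := by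
    intro z h1 h2
    have h3 := hb _ (hmem z h1 h2)
    simp only [sub_zero, smul_eq_mul] at h3
    rw [h3, norm_mul, norm_pow, Complex.norm_real, Real.norm_of_nonneg h1]
  have hvy : ‖v 0‖ / 2 ≤ ‖v y‖ := by
    have h1 := hlip 0 y le_rfl hδ1.le hy0.le hy1
    rw [zero_sub, abs_neg, abs_of_pos hy0, ofReal_zero] at h1
    have h2 : ‖v 0‖ ≤ ‖v 0 - v y‖ + ‖v y‖ := by
      have := norm_add_le (v 0 - v y) (v y)
      rwa [sub_add_cancel] at this
    nlinarith
  have hvx : ‖v x‖ ≤ ‖v y‖ + L * (y - x) := by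
    have h1 := hlip x y hx (hxy.le.trans hy1) hy0.le hy1
    rw [abs_sub_comm, abs_of_pos (by linarith : 0 < y - x)] at h1
    have h2 : ‖v x‖ ≤ ‖v x - v y‖ + ‖v y‖ := by
      have := norm_add_le (v x - v y) (v y)
      rwa [sub_add_cancel] at this
    linarith
  rw [hnorm x hx (hxy.le.trans hy2), hnorm y hy0.le hy2]
  have hpow : x ^ n ≤ y ^ n := pow_le_pow_left₀ hx hxy.le n
  have hyn : 0 < y ^ n := pow_pos hy0 n
  calc x ^ (n + 1) * ‖v x‖ = x ^ n * (x * ‖v x‖) := by ring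
    _ ≤ y ^ n * (x * ‖v x‖) := mul_le_mul_of_nonneg_right hpow (by positivity)
    _ ≤ y ^ n * (x * (‖v y‖ + L * (y - x))) :=
        mul_le_mul_of_nonneg_left (mul_le_mul_of_nonneg_left hvx hx) hyn.le
    _ < y ^ n * (y * ‖v y‖) := by
        apply mul_lt_mul_of_pos_left _ hyn
        have h1 : x * L ≤ ‖v 0‖ / 4 := by nlinarith
        have h2 : 0 < (y - x) * (‖v y‖ - x * L) := mul_pos (by linarith) (by linarith)
        nlinarith
    _ = y ^ (n + 1) * ‖v y‖ := by ring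

/-- The continuous inverse of a strictly increasing function. -/
theorem inv_fun {R : ℝ → ℝ} {r M : ℝ} (hr : 0 < r) (hRc : Continuous R) (hR0 : R 0 = 0)
    (hmono : ∀ x y : ℝ, 0 ≤ x → x < y → y ≤ r → R x < R y) (hM : M ≤ R r) :
    ∃ X : ℝ → ℝ, (∀ a ∈ Ioo 0 M, X a ∈ Ioo 0 r ∧ R (X a) = a) ∧ ContinuousOn X (Ioo 0 M) := by
  have hinj : ∀ x y : ℝ, x ∈ Ioo 0 r → y ∈ Ioo 0 r → R x = R y → x = y := by
    intro x y hx hy h
    rcases lt_trichotomy x y with h1 | h1 | h1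
    · exact absurd h (hmono x y hx.1.le h1 hy.2.le).ne
    · exact h1
    · exact absurd h.symm (hmono y x hy.1.le h1 hx.2.le).ne
  have hex : ∀ a ∈ Ioo 0 M, ∃ x ∈ Ioo 0 r, R x = a := by
    intro a ha
    have h2 := intermediate_value_Ioo hr.le hRc.continuousOn
    exact h2 ⟨by rw [hR0]; exact ha.1, ha.2.trans_le hM⟩
  choose! X hXr hX using hex
  refine ⟨X, fun a ha => ⟨hXr a ha, hX a ha⟩, fun a ha => ContinuousAt.continuousWithinAt ?_⟩
  have hXm : StrictMonoOn X (Ioo 0 M) := by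
    intro b hb b' hb' hbb
    by_contra hcon
    rcases (not_lt.1 hcon).eq_or_lt with h1 | h1
    · have h2 := hX b hb
      rw [← h1, hX b' hb'] at h2
      linarith
    · have h2 := hmono _ _ (hXr b' hb').1.le h1 (hXr b hb).2.le
      rw [hX b hb, hX b' hb'] at h2
      linarith
  apply hXm.continuousAt_of_image_mem_nhds (Ioo_mem_nhds ha.1 ha.2)
  have h1 : ∀ᶠ x in 𝓝 (X a), x ∈ Ioo 0 r := Ioo_mem_nhds (hXr a ha).1 (hXr a ha).2
  have h2 : ∀ᶠ x in 𝓝 (X a), R x ∈ Ioo 0 M := by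
    apply hRc.continuousAt
    rw [hX a ha]
    exact Ioo_mem_nhds ha.1 ha.2
  filter_upwards [h1, h2] with x hx1 hx2
  exact ⟨R x, hx2, hinj _ _ (hXr _ hx2) hx1 (hX _ hx2)⟩

theorem E_add (x y : ℝ) : E (x + y) = E x * E y := by
  unfold E
  rw [← Complex.exp_add]
  push_cast
  rw [add_mul]

theorem E_ne_one {x : ℝ} (h1 : 0 < x) (h2 : x < 2 * Real.pi) : E x ≠ 1 := by
  have hpi := Real.pi_pos
  intro h
  unfold E at h
  rw [Complex.exp_eq_one_iff] at h
  obtain ⟨n, hn⟩ := h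
  have h3 : (x : ℂ) = n * (2 * Real.pi) := by
    have h4 : (x : ℂ) * I = (n * (2 * Real.pi)) * I := by rw [hn]; ring
    exact mul_right_cancel₀ I_ne_zero h4
  have h5 : x = n * (2 * Real.pi) := by exact_mod_cast h3
  rcases le_or_gt n 0 with h7 | h7
  · have h8 : (n : ℝ) ≤ 0 := by exact_mod_cast h7
    nlinarith
  · have h8 : (1 : ℝ) ≤ n := by exact_mod_cast h7
    nlinarith

/-- The argument in `(0, 2 π)`. -/
theorem arg_rep {w : ℂ} (hw : ‖w‖ = 1) (hw1 : w ≠ 1) :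
    E (Real.pi + arg (-w)) = w ∧ 0 < Real.pi + arg (-w) ∧ Real.pi + arg (-w) < 2 * Real.pi ∧
      -w ∈ slitPlane := by
  have h1 : E (arg (-w)) = -w := by
    have h5 := Complex.norm_mul_exp_arg_mul_I (-w)
    rw [norm_neg, hw, ofReal_one, one_mul] at h5
    exact h5
  have h2 : E Real.pi = -1 := Complex.exp_pi_mul_I
  have h3 : arg (-w) ≠ Real.pi := by
    intro h4
    rw [h4, h2] at h1
    exact hw1 (neg_injective h1).symm
  refine ⟨?_, ?_, ?_, ?_⟩
  · rw [E_add, h1, h2]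
    ring
  · linarith [neg_pi_lt_arg (-w)]
  · have := lt_of_le_of_ne (arg_le_pi (-w)) h3
    linarith
  · rw [mem_slitPlane_iff_arg]
    refine ⟨h3, ?_⟩
    intro h4
    rw [neg_eq_zero] at h4
    rw [h4, norm_zero] at hw
    exact zero_ne_one hw

end GrC

open GrC in
theorem two_sides {phi : ℂ → ℂ} {F : Set ℂ} (h : PwA phi F) {t : ℂ} (ht : ‖t‖ = 1) (htF : t ∈ F)
    (hs : ∀ᶠ z in 𝓝 t, ‖z‖ = 1 → ∀ z' : ℂ, ‖z'‖ = 1 → phi z' = phi z → z' = z) :
    ∃ A B : Set ℂ, IsPreconnected A ∧ IsPreconnected B ∧ (∀ l ∈ A, l ∉ J phi) ∧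
      (∀ l ∈ B, l ∉ J phi) ∧ ∀ᶠ l in 𝓝 (phi t), l ∉ J phi → l ∈ A ∨ l ∈ B := by
  have hpi := Real.pi_gt_three
  have ht0 : t ≠ 0 := by
    rintro rfl
    rw [norm_zero] at ht
    exact zero_ne_one ht
  have hE : Continuous E := by
    unfold E
    fun_prop
  have hE0 : E 0 = 1 := by
    unfold E
    simp
  have hnE : ∀ x : ℝ, ‖E x‖ = 1 := fun x => Complex.norm_exp_ofReal_mul_I x
  have hsph : ∀ x : ℝ, t * E x ∈ sphere (0 : ℂ) 1 := by
    intro x
    rw [mem_sphere_zero_iff_norm, norm_mul, ht, hnE, one_mul]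
  have htm : t ∈ sphere (0 : ℂ) 1 := mem_sphere_zero_iff_norm.2 ht
  have hph : Continuous fun x : ℝ => phi (t * E x) :=
    h.cont.comp_continuous (continuous_const.mul hE) hsph
  obtain ⟨p, hp⟩ : ∃ p, p = phi t := ⟨_, rfl⟩
  rw [← hp]
  have hpJ : p ∈ J phi := ⟨t, htm, hp.symm⟩
  -- the radial functions
  obtain ⟨⟨psi, h1⟩, ⟨psi', h2⟩⟩ := h.side t htm htF
  have hrad : ∀ s : ℝ, s ≠ 0 → (∃ psi, Side phi psi t s) →
      ∃ δ > 0, ∀ x y : ℝ, 0 ≤ x → x < y → y ≤ δ →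
        ‖phi (t * E (s * x)) - p‖ < ‖phi (t * E (s * y)) - p‖ := by
    rintro s hs0 ⟨psi, hpsi⟩
    obtain ⟨k, k1, k2, k3⟩ := core ht0 hs0 hpsi
    obtain ⟨δ, hδ, hd⟩ := radial k1 k2
    rw [eventually_nhdsWithin_iff, Metric.eventually_nhds_iff] at k3
    obtain ⟨ε, hε, k4⟩ := k3
    have k5 : ∀ x : ℝ, 0 ≤ x → x ≤ ε / 2 → phi (t * E (s * x)) = k x := by
      intro x hx hx2
      apply k4 _ hx
      rw [Real.dist_eq, sub_zero, abs_of_nonneg hx]
      linarith
    have k6 : p = k 0 := by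
      have := k5 0 le_rfl (by positivity)
      rw [mul_zero, hE0, mul_one, ofReal_zero] at this
      rw [hp, this]
    refine ⟨min δ (ε / 2), by positivity, ?_⟩
    intro x y hx hxy hy
    rw [k5 x hx (by linarith [min_le_right δ (ε / 2)]),
      k5 y (by linarith) (by linarith [min_le_right δ (ε / 2)]), k6]
    exact hd x y hx hxy (hy.trans (min_le_left _ _))
  obtain ⟨r1, hr1, hm1⟩ := hrad 1 one_ne_zero ⟨psi, h1⟩
  obtain ⟨r2, hr2, hm2⟩ := hrad (-1) (by norm_num) ⟨psi', h2⟩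
  -- simple points
  obtain ⟨r3, hr3, hsim⟩ : ∃ r3 > 0, ∀ x : ℝ, |x| ≤ r3 → ∀ z' : ℂ, ‖z'‖ = 1 →
      phi z' = phi (t * E x) → z' = t * E x := by
    have hc0 : Tendsto (fun x : ℝ => t * E x) (𝓝 0) (𝓝 t) := by
      have := (continuous_const.mul hE).tendsto (x := (0 : ℝ)) (f := fun x : ℝ => t * E x)
      rwa [hE0, mul_one] at this
    have h3 := hc0.eventually hs
    rw [Metric.eventually_nhds_iff] at h3
    obtain ⟨ε, hε, h4⟩ := h3
    refine ⟨ε / 2, by positivity, fun x hx => h4 ?_ (mem_sphere_zero_iff_norm.1 (hsph x))⟩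
    rw [Real.dist_eq, sub_zero]
    linarith
  obtain ⟨r, hr, hrr1, hrr2, hrr3, hrr⟩ : ∃ r : ℝ, 0 < r ∧ r ≤ r1 ∧ r ≤ r2 ∧ r ≤ r3 ∧ r ≤ 1 := by
    refine ⟨min (min r1 r2) (min r3 1), by positivity, ?_, ?_, ?_, ?_⟩
    · exact (min_le_left _ _).trans (min_le_left _ _)
    · exact (min_le_left _ _).trans (min_le_right _ _)
    · exact (min_le_right _ _).trans (min_le_left _ _)
    · exact (min_le_right _ _).trans (min_le_right _ _)
  -- the rest of the circle
  obtain ⟨rho0, hrho0, hfar⟩ : ∃ rho : ℝ, 0 < rho ∧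
      ∀ x ∈ Icc (-Real.pi) Real.pi ∩ {x | r ≤ |x|}, rho ≤ ‖phi (t * E x) - p‖ := by
    have hcomp : IsCompact (Icc (-Real.pi) Real.pi ∩ {x | r ≤ |x|}) :=
      isCompact_Icc.inter_right (isClosed_le continuous_const continuous_abs)
    have hne : (Icc (-Real.pi) Real.pi ∩ {x | r ≤ |x|}).Nonempty := by
      refine ⟨Real.pi, ⟨by linarith [Real.pi_pos], le_refl _⟩, ?_⟩
      rw [mem_setOf_eq, abs_of_pos Real.pi_pos]
      linarith [Real.pi_gt_three]
    obtain ⟨x0, hx0, hmin⟩ := hcomp.exists_isMinOn hne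
      (hph.sub continuous_const).norm.continuousOn (f := fun x => ‖phi (t * E x) - p‖)
    refine ⟨‖phi (t * E x0) - p‖, ?_, fun x hx => hmin hx⟩
    rw [norm_pos_iff, sub_ne_zero]
    intro h3
    have h4 := hsim 0 (by rw [abs_zero]; exact hr3.le) _ (mem_sphere_zero_iff_norm.1 (hsph x0))
      (by rw [hE0, mul_one, h3, hp])
    have h5 : E x0 = 1 := by
      rw [hE0] at h4
      exact mul_left_cancel₀ ht0 h4
    have h6 : |x0| ≤ Real.pi := abs_le.2 hx0.1
    have h7 : r ≤ |x0| := hx0.2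
    rcases le_total 0 x0 with h8 | h8
    · rw [abs_of_nonneg h8] at h6 h7
      exact E_ne_one (by linarith) (by linarith) h5
    · rw [abs_of_nonpos h8] at h6 h7
      have h9 : E (-x0) = 1 := by
        have h10 := E_add x0 (-x0)
        rw [add_neg_cancel, hE0, h5, one_mul] at h10
        exact h10.symm
      exact E_ne_one (by linarith) (by linarith) h9
  -- inverse functions
  have hR1c : Continuous fun x : ℝ => ‖phi (t * E x) - p‖ := (hph.sub continuous_const).norm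
  have hR2c : Continuous fun x : ℝ => ‖phi (t * E (-x)) - p‖ := hR1c.comp continuous_neg
  have hR1m : ∀ x y : ℝ, 0 ≤ x → x < y → y ≤ r → ‖phi (t * E x) - p‖ < ‖phi (t * E y) - p‖ := by
    intro x y hx hxy hy
    have := hm1 x y hx hxy (hy.trans hrr1)
    rwa [one_mul, one_mul] at this
  have hR2m : ∀ x y : ℝ, 0 ≤ x → x < y → y ≤ r →
      ‖phi (t * E (-x)) - p‖ < ‖phi (t * E (-y)) - p‖ := by
    intro x y hx hxy hy
    have := hm2 x y hx hxy (hy.trans hrr2)
    rwa [neg_one_mul, neg_one_mul] at this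
  have hz1 : ‖phi (t * E 0) - p‖ = 0 := by
    rw [hE0, mul_one, hp, sub_self, norm_zero]
  have hz2 : ‖phi (t * E (-0)) - p‖ = 0 := by
    rw [neg_zero]
    exact hz1
  obtain ⟨M, hM0, hM1, hM2, hM3⟩ : ∃ M : ℝ, 0 < M ∧ M ≤ rho0 ∧ M ≤ ‖phi (t * E r) - p‖ ∧
      M ≤ ‖phi (t * E (-r)) - p‖ := by
    have e1 := hR1m 0 r le_rfl hr le_rfl
    have e2 := hR2m 0 r le_rfl hr le_rfl
    rw [hz1] at e1
    rw [hz2] at e2
    exact ⟨min rho0 (min ‖phi (t * E r) - p‖ ‖phi (t * E (-r)) - p‖), lt_min hrho0 (lt_min e1 e2),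
      min_le_left _ _, (min_le_right _ _).trans (min_le_left _ _),
      (min_le_right _ _).trans (min_le_right _ _)⟩
  obtain ⟨X1, hX1, hX1c⟩ := inv_fun (R := fun x => ‖phi (t * E x) - p‖) hr hR1c hz1 hR1m hM2
  obtain ⟨X2, hX2, hX2c⟩ := inv_fun (R := fun x => ‖phi (t * E (-x)) - p‖) hr hR2c hz2 hR2m hM3
  obtain ⟨a1, ha1⟩ : ∃ a1 : ℝ → ℂ, ∀ rho, a1 rho = phi (t * E (X1 rho)) := ⟨_, fun _ => rfl⟩
  obtain ⟨a2, ha2⟩ : ∃ a2 : ℝ → ℂ, ∀ rho, a2 rho = phi (t * E (-X2 rho)) := ⟨_, fun _ => rfl⟩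
  have hn1 : ∀ rho ∈ Ioo 0 M, ‖a1 rho - p‖ = rho := fun rho hrho => by
    rw [ha1]; exact (hX1 rho hrho).2
  have hn2 : ∀ rho ∈ Ioo 0 M, ‖a2 rho - p‖ = rho := fun rho hrho => by
    rw [ha2]; exact (hX2 rho hrho).2
  have hc1 : ContinuousOn a1 (Ioo 0 M) := by
    have h3 : ContinuousOn (fun rho => phi (t * E (X1 rho))) (Ioo 0 M) :=
      hph.comp_continuousOn hX1c
    exact h3.congr fun rho _ => ha1 rho
  have hc2 : ContinuousOn a2 (Ioo 0 M) := by
    have h3 : ContinuousOn (fun rho => phi (t * E (-X2 rho))) (Ioo 0 M) :=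
      hph.comp_continuousOn hX2c.neg
    exact h3.congr fun rho _ => ha2 rho
  have h10 : ∀ rho ∈ Ioo 0 M, a1 rho - p ≠ 0 := by
    intro rho hrho h3
    have h4 := hn1 rho hrho
    rw [h3, norm_zero] at h4
    linarith [hrho.1]
  have hne : ∀ rho ∈ Ioo 0 M, a1 rho ≠ a2 rho := by
    intro rho hrho h3
    have e1 := (hX1 rho hrho).1
    have e2 := (hX2 rho hrho).1
    have h4 := hsim (X1 rho) (by rw [abs_of_pos e1.1]; linarith [e1.2])
      (t * E (-X2 rho)) (mem_sphere_zero_iff_norm.1 (hsph _)) (by rw [← ha2, ← ha1, h3])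
    have h5 : E (X1 rho + X2 rho) = 1 := by
      have h6 : E (-X2 rho) = E (X1 rho) := mul_left_cancel₀ ht0 h4
      rw [E_add, ← h6, ← E_add, neg_add_cancel, hE0]
    exact E_ne_one (by linarith [e1.1, e2.1]) (by linarith [e1.2, e2.2]) h5
  -- the points of the curve at distance `rho`
  have hJ : ∀ l : ℂ, ‖l - p‖ ∈ Ioo 0 M → l ∈ J phi → l = a1 ‖l - p‖ ∨ l = a2 ‖l - p‖ := by
    rintro l hl ⟨z, hz, hzl⟩
    have hz1' : ‖z‖ = 1 := mem_sphere_zero_iff_norm.1 hz
    obtain ⟨x, hx1, hx2, hxz⟩ : ∃ x : ℝ, -Real.pi ≤ x ∧ x ≤ Real.pi ∧ t * E x = z := by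
      refine ⟨arg (z / t), (neg_pi_lt_arg _).le, arg_le_pi _, ?_⟩
      have h4 : ‖z / t‖ = 1 := by rw [norm_div, ht, hz1', div_one]
      have h5 := Complex.norm_mul_exp_arg_mul_I (z / t)
      rw [h4, ofReal_one, one_mul] at h5
      unfold E
      rw [h5, mul_div_cancel₀ _ ht0]
    have hxl : phi (t * E x) = l := by rw [hxz, hzl]
    have hxr : |x| < r := by
      by_contra hcon
      have h3 := hfar x ⟨⟨hx1, hx2⟩, not_lt.1 hcon⟩
      rw [hxl] at h3
      linarith [hl.2]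
    rcases le_total 0 x with h3 | h3
    · left
      rw [abs_of_nonneg h3] at hxr
      have e1 := hX1 _ hl
      have h4 : x = X1 ‖l - p‖ := by
        have h5 : ‖phi (t * E x) - p‖ = ‖phi (t * E (X1 ‖l - p‖)) - p‖ := by
          rw [hxl]
          exact e1.2.symm
        rcases lt_trichotomy x (X1 ‖l - p‖) with h6 | h6 | h6
        · exact absurd h5 (hR1m _ _ h3 h6 e1.1.2.le).ne
        · exact h6
        · exact absurd h5.symm (hR1m _ _ e1.1.1.le h6 hxr.le).ne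
      rw [ha1, ← h4, hxl]
    · right
      rw [abs_of_nonpos h3] at hxr
      have e1 := hX2 _ hl
      have h4 : -x = X2 ‖l - p‖ := by
        have h5 : ‖phi (t * E (-(-x))) - p‖ = ‖phi (t * E (-X2 ‖l - p‖)) - p‖ := by
          rw [neg_neg, hxl]
          exact e1.2.symm
        rcases lt_trichotomy (-x) (X2 ‖l - p‖) with h6 | h6 | h6
        · exact absurd h5 (hR2m _ _ (by linarith) h6 e1.1.2.le).ne
        · exact h6
        · exact absurd h5.symm (hR2m _ _ e1.1.1.le h6 hxr.le).ne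
      rw [ha2, ← h4, neg_neg, hxl]
  have ha1J : ∀ rho, a1 rho ∈ J phi := fun rho => ⟨_, hsph _, (ha1 rho).symm⟩
  have ha2J : ∀ rho, a2 rho ∈ J phi := fun rho => ⟨_, hsph _, (ha2 rho).symm⟩
  -- the angle
  obtain ⟨w, hw⟩ : ∃ w : ℝ → ℂ, ∀ rho, w rho = (a2 rho - p) / (a1 rho - p) := ⟨_, fun _ => rfl⟩
  have hwn : ∀ rho ∈ Ioo 0 M, ‖w rho‖ = 1 := by
    intro rho hrho
    rw [hw, norm_div, hn1 rho hrho, hn2 rho hrho, div_self hrho.1.ne']
  have hw1 : ∀ rho ∈ Ioo 0 M, w rho ≠ 1 := by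
    intro rho hrho h3
    rw [hw, div_eq_one_iff_eq (h10 rho hrho)] at h3
    exact hne rho hrho (sub_left_injective h3).symm
  have hwc : ContinuousOn w (Ioo 0 M) := by
    have h3 : ContinuousOn (fun rho => (a2 rho - p) / (a1 rho - p)) (Ioo 0 M) :=
      (hc2.sub continuousOn_const).div (hc1.sub continuousOn_const) h10
    exact h3.congr fun rho _ => hw rho
  obtain ⟨al, hal⟩ : ∃ al : ℝ → ℝ, ∀ rho, al rho = Real.pi + arg (-w rho) := ⟨_, fun _ => rfl⟩
  have hal0 : ∀ rho ∈ Ioo 0 M, E (al rho) = w rho ∧ 0 < al rho ∧ al rho < 2 * Real.pi := by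
    intro rho hrho
    obtain ⟨e1, e2, e3, -⟩ := arg_rep (hwn rho hrho) (hw1 rho hrho)
    rw [hal]
    exact ⟨e1, e2, e3⟩
  have halc : ContinuousOn al (Ioo 0 M) := by
    have h3 : ContinuousOn (fun rho => Real.pi + arg (-w rho)) (Ioo 0 M) := by
      refine continuousOn_const.add fun rho hrho => ?_
      have h4 := (arg_rep (hwn rho hrho) (hw1 rho hrho)).2.2.2
      have h5 : ContinuousWithinAt (fun rho => -w rho) (Ioo 0 M) rho := (hwc rho hrho).neg
      exact ContinuousAt.comp_continuousWithinAt (g := arg) (f := fun rho => -w rho)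
        (continuousAt_arg h4) h5
    exact h3.congr fun rho _ => hal rho
  have hoff : ∀ rho ∈ Ioo 0 M, ∀ θ : ℝ, 0 < θ → θ < 2 * Real.pi → θ ≠ al rho →
      p + (a1 rho - p) * E θ ∉ J phi := by
    intro rho hrho θ hθ0 hθ1 hθ hl
    have hnl : ‖p + (a1 rho - p) * E θ - p‖ = rho := by
      rw [add_sub_cancel_left, norm_mul, hn1 rho hrho, hnE, mul_one]
    obtain ⟨e1, e2, e3⟩ := hal0 rho hrho
    rcases hJ _ (by rw [hnl]; exact hrho) hl with h3 | h3
    · rw [hnl] at h3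
      have h4 : (a1 rho - p) * E θ = (a1 rho - p) * 1 := by
        rw [mul_one]
        linear_combination h3
      exact E_ne_one hθ0 hθ1 (mul_left_cancel₀ (h10 rho hrho) h4)
    · rw [hnl] at h3
      have h4 : (a1 rho - p) * E θ = (a1 rho - p) * E (al rho) := by
        rw [e1, hw, mul_div_cancel₀ _ (h10 rho hrho)]
        linear_combination h3
      have h5 := mul_left_cancel₀ (h10 rho hrho) h4
      rcases lt_or_gt_of_ne hθ with h6 | h6
      · have h7 : E (al rho - θ) = 1 := by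
          have h8 := E_add (al rho - θ) θ
          rw [sub_add_cancel, ← h5] at h8
          have h9 : E θ ≠ 0 := by
            rw [← norm_pos_iff, hnE]
            exact one_pos
          have h11 : E (al rho - θ) * E θ = 1 * E θ := by rw [one_mul]; exact h8.symm
          exact mul_right_cancel₀ h9 h11
        exact E_ne_one (by linarith) (by linarith) h7
      · have h7 : E (θ - al rho) = 1 := by
          have h8 := E_add (θ - al rho) (al rho)
          rw [sub_add_cancel, h5] at h8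
          have h9 : E (al rho) ≠ 0 := by
            rw [← norm_pos_iff, hnE]
            exact one_pos
          have h11 : E (θ - al rho) * E (al rho) = 1 * E (al rho) := by
            rw [one_mul]; exact h8.symm
          exact mul_right_cancel₀ h9 h11
        exact E_ne_one (by linarith) (by linarith) h7
  -- the two sides
  have hpre : IsPreconnected (Ioo 0 M ×ˢ Ioo (0 : ℝ) 1) :=
    (isPreconnected_Ioo).prod isPreconnected_Ioo
  have hcoe : ∀ g : ℝ × ℝ → ℝ, ContinuousOn g (Ioo 0 M ×ˢ Ioo (0 : ℝ) 1) →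
      ContinuousOn (fun q : ℝ × ℝ => p + (a1 q.1 - p) * E (g q)) (Ioo 0 M ×ˢ Ioo (0 : ℝ) 1) := by
    intro g hg
    have e1 : ContinuousOn (fun q : ℝ × ℝ => a1 q.1) (Ioo 0 M ×ˢ Ioo (0 : ℝ) 1) :=
      hc1.comp continuous_fst.continuousOn (fun q hq => hq.1)
    have e2 : ContinuousOn (fun q : ℝ × ℝ => E (g q)) (Ioo 0 M ×ˢ Ioo (0 : ℝ) 1) :=
      hE.comp_continuousOn hg
    exact continuousOn_const.add ((e1.sub continuousOn_const).mul e2)
  have hal1 : ContinuousOn (fun q : ℝ × ℝ => al q.1) (Ioo 0 M ×ˢ Ioo (0 : ℝ) 1) :=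
    halc.comp continuous_fst.continuousOn (fun q hq => hq.1)
  have hcA := hcoe (fun q => q.2 * al q.1) (continuous_snd.continuousOn.mul hal1)
  have hcB := hcoe (fun q => al q.1 + q.2 * (2 * Real.pi - al q.1))
    (hal1.add (continuous_snd.continuousOn.mul (continuousOn_const.sub hal1)))
  refine ⟨(fun q : ℝ × ℝ => p + (a1 q.1 - p) * E (q.2 * al q.1)) '' (Ioo 0 M ×ˢ Ioo (0 : ℝ) 1),
    (fun q : ℝ × ℝ => p + (a1 q.1 - p) * E (al q.1 + q.2 * (2 * Real.pi - al q.1))) ''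
      (Ioo 0 M ×ˢ Ioo (0 : ℝ) 1), hpre.image _ hcA, hpre.image _ hcB, ?_, ?_, ?_⟩
  · rintro _ ⟨⟨rho, s⟩, ⟨hrho, hs'⟩, rfl⟩
    dsimp only at hrho hs' ⊢
    obtain ⟨e1, e2, e3⟩ := hal0 rho hrho
    have e4 : 0 < s * al rho := mul_pos hs'.1 e2
    have e5 : s * al rho < al rho := by nlinarith [hs'.2]
    exact hoff rho hrho _ e4 (by linarith) e5.ne
  · rintro _ ⟨⟨rho, s⟩, ⟨hrho, hs'⟩, rfl⟩
    dsimp only at hrho hs' ⊢
    obtain ⟨e1, e2, e3⟩ := hal0 rho hrho
    have e4 : 0 < s * (2 * Real.pi - al rho) := mul_pos hs'.1 (by linarith)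
    have e5 : s * (2 * Real.pi - al rho) < 2 * Real.pi - al rho := by
      have : 0 < 2 * Real.pi - al rho := by linarith
      nlinarith [hs'.2]
    exact hoff rho hrho _ (by linarith) (by linarith) (by linarith)
  · filter_upwards [Metric.ball_mem_nhds p hM0] with l hl hlJ
    rw [mem_ball, dist_eq_norm] at hl
    obtain ⟨rho, hrho⟩ : ∃ rho, rho = ‖l - p‖ := ⟨_, rfl⟩
    rw [← hrho] at hl
    have hrho0' : 0 < rho := by
      rw [hrho, norm_pos_iff, sub_ne_zero]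
      rintro rfl
      exact hlJ hpJ
    have hrI : rho ∈ Ioo 0 M := ⟨hrho0', hl⟩
    obtain ⟨e1, e2, e3⟩ := hal0 rho hrI
    have h3 := h10 rho hrI
    obtain ⟨q, hq⟩ : ∃ q, q = (l - p) / (a1 rho - p) := ⟨_, rfl⟩
    have hq1 : ‖q‖ = 1 := by
      rw [hq, norm_div, hn1 rho hrI, ← hrho, div_self hrho0'.ne']
    have hql : l = p + (a1 rho - p) * q := by
      rw [hq, mul_div_cancel₀ _ h3]
      ring
    have hqne : q ≠ 1 := by
      rintro h4
      apply hlJ
      rw [hql, h4, mul_one, add_sub_cancel]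
      exact ha1J rho
    obtain ⟨f1, f2, f3, -⟩ := arg_rep hq1 hqne
    obtain ⟨θ, hθ⟩ : ∃ θ, θ = Real.pi + arg (-q) := ⟨_, rfl⟩
    rw [← hθ] at f1 f2 f3
    have hθne : θ ≠ al rho := by
      intro h4
      apply hlJ
      rw [hql, ← f1, h4, e1, hw, mul_div_cancel₀ _ h3, add_sub_cancel]
      exact ha2J rho
    rcases lt_or_gt_of_ne hθne with h4 | h4
    · left
      refine ⟨(rho, θ / al rho), ⟨hrI, ?_, ?_⟩, ?_⟩
      · exact div_pos f2 e2
      · dsimp only
        rw [div_lt_one e2]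
        exact h4
      · dsimp only
        rw [div_mul_cancel₀ _ e2.ne', f1, ← hql]
    · right
      have e4 : 0 < 2 * Real.pi - al rho := by linarith
      refine ⟨(rho, (θ - al rho) / (2 * Real.pi - al rho)), ⟨hrI, ?_, ?_⟩, ?_⟩
      · exact div_pos (by linarith) e4
      · dsimp only
        rw [div_lt_one e4]
        linarith
      · dsimp only
        rw [div_mul_cancel₀ _ e4.ne', add_sub_cancel, f1, ← hql]

end Pool.Agent.TBirP
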