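import Pool.Agent.TBirP.NrmA

/-!
# Normal curves: finiteness, sides of the points of F

See the head comment of NrmA.lean for the paper proofs.
-/

set_option autoImplicit false

open MeasureTheory Complex Set Filter Topology Metric AddCircle
open scoped ComplexConjugate InnerProductSpace ENNReal

namespace Pool.Agent.TBirP

open Pool.Agent.TBir Pool.Agent.TBirG Pool.Agent.TBirC

variable {phi : ℂ → ℂ} {F : Set ℂ}

theorem nb_E_mem {t : ℂ} (ht : ‖t‖ = 1) (x : ℝ) : t * E x ∈ sphere (0 : ℂ) 1 := by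
  rw [mem_sphere_zero_iff_norm, norm_mul, ht, one_mul]
  exact Complex.norm_exp_ofReal_mul_I x

theorem nb_E_zero : E 0 = 1 := by simp [E]

theorem nb_E_cont : Continuous E := by
  unfold E
  fun_prop

theorem nb_ne {t : ℂ} (ht : ‖t‖ = 1) : t ≠ 0 := by
  rintro rfl
  rw [norm_zero] at ht
  exact zero_ne_one ht

theorem nb_arg {t : ℂ} (ht : ‖t‖ = 1) : Tendsto (fun z : ℂ => arg (z / t)) (𝓝 t) (𝓝 0) := by
  have ht0 := nb_ne ht
  have h1 : ContinuousAt arg (t / t) := by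
    rw [div_self ht0]
    exact continuousAt_arg (by simp)
  have h2 : ContinuousAt (fun z : ℂ => z / t) t := by fun_prop
  have h3 : ContinuousAt (fun z : ℂ => arg (z / t)) t :=
    ContinuousAt.comp (f := fun z : ℂ => z / t) (g := arg) h1 h2
  have h4 := h3.tendsto
  rwa [div_self ht0, arg_one] at h4

theorem nb_arg_eq {t z : ℂ} (ht : ‖t‖ = 1) (hz : z ∈ sphere (0 : ℂ) 1) :
    t * E (arg (z / t)) = z := by
  have h4 : ‖z / t‖ = 1 := by
    rw [norm_div, ht, mem_sphere_zero_iff_norm.1 hz, div_one]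
  have h5 := Complex.norm_mul_exp_arg_mul_I (z / t)
  rw [h4, ofReal_one, one_mul] at h5
  unfold E
  rw [h5, mul_div_cancel₀ _ (nb_ne ht)]

theorem nb_deriv {t : ℂ} (h : DifferentiableAt ℂ phi t) :
    HasDerivAt (fun x : ℝ => phi (t * E x)) (deriv phi t * (t * I)) 0 := by
  have h1 : HasDerivAt (fun x : ℝ => t * E x) (t * I) 0 := by
    have h2 : HasDerivAt (fun x : ℝ => exp ((x : ℂ) * I)) (exp (((0 : ℝ) : ℂ) * I) * (1 * I)) 0 :=
      ((Complex.ofRealCLM.hasDerivAt (x := (0 : ℝ))).mul_const I).cexp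
    have h3 := h2.const_mul t
    simp only [ofReal_zero, zero_mul, Complex.exp_zero, one_mul] at h3
    exact h3
  have h4 : HasDerivAt phi (deriv phi t) (t * E 0) := by
    rw [nb_E_zero, mul_one]
    exact h.hasDerivAt
  exact HasDerivAt.comp (h := fun x : ℝ => t * E x) (h₂ := phi) 0 h4 h1

theorem nb_o {t : ℂ} (h : DifferentiableAt ℂ phi t) {ep : ℝ} (hep : 0 < ep) :
    ∀ᶠ x : ℝ in 𝓝 0, ‖phi (t * E x) - phi t - x * (I * (t * deriv phi t))‖ ≤ ep * |x| := by
  have h1 := (hasDerivAt_iff_isLittleO.1 (nb_deriv h)).def hep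
  filter_upwards [h1] with x hx
  rw [nb_E_zero, mul_one, sub_zero, Real.norm_eq_abs] at hx
  refine le_trans (le_of_eq ?_) hx
  congr 1
  rw [Complex.real_smul]
  ring

/-- Independent directions. -/
theorem nb_indep (a b : ℂ) (x y : ℝ) :
    |(a * conj b).im| * (|x| + |y|) ≤ (‖a‖ + ‖b‖) * ‖x * (I * a) - y * (I * b)‖ := by
  have e0 : (x : ℂ) * (I * a) - y * (I * b) = I * (x * a - y * b) := by ring
  have e1 : ‖(x : ℂ) * (I * a) - y * (I * b)‖ = ‖(x : ℂ) * a - y * b‖ := by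
    rw [e0, norm_mul, Complex.norm_I, one_mul]
  have h1 : |(a * conj b).im| * |x| ≤ ‖(x : ℂ) * a - y * b‖ * ‖b‖ := by
    have h2 : (((x : ℂ) * a - y * b) * conj b).im = (a * conj b).im * x := by
      simp only [Complex.mul_im, Complex.sub_re, Complex.sub_im, Complex.mul_re, Complex.ofReal_re,
        Complex.ofReal_im, Complex.conj_re, Complex.conj_im]
      ring
    rw [← abs_mul, ← h2]
    refine (Complex.abs_im_le_norm _).trans ?_
    rw [norm_mul, RCLike.norm_conj]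
  have h2 : |(a * conj b).im| * |y| ≤ ‖(x : ℂ) * a - y * b‖ * ‖a‖ := by
    have h2 : (((x : ℂ) * a - y * b) * conj a).im = (a * conj b).im * y := by
      simp only [Complex.mul_im, Complex.sub_re, Complex.sub_im, Complex.mul_re, Complex.ofReal_re,
        Complex.ofReal_im, Complex.conj_re, Complex.conj_im]
      ring
    rw [← abs_mul, ← h2]
    refine (Complex.abs_im_le_norm _).trans ?_
    rw [norm_mul, RCLike.norm_conj]
  rw [e1]
  nlinarith

/-- Near a pair of points of the circle there are no other pairs of different points with the same image. -/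
theorem nb_local (h : PNormal phi F) {z1 z2 : ℂ} (h1 : z1 ∈ sphere (0 : ℂ) 1)
    (h2 : z2 ∈ sphere (0 : ℂ) 1) : ∀ᶠ p : ℂ × ℂ in 𝓝 (z1, z2), p.1 ∈ sphere (0 : ℂ) 1 →
      p.2 ∈ sphere (0 : ℂ) 1 → p.1 ≠ z1 → p.1 ≠ p.2 → phi p.1 ≠ phi p.2 := by
  have n1 : ‖z1‖ = 1 := mem_sphere_zero_iff_norm.1 h1
  have n2 : ‖z2‖ = 1 := mem_sphere_zero_iff_norm.1 h2
  by_cases hF1 : z1 ∈ F
  · rw [nhds_prod_eq]
    filter_upwards [(h.simple z1 h1 hF1).prod_inl (𝓝 z2)] with p hp hp1 hp2 _ hp4 h5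
    exact hp4 (hp (mem_sphere_zero_iff_norm.1 hp1) p.2 (mem_sphere_zero_iff_norm.1 hp2)
      h5.symm).symm
  by_cases hF2 : z2 ∈ F
  · rw [nhds_prod_eq]
    filter_upwards [(h.simple z2 h2 hF2).prod_inr (𝓝 z1)] with p hp hp1 hp2 _ hp4 h5
    exact hp4 (hp (mem_sphere_zero_iff_norm.1 hp2) p.1 (mem_sphere_zero_iff_norm.1 hp1) h5)
  by_cases hne : phi z1 = phi z2
  · by_cases hz : z1 = z2
    · subst hz
      obtain ⟨ha, hd⟩ := h.reg z1 h1 hF1
      have hs := ha.hasStrictDerivAt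
      have h3 := hs.hasStrictFDerivAt.isLittleO.def (half_pos (norm_pos_iff.2 hd))
      filter_upwards [h3] with p hp _ _ _ hp4 h5
      rw [h5, sub_self, zero_sub, norm_neg, ContinuousLinearMap.toSpanSingleton_apply,
        norm_smul] at hp
      have h6 : 0 < ‖p.1 - p.2‖ := norm_pos_iff.2 (sub_ne_zero.2 hp4)
      have h7 : 0 < ‖deriv phi z1‖ := norm_pos_iff.2 hd
      nlinarith
    · obtain ⟨ha1, hd1⟩ := h.reg z1 h1 hF1
      obtain ⟨ha2, hd2⟩ := h.reg z2 h2 hF2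
      have htr := h.trans z1 h1 z2 h2 hz hne
      set a := z1 * deriv phi z1 with hadef
      set b := z2 * deriv phi z2 with hbdef
      have hdel : 0 < |(a * conj b).im| := abs_pos.2 htr
      have ha0 : 0 < ‖a‖ := by
        rw [hadef, norm_mul, n1, one_mul]
        exact norm_pos_iff.2 hd1
      have hM : 0 < ‖a‖ + ‖b‖ := by positivity
      set ep := |(a * conj b).im| / (2 * (‖a‖ + ‖b‖)) with hep
      have hep0 : 0 < ep := by positivity
      have e1 := (nb_arg n1).eventually (nb_o ha1.differentiableAt hep0)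
      have e2 := (nb_arg n2).eventually (nb_o ha2.differentiableAt hep0)
      rw [nhds_prod_eq]
      filter_upwards [e1.prod_mk e2] with p hp hp1 hp2 hp3 _ h5
      have h6 := hp.1
      have h7 := hp.2
      rw [nb_arg_eq n1 hp1, ← hadef] at h6
      rw [nb_arg_eq n2 hp2, ← hbdef] at h7
      set x := arg (p.1 / z1) with hx
      set y := arg (p.2 / z2) with hy
      have h8 : ‖(x : ℂ) * (I * a) - y * (I * b)‖ ≤ ep * (|x| + |y|) := by
        have e3 : (x : ℂ) * (I * a) - y * (I * b) =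
            (phi p.2 - phi z2 - y * (I * b)) - (phi p.1 - phi z1 - x * (I * a)) := by
          rw [h5, hne]
          ring
        rw [e3]
        refine (norm_sub_le _ _).trans ?_
        linarith
      have h9 := nb_indep a b x y
      have h10 : (‖a‖ + ‖b‖) * ‖(x : ℂ) * (I * a) - y * (I * b)‖ ≤
          (‖a‖ + ‖b‖) * (ep * (|x| + |y|)) := mul_le_mul_of_nonneg_left h8 hM.le
      have h11 : (‖a‖ + ‖b‖) * (ep * (|x| + |y|)) = |(a * conj b).im| / 2 * (|x| + |y|) := by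
        rw [hep]
        field_simp
      have h12 : 0 < |x| := by
        rw [abs_pos]
        intro h0
        apply hp3
        have h13 := nb_arg_eq n1 hp1
        rw [← hx, h0, nb_E_zero, mul_one] at h13
        exact h13.symm
      have h13 : 0 ≤ |y| := abs_nonneg y
      nlinarith
  · have hd : 0 < ‖phi z1 - phi z2‖ := norm_pos_iff.2 (sub_ne_zero.2 hne)
    have e1 : ∀ z ∈ sphere (0 : ℂ) 1, ∀ᶠ w in 𝓝 z, w ∈ sphere (0 : ℂ) 1 →
        ‖phi w - phi z‖ < ‖phi z1 - phi z2‖ / 2 := by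
      intro z hz
      have h3 := (h.cont z hz).eventually (Metric.ball_mem_nhds (phi z) (half_pos hd))
      rw [eventually_nhdsWithin_iff] at h3
      filter_upwards [h3] with w hw hw'
      have h4 := hw hw'
      rw [dist_eq_norm] at h4
      exact h4
    rw [nhds_prod_eq]
    filter_upwards [(e1 z1 h1).prod_mk (e1 z2 h2)] with p hp hp1 hp2 _ _ h5
    have h6 := hp.1 hp1
    have h7 := hp.2 hp2
    have h8 : phi z1 - phi z2 = (phi p.2 - phi z2) - (phi p.1 - phi z1) := by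
      rw [h5]
      ring
    have h9 := norm_sub_le (phi p.2 - phi z2) (phi p.1 - phi z1)
    rw [← h8] at h9
    linarith

theorem nb_dbl_fin (h : PNormal phi F) :
    {z : ℂ | z ∈ sphere (0 : ℂ) 1 ∧ ∃ w ∈ sphere (0 : ℂ) 1, z ≠ w ∧ phi z = phi w}.Finite := by
  by_contra hinf
  obtain ⟨t, ht, hacc⟩ := Set.Infinite.exists_accPt_of_subset_isCompact hinf
    (isCompact_sphere (0 : ℂ) 1) (fun z hz => hz.1)
  rw [accPt_iff_frequently_nhdsNE] at hacc
  have h1 : ∀ᶠ z in 𝓝 t, ∀ w ∈ sphere (0 : ℂ) 1, z ∈ sphere (0 : ℂ) 1 →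
      w ∈ sphere (0 : ℂ) 1 → z ≠ t → z ≠ w → phi z ≠ phi w :=
    (isCompact_sphere (0 : ℂ) 1).eventually_forall_of_forall_eventually
      (P := fun z w => z ∈ sphere (0 : ℂ) 1 → w ∈ sphere (0 : ℂ) 1 → z ≠ t → z ≠ w → phi z ≠ phi w)
      fun w hw => nb_local h ht hw
  apply hacc
  filter_upwards [nhdsWithin_le_nhds h1, self_mem_nhdsWithin] with z hz hzt hz'
  obtain ⟨hz1, w, hw, hzw, he⟩ := hz'
  exact hz w hw hz1 hw hzt hzw he

theorem nsim_fin (h : PNormal phi F) : {z : ℂ | ‖z‖ = 1 ∧ ¬ Sim phi z}.Finite := by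
  refine (h.fin.union (nb_dbl_fin h)).subset ?_
  rintro z ⟨hz, hns⟩
  by_cases hF : z ∈ F
  · exact Or.inl hF
  · right
    have hz' : z ∈ sphere (0 : ℂ) 1 := mem_sphere_zero_iff_norm.2 hz
    obtain ⟨ha, hd⟩ := h.reg z hz' hF
    refine ⟨hz', ?_⟩
    by_contra hcon
    push Not at hcon
    apply hns
    refine ⟨hz, ha, hd, fun w hw he => ?_⟩
    by_contra hwz
    exact hcon w (mem_sphere_zero_iff_norm.2 hw) (Ne.symm hwz) he.symm

theorem corner_sides (h : PNormal phi F) {t : ℂ} (ht : ‖t‖ = 1) (htF : t ∈ F) :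
    ∃ (x : ℤ) (A B : Set ℂ), IsPreconnected A ∧ IsPreconnected B ∧ A.Nonempty ∧ B.Nonempty ∧
      (∀ l ∈ A, Wn phi l (x + 1)) ∧
      (∀ l ∈ B, Wn phi l x) ∧ ∀ᶠ l in 𝓝 (phi t), l ∉ J phi → l ∈ A ∨ l ∈ B := by
  have ht' : t ∈ sphere (0 : ℂ) 1 := mem_sphere_zero_iff_norm.2 ht
  obtain ⟨A, B, hA, hB, hAJ, hBJ, hcov⟩ := two_sides h.toPwA ht htF (h.simple t ht' htF)
  obtain ⟨rho, hrho, hball⟩ := Metric.eventually_nhds_iff_ball.1 hcov
  -- a simple point near `t`
  have hcont : Continuous fun x : ℝ => phi (t * E x) :=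
    h.cont.comp_continuous (continuous_const.mul nb_E_cont) (nb_E_mem ht)
  have hcont2 : Continuous fun x : ℝ => t * E x := continuous_const.mul nb_E_cont
  have hfin : (F ∪ {z : ℂ | ‖z‖ = 1 ∧ ¬ Sim phi z}).Finite := h.fin.union (nsim_fin h)
  have e1 : ∀ᶠ x : ℝ in 𝓝[>] 0, phi (t * E x) ∈ ball (phi t) rho := by
    apply nhdsWithin_le_nhds
    have h1 := hcont.continuousAt (x := (0 : ℝ))
    have h2 : ball (phi t) rho ∈ 𝓝 (phi (t * E 0)) := by
      rw [nb_E_zero, mul_one]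
      exact Metric.ball_mem_nhds _ hrho
    exact h1 h2
  have e2 : ∀ᶠ x : ℝ in 𝓝[>] 0, t * E x ∉ (F ∪ {z : ℂ | ‖z‖ = 1 ∧ ¬ Sim phi z}) \ {t} := by
    apply nhdsWithin_le_nhds
    have h1 := hcont2.continuousAt (x := (0 : ℝ))
    have h2 : ((F ∪ {z : ℂ | ‖z‖ = 1 ∧ ¬ Sim phi z}) \ {t})ᶜ ∈ 𝓝 (t * E 0) := by
      rw [nb_E_zero, mul_one]
      refine (hfin.subset sdiff_subset).isClosed.isOpen_compl.mem_nhds ?_
      intro h3
      exact h3.2 rfl
    exact h1 h2
  have e3 : ∀ᶠ x : ℝ in 𝓝[>] 0, x ≤ 1 := by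
    apply nhdsWithin_le_nhds
    exact Iic_mem_nhds one_pos
  obtain ⟨x, ⟨⟨hx1, hx2⟩, hx3⟩, hx4⟩ := (((e1.and e2).and e3).and
    (self_mem_nhdsWithin : ∀ᶠ x : ℝ in 𝓝[>] 0, x ∈ Ioi (0 : ℝ))).exists
  have hx0 : 0 < x := hx4
  have hne : t * E x ≠ t := by
    intro h0
    have h1 : E x = 1 := by
      have h2 : t * E x = t * 1 := by rw [h0, mul_one]
      exact mul_left_cancel₀ (nb_ne ht) h2
    unfold E at h1
    obtain ⟨n, hn⟩ := Complex.exp_eq_one_iff.1 h1
    have h2 : (x : ℂ) = (n : ℂ) * (2 * Real.pi) := by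
      refine mul_right_cancel₀ Complex.I_ne_zero ?_
      rw [hn]
      ring
    have h3 : x = n * (2 * Real.pi) := by exact_mod_cast h2
    have hpi := Real.pi_gt_three
    rcases le_or_gt n 0 with hn0 | hn0
    · have h4 : (n : ℝ) ≤ 0 := by exact_mod_cast hn0
      nlinarith
    · have h4 : (1 : ℝ) ≤ n := by exact_mod_cast hn0
      nlinarith
  set z1 := t * E x with hz1
  have hz1m : z1 ∈ sphere (0 : ℂ) 1 := nb_E_mem ht x
  have hz1F : z1 ∉ F := fun h0 => hx2 ⟨Or.inl h0, hne⟩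
  have hsim : Sim phi z1 := by
    by_contra h0
    exact hx2 ⟨Or.inr ⟨mem_sphere_zero_iff_norm.1 hz1m, h0⟩, hne⟩
  obtain ⟨m, A', B', -, -, -, hA', hB', hcA, hcB, -⟩ := sim_local h.toPwA hsim hz1F
  obtain ⟨l1, hl1, hl1'⟩ := mem_closure_iff_nhds.1 hcA _ (Metric.isOpen_ball.mem_nhds hx1)
  obtain ⟨l2, hl2, hl2'⟩ := mem_closure_iff_nhds.1 hcB _ (Metric.isOpen_ball.mem_nhds hx1)
  have w1 := hA' l1 hl1'
  have w2 := hB' l2 hl2'
  have c1 := hball l1 hl1 w1.not_mem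
  have c2 := hball l2 hl2 w2.not_mem
  rcases c1 with c1 | c1 <;> rcases c2 with c2 | c2
  · exfalso
    have h1 := (Wn.of_preconnected h.cont hA hAJ c1 c2 w1).unique w2
    omega
  · exact ⟨m, A, B, hA, hB, ⟨l1, c1⟩, ⟨l2, c2⟩, fun l hl => Wn.of_preconnected h.cont hA hAJ c1 hl w1,
      fun l hl => Wn.of_preconnected h.cont hB hBJ c2 hl w2, hcov⟩
  · exact ⟨m, B, A, hB, hA, ⟨l1, c1⟩, ⟨l2, c2⟩, fun l hl => Wn.of_preconnected h.cont hB hBJ c1 hl w1,
      fun l hl => Wn.of_preconnected h.cont hA hAJ c2 hl w2, by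
        filter_upwards [hcov] with l hl hlJ
        exact (hl hlJ).symm⟩
  · exfalso
    have h1 := (Wn.of_preconnected h.cont hB hBJ c1 c2 w1).unique w2
    omega

end Pool.Agent.TBirP
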