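import Pool.Agent.TBirP.ColE

/-!
# Traces

`Tr Phi P l n tau`: `tau` is the trace of `P` on the quotient of the Hardy space by the range of `T Phi - l`, in terms of a
biorthogonal system `a i`, `v i`.
`Tr.unique`: for a second system `b i`, `w i` (`n'` elements) `a i = sum_j a i (w j) b j` (both vanish on the range, and every
`f` is `sum b j f w j` plus an element of the range), `b j = sum_i b j (v i) a i`; the matrices `a i (w j)` and `b j (v i)` are inverse to each other,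
so `n = n'`, and `P` preserves the range (`hP`), so `a i (P f) = sum_j a i (P w j) b j f`; trace of a product of matrices (`Matrix.trace_mul_comm`).
`Tr.int`: the matrix `a i (P (v j))` is idempotent (`P` preserves the range, `P * P = P`), the trace of an idempotent matrix is a natural number
(Mathlib: `LinearMap.IsIdempotentElem.trace` or via `IsProj.trace`, or rank).
`exists_tr`: `l` off the curve with winding number `n ≥ 0`: chart `c` at `l` (`exists_chart`, `Inq` by `inq_iff_wn`), `c.x = n`, no branches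
(`c.zer` at `l`): `a i = co (Z l' f) i`, `v i = Y l' (mono i)`, for all `l'` near `l`, `i < n`; the value `sum_i co (Z l' (P (Y l' (mono i)))) i` is
continuous in `l'`, and an integer, so it is constant near `l`.
`tr_jump`: chart at `q = phi z1`, `z1` simple, `m = c.x ≥ 0`, one branch `g`. For `l` in the ball, off the curve, `‖g l‖ > 1`: winding number `m`,
`a i = co (Z l f) i`, `v i = Y l (mono i)`, `i < m`; trace `t(l) = sum_(i < m) co (Z l (P (Y l (mono i)))) i`, continuous on the ball. `‖g l‖ < 1`: one more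
functional `ev (g l) (Sa ^ m (Z l f))` and vector `Y l (mono m)`; with the colour `c1`: `ev (g l) (Sa ^ m (Z l (P (Y l (mono m))))) = c1`, because
`P (qT w (mono 0)) - c1 qT w (mono 0)` is in the range, `qT w = Y l * T (fourier m)`, `w = g l`. So the trace is `t(l) + c1`. `t(l)` is an integer off the curve
(`Tr.int`), so on a dense set, so it is constant on the ball.
-/

set_option autoImplicit false

open MeasureTheory Complex Set Filter Topology Metric AddCircle
open scoped ComplexConjugate InnerProductSpace ENNReal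

namespace Pool.Agent.TBirP

open Pool.Agent.TBir Pool.Agent.TBirG Pool.Agent.TBirC

section

variable {H : Type*} [NormedAddCommGroup H] [NormedSpace ℂ H]

/-- expansion of a functional which vanishes on the common kernel -/
private theorem trc_exp {n : ℕ} {K : H → Prop} {a : Fin n → (H →L[ℂ] ℂ)} {v : Fin n → H}
    (hav : ∀ i j, a i (v j) = if i = j then 1 else 0) (hK : ∀ f, K f ↔ ∀ i, a i f = 0)
    {b : H → ℂ} (hb : ∀ f g, b (f - g) = b f - b g) (hb0 : ∀ f, K f → b f = 0)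
    (hbs : ∀ (c : Fin n → ℂ) , b (∑ i, c i • v i) = ∑ i, c i * b (v i)) (f : H) :
    b f = ∑ i, a i f * b (v i) := by
  have h1 : K (f - ∑ i, a i f • v i) := by
    rw [hK]
    intro i
    rw [map_sub, map_sum]
    simp only [map_smul, hav, smul_eq_mul, mul_ite, mul_one, mul_zero, Finset.sum_ite_eq,
      Finset.mem_univ, if_true, sub_self]
  have h2 := hb0 _ h1
  rw [hb, hbs, sub_eq_zero] at h2
  exact h2

private theorem trc_unique {n n' : ℕ} {K : H → Prop} {P : H →L[ℂ] H} (hP : ∀ f, K f → K (P f))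
    {a : Fin n → (H →L[ℂ] ℂ)} {v : Fin n → H}
    (hav : ∀ i j, a i (v j) = if i = j then 1 else 0) (hK : ∀ f, K f ↔ ∀ i, a i f = 0)
    {b : Fin n' → (H →L[ℂ] ℂ)} {w : Fin n' → H}
    (hbw : ∀ i j, b i (w j) = if i = j then 1 else 0) (hK' : ∀ f, K f ↔ ∀ i, b i f = 0) :
    n = n' ∧ ∑ i, a i (P (v i)) = ∑ i, b i (P (w i)) := by
  have e1 : ∀ (g : H →L[ℂ] ℂ), (∀ f, K f → g f = 0) → ∀ f, g f = ∑ i, a i f * g (v i) := by
    intro g hg f
    refine trc_exp hav hK (fun f g' => map_sub g f g') hg (fun c => ?_) f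
    rw [map_sum]
    simp only [map_smul, smul_eq_mul]
  have e2 : ∀ (g : H →L[ℂ] ℂ), (∀ f, K f → g f = 0) → ∀ f, g f = ∑ i, b i f * g (w i) := by
    intro g hg f
    refine trc_exp hbw hK' (fun f g' => map_sub g f g') hg (fun c => ?_) f
    rw [map_sum]
    simp only [map_smul, smul_eq_mul]
  have ha : ∀ i f, K f → a i f = 0 := fun i f hf => (hK f).1 hf i
  have hb : ∀ i f, K f → b i f = 0 := fun i f hf => (hK' f).1 hf i
  have m1 : ∀ i k, ∑ j, a i (w j) * b j (v k) = if i = k then (1 : ℂ) else 0 := by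
    intro i k
    rw [← hav i k, e2 (a i) (ha i) (v k)]
    exact Finset.sum_congr rfl fun j _ => mul_comm _ _
  have m2 : ∀ j k, ∑ i, b j (v i) * a i (w k) = if j = k then (1 : ℂ) else 0 := by
    intro j k
    rw [← hbw j k, e1 (b j) (hb j) (w k)]
    exact Finset.sum_congr rfl fun j _ => mul_comm _ _
  refine ⟨?_, ?_⟩
  · have h1 : ∑ i : Fin n, ∑ j : Fin n', a i (w j) * b j (v i) = n := by
      simp only [m1, if_true]
      simp
    have h2 : ∑ j : Fin n', ∑ i : Fin n, b j (v i) * a i (w j) = n' := by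
      simp only [m2, if_true]
      simp
    rw [Finset.sum_comm] at h2
    have h3 : (n : ℂ) = n' := by
      rw [← h1, ← h2]
      exact Finset.sum_congr rfl fun i _ => Finset.sum_congr rfl fun j _ => mul_comm _ _
    exact_mod_cast h3
  · have h1 : ∀ i, a i (P (v i)) = ∑ j, b j (v i) * ∑ k, b k (P (w j)) * a i (w k) := by
      intro i
      have := e2 ((a i).comp P) (fun f hf => ha i _ (hP f hf)) (v i)
      rw [ContinuousLinearMap.comp_apply] at this
      rw [this]
      refine Finset.sum_congr rfl fun j _ => ?_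
      rw [ContinuousLinearMap.comp_apply, e2 (a i) (ha i) (P (w j))]
    simp only [h1, Finset.mul_sum]
    rw [Finset.sum_comm]
    refine Finset.sum_congr rfl fun j _ => ?_
    rw [Finset.sum_comm]
    have h2 : ∀ k, ∑ i, b j (v i) * (b k (P (w j)) * a i (w k)) =
        b k (P (w j)) * if j = k then (1 : ℂ) else 0 := by
      intro k
      rw [← m2 j k, Finset.mul_sum]
      exact Finset.sum_congr rfl fun i _ => by ring
    simp only [h2, mul_ite, mul_one, mul_zero, Finset.sum_ite_eq, Finset.mem_univ, if_true]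

private theorem trc_int {n : ℕ} {K : H → Prop} {P : H →L[ℂ] H} (hP2 : P * P = P)
    (hP : ∀ f, K f → K (P f)) {a : Fin n → (H →L[ℂ] ℂ)} {v : Fin n → H}
    (hav : ∀ i j, a i (v j) = if i = j then 1 else 0) (hK : ∀ f, K f ↔ ∀ i, a i f = 0) :
    ∃ k : ℤ, ∑ i, a i (P (v i)) = k := by
  have e1 : ∀ (g : H →L[ℂ] ℂ), (∀ f, K f → g f = 0) → ∀ f, g f = ∑ i, a i f * g (v i) := by
    intro g hg f
    refine trc_exp hav hK (fun f g' => map_sub g f g') hg (fun c => ?_) f
    rw [map_sum]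
    simp only [map_smul, smul_eq_mul]
  let Q : Matrix (Fin n) (Fin n) ℂ := Matrix.of fun i j => a i (P (v j))
  have hQ : Q * Q = Q := by
    ext i j
    rw [Matrix.mul_apply]
    have h1 := e1 ((a i).comp P) (fun f hf => (hK _).1 (hP f hf) i) (P (v j))
    rw [ContinuousLinearMap.comp_apply] at h1
    have h2 : P (P (v j)) = P (v j) := by
      have := congrArg (fun A : H →L[ℂ] H => A (v j)) hP2
      exact this
    rw [h2] at h1
    show ∑ k, a i (P (v k)) * a k (P (v j)) = a i (P (v j))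
    rw [h1]
    exact Finset.sum_congr rfl fun k _ => mul_comm _ _
  have hQ' : IsIdempotentElem (Matrix.toLin' Q) := by
    show Matrix.toLin' Q ∘ₗ Matrix.toLin' Q = _
    rw [← Matrix.toLin'_mul, hQ]
  have h3 := (LinearMap.IsIdempotentElem.isProj_range _ hQ').trace
  rw [Matrix.trace_toLin'_eq] at h3
  refine ⟨(Module.finrank ℂ (LinearMap.range (Matrix.toLin' Q)) : ℤ), ?_⟩
  rw [Int.cast_natCast, ← h3]
  rfl

/-- integers which converge are constant -/
private theorem trc_lim {u : ℂ → ℂ} {z : ℂ} (hu : ContinuousAt u z) {A : Set ℂ} (hA : ∃ᶠ w in 𝓝 z, w ∈ A)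
    (hi : ∀ᶠ w in 𝓝 z, w ∈ A → ∃ k : ℤ, u w = k) : ∀ᶠ w in 𝓝 z, w ∈ A → u w = u z := by
  have h1 : ∀ᶠ w in 𝓝 z, ‖u w - u z‖ < 1 / 2 := by
    have := Metric.tendsto_nhds.1 hu (1 / 2) (by norm_num)
    filter_upwards [this] with w hw
    rwa [dist_eq_norm] at hw
  obtain ⟨w0, hw0A, hw0, k0, hk0⟩ : ∃ w0, w0 ∈ A ∧ ‖u w0 - u z‖ < 1 / 2 ∧ ∃ k : ℤ, u w0 = k := by
    obtain ⟨w0, h2, h3, h4⟩ := (hA.and_eventually (h1.and hi)).exists
    exact ⟨w0, h2, h3, h4 h2⟩
  have h2 : ∀ᶠ w in 𝓝 z, w ∈ A → u w = k0 := by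
    filter_upwards [h1, hi] with w hw hw' hwA
    obtain ⟨k, hk⟩ := hw' hwA
    have h3 : ‖((k - k0 : ℤ) : ℂ)‖ < 1 := by
      have h4 : ((k - k0 : ℤ) : ℂ) = (u w - u z) - (u w0 - u z) := by
        rw [hk, hk0]
        push_cast
        ring
      rw [h4]
      have h5 := norm_sub_le (u w - u z) (u w0 - u z)
      linarith
    rw [Complex.norm_intCast] at h3
    have h4 : |k - k0| < 1 := by exact_mod_cast h3
    have h5 : k = k0 := by
      rw [Int.abs_lt_one_iff] at h4
      omega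
    rw [hk, h5]
  have h3 : u z = k0 := by
    by_contra hne
    have h4 : ∀ᶠ w in 𝓝 z, u w ≠ k0 := hu.eventually_ne hne
    obtain ⟨w, h5, h6, h7⟩ := (hA.and_eventually (h2.and h4)).exists
    exact h7 (h6 h5)
  filter_upwards [h2] with w hw hwA
  rw [hw hwA, h3]

end

variable {phi : ℂ → ℂ} {Phi : CT} {P : Op}

private theorem trc_rg (hP : P * T Phi = T Phi * P) {l : ℂ} (f : Hardy) (h : Rg Phi f l) :
    Rg Phi (P f) l := by
  obtain ⟨g, rfl⟩ := h
  refine ⟨P g, ?_⟩
  have h1 : P (T Phi g) = T Phi (P g) := congrArg (fun A : Op => A g) hP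
  show T Phi (P g) - l • P g = P (T Phi g - l • g)
  rw [map_sub, map_smul, h1]

theorem Tr.unique (hP : P * T Phi = T Phi * P) {l : ℂ} {n n' : ℕ} {tau tau' : ℂ}
    (h : Tr Phi P l n tau) (h' : Tr Phi P l n' tau') : n = n' ∧ tau = tau' := by
  obtain ⟨a, v, hav, hK, rfl⟩ := h
  obtain ⟨b, w, hbw, hK', rfl⟩ := h'
  exact trc_unique (K := fun f => Rg Phi f l) (trc_rg hP) hav hK hbw hK'

theorem Tr.int (hP2 : P * P = P) (hP : P * T Phi = T Phi * P) {l : ℂ} {n : ℕ} {tau : ℂ}
    (h : Tr Phi P l n tau) : ∃ k : ℤ, tau = k := by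
  obtain ⟨a, v, hav, hK, rfl⟩ := h
  exact trc_int (K := fun f => Rg Phi f l) hP2 (trc_rg hP) hav hK

/-- The trace on the first `m` coordinates. -/
private noncomputable def trc_t {q : ℂ} (c : Chart phi Phi q) (P : Op) (m : ℕ) (l : ℂ) : ℂ :=
  ∑ i : Fin m, coL i (c.Z l (P (c.Y l (mono i))))

private theorem trc_ZY {q : ℂ} (c : Chart phi Phi q) {l : ℂ} (hl : l ∈ ball q c.s) (f : Hardy) :
    c.Z l (c.Y l f) = f :=
  congrArg (fun A : Op => A f) (c.ZY l hl)

private theorem trc_cont {q : ℂ} (c : Chart phi Phi q) (P : Op) (m : ℕ) :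
    ContinuousAt (trc_t c P m) q := by
  have hb : ball q c.s ∈ 𝓝 q := ball_mem_nhds _ c.s_pos
  have hY : ContinuousAt c.Y q := c.dY.continuousOn.continuousAt hb
  have hZ : ContinuousAt c.Z q := c.dZ.continuousOn.continuousAt hb
  unfold trc_t
  refine tendsto_finsetSum _ fun i _ => ?_
  have h1 : ContinuousAt (fun l => c.Y l (mono i)) q := hY.clm_apply continuousAt_const
  have h2 : ContinuousAt (fun l => P (c.Y l (mono i))) q := P.continuous.continuousAt.comp h1
  exact (coL (i : ℕ)).continuous.continuousAt.comp (hZ.clm_apply h2)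

private theorem trc_out {q : ℂ} (c : Chart phi Phi q) (P : Op) {m : ℕ} (hm : c.x = m) {l : ℂ}
    (hl : l ∈ ball q c.s) (hJ : l ∉ J phi) (hg : ∀ j, ¬ ‖c.B.g j l‖ < 1) :
    Tr Phi P l m (trc_t c P m l) := by
  have hx : 0 ≤ c.x := by omega
  refine ⟨fun i => (coL i).comp (c.Z l), fun i => c.Y l (mono i), ?_, ?_, rfl⟩
  · intro i j
    show coL (i : ℕ) (c.Z l (c.Y l (mono j))) = _
    rw [trc_ZY c hl, coL_apply, co_mono]
    by_cases h : i = j
    · rw [if_pos h, if_pos (by rw [h])]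
    · rw [if_neg h, if_neg (fun h' => h (Fin.ext h'))]
  · intro f
    rw [rg_iff c hx hl hJ f]
    constructor
    · intro h i
      show coL (i : ℕ) (c.Z l f) = 0
      rw [coL_apply]
      exact h.1 i (by have := i.2; omega)
    · intro h
      refine ⟨fun i hi => ?_, fun j hj => absurd hj (hg j)⟩
      have h1 := h ⟨i, by omega⟩
      have h2 : coL i (c.Z l f) = 0 := h1
      rwa [coL_apply] at h2

private theorem trc_Sa (m : ℕ) : ∀ (f : Hardy) (n : ℕ), co ((Sa ^ m) f) n = co f (n + m) := by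
  induction m with
  | zero => intro f n; rfl
  | succ m ih =>
    intro f n
    have h1 : (Sa ^ (m + 1)) f = (Sa ^ m) (Sa f) := by
      rw [pow_succ]
      rfl
    rw [h1, ih, co_Sa, add_assoc]

private theorem trc_ev (m : ℕ) {w : ℂ} (hw : ‖w‖ < 1) : ∀ f : Hardy, (∀ i < m, co f i = 0) →
    ev w f = w ^ m * ev w ((Sa ^ m) f) := by
  induction m with
  | zero =>
    intro f _
    rw [pow_zero, one_mul]
    rfl
  | succ m ih =>
    intro f hf
    have h1 : (Sa ^ (m + 1)) f = (Sa ^ m) (Sa f) := by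
      rw [pow_succ]
      rfl
    have h2 := evB_Sa hw f
    rw [hf 0 (by omega), sub_zero] at h2
    rw [h1, ← h2, ih (Sa f) fun i hi => by rw [co_Sa]; exact hf _ (by omega)]
    ring

private theorem trc_qT {q : ℂ} (c : Chart phi Phi q) {m : ℕ} (hm : c.x = m) {l : ℂ}
    (hl : l ∈ ball q c.s) {j0 : Fin c.B.k} (hj0 : ∀ j, j = j0) (hg : ‖c.B.g j0 l‖ < 1) :
    qT phi (c.B.g j0 l) (mono 0) = c.Y l (mono m) := by
  have hx : 0 ≤ c.x := by omega
  have h1 : c.B.pj j0 l = 1 := by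
    unfold Br.pj
    have : Finset.univ.erase j0 = (∅ : Finset (Fin c.B.k)) := by
      ext j
      simp [hj0 j]
    rw [this, Finset.prod_empty]
  have h2 : T (fourier (m : ℤ)) (mono 0) = mono m := by
    refine ext_co fun n => ?_
    rw [co_T_mono, fourierCoeff_fourier, co_mono, Nat.cast_zero, sub_zero]
    by_cases h : n = m
    · rw [if_pos h, h, Pi.single_eq_same]
    · rw [if_neg h, Pi.single_eq_of_ne (by exact_mod_cast h)]
  rw [c.qs hx j0 l hl hg, h1, mul_one, hm]
  show c.Y l (T (fourier (m : ℤ)) (mono 0)) = _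
  rw [h2]

private theorem trc_in {q : ℂ} (c : Chart phi Phi q) {P : Op} {m : ℕ} (hm : c.x = m) {l : ℂ}
    (hl : l ∈ ball q c.s) (hJ : l ∉ J phi) {j0 : Fin c.B.k} (hj0 : ∀ j, j = j0)
    (hg : ‖c.B.g j0 l‖ < 1) (hphi : phi (c.B.g j0 l) = l) {c1 : ℂ}
    (hcol : CF phi Phi P (c.B.g j0 l) c1) :
    Tr Phi P l (m + 1) (trc_t c P m l + c1) := by
  have hx : 0 ≤ c.x := by omega
  obtain ⟨w, hw⟩ : ∃ w, w = c.B.g j0 l := ⟨_, rfl⟩
  have hw1 : ‖w‖ < 1 := by rw [hw]; exact hg
  have hw0 : w ≠ 0 := by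
    intro h0
    have := (c.bd l hl j0).1
    rw [← hw, h0, norm_zero] at this
    norm_num at this
  let am : Hardy →L[ℂ] ℂ := (ev w).comp ((Sa ^ m).comp (c.Z l))
  have ham : ∀ f, am f = ev w ((Sa ^ m) (c.Z l f)) := fun f => rfl
  have hrange : ∀ f, Rg Phi f l ↔ (∀ i : ℕ, i < m → co (c.Z l f) i = 0) ∧ am f = 0 := by
    intro f
    rw [rg_iff c hx hl hJ f]
    constructor
    · rintro ⟨h1, h2⟩
      have h3 : ∀ i : ℕ, i < m → co (c.Z l f) i = 0 := fun i hi => h1 i (by omega)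
      refine ⟨h3, ?_⟩
      have h4 := trc_ev m hw1 (c.Z l f) h3
      have h5 := h2 j0 hg
      rw [← hw] at h5
      rw [h5] at h4
      rw [ham]
      exact (mul_eq_zero.1 h4.symm).resolve_left (pow_ne_zero _ hw0)
    · rintro ⟨h1, h2⟩
      refine ⟨fun i hi => h1 i (by omega), fun j _ => ?_⟩
      rw [hj0 j, ← hw, trc_ev m hw1 (c.Z l f) h1, ← ham, h2, mul_zero]
  have ham1 : ∀ i : ℕ, i < m → am (c.Y l (mono i)) = 0 := by
    intro i hi
    rw [ham, trc_ZY c hl]
    have h1 : (Sa ^ m) (mono i) = 0 := by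
      refine ext_co fun n => ?_
      rw [trc_Sa, co_mono, if_neg (by omega), co_zero']
    rw [h1, map_zero]
  have ham2 : am (c.Y l (mono m)) = 1 := by
    rw [ham, trc_ZY c hl]
    have h1 : (Sa ^ m) (mono m) = mono 0 := by
      refine ext_co fun n => ?_
      rw [trc_Sa, co_mono, co_mono]
      by_cases h : n = 0
      · rw [if_pos h, if_pos (by omega)]
      · rw [if_neg h, if_neg (by omega)]
    rw [h1, ev_mono hw1, pow_zero]
  have ham3 : am (P (c.Y l (mono m))) = c1 := by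
    obtain ⟨g, hg'⟩ := hcol (mono 0)
    rw [trc_qT c hm hl hj0 hg, hphi] at hg'
    have h1 : am (P (c.Y l (mono m)) - c1 • c.Y l (mono m)) = 0 :=
      ((hrange _).1 ⟨g, hg'.symm⟩).2
    rw [map_sub, map_smul, ham2, smul_eq_mul, mul_one, sub_eq_zero] at h1
    exact h1
  refine ⟨fun i => if (i : ℕ) < m then (coL i).comp (c.Z l) else am,
    fun i => c.Y l (mono i), ?_, ?_, ?_⟩
  · intro i j
    by_cases hi : (i : ℕ) < m
    · simp only [if_pos hi]
      show coL (i : ℕ) (c.Z l (c.Y l (mono j))) = _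
      rw [trc_ZY c hl, coL_apply, co_mono]
      by_cases h : i = j
      · rw [if_pos h, if_pos (by rw [h])]
      · rw [if_neg h, if_neg (fun h' => h (Fin.ext h'))]
    · simp only [if_neg hi]
      have hi' : (i : ℕ) = m := by have := i.2; omega
      by_cases h : i = j
      · rw [if_pos h, ← h, hi', ham2]
      · rw [if_neg h]
        refine ham1 _ ?_
        have h1 := j.2
        have h2 : (i : ℕ) ≠ j := fun h' => h (Fin.ext h')
        omega
  · intro f
    rw [hrange f]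
    constructor
    · rintro ⟨h1, h2⟩ i
      by_cases hi : (i : ℕ) < m
      · simp only [if_pos hi]
        show coL (i : ℕ) (c.Z l f) = 0
        rw [coL_apply]
        exact h1 i hi
      · simp only [if_neg hi]
        exact h2
    · intro h
      refine ⟨fun i hi => ?_, ?_⟩
      · have h1 := h ⟨i, by omega⟩
        simp only [if_pos hi] at h1
        have h2 : coL i (c.Z l f) = 0 := h1
        rwa [coL_apply] at h2
      · have h1 := h ⟨m, by omega⟩
        simp only [lt_irrefl, if_false] at h1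
        exact h1
  · rw [Fin.sum_univ_castSucc]
    simp only [Fin.val_castSucc, Fin.is_lt, if_true, Fin.val_last, lt_irrefl, if_false]
    rw [ham3]
    rfl

theorem exists_tr (hc : ContinuousOn phi (sphere 0 1)) (hPhi : ∀ x, Phi x = phi (e x))
    (hP2 : P * P = P) (hP : P * T Phi = T Phi * P) {l : ℂ} {n : ℕ} (hl : Wn phi l n) :
    ∃ tau : ℂ, ∀ᶠ l' in 𝓝 l, Tr Phi P l' n tau := by
  obtain ⟨c, hx⟩ := exists_chart hc hPhi ((inq_iff_wn hl.not_mem).2 hl)
  have hk : ∀ j : Fin c.B.k, False := by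
    intro j
    refine hl.not_mem ⟨c.B.g j l, mem_sphere_zero_iff_norm.2 (c.B.norm_q j), ?_⟩
    exact c.B.inv j l (mem_ball_self c.B.R_pos)
  have hT : ∀ l' ∈ ball l c.s, Tr Phi P l' n (trc_t c P n l') := by
    intro l' hl'
    refine trc_out c P hx hl' ?_ fun j _ => hk j
    rw [mem_J_iff c hl']
    rintro ⟨j, -⟩
    exact hk j
  refine ⟨trc_t c P n l, ?_⟩
  have hb : ∀ᶠ l' in 𝓝 l, l' ∈ ball l c.s := ball_mem_nhds _ c.s_pos
  have h1 := trc_lim (trc_cont c P n) (A := univ) (Frequently.of_forall fun _ => mem_univ _)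
    (hb.mono fun l' hl' _ => (hT l' hl').int hP2 hP)
  filter_upwards [h1, hb] with l' h2 h3
  rw [← h2 (mem_univ _)]
  exact hT l' h3

theorem tr_preconnected (hc : ContinuousOn phi (sphere 0 1)) (hPhi : ∀ x, Phi x = phi (e x))
    (hP2 : P * P = P) (hP : P * T Phi = T Phi * P) {n : ℕ} {A : Set ℂ} (hA : IsPreconnected A)
    (hn : ∀ l ∈ A, Wn phi l n) : ∃ tau : ℂ, ∀ l ∈ A, Tr Phi P l n tau := by
  have h1 : ∀ l, ∃ k : ℤ, l ∈ A → ∀ᶠ l' in 𝓝 l, Tr Phi P l' n k := by
    intro l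
    by_cases hl : l ∈ A
    · obtain ⟨tau, h⟩ := exists_tr hc hPhi hP2 hP (hn l hl)
      obtain ⟨k, hk⟩ := h.self_of_nhds.int hP2 hP
      exact ⟨k, fun _ => by rw [← hk]; exact h⟩
    · exact ⟨0, fun h => absurd h hl⟩
  choose k hk using h1
  have hcont : ContinuousOn k A := by
    intro l hl
    have h2 : ∀ᶠ l' in 𝓝[A] l, k l' = k l := by
      filter_upwards [(hk l hl).filter_mono nhdsWithin_le_nhds, self_mem_nhdsWithin] with l' h3 h4
      have h5 := ((hk l' h4).self_of_nhds.unique hP h3).2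
      exact_mod_cast h5
    exact (tendsto_congr' h2).2 tendsto_const_nhds
  rcases A.eq_empty_or_nonempty with rfl | ⟨l0, hl0⟩
  · exact ⟨0, fun l hl => absurd hl (notMem_empty l)⟩
  · refine ⟨k l0, fun l hl => ?_⟩
    rw [hA.constant hcont hl0 hl]
    exact (hk l hl).self_of_nhds

theorem tr_jump {F : Set ℂ} (h : PwA phi F) (hPhi : ∀ x, Phi x = phi (e x))
    (hP2 : P * P = P) (hP : P * T Phi = T Phi * P) {z1 : ℂ} (h1 : Sim phi z1) {m : ℕ}
    (hI : Inq phi (phi z1) m) {c1 : ℂ} (hcol : Col phi Phi P z1 c1) :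
    ∃ tau : ℂ, ∀ eps > 0, (∃ w ∈ ball z1 eps, phi w ∉ J phi ∧ Wn phi (phi w) m ∧ Tr Phi P (phi w) m tau) ∧
      ∃ w ∈ ball z1 eps, phi w ∉ J phi ∧ Wn phi (phi w) (m + 1) ∧ Tr Phi P (phi w) (m + 1) (tau + c1) := by
  obtain ⟨c, hx⟩ := exists_chart h.cont hPhi hI
  obtain ⟨hz1, han, -, hsim⟩ := h1
  have hq : phi z1 ∈ ball (phi z1) c.s := mem_ball_self c.s_pos
  obtain ⟨j0, hj0z⟩ := (c.zer _ hq z1 hz1).1 rfl
  have hgz : ∀ j, c.B.g j (phi z1) = z1 := fun j =>
    hsim _ (c.B.norm_q j) (c.B.inv j _ (mem_ball_self c.B.R_pos))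
  have hj0 : ∀ j, j = j0 := by
    intro j
    by_contra hne
    exact c.B.ne j j0 hne (by rw [hgz, hgz])
  obtain ⟨s1, hs1, hcol⟩ := hcol
  have hloc := c.loc j0
  rw [hj0z] at hloc
  have hb1 : ∀ᶠ w in 𝓝 z1, w ∈ ball z1 s1 := ball_mem_nhds _ hs1
  -- the curve is avoided
  have hJ : ∀ w, phi w ∈ ball (phi z1) c.s → c.B.g j0 (phi w) = w → ‖w‖ ≠ 1 → phi w ∉ J phi := by
    intro w h2 h3 h4 h5
    obtain ⟨j, hj⟩ := (mem_J_iff c h2).1 h5
    rw [hj0 j, h3] at hj
    exact h4 hj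
  have hout : ∀ w, phi w ∈ ball (phi z1) c.s → c.B.g j0 (phi w) = w → 1 < ‖w‖ →
      phi w ∉ J phi ∧ Wn phi (phi w) m ∧ Tr Phi P (phi w) m (trc_t c P m (phi w)) := by
    intro w h2 h3 h4
    have h5 := hJ w h2 h3 h4.ne'
    have h6 : ∀ j, ¬ ‖c.B.g j (phi w)‖ < 1 := by
      intro j
      rw [hj0 j, h3]
      exact not_lt.2 h4.le
    refine ⟨h5, ?_, trc_out c P hx h2 h5 h6⟩
    have h7 := c.wn _ h2 h5
    rw [Finset.filter_false_of_mem (fun j _ => h6 j), Finset.card_empty, Nat.cast_zero, add_zero,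
      hx] at h7
    exact h7
  have hin : ∀ w ∈ ball z1 s1, phi w ∈ ball (phi z1) c.s → c.B.g j0 (phi w) = w → ‖w‖ < 1 →
      phi w ∉ J phi ∧ Wn phi (phi w) (m + 1) ∧
        Tr Phi P (phi w) (m + 1) (trc_t c P m (phi w) + c1) := by
    intro w hw h2 h3 h4
    have h5 := hJ w h2 h3 h4.ne
    have h6 : ‖c.B.g j0 (phi w)‖ < 1 := by rw [h3]; exact h4
    refine ⟨h5, ?_, trc_in c hx h2 h5 hj0 h6 (by rw [h3]) (by rw [h3]; exact hcol w hw h4)⟩
    have h7 := c.wn _ h2 h5
    have h8 : (Finset.univ.filter fun j => ‖c.B.g j (phi w)‖ < 1) = {j0} := by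
      ext j
      rw [hj0 j]
      simp [h6]
    rw [h8, Finset.card_singleton, Nat.cast_one, hx] at h7
    exact h7
  have hcont : ContinuousAt (fun w => trc_t c P m (phi w)) z1 :=
    ContinuousAt.comp (f := phi) (g := trc_t c P m) (trc_cont c P m) han.continuousAt
  have fout : ∃ᶠ w in 𝓝 z1, w ∈ {w : ℂ | 1 < ‖w‖} := by
    rw [Metric.nhds_basis_ball.frequently_iff]
    intro r hr
    exact tendsto_out hz1 hr
  have fin' : ∃ᶠ w in 𝓝 z1, w ∈ {w : ℂ | ‖w‖ < 1} := by
    rw [Metric.nhds_basis_ball.frequently_iff]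
    intro r hr
    exact tendsto_in hz1 hr
  have l1 := trc_lim hcont fout (by
    filter_upwards [hloc] with w hw h2
    exact (hout w hw.1 hw.2 h2).2.2.int hP2 hP)
  have l2 := trc_lim (u := fun w => trc_t c P m (phi w) + c1) (hcont.add continuousAt_const) fin' (by
    filter_upwards [hloc, hb1] with w hw hw1 h2
    exact (hin w hw1 hw.1 hw.2 h2).2.2.int hP2 hP)
  refine ⟨trc_t c P m (phi z1), fun eps heps => ⟨?_, ?_⟩⟩
  · have hb : ∀ᶠ w in 𝓝 z1, w ∈ ball z1 eps := ball_mem_nhds _ heps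
    obtain ⟨w, hw, h2, h3, h4⟩ := (fout.and_eventually (hb.and (hloc.and l1))).exists
    obtain ⟨h5, h6, h7⟩ := hout w h3.1 h3.2 hw
    rw [h4 hw] at h7
    exact ⟨w, h2, h5, h6, h7⟩
  · have hb : ∀ᶠ w in 𝓝 z1, w ∈ ball z1 eps := ball_mem_nhds _ heps
    obtain ⟨w, hw, h2, h3, h8, h4⟩ :=
      (fin'.and_eventually (hb.and (hloc.and (hb1.and l2)))).exists
    obtain ⟨h5, h6, h7⟩ := hin w h8 h3.1 h3.2 hw
    rw [h4 hw] at h7
    exact ⟨w, h2, h5, h6, h7⟩

end Pool.Agent.TBirP
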