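import Pool.Agent.TBirP.SpP

/-!
# The splitting for piecewise analytic symbols

`neg_core`: `Spec phi = J phi ∪ Om phi` (`spec_cont`), and `J phi` is in the closure of `Om`: simple points which are not in `F` are dense in the circle and by `sim_local` one of the
winding numbers `x`, `x + 1` is not `0`. So `S = closure U1 ∪ closure U2`, and `S \ Q = (closure U1 \ Q) ∪ (closure U2 \ Q)`, `Q = closure U1 ∩ closure U2`, disjoint, relatively
closed, nonempty (`U1` is open, nonempty, so infinite, and `Q` is finite): not preconnected; `main_disc` (TBirC/Fin.lean) with `Reg2` (local regularity at the points of `Q`: `PwA.reg`).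
-/

set_option autoImplicit false

open MeasureTheory Complex Set Filter Topology Metric AddCircle
open scoped ComplexConjugate InnerProductSpace ENNReal

namespace Pool.Agent.TBirP

open Pool.Agent.TBir Pool.Agent.TBirG Pool.Agent.TBirC

variable {phi : ℂ → ℂ} {F : Set ℂ}

private theorem spq_perf : Preperfect (sphere (0 : ℂ) 1) := by
  refine (isPreconnected_sphere (E := ℂ) ?_ 0 1).preperfect_of_nontrivial ?_
  · rw [Complex.rank_real_complex]
    exact Nat.one_lt_ofNat
  · refine ⟨1, ?_, -1, ?_, ?_⟩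
    · rw [mem_sphere_zero_iff_norm, norm_one]
    · rw [mem_sphere_zero_iff_norm, norm_neg, norm_one]
    · norm_num

/-- The circle without a finite set is dense in the circle. -/
private theorem spq_dense {T : Set ℂ} (hT : T.Finite) {z : ℂ} (hz : z ∈ sphere (0 : ℂ) 1) :
    z ∈ closure (sphere (0 : ℂ) 1 \ T) := by
  by_cases hzT : z ∈ T
  · have h1 : AccPt z (𝓟 (sphere (0 : ℂ) 1)) := spq_perf z hz
    rw [accPt_iff_frequently] at h1
    have h2 : ∀ᶠ y in 𝓝 z, y ∉ T \ {z} := by
      have h3 : IsClosed (T \ {z}) := (hT.subset sdiff_subset).isClosed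
      exact h3.isOpen_compl.mem_nhds fun h4 => h4.2 rfl
    rw [mem_closure_iff_frequently]
    refine (h1.and_eventually h2).mono ?_
    rintro y ⟨⟨hyz, hy⟩, hyT⟩
    exact ⟨hy, fun h5 => hyT ⟨h5, hyz⟩⟩
  · exact subset_closure ⟨hz, hzT⟩

private theorem spq_curve (h : PwA phi F) (hsim : {z : ℂ | ‖z‖ = 1 ∧ ¬ Sim phi z}.Finite) :
    J phi ⊆ closure (Om phi) := by
  rintro q ⟨z, hz, rfl⟩
  have hd := spq_dense (hsim.union h.fin) hz
  have hc : ContinuousWithinAt phi (sphere (0 : ℂ) 1 \ ({z : ℂ | ‖z‖ = 1 ∧ ¬ Sim phi z} ∪ F)) z :=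
    (h.cont z hz).mono sdiff_subset
  have h1 := hc.mem_closure_image hd
  have h2 : phi '' (sphere (0 : ℂ) 1 \ ({z : ℂ | ‖z‖ = 1 ∧ ¬ Sim phi z} ∪ F)) ⊆
      closure (Om phi) := by
    rintro q ⟨w, ⟨hw, hwT⟩, rfl⟩
    have hwF : w ∉ F := fun h3 => hwT (Or.inr h3)
    have hwS : Sim phi w := by
      by_contra h3
      exact hwT (Or.inl ⟨mem_sphere_zero_iff_norm.1 hw, h3⟩)
    obtain ⟨x, A, B, -, -, -, hA, hB, hAc, hBc, -⟩ := sim_local h hwS hwF
    by_cases hx : x = 0
    · have hAO : A ⊆ Om phi := fun l hl => ⟨x + 1, by omega, hA l hl⟩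
      exact closure_mono hAO hAc
    · have hBO : B ⊆ Om phi := fun l hl => ⟨x, hx, hB l hl⟩
      exact closure_mono hBO hBc
  exact closure_minimal h2 isClosed_closure h1

private theorem spq_nonempty {U Q : Set ℂ} (o : IsOpen U) (n : U.Nonempty) (hQ : Q.Finite) :
    (U \ Q).Nonempty := by
  obtain ⟨u, hu⟩ := n
  exact ((infinite_of_mem_nhds u (o.mem_nhds hu)).sdiff hQ).nonempty

theorem neg_core (h : PwA phi F) (hsim : {z : ℂ | ‖z‖ = 1 ∧ ¬ Sim phi z}.Finite) {U1 U2 : Set ℂ}
    (o1 : IsOpen U1) (o2 : IsOpen U2) (hU : U1 ∪ U2 = Om phi) (hd : Disjoint U1 U2)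
    (n1 : U1.Nonempty) (n2 : U2.Nonempty) (hfin : (closure U1 ∩ closure U2).Finite)
    (hreg : ∀ q ∈ closure U1 ∩ closure U2, ∀ z ∈ sphere (0 : ℂ) 1, phi z = q → z ∉ F) :
    ¬ BIR H2 (IsToeplitz phi) := by
  have hb : MemLp (fun x : UnitAddCircle => phi (e x)) ∞ mu0 :=
    memLp_ct (⟨fun x => phi (e x), h.cont.comp_continuous wi_e_cont fun x => by
      rw [mem_sphere_zero_iff_norm]
      exact norm_e x⟩ : CT)
  have hS := spec_cont h.cont
  have hcl : closure (Om phi) = closure U1 ∪ closure U2 := by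
    rw [← hU, closure_union]
  have hsub : Spec phi ⊆ closure U1 ∪ closure U2 := by
    rw [hS, ← hcl]
    exact union_subset (spq_curve h hsim) subset_closure
  have hO : Om phi ⊆ Spec phi := by
    rw [hS]
    exact subset_union_right
  have hne : ∀ U : Set ℂ, IsOpen U → U.Nonempty → U ⊆ Om phi →
      ((Spec phi \ (closure U1 ∩ closure U2)) ∩ closure U).Nonempty := by
    intro U o n hUO
    obtain ⟨u, hu, huQ⟩ := spq_nonempty o n hfin
    exact ⟨u, ⟨hO (hUO hu), huQ⟩, subset_closure hu⟩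
  refine (main_disc hb hfin (fun q hq => Or.inr ⟨h.cont, fun z hz hzq =>
    h.reg z hz (hreg q hq z hz hzq)⟩) ?_).2
  intro hpre
  rw [isPreconnected_closed_iff] at hpre
  obtain ⟨y, hy, hy'⟩ := hpre (closure U1) (closure U2) isClosed_closure isClosed_closure
    (sdiff_subset.trans hsub) (hne U1 o1 n1 (by rw [← hU]; exact subset_union_left))
    (hne U2 o2 n2 (by rw [← hU]; exact subset_union_right))
  exact hy.2 hy'

end Pool.Agent.TBirP
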