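import Pool.Agent.TBirP.CrsA
import Pool.Agent.TBirP.SpQ

/-!
# Both signs

`pc_neg`: `U1 = {winding number > 0}`, `U2 = {winding number < 0}`, `neg_core`. The intersection of the closures contains no point off the curve, no value of a point of `F` (`pc_corner`: near it the
winding numbers are `x`, `x + 1`), no value of a simple point (`sim_local`), so only values of points which are not simple: finitely many (`pc_sim`).
-/

set_option autoImplicit false

open MeasureTheory Complex Set Filter Topology Metric AddCircle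
open scoped ComplexConjugate InnerProductSpace ENNReal

namespace Pool.Agent.TBirP

open Pool.Agent.TBir Pool.Agent.TBirG Pool.Agent.TBirC

variable {phi : ℂ → ℂ} {F : Set ℂ}

private theorem crs_not_both {q : ℂ} {x : ℤ} {A B : Set ℂ} (hA : ∀ l ∈ A, Wn phi l (x + 1))
    (hB : ∀ l ∈ B, Wn phi l x) (hE : ∀ᶠ l in 𝓝 q, l ∉ J phi → l ∈ A ∨ l ∈ B)
    (h1 : q ∈ closure {l | ∃ n : ℤ, 0 < n ∧ Wn phi l n})
    (h2 : q ∈ closure {l | ∃ n : ℤ, n < 0 ∧ Wn phi l n}) : False := by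
  rw [mem_closure_iff_frequently] at h1 h2
  obtain ⟨l, ⟨n, hn, hl⟩, hl'⟩ := (h1.and_eventually hE).exists
  obtain ⟨m, ⟨k, hk, hm⟩, hm'⟩ := (h2.and_eventually hE).exists
  have e1 : n = x + 1 ∨ n = x := by
    rcases hl' hl.not_mem with h | h
    · exact Or.inl (hl.unique (hA l h))
    · exact Or.inr (hl.unique (hB l h))
  have e2 : k = x + 1 ∨ k = x := by
    rcases hm' hm.not_mem with h | h
    · exact Or.inl (hm.unique (hA m h))
    · exact Or.inr (hm.unique (hB m h))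
  omega

private theorem crs_open_wn (hc : ContinuousOn phi (sphere 0 1)) (P : ℤ → Prop) :
    IsOpen {l | ∃ n : ℤ, P n ∧ Wn phi l n} := by
  rw [isOpen_iff_mem_nhds]
  rintro l ⟨n, hn, hl⟩
  filter_upwards [hl.nhds hc] with l' hl'
  exact ⟨n, hn, hl'⟩

theorem pc_neg (h : PCross phi F) {l l' : ℂ} {n n' : ℤ} (hl : Wn phi l n) (hn : n < 0)
    (hl' : Wn phi l' n') (hn' : 0 < n') : ¬ BIR H2 (IsToeplitz phi) := by
  have hP : PwA phi F := h.toPwA
  set U1 : Set ℂ := {l | ∃ n : ℤ, 0 < n ∧ Wn phi l n} with hU1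
  set U2 : Set ℂ := {l | ∃ n : ℤ, n < 0 ∧ Wn phi l n} with hU2
  have hJ : ∀ q ∈ closure U1 ∩ closure U2, ∃ z, ‖z‖ = 1 ∧ phi z = q := by
    rintro q ⟨h1, h2⟩
    by_contra hcon
    have hq : q ∉ J phi := by
      rintro ⟨z, hz, hzq⟩
      exact hcon ⟨z, mem_sphere_zero_iff_norm.1 hz, hzq⟩
    obtain ⟨x, hx⟩ := exists_wn hP.cont hq
    exact crs_not_both (A := ∅) (B := {l | Wn phi l x}) (x := x) (fun l hl => absurd hl (notMem_empty l))
      (fun l hl => hl) ((hx.nhds hP.cont).mono fun l hl _ => Or.inr hl) h1 h2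
  have hF : ∀ q ∈ closure U1 ∩ closure U2, ∀ z ∈ sphere (0 : ℂ) 1, phi z = q → z ∉ F := by
    rintro q ⟨h1, h2⟩ z hz rfl hzF
    obtain ⟨x, A, B, -, -, -, -, hA, hB, hE⟩ := pc_corner h (mem_sphere_zero_iff_norm.1 hz) hzF
    exact crs_not_both hA hB hE h1 h2
  have hS : ∀ q ∈ closure U1 ∩ closure U2, ∀ z, ‖z‖ = 1 → phi z = q → ¬ Sim phi z := by
    intro q hq z hz hzq hsim
    have hzF := hF q hq z (mem_sphere_zero_iff_norm.2 hz) hzq
    obtain ⟨x, A, B, -, -, -, hA, hB, -, -, hE⟩ := sim_local hP hsim hzF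
    rw [hzq] at hE
    exact crs_not_both hA hB hE hq.1 hq.2
  refine neg_core hP (pc_sim h) (U1 := U1) (U2 := U2) (crs_open_wn hP.cont _) (crs_open_wn hP.cont _) ?_ ?_
    ⟨l', n', hn', hl'⟩ ⟨l, n, hn, hl⟩ ?_ hF
  · ext m
    constructor
    · rintro (⟨k, hk, hm⟩ | ⟨k, hk, hm⟩)
      · exact ⟨k, hk.ne', hm⟩
      · exact ⟨k, hk.ne, hm⟩
    · rintro ⟨k, hk, hm⟩
      rcases lt_or_gt_of_ne hk with hk | hk
      · exact Or.inr ⟨k, hk, hm⟩
      · exact Or.inl ⟨k, hk, hm⟩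
  · rw [Set.disjoint_left]
    rintro m ⟨k, hk, hm⟩ ⟨j, hj, hm'⟩
    have := hm.unique hm'
    omega
  · refine ((pc_sim h).image phi).subset fun q hq => ?_
    obtain ⟨z, hz, hzq⟩ := hJ q hq
    exact ⟨z, ⟨hz, hS q hq z hz hzq⟩, hzq⟩

end Pool.Agent.TBirP
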