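import Pool.Agent.TBirP.CrsG
import Pool.Agent.TBirP.CrsN

/-!
# The criterion

`pc_main`: `→`: `pc_neg`. `←`: no two signs: all `≥ 0` (`pc_good`, `main_good`) or all `≤ 0` (`pc_goodO`, `main_goodO`), `bir_of_ct`, `exists_ct`. The first part is `exists_unique_cont`.
-/

set_option autoImplicit false

open MeasureTheory Complex Set Filter Topology Metric AddCircle
open scoped ComplexConjugate InnerProductSpace ENNReal

namespace Pool.Agent.TBirP

open Pool.Agent.TBir Pool.Agent.TBirG Pool.Agent.TBirC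

variable {phi : ℂ → ℂ} {F : Set ℂ}

theorem pc_main (h : PCross phi F) : (∀ f ∈ H2, ∃! g, IsToeplitz phi f g) ∧
    (BIR H2 (IsToeplitz phi) ↔
      ¬ ∃ (l l' : ℂ) (n n' : ℤ), Wn phi l n ∧ Wn phi l' n' ∧ n < 0 ∧ 0 < n') := by
  refine ⟨exists_unique_cont h.cont, ?_, ?_⟩
  · rintro hb ⟨l, l', n, n', hl, hl', hn, hn'⟩
    exact pc_neg h hl hn hl' hn' hb
  · intro hno
    obtain ⟨Phi, hPhi⟩ := exists_ct h.cont
    rw [bir_of_ct hPhi]
    by_cases hw : ∀ l n, Wn phi l n → 0 ≤ n
    · exact main_good h.toPwA hPhi (pc_sim h) (pc_good h hw)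
    · push Not at hw
      obtain ⟨l, n, hl, hn⟩ := hw
      have hw' : ∀ l' n', Wn phi l' n' → n' ≤ 0 := by
        intro l' n' h'
        by_contra hc
        exact hno ⟨l, l', n, n', hl, h', hn, by omega⟩
      exact main_goodO h.toPwA hPhi (pc_sim h) (pc_goodO h hw')

end Pool.Agent.TBirP
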