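import Pool.Agent.TBirP.Def

/-!
# Bound of the argument

`Bd phi A a b`: a continuous logarithm of `phi (E x) - l` on `[a, b]` has an imaginary part with oscillation `≤ A`, for all
`l`. `Cone phi a b`: the chords are in a cone around a fixed direction, also with a bound of the length.

Paper proof of `Cone.bd`. Rotate: multiply by `conj u / ‖u‖` (`u = 0` forces `phi` constant on the interval, then `g` is constant).
`w x = (phi (E x) - l) conj u / ‖u‖ = exp (g x + i c)` has a nondecreasing real part, and if the real parts at `x ≤ y` are equal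
then `w` is constant on `[x, y]` (the cone condition with both sides), so `g` is constant there (continuity, values in
`2 pi i ℤ` plus a constant). The sets `Re w < 0`, `Re w = 0`, `Re w > 0` are consecutive intervals, on the first and on the
last `cos (im g + c)` has no zero, so `im g` has oscillation `≤ pi` on each (intermediate value theorem), and `g` is constant on
the middle one: together `≤ 2 pi`.
`interval_ind`: the supremum argument (`IsClosed.Icc_subset_of_forall_mem_nhdsWithin` or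
`IsCompact` induction).
-/

set_option autoImplicit false

open MeasureTheory Complex Set Filter Topology Metric AddCircle
open scoped ComplexConjugate InnerProductSpace ENNReal

namespace Pool.Agent.TBirP

open Pool.Agent.TBir Pool.Agent.TBirG Pool.Agent.TBirC

def Bd (phi : ℂ → ℂ) (A a b : ℝ) : Prop :=
  ∀ (l : ℂ) (g : ℝ → ℂ), ContinuousOn g (Icc a b) →
    (∀ x ∈ Icc a b, phi (E x) - l = exp (g x)) →
    ∀ x ∈ Icc a b, ∀ y ∈ Icc a b, |(g x).im - (g y).im| ≤ A

def Cone (phi : ℂ → ℂ) (a b : ℝ) : Prop :=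
  ∃ u : ℂ, ∀ x ∈ Icc a b, ∀ y ∈ Icc a b, x ≤ y →
    ‖phi (E y) - phi (E x)‖ ≤ ((phi (E y) - phi (E x)) * conj u).re

/-- A continuous function `v` such that `cos v` cannot become negative after having been positive grows by at most
`2 pi`. -/
private theorem osc_le {v : ℝ → ℝ} {x y : ℝ} (hxy : x ≤ y) (hv : ContinuousOn v (Icc x y))
    (hp : ∀ s ∈ Icc x y, ∀ t ∈ Icc x y, s ≤ t → 0 < Real.cos (v s) → 0 ≤ Real.cos (v t)) :
    v y - v x ≤ 2 * Real.pi := by
  by_contra hh
  push Not at hh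
  have hpi := Real.pi_pos
  have key : ∀ w, v x ≤ w → w + Real.pi ≤ v y → Real.cos w ≤ 0 := by
    intro w h1 h2
    by_contra h3
    push Not at h3
    obtain ⟨s, hs, rfl⟩ := intermediate_value_Icc hxy hv (⟨h1, by linarith⟩ : w ∈ Icc (v x) (v y))
    obtain ⟨t, ht, hvt⟩ := intermediate_value_Icc hs.2
      (hv.mono (Icc_subset_Icc_left hs.1)) (⟨by linarith, h2⟩ : v s + Real.pi ∈ Icc (v s) (v y))
    have h4 := hp s hs t ⟨hs.1.trans ht.1, ht.2⟩ ht.1 h3
    rw [hvt, Real.cos_add_pi] at h4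
    linarith
  set d := min (v y - v x - 2 * Real.pi) (Real.pi / 2) with hd
  have hd0 : 0 < d := lt_min (by linarith) (by linarith)
  have hd1 : d ≤ v y - v x - 2 * Real.pi := min_le_left _ _
  have hd2 : d ≤ Real.pi / 2 := min_le_right _ _
  have a1 := key (v x) le_rfl (by linarith)
  have a2 := key (v x + Real.pi) (by linarith) (by linarith)
  have a3 := key (v x + d) (by linarith) (by linarith)
  have a4 := key (v x + d + Real.pi) (by linarith) (by linarith)
  rw [Real.cos_add_pi] at a2 a4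
  have b1 : Real.cos (v x) = 0 := by linarith
  have b2 : Real.cos (v x + d) = 0 := by linarith
  rw [Real.cos_add, b1, zero_mul, zero_sub, neg_eq_zero] at b2
  have hs : 0 < Real.sin d := Real.sin_pos_of_pos_of_lt_pi hd0 (by linarith)
  have b3 : Real.sin (v x) = 0 := (mul_eq_zero.mp b2).resolve_right hs.ne'
  have b4 := Real.sin_sq_add_cos_sq (v x)
  rw [b1, b3] at b4
  norm_num at b4

private theorem osc_abs {v : ℝ → ℝ} {x y : ℝ} (hxy : x ≤ y) (hv : ContinuousOn v (Icc x y))
    (hp : ∀ s ∈ Icc x y, ∀ t ∈ Icc x y, s ≤ t → 0 < Real.cos (v s) → 0 ≤ Real.cos (v t)) :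
    |v x - v y| ≤ 2 * Real.pi := by
  have h1 := osc_le hxy hv hp
  have h2 := osc_le (v := fun s => - v s) hxy hv.neg (by
    intro s hs t ht hst h
    rw [Real.cos_neg] at h ⊢
    exact hp s hs t ht hst h)
  rw [abs_le]
  constructor <;> linarith

private theorem re_exp_mul_conj (w u : ℂ) :
    (exp w * conj u).re = ‖u‖ * Real.exp w.re * Real.cos (w.im - arg u) := by
  rw [Real.cos_sub, Complex.mul_re, Complex.conj_re, Complex.conj_im, Complex.exp_re, Complex.exp_im,
    ← Complex.norm_mul_cos_arg u, ← Complex.norm_mul_sin_arg u]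
  simp only [Complex.norm_mul_cos_arg, Complex.norm_mul_sin_arg]
  rw [← Complex.norm_mul_cos_arg u, ← Complex.norm_mul_sin_arg u]
  ring

theorem Cone.bd {phi : ℂ → ℂ} {a b : ℝ} (h : Cone phi a b) : Bd phi (2 * Real.pi) a b := by
  obtain ⟨u, hu0, hu⟩ : ∃ u : ℂ, u ≠ 0 ∧ ∀ x ∈ Icc a b, ∀ y ∈ Icc a b, x ≤ y →
      0 ≤ ((phi (E y) - phi (E x)) * conj u).re := by
    obtain ⟨u, hu⟩ := h
    by_cases h0 : u = 0
    · refine ⟨1, one_ne_zero, fun x hx y hy hxy => ?_⟩
      have h1 := hu x hx y hy hxy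
      rw [h0, map_zero, mul_zero, Complex.zero_re] at h1
      rw [norm_le_zero_iff.mp h1]
      simp
    · exact ⟨u, h0, fun x hx y hy hxy => (norm_nonneg _).trans (hu x hx y hy hxy)⟩
  have main : ∀ (l : ℂ) (g : ℝ → ℂ), ContinuousOn g (Icc a b) →
      (∀ x ∈ Icc a b, phi (E x) - l = exp (g x)) →
      ∀ x ∈ Icc a b, ∀ y ∈ Icc a b, x ≤ y → |(g x).im - (g y).im| ≤ 2 * Real.pi := by
    intro l g hg hgl x hx y hy hxy
    have hsub : Icc x y ⊆ Icc a b := Icc_subset_Icc hx.1 hy.2
    have h1 := osc_abs (v := fun s => (g s).im - arg u) hxy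
      ((Complex.continuous_im.comp_continuousOn (hg.mono hsub)).sub continuousOn_const) (by
        intro s hs t ht hst h2
        have h3 := hu s (hsub hs) t (hsub ht) hst
        have h4 : phi (E t) - phi (E s) = exp (g t) - exp (g s) := by
          rw [← hgl t (hsub ht), ← hgl s (hsub hs)]
          ring
        rw [h4, sub_mul, Complex.sub_re, re_exp_mul_conj, re_exp_mul_conj] at h3
        have h5 : 0 < ‖u‖ := norm_pos_iff.mpr hu0
        have h6 : 0 < ‖u‖ * Real.exp (g s).re * Real.cos ((g s).im - arg u) :=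
          mul_pos (mul_pos h5 (Real.exp_pos _)) h2
        have h7 : 0 < ‖u‖ * Real.exp (g t).re * Real.cos ((g t).im - arg u) := by linarith
        exact (pos_of_mul_pos_right h7 (mul_pos h5 (Real.exp_pos _)).le).le)
    have h2 : (g x).im - arg u - ((g y).im - arg u) = (g x).im - (g y).im := by ring
    rwa [h2] at h1
  intro l g hg hgl x hx y hy
  rcases le_total x y with hxy | hxy
  · exact main l g hg hgl x hx y hy hxy
  · rw [abs_sub_comm]
    exact main l g hg hgl y hy x hx hxy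

theorem interval_ind {R : ℝ → ℝ → Prop}
    (htr : ∀ a b c, a ≤ b → b ≤ c → R a b → R b c → R a c)
    (hr : ∀ x, ∃ δ > 0, ∀ y, x ≤ y → y ≤ x + δ → R x y)
    (hl : ∀ x, ∃ δ > 0, ∀ y, x - δ ≤ y → y ≤ x → R y x) : ∀ a b, a ≤ b → R a b := by
  intro a b hab
  have haS : a ∈ {t | a ≤ t ∧ t ≤ b ∧ R a t} := by
    obtain ⟨δ, hδ, h⟩ := hr a
    exact ⟨le_rfl, hab, h a le_rfl (by linarith)⟩
  have hbd : BddAbove {t | a ≤ t ∧ t ≤ b ∧ R a t} := ⟨b, fun t ht => ht.2.1⟩
  obtain ⟨s, hs⟩ : ∃ s, s = sSup {t | a ≤ t ∧ t ≤ b ∧ R a t} := ⟨_, rfl⟩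
  have has : a ≤ s := by rw [hs]; exact le_csSup hbd haS
  have hsb : s ≤ b := by rw [hs]; exact csSup_le ⟨a, haS⟩ fun t ht => ht.2.1
  have hRs : R a s := by
    obtain ⟨δ, hδ, h⟩ := hl s
    obtain ⟨t, ht, hts⟩ := exists_lt_of_lt_csSup ⟨a, haS⟩ (by rw [← hs]; linarith :
      s - δ < sSup {t | a ≤ t ∧ t ≤ b ∧ R a t})
    have hts' : t ≤ s := by rw [hs]; exact le_csSup hbd ht
    exact htr a t s ht.1 hts' ht.2.2 (h t hts.le hts')
  rcases hsb.eq_or_lt with h | h
  · rw [← h]
    exact hRs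
  · exfalso
    obtain ⟨δ, hδ, h'⟩ := hr s
    have h1 : s < min (s + δ) b := lt_min (by linarith) h
    have h2 : min (s + δ) b ∈ {t | a ≤ t ∧ t ≤ b ∧ R a t} :=
      ⟨has.trans h1.le, min_le_right _ _, htr a s _ has h1.le hRs (h' _ h1.le (min_le_left _ _))⟩
    have h3 := le_csSup hbd h2
    rw [← hs] at h3
    linarith

/-- Under local cone conditions the arguments of all `phi - l` have bounded oscillation. -/
theorem ang_of_cone {phi : ℂ → ℂ} (hc : ContinuousOn phi (sphere 0 1))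
    (hr : ∀ x : ℝ, ∃ δ > 0, ∀ y, x ≤ y → y ≤ x + δ → Cone phi x y)
    (hl : ∀ x : ℝ, ∃ δ > 0, ∀ y, x - δ ≤ y → y ≤ x → Cone phi y x) :
    ∃ A : ℝ, ∀ (l : ℂ) (n : ℤ) (g : ℂ → ℂ), ContinuousOn g (sphere 0 1) →
      (∀ z ∈ sphere (0 : ℂ) 1, phi z - l = z ^ n * exp (g z)) →
      |(n : ℝ)| ≤ A ∧ ∀ z ∈ sphere (0 : ℂ) 1, ∀ z' ∈ sphere (0 : ℂ) 1, |(g z).im - (g z').im| ≤ A := by
  have hpi := Real.pi_pos
  obtain ⟨A, hA, hbd⟩ := interval_ind (R := fun a b => ∃ A : ℝ, 0 ≤ A ∧ Bd phi A a b)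
    (by
      rintro a b c hab hbc ⟨A, hA, h1⟩ ⟨B, hB, h2⟩
      refine ⟨A + B, add_nonneg hA hB, ?_⟩
      intro l g hg hgl
      have k1 := h1 l g (hg.mono (Icc_subset_Icc_right hbc)) fun x hx => hgl x ⟨hx.1, hx.2.trans hbc⟩
      have k2 := h2 l g (hg.mono (Icc_subset_Icc_left hab)) fun x hx => hgl x ⟨hab.trans hx.1, hx.2⟩
      have k3 : ∀ x ∈ Icc a c, ∀ y ∈ Icc a c, x ≤ y → |(g x).im - (g y).im| ≤ A + B := by
        intro x hx y hy hxy
        rcases le_total y b with hyb | hyb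
        · have := k1 x ⟨hx.1, hxy.trans hyb⟩ y ⟨hy.1, hyb⟩
          linarith
        · rcases le_total x b with hxb | hxb
          · have e1 := k1 x ⟨hx.1, hxb⟩ b ⟨hab, le_rfl⟩
            have e2 := k2 b ⟨le_rfl, hbc⟩ y ⟨hyb, hy.2⟩
            have e3 := abs_sub_le (g x).im (g b).im (g y).im
            linarith
          · have := k2 x ⟨hxb, hx.2⟩ y ⟨hyb, hy.2⟩
            linarith
      intro x hx y hy
      rcases le_total x y with hxy | hxy
      · exact k3 x hx y hy hxy
      · rw [abs_sub_comm]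
        exact k3 y hy x hx hxy)
    (by
      intro x
      obtain ⟨δ, hδ, h⟩ := hr x
      exact ⟨δ, hδ, fun y h1 h2 => ⟨2 * Real.pi, by positivity, (h y h1 h2).bd⟩⟩)
    (by
      intro x
      obtain ⟨δ, hδ, h⟩ := hl x
      exact ⟨δ, hδ, fun y h1 h2 => ⟨2 * Real.pi, by positivity, (h y h1 h2).bd⟩⟩)
    (-Real.pi) Real.pi (by linarith)
  refine ⟨2 * A, fun l n g hg hgl => ?_⟩
  have hE : ∀ x : ℝ, E x ∈ sphere (0 : ℂ) 1 := fun x => by
    rw [mem_sphere_zero_iff_norm, E, Complex.norm_exp_ofReal_mul_I]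
  have hEc : Continuous E := by
    unfold E
    fun_prop
  have hgE : Continuous fun x : ℝ => g (E x) := hg.comp_continuous hEc hE
  have h1 := hbd l (fun x => (n : ℂ) * ((x : ℂ) * I) + g (E x))
    (by
      refine Continuous.continuousOn ?_
      exact (continuous_const.mul (Complex.continuous_ofReal.mul continuous_const)).add hgE)
    (by
      intro x _
      rw [hgl _ (hE x), Complex.exp_add, Complex.exp_int_mul]
      rfl)
  have him : ∀ x : ℝ, ((n : ℂ) * ((x : ℂ) * I) + g (E x)).im = n * x + (g (E x)).im := by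
    intro x
    simp
  simp only [him] at h1
  have hEpi : E (-Real.pi) = E Real.pi := by
    unfold E
    rw [Complex.ofReal_neg, neg_mul, Complex.exp_neg, Complex.exp_pi_mul_I]
    norm_num
  have h2 := h1 Real.pi ⟨by linarith, le_rfl⟩ (-Real.pi) ⟨le_rfl, by linarith⟩
  rw [hEpi] at h2
  have h3 : (n : ℝ) * Real.pi + (g (E Real.pi)).im - (n * -Real.pi + (g (E Real.pi)).im) =
      2 * Real.pi * n := by ring
  rw [h3, abs_mul, abs_of_pos (by positivity : (0 : ℝ) < 2 * Real.pi)] at h2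
  have hn0 : 0 ≤ |(n : ℝ)| := abs_nonneg _
  have hpi3 : 3 < Real.pi := Real.pi_gt_three
  constructor
  · nlinarith
  · intro z hz z' hz'
    have harg : ∀ w ∈ sphere (0 : ℂ) 1, E (arg w) = w := by
      intro w hw
      have h4 := Complex.norm_mul_exp_arg_mul_I w
      rw [mem_sphere_zero_iff_norm.mp hw, Complex.ofReal_one, one_mul] at h4
      exact h4
    have hI : ∀ w : ℂ, arg w ∈ Icc (-Real.pi) Real.pi := fun w =>
      ⟨(Complex.neg_pi_lt_arg w).le, Complex.arg_le_pi w⟩
    have h5 := h1 (arg z) (hI z) (arg z') (hI z')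
    rw [harg z hz, harg z' hz'] at h5
    have h6 : |(n : ℝ) * (arg z - arg z')| ≤ A := by
      rw [abs_mul]
      have h7 : |arg z - arg z'| ≤ 2 * Real.pi := by
        rw [abs_le]
        have := hI z
        have := hI z'
        simp only [mem_Icc] at *
        constructor <;> linarith
      calc |(n : ℝ)| * |arg z - arg z'| ≤ |(n : ℝ)| * (2 * Real.pi) :=
            mul_le_mul_of_nonneg_left h7 hn0
        _ ≤ A := by linarith
    have h8 : (g z).im - (g z').im =
        (n * arg z + (g z).im - (n * arg z' + (g z').im)) - n * (arg z - arg z') := by ring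
    rw [h8]
    have h9 := abs_sub (n * arg z + (g z).im - (n * arg z' + (g z').im)) ((n : ℝ) * (arg z - arg z'))
    linarith

end Pool.Agent.TBirP
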