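import Pool.Agent.TBirP.Lg
import Pool.Agent.TBirC.Brx

/-!
# Charts: the points of the circle near the branches

Paper proofs. `cht_loc`: `B.g j` is analytic at `q`, `phi (B.g j l) = l` (`B.inv`), so `deriv (B.g j) q ≠ 0` and `B.g j` is an open
map near `q` (inverse function theorem, `HasStrictDerivAt.map_nhds_eq`); a point `w` near `B.g j q` is `B.g j l` with `l` near `q` and
`phi w = l`. `cht_zer`: the points `z` of the circle with `phi z = q` are the `B.g j q` (hypothesis `h0`); for `z` on the circle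
near `B.g j q` `phi z = l` iff `z = B.g j l` (`cht_loc` gives `B.g j (phi z) = z`; conversely `B.inv`); on the compact rest of the circle `phi - q` is
bounded below. `cht_inj`, `cht_bd`: continuity. `exists_B`: `exists_Br` of TBirC/Brx.lean.
`cht_wn`: for `l` in the ball off the curve `phi z - l = z ^ x * prod (z - g j l) * u z` on the circle, where `u z = Th z` has no zeros, and `u` at
`l` is near `exp h` at `q` (`PsiAux.key` of TBirC/Psi.lean: `ps l x` is uniformly near `ps q x`, and off the curve `phi - l` and the product have no zeros,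
so `u` is continuous on the circle), so `u = exp (h + small)` (`Complex.log (u / exp h)`). For `‖g j l‖ < 1`: `z - g j l = z * (1 - g j l / z)`,
and `log (1 - g j l / z)` is continuous on the circle; for `‖g j l‖ > 1`: `z - g j l = - g j l * (1 - z / g j l)`.
-/

set_option autoImplicit false

open MeasureTheory Complex Set Filter Topology Metric AddCircle
open scoped ComplexConjugate InnerProductSpace ENNReal

namespace Pool.Agent.TBirP

open Pool.Agent.TBir Pool.Agent.TBirG Pool.Agent.TBirC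

/-- The symbol minus `q` is `z ^ x * prod (z - g j q) * exp h`. -/
def BrAt (phi : ℂ → ℂ) {q : ℂ} (B : Br phi q) (x : ℤ) : Prop :=
  ∃ h : ℂ → ℂ, ContinuousOn h (sphere 0 1) ∧
    ∀ z ∈ sphere (0 : ℂ) 1, phi z - q = z ^ x * (∏ j, (z - B.g j q)) * exp (h z)

theorem exists_B {phi : ℂ → ℂ} {q : ℂ} {x : ℤ} (h : Inq phi q x) : ∃ B : Br phi q, BrAt phi B x := by
  obtain ⟨k, t, hinj, ht, h1, h2, h3⟩ := h
  obtain ⟨B, hk, hB⟩ := exists_Br hinj ht
  subst hk
  refine ⟨B, h1, h2, fun z hz => ?_⟩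
  rw [h3 z hz]
  congr 2
  refine Finset.prod_congr rfl fun j _ => ?_
  rw [hB j]
  rfl

theorem BrAt.zero_iff {phi : ℂ → ℂ} {q : ℂ} {B : Br phi q} {x : ℤ} (h : BrAt phi B x) {z : ℂ}
    (hz : ‖z‖ = 1) : phi z = q ↔ ∃ j, B.g j q = z := by
  obtain ⟨g, -, hg⟩ := h
  have hzs : z ∈ sphere (0 : ℂ) 1 := mem_sphere_zero_iff_norm.2 hz
  have hz0 : z ≠ 0 := lg_ne hzs
  rw [← sub_eq_zero, hg z hzs, mul_eq_zero, mul_eq_zero, Finset.prod_eq_zero_iff]
  constructor
  · rintro ((h1 | ⟨j, -, hj⟩) | h1)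
    · exact absurd h1 (zpow_ne_zero _ hz0)
    · exact ⟨j, (sub_eq_zero.1 hj).symm⟩
    · exact absurd h1 (Complex.exp_ne_zero _)
  · rintro ⟨j, hj⟩
    exact Or.inl (Or.inr ⟨j, Finset.mem_univ j, sub_eq_zero.2 hj.symm⟩)

theorem cht_loc {phi : ℂ → ℂ} {q : ℂ} (B : Br phi q) {s : ℝ} (hs : 0 < s) (j : Fin B.k) :
    ∀ᶠ w in 𝓝 (B.g j q), phi w ∈ ball q s ∧ B.g j (phi w) = w := by
  have hR : ball q B.R ∈ 𝓝 q := ball_mem_nhds q B.R_pos
  have han : AnalyticAt ℂ (B.g j) q :=
    (B.diff j).analyticAt hR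
  have hst : HasStrictDerivAt (B.g j) (deriv (B.g j) q) q := han.hasStrictDerivAt
  have hne : deriv (B.g j) q ≠ 0 := by
    intro h0
    have h1 : HasDerivAt (phi ∘ B.g j) (deriv phi (B.g j q) * deriv (B.g j) q) q :=
      ((B.an j).differentiableAt.hasDerivAt).comp q hst.hasDerivAt
    have h2 : (phi ∘ B.g j) =ᶠ[𝓝 q] id := by
      filter_upwards [hR] with l hl
      exact B.inv j l hl
    have h3 := (h1.congr_of_eventuallyEq h2.symm).unique (hasDerivAt_id q)
    rw [h0, mul_zero] at h3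
    exact zero_ne_one h3
  rw [← hst.map_nhds_eq hne, eventually_map]
  filter_upwards [hR, ball_mem_nhds q hs] with l hl hls
  rw [B.inv j l hl]
  exact ⟨hls, rfl⟩

theorem cht_zer {phi : ℂ → ℂ} (hc : ContinuousOn phi (sphere 0 1)) {q : ℂ} {B : Br phi q} {x : ℤ}
    (h : BrAt phi B x) : ∃ s > 0, s ≤ B.R ∧ ∀ l ∈ ball q s,
      ∀ z : ℂ, ‖z‖ = 1 → (phi z = l ↔ ∃ j, B.g j l = z) := by
  have h1 : ∀ j, ∃ r > 0, ∀ w ∈ ball (B.g j q) r, B.g j (phi w) = w := fun j => by
    obtain ⟨r, hr, h2⟩ := Metric.eventually_nhds_iff_ball.1 (cht_loc B one_pos j)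
    exact ⟨r, hr, fun w hw => (h2 w hw).2⟩
  choose r hr hr' using h1
  set K : Set ℂ := sphere 0 1 \ ⋃ j, ball (B.g j q) (r j) with hK
  have hKc : IsCompact K := (isCompact_sphere (0 : ℂ) 1).diff (isOpen_iUnion fun j => isOpen_ball)
  obtain ⟨c, hc0, hcK⟩ : ∃ c > 0, ∀ z ∈ K, c ≤ ‖phi z - q‖ := by
    rcases K.eq_empty_or_nonempty with h0 | h0
    · refine ⟨1, one_pos, fun z hz => ?_⟩
      rw [h0] at hz
      exact absurd hz (notMem_empty z)
    · obtain ⟨z0, hz0, hmin⟩ := hKc.exists_isMinOn h0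
        (f := fun z => ‖phi z - q‖) ((hc.mono sdiff_subset).sub continuousOn_const).norm
      refine ⟨‖phi z0 - q‖, norm_pos_iff.2 fun h2 => ?_, fun z hz => hmin hz⟩
      obtain ⟨j, hj⟩ := (h.zero_iff (mem_sphere_zero_iff_norm.1 hz0.1)).1 (sub_eq_zero.1 h2)
      refine hz0.2 (mem_iUnion.2 ⟨j, ?_⟩)
      rw [hj]
      exact mem_ball_self (hr j)
  refine ⟨min c B.R, lt_min hc0 B.R_pos, min_le_right _ _, fun l hl z hz => ⟨fun h2 => ?_, ?_⟩⟩
  · have hzK : z ∉ K := by
      intro hzK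
      have h3 := hcK z hzK
      rw [h2] at h3
      rw [mem_ball, dist_eq_norm] at hl
      exact absurd (hl.trans_le (min_le_left _ _)) (not_lt.2 h3)
    have h3 : z ∈ ⋃ j, ball (B.g j q) (r j) := by
      by_contra h4
      exact hzK ⟨mem_sphere_zero_iff_norm.2 hz, h4⟩
    obtain ⟨j, hj⟩ := mem_iUnion.1 h3
    refine ⟨j, ?_⟩
    rw [← h2]
    exact hr' j z hj
  · rintro ⟨j, rfl⟩
    exact B.inv j l (ball_subset_ball (min_le_right _ _) hl)

theorem cht_inj {phi : ℂ → ℂ} {q : ℂ} (B : Br phi q) : ∃ s > 0, s ≤ B.R ∧ ∀ l ∈ ball q s,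
    (∀ i j, B.g i l = B.g j l → i = j) ∧ ∀ j, 1 / 2 < ‖B.g j l‖ ∧ ‖B.g j l‖ < 2 := by
  have hcont : ∀ j, ContinuousAt (B.g j) q := fun j =>
    ((B.diff j).differentiableAt (ball_mem_nhds q B.R_pos)).continuousAt
  have h1 : ∀ᶠ l in 𝓝 q, (∀ i j, B.g i l = B.g j l → i = j) ∧
      ∀ j, 1 / 2 < ‖B.g j l‖ ∧ ‖B.g j l‖ < 2 := by
    refine Filter.Eventually.and ?_ ?_
    · rw [eventually_all]
      intro i
      rw [eventually_all]
      intro j
      by_cases hij : i = j
      · exact Eventually.of_forall fun l _ => hij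
      · have h2 : Tendsto (fun l => B.g i l - B.g j l) (𝓝 q) (𝓝 (B.g i q - B.g j q)) :=
          (hcont i).tendsto.sub (hcont j).tendsto
        have h3 := h2.eventually_ne (sub_ne_zero.2 (B.ne i j hij))
        filter_upwards [h3] with l hl hl'
        exact absurd (sub_eq_zero.2 hl') hl
    · rw [eventually_all]
      intro j
      have h2 : Tendsto (fun l => ‖B.g j l‖) (𝓝 q) (𝓝 1) := by
        rw [← B.norm_q j]
        exact (hcont j).norm
      exact (h2.eventually_const_lt (by norm_num)).and (h2.eventually_lt_const (by norm_num))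
  obtain ⟨s, hs, h2⟩ := Metric.eventually_nhds_iff_ball.1 h1
  exact ⟨min s B.R, lt_min hs B.R_pos, min_le_right _ _, fun l hl =>
    h2 l (ball_subset_ball (min_le_left _ _) hl)⟩

end Pool.Agent.TBirP
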