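import Pool.Agent.TBirP.ChA

/-!
# Charts: the winding number near `q`

Paper proof. For `l` in a ball and off the curve `phi z - l = z ^ x * prod (z - g j l) * u z` on the circle, where `u` has no zeros and
is continuous on the circle (off the curve `phi - l` and the product have no zeros, `cht_zer`), and `u` is uniformly near
`exp h` of `BrAt` (`PsiAux.key` of TBirC/Psi.lean: `ps l x` is uniformly near `ps q x` off the points `g j l`, `g j q`; both sides are
continuous off `g j q`, so the estimate holds on the dense set and then everywhere), so `u = exp (h + Complex.log (u / exp h))` on the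
circle. For `‖g j l‖ < 1`: `z - g j l = z * (1 - g j l / z)`, and `Complex.log (1 - g j l / z)` is continuous on the circle; for
`‖g j l‖ > 1`: `z - g j l = - g j l * (1 - z / g j l)`. Add the logarithms.
-/

set_option autoImplicit false

open MeasureTheory Complex Set Filter Topology Metric AddCircle
open scoped ComplexConjugate InnerProductSpace ENNReal

namespace Pool.Agent.TBirP

open Pool.Agent.TBir Pool.Agent.TBirG Pool.Agent.TBirC

private theorem chb_fac {a : ℂ} (ha : ‖a‖ ≠ 1) : ∃ h : ℂ → ℂ, ContinuousOn h (sphere 0 1) ∧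
    ∀ z ∈ sphere (0 : ℂ) 1, z - a = z ^ (if ‖a‖ < 1 then 1 else 0 : ℤ) * exp (h z) := by
  rcases lt_or_gt_of_ne ha with h1 | h1
  · have hlt : ∀ z ∈ sphere (0 : ℂ) 1, ‖-(a / z)‖ < 1 := fun z hz => by
      rw [mem_sphere_zero_iff_norm] at hz
      rw [norm_neg, norm_div, hz, div_one]
      exact h1
    refine ⟨fun z => Complex.log (1 + -(a / z)), ?_, fun z hz => ?_⟩
    · refine ContinuousOn.clog ?_ fun z hz => Complex.mem_slitPlane_of_norm_lt_one (hlt z hz)
      exact continuousOn_const.add (continuousOn_const.div continuousOn_id fun z hz => lg_ne hz).neg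
    · have h2 : 1 + -(a / z) ≠ 0 :=
        Complex.slitPlane_ne_zero (Complex.mem_slitPlane_of_norm_lt_one (hlt z hz))
      have h3 := lg_ne hz
      rw [if_pos h1, zpow_one, Complex.exp_log h2]
      field_simp
      ring
  · have ha0 : a ≠ 0 := norm_pos_iff.1 (lt_trans one_pos h1)
    have hlt : ∀ z ∈ sphere (0 : ℂ) 1, ‖-(z / a)‖ < 1 := fun z hz => by
      rw [mem_sphere_zero_iff_norm] at hz
      rw [norm_neg, norm_div, hz, div_lt_one (norm_pos_iff.2 ha0)]
      exact h1
    refine ⟨fun z => Complex.log (-a) + Complex.log (1 + -(z / a)), ?_, fun z hz => ?_⟩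
    · refine continuousOn_const.add (ContinuousOn.clog ?_
        fun z hz => Complex.mem_slitPlane_of_norm_lt_one (hlt z hz))
      exact continuousOn_const.add (continuousOn_id.div_const a).neg
    · have h2 : 1 + -(z / a) ≠ 0 :=
        Complex.slitPlane_ne_zero (Complex.mem_slitPlane_of_norm_lt_one (hlt z hz))
      rw [if_neg (not_lt.2 h1.le), zpow_zero, one_mul, Complex.exp_add, Complex.exp_log h2,
        Complex.exp_log (neg_ne_zero.2 ha0)]
      field_simp
      ring

private theorem chb_prod {k : ℕ} {a : Fin k → ℂ} (ha : ∀ j, ‖a j‖ ≠ 1) :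
    ∃ h : ℂ → ℂ, ContinuousOn h (sphere 0 1) ∧ ∀ z ∈ sphere (0 : ℂ) 1,
      ∏ j, (z - a j) = z ^ ((Finset.univ.filter fun j => ‖a j‖ < 1).card : ℤ) * exp (h z) := by
  choose h hh hh' using fun j => chb_fac (ha j)
  refine ⟨fun z => ∑ j, h j z, continuousOn_finsetSum _ fun j _ => hh j, fun z hz => ?_⟩
  rw [Finset.prod_congr rfl fun j _ => hh' j z hz, Finset.prod_mul_distrib, ← Complex.exp_sum]
  congr 1
  rw [Finset.card_filter]
  push_cast
  have hz0 := lg_ne hz
  have key : ∀ s : Finset (Fin k), ∏ j ∈ s, z ^ (if ‖a j‖ < 1 then 1 else 0 : ℤ) =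
      z ^ (∑ j ∈ s, (if ‖a j‖ < 1 then 1 else 0 : ℤ)) := by
    intro s
    classical
    induction s using Finset.induction_on with
    | empty => simp
    | insert j s hj ih => rw [Finset.prod_insert hj, Finset.sum_insert hj, zpow_add₀ hz0, ih]
  exact key _

theorem cht_wn {phi : ℂ → ℂ} (hc : ContinuousOn phi (sphere 0 1)) {q : ℂ} {B : Br phi q} {x : ℤ}
    (h : BrAt phi B x) : ∃ s > 0, s ≤ B.R ∧ ∀ l ∈ ball q s, l ∉ J phi →
      Wn phi l (x + ((Finset.univ.filter fun j => ‖B.g j l‖ < 1).card : ℤ)) := by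
  obtain ⟨H, hH, hH'⟩ := h
  -- bounds
  obtain ⟨zM, -, hM⟩ := (isCompact_sphere (0 : ℂ) 1).exists_isMaxOn lg_nonempty
    (f := fun z => ‖phi z‖) hc.norm
  have hexp : ContinuousOn (fun z => z ^ x * exp (H z)) (sphere 0 1) :=
    (continuousOn_id.zpow₀ x fun z hz => Or.inl (lg_ne hz)).mul hH.cexp
  obtain ⟨zm, hzm, hm⟩ := (isCompact_sphere (0 : ℂ) 1).exists_isMinOn lg_nonempty
    (f := fun z => ‖z ^ x * exp (H z)‖) hexp.norm
  set c : ℝ := ‖zm ^ x * exp (H zm)‖ with hcdef
  have hc0 : 0 < c := by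
    rw [hcdef, norm_pos_iff]
    exact mul_ne_zero (zpow_ne_zero _ (lg_ne hzm)) (Complex.exp_ne_zero _)
  obtain ⟨C1, s, hC1, hs, hsR, -, hkey⟩ := PsiAux.key B (M := ‖phi zM‖) (norm_nonneg _)
  obtain ⟨s', hs', hs's, hk⟩ := hkey (c / 2) (by positivity)
  refine ⟨s', hs', hs's.trans hsR, fun l hl hlJ => ?_⟩
  have hlR : l ∈ ball q B.R := ball_subset_ball (hs's.trans hsR) hl
  -- no zero on the circle
  have hne1 : ∀ j, ‖B.g j l‖ ≠ 1 := by
    intro j hj
    exact hlJ ⟨B.g j l, mem_sphere_zero_iff_norm.2 hj, B.inv j l hlR⟩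
  have hne2 : ∀ z ∈ sphere (0 : ℂ) 1, ∀ j, z - B.g j l ≠ 0 := by
    intro z hz j h0
    rw [sub_eq_zero] at h0
    rw [mem_sphere_zero_iff_norm, h0] at hz
    exact hne1 j hz
  have hP0 : ∀ z ∈ sphere (0 : ℂ) 1, ∏ j, (z - B.g j l) ≠ 0 := fun z hz =>
    Finset.prod_ne_zero_iff.2 fun j _ => hne2 z hz j
  set u : ℂ → ℂ := fun z => (phi z - l) / ∏ j, (z - B.g j l) with hu
  have huc : ContinuousOn u (sphere 0 1) := by
    refine (hc.sub continuousOn_const).div ?_ hP0
    exact continuousOn_finsetProd _ fun j _ => continuousOn_id.sub continuousOn_const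
  -- closeness
  have hclose : ∀ z ∈ sphere (0 : ℂ) 1, ‖u z - z ^ x * exp (H z)‖ ≤ c / 2 := by
    have he : ∀ y : UnitAddCircle, e y ∈ sphere (0 : ℂ) 1 := fun y => by
      rw [mem_sphere_zero_iff_norm]
      exact norm_e y
    have hcont : Continuous fun y : UnitAddCircle => ‖u (e y) - e y ^ x * exp (H (e y))‖ :=
      ((huc.sub hexp).comp_continuous wi_e_cont he).norm
    have hclosed : IsClosed {y : UnitAddCircle | ‖u (e y) - e y ^ x * exp (H (e y))‖ ≤ c / 2} :=
      isClosed_le hcont continuous_const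
    have hdense : Dense {y : UnitAddCircle | ∀ j, e y ≠ B.g j q} :=
      Measure.dense_of_ae (ae_ne B q)
    have hsub : {y : UnitAddCircle | ∀ j, e y ≠ B.g j q} ⊆
        {y : UnitAddCircle | ‖u (e y) - e y ^ x * exp (H (e y))‖ ≤ c / 2} := by
      intro y hy
      have h1 := hk l hl y (hM (he y)) (fun j h0 => hne2 _ (he y) j (sub_eq_zero.2 h0)) hy
      have h2 : B.ps q y = e y ^ x * exp (H (e y)) := by
        unfold Br.ps
        rw [hH' _ (he y)]
        have h3 : ∏ j, (e y - B.g j q) ≠ 0 :=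
          Finset.prod_ne_zero_iff.2 fun j _ => sub_ne_zero.2 (hy j)
        field_simp
      rw [h2] at h1
      exact h1
    have hall : ∀ y : UnitAddCircle, ‖u (e y) - e y ^ x * exp (H (e y))‖ ≤ c / 2 := by
      intro y
      have h4 := closure_minimal hsub hclosed
      rw [hdense.closure_eq] at h4
      exact h4 (mem_univ y)
    intro z hz
    obtain ⟨y, rfl⟩ := wi_exists_e hz
    exact hall y
  have hne3 : ∀ z ∈ sphere (0 : ℂ) 1, z ^ x * exp (H z) ≠ 0 := fun z hz =>
    mul_ne_zero (zpow_ne_zero _ (lg_ne hz)) (Complex.exp_ne_zero _)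
  have hlt : ∀ z ∈ sphere (0 : ℂ) 1,
      ‖(u z - z ^ x * exp (H z)) / (z ^ x * exp (H z))‖ < 1 := by
    intro z hz
    rw [norm_div, div_lt_one (norm_pos_iff.2 (hne3 z hz))]
    have h1 := hclose z hz
    have h2 : c ≤ ‖z ^ x * exp (H z)‖ := hm hz
    linarith
  obtain ⟨K, hK, hK'⟩ := chb_prod hne1
  refine ⟨fun z => H z + Complex.log (1 + (u z - z ^ x * exp (H z)) / (z ^ x * exp (H z))) + K z,
    ?_, fun z hz => ?_⟩
  · refine (hH.add (ContinuousOn.clog ?_
      fun z hz => Complex.mem_slitPlane_of_norm_lt_one (hlt z hz))).add hK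
    exact continuousOn_const.add ((huc.sub hexp).div hexp hne3)
  · have h2 : 1 + (u z - z ^ x * exp (H z)) / (z ^ x * exp (H z)) ≠ 0 :=
      Complex.slitPlane_ne_zero (Complex.mem_slitPlane_of_norm_lt_one (hlt z hz))
    have h3 : phi z - l = u z * ∏ j, (z - B.g j l) := by
      rw [hu]
      have := hP0 z hz
      field_simp
    have h4 : 1 + (u z - z ^ x * exp (H z)) / (z ^ x * exp (H z)) = u z / (z ^ x * exp (H z)) := by
      rw [sub_div, div_self (hne3 z hz)]
      ring
    rw [Complex.exp_add, Complex.exp_add, Complex.exp_log h2, h4, zpow_add₀ (lg_ne hz), h3,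
      hK' z hz]
    have h5 : z ^ x ≠ 0 := zpow_ne_zero _ (lg_ne hz)
    have h6 : exp (H z) ≠ 0 := Complex.exp_ne_zero _
    have h7 : ∀ a b c d e : ℂ, a ≠ 0 → b ≠ 0 →
        e * (c * d) = a * c * (b * (e / (a * b)) * d) := by
      intro a b c d e ha hb
      field_simp
    exact h7 _ _ _ _ _ h5 h6

end Pool.Agent.TBirP
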