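import Pool.Agent.TBirP.AdjP
import Pool.Agent.TBirP.NrmB

/-!
# Piecewise analytic curves with good multiple points

`PCross phi F`: `phi` is continuous on the circle, analytic with nonzero derivative off the finite set `F`; at the points of `F` it is given on each side by a nonconstant analytic function (corners, cusps and
critical points), and the curve is simple near them (`simple`); it is injective off a finite set (`inj`); at a multiple value `q` (`loc`) the tangent vectors at the points over `q` are in an open half plane,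
or the inner winding number of `q` is `≥ 0` if no winding number near `q` is negative, and the outer winding number is `≤ 0` if none is positive.

`pc_corner`: as `corner_sides` in NrmB.lean (the proof uses only `two_sides`, the finiteness of the set of the points which are not simple, here `pc_sim`, and `sim_local`).
-/

set_option autoImplicit false

open MeasureTheory Complex Set Filter Topology Metric AddCircle
open scoped ComplexConjugate InnerProductSpace ENNReal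

namespace Pool.Agent.TBirP

open Pool.Agent.TBir Pool.Agent.TBirG Pool.Agent.TBirC

/-- Piecewise analytic curves with good multiple points. -/
structure PCross (phi : ℂ → ℂ) (F : Set ℂ) : Prop extends PwA phi F where
  simple : ∀ t ∈ sphere (0 : ℂ) 1, t ∈ F →
    ∀ᶠ z in 𝓝 t, ‖z‖ = 1 → ∀ z' : ℂ, ‖z'‖ = 1 → phi z' = phi z → z' = z
  inj : ∃ D : Set ℂ, D.Finite ∧ InjOn phi (sphere 0 1 \ D)
  loc : ∀ z1 ∈ sphere (0 : ℂ) 1, ∀ z2 ∈ sphere (0 : ℂ) 1, z1 ≠ z2 → phi z1 = phi z2 →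
    (∃ u : ℂ, ∀ z ∈ sphere (0 : ℂ) 1, phi z = phi z1 →
      0 < (conj u * (I * (z * deriv phi z))).re) ∨
    (((∀ᶠ l in 𝓝 (phi z1), ∀ n, Wn phi l n → 0 ≤ n) → ∃ x, 0 ≤ x ∧ Inq phi (phi z1) x) ∧
      ((∀ᶠ l in 𝓝 (phi z1), ∀ n, Wn phi l n → n ≤ 0) → ∃ y, y ≤ 0 ∧ Onq phi (phi z1) y))

variable {phi : ℂ → ℂ} {F : Set ℂ}

theorem pc_sim (h : PCross phi F) : {z : ℂ | ‖z‖ = 1 ∧ ¬ Sim phi z}.Finite := by
  obtain ⟨D, hD, hinj⟩ := h.inj
  exact fin_sim h.toPwA hD hinj

theorem pc_corner (h : PCross phi F) {t : ℂ} (ht : ‖t‖ = 1) (htF : t ∈ F) :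
    ∃ (x : ℤ) (A B : Set ℂ), IsPreconnected A ∧ IsPreconnected B ∧ A.Nonempty ∧ B.Nonempty ∧
      (∀ l ∈ A, Wn phi l (x + 1)) ∧
      (∀ l ∈ B, Wn phi l x) ∧ ∀ᶠ l in 𝓝 (phi t), l ∉ J phi → l ∈ A ∨ l ∈ B := by
  have ht' : t ∈ sphere (0 : ℂ) 1 := mem_sphere_zero_iff_norm.2 ht
  obtain ⟨A, B, hA, hB, hAJ, hBJ, hcov⟩ := two_sides h.toPwA ht htF (h.simple t ht' htF)
  obtain ⟨rho, hrho, hball⟩ := Metric.eventually_nhds_iff_ball.1 hcov
  -- a simple point near `t`
  have hcont : Continuous fun x : ℝ => phi (t * E x) :=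
    h.cont.comp_continuous (continuous_const.mul nb_E_cont) (nb_E_mem ht)
  have hcont2 : Continuous fun x : ℝ => t * E x := continuous_const.mul nb_E_cont
  have hfin : (F ∪ {z : ℂ | ‖z‖ = 1 ∧ ¬ Sim phi z}).Finite := h.fin.union (pc_sim h)
  have e1 : ∀ᶠ x : ℝ in 𝓝[>] 0, phi (t * E x) ∈ ball (phi t) rho := by
    apply nhdsWithin_le_nhds
    have h1 := hcont.continuousAt (x := (0 : ℝ))
    have h2 : ball (phi t) rho ∈ 𝓝 (phi (t * E 0)) := by
      rw [nb_E_zero, mul_one]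
      exact Metric.ball_mem_nhds _ hrho
    exact h1 h2
  have e2 : ∀ᶠ x : ℝ in 𝓝[>] 0, t * E x ∉ (F ∪ {z : ℂ | ‖z‖ = 1 ∧ ¬ Sim phi z}) \ {t} := by
    apply nhdsWithin_le_nhds
    have h1 := hcont2.continuousAt (x := (0 : ℝ))
    have h2 : ((F ∪ {z : ℂ | ‖z‖ = 1 ∧ ¬ Sim phi z}) \ {t})ᶜ ∈ 𝓝 (t * E 0) := by
      rw [nb_E_zero, mul_one]
      refine (hfin.subset sdiff_subset).isClosed.isOpen_compl.mem_nhds ?_
      intro h3
      exact h3.2 rfl
    exact h1 h2
  have e3 : ∀ᶠ x : ℝ in 𝓝[>] 0, x ≤ 1 := by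
    apply nhdsWithin_le_nhds
    exact Iic_mem_nhds one_pos
  obtain ⟨x, ⟨⟨hx1, hx2⟩, hx3⟩, hx4⟩ := (((e1.and e2).and e3).and
    (self_mem_nhdsWithin : ∀ᶠ x : ℝ in 𝓝[>] 0, x ∈ Ioi (0 : ℝ))).exists
  have hx0 : 0 < x := hx4
  have hne : t * E x ≠ t := by
    intro h0
    have h1 : E x = 1 := by
      have h2 : t * E x = t * 1 := by rw [h0, mul_one]
      exact mul_left_cancel₀ (nb_ne ht) h2
    unfold E at h1
    obtain ⟨n, hn⟩ := Complex.exp_eq_one_iff.1 h1
    have h2 : (x : ℂ) = (n : ℂ) * (2 * Real.pi) := by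
      refine mul_right_cancel₀ Complex.I_ne_zero ?_
      rw [hn]
      ring
    have h3 : x = n * (2 * Real.pi) := by exact_mod_cast h2
    have hpi := Real.pi_gt_three
    rcases le_or_gt n 0 with hn0 | hn0
    · have h4 : (n : ℝ) ≤ 0 := by exact_mod_cast hn0
      nlinarith
    · have h4 : (1 : ℝ) ≤ n := by exact_mod_cast hn0
      nlinarith
  set z1 := t * E x with hz1
  have hz1m : z1 ∈ sphere (0 : ℂ) 1 := nb_E_mem ht x
  have hz1F : z1 ∉ F := fun h0 => hx2 ⟨Or.inl h0, hne⟩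
  have hsim : Sim phi z1 := by
    by_contra h0
    exact hx2 ⟨Or.inr ⟨mem_sphere_zero_iff_norm.1 hz1m, h0⟩, hne⟩
  obtain ⟨m, A', B', -, -, -, hA', hB', hcA, hcB, -⟩ := sim_local h.toPwA hsim hz1F
  obtain ⟨l1, hl1, hl1'⟩ := mem_closure_iff_nhds.1 hcA _ (Metric.isOpen_ball.mem_nhds hx1)
  obtain ⟨l2, hl2, hl2'⟩ := mem_closure_iff_nhds.1 hcB _ (Metric.isOpen_ball.mem_nhds hx1)
  have w1 := hA' l1 hl1'
  have w2 := hB' l2 hl2'
  have c1 := hball l1 hl1 w1.not_mem
  have c2 := hball l2 hl2 w2.not_mem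
  rcases c1 with c1 | c1 <;> rcases c2 with c2 | c2
  · exfalso
    have h1 := (Wn.of_preconnected h.cont hA hAJ c1 c2 w1).unique w2
    omega
  · exact ⟨m, A, B, hA, hB, ⟨l1, c1⟩, ⟨l2, c2⟩, fun l hl => Wn.of_preconnected h.cont hA hAJ c1 hl w1,
      fun l hl => Wn.of_preconnected h.cont hB hBJ c2 hl w2, hcov⟩
  · exact ⟨m, B, A, hB, hA, ⟨l1, c1⟩, ⟨l2, c2⟩, fun l hl => Wn.of_preconnected h.cont hB hBJ c1 hl w1,
      fun l hl => Wn.of_preconnected h.cont hA hAJ c2 hl w2, by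
        filter_upwards [hcov] with l hl hlJ
        exact (hl hlJ).symm⟩
  · exfalso
    have h1 := (Wn.of_preconnected h.cont hB hBJ c1 c2 w1).unique w2
    omega

end Pool.Agent.TBirP
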