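import Pool.Agent.TBirP.NrmA
import Pool.Agent.TBirP.Ext

/-!
# Double points

See the head comment of NrmA.lean for the paper proof.
-/

set_option autoImplicit false

open MeasureTheory Complex Set Filter Topology Metric AddCircle
open scoped ComplexConjugate InnerProductSpace ENNReal

namespace Pool.Agent.TBirP

open Pool.Agent.TBir Pool.Agent.TBirG Pool.Agent.TBirC

variable {phi : ℂ → ℂ} {F : Set ℂ}

/-- Two complex numbers which are independent over the reals lie in an open half plane. -/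
private theorem half_plane {a b : ℂ} (h : (a * conj b).im ≠ 0) :
    ∃ v : ℂ, 0 < (v / a).re ∧ 0 < (v / b).re := by
  have ha : a ≠ 0 := by
    rintro rfl
    simp at h
  have hb : b ≠ 0 := by
    rintro rfl
    simp at h
  have ha' : 0 < ‖a‖ := norm_pos_iff.2 ha
  have hb' : 0 < ‖b‖ := norm_pos_iff.2 hb
  -- the quotient
  have key : ∀ u : ℂ, u.im ≠ 0 → 0 < (u / (‖u‖ : ℂ) + 1).re := by
    intro u hu
    have hu0 : u ≠ 0 := by
      rintro rfl
      simp at hu
    have hu' : 0 < ‖u‖ := norm_pos_iff.2 hu0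
    have h1 : |u.re| < ‖u‖ := abs_re_lt_norm.2 hu
    rw [add_re, one_re, Complex.div_ofReal_re]
    have h2 : -1 < u.re / ‖u‖ := by
      rw [lt_div_iff₀ hu']
      have := (abs_lt.1 h1).1
      linarith
    linarith
  have hba : (b / a).im ≠ 0 := by
    intro h0
    apply h
    have h1 : b = (((b / a).re : ℝ) : ℂ) * a := by
      have h2 : b / a = (((b / a).re : ℝ) : ℂ) := by
        apply Complex.ext
        · simp
        · rw [h0]; simp
      rw [← h2, div_mul_cancel₀ _ ha]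
    rw [h1, map_mul, Complex.conj_ofReal, mul_left_comm, Complex.mul_conj]
    simp
  have hab : (a / b).im ≠ 0 := by
    intro h0
    apply h
    have h1 : a = (((a / b).re : ℝ) : ℂ) * b := by
      have h2 : a / b = (((a / b).re : ℝ) : ℂ) := by
        apply Complex.ext
        · simp
        · rw [h0]; simp
      rw [← h2, div_mul_cancel₀ _ hb]
    rw [h1, mul_assoc, Complex.mul_conj]
    simp
  refine ⟨a / (‖a‖ : ℂ) + b / (‖b‖ : ℂ), ?_, ?_⟩
  · have h1 : (a / (‖a‖ : ℂ) + b / (‖b‖ : ℂ)) / a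
        = ((‖a‖⁻¹ : ℝ) : ℂ) * ((b / a) / (‖b / a‖ : ℂ) + 1) := by
      rw [norm_div]
      have e1 : (‖a‖ : ℂ) ≠ 0 := by exact_mod_cast ha'.ne'
      have e2 : (‖b‖ : ℂ) ≠ 0 := by exact_mod_cast hb'.ne'
      push_cast
      field_simp
      ring
    rw [h1, Complex.re_ofReal_mul]
    exact mul_pos (inv_pos.2 ha') (key _ hba)
  · have h1 : (a / (‖a‖ : ℂ) + b / (‖b‖ : ℂ)) / b
        = ((‖b‖⁻¹ : ℝ) : ℂ) * ((a / b) / (‖a / b‖ : ℂ) + 1) := by
      rw [norm_div]
      have e1 : (‖a‖ : ℂ) ≠ 0 := by exact_mod_cast ha'.ne'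
      have e2 : (‖b‖ : ℂ) ≠ 0 := by exact_mod_cast hb'.ne'
      push_cast
      field_simp
    rw [h1, Complex.re_ofReal_mul]
    exact mul_pos (inv_pos.2 hb') (key _ hab)

/-- The norm grows along a ray. -/
private theorem ray_grow {g : ℂ → ℂ} {q v g' : ℂ} (hg : HasDerivAt g g' q) (h1 : ‖g q‖ = 1)
    (hv : 0 < (v * g' / g q).re) : ∀ᶠ s : ℝ in 𝓝[>] 0, 1 < ‖g (q + s * v)‖ := by
  have hq0 : g q ≠ 0 := norm_pos_iff.1 (by rw [h1]; exact one_pos)
  have h2 : HasDerivAt (fun s : ℝ => q + (s : ℂ) * v) v 0 := by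
    have h3 : HasDerivAt (fun s : ℝ => (s : ℂ)) 1 0 := Complex.ofRealCLM.hasDerivAt
    simpa using (h3.mul_const v).const_add q
  have h4 : HasDerivAt (fun s : ℝ => g (q + (s : ℂ) * v)) (g' * v) 0 := by
    have h5 : HasDerivAt g g' ((fun s : ℝ => q + (s : ℂ) * v) 0) := by simpa using hg
    exact HasDerivAt.comp (0 : ℝ) h5 h2
  have h6 : HasDerivAt (fun s : ℝ => (g (q + (s : ℂ) * v) / g q).re) ((g' * v / g q).re) 0 := by
    have h7 := h4.div_const (g q)
    exact (Complex.reCLM.hasFDerivAt.comp_hasDerivAt (0 : ℝ) h7)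
  rw [hasDerivAt_iff_tendsto_slope_zero] at h6
  have h8 := (h6.mono_left (nhdsGT_le_nhdsNE (0 : ℝ))).eventually
    (lt_mem_nhds (show 0 < (g' * v / g q).re by rwa [mul_comm g' v]))
  filter_upwards [h8, self_mem_nhdsWithin] with s hs hs0
  have hs0' : 0 < s := hs0
  rw [zero_add, smul_eq_mul] at hs
  have h9 : 0 < (g (q + (s : ℂ) * v) / g q).re - (g (q + ((0 : ℝ) : ℂ) * v) / g q).re := by
    exact (pos_iff_pos_of_mul_pos hs).1 (inv_pos.2 hs0')
  have h10 : (g (q + ((0 : ℝ) : ℂ) * v) / g q) = 1 := by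
    rw [Complex.ofReal_zero, zero_mul, add_zero, div_self hq0]
  rw [h10, one_re] at h9
  have h11 : (g (q + (s : ℂ) * v) / g q).re ≤ ‖g (q + (s : ℂ) * v)‖ := by
    have h12 := Complex.re_le_norm (g (q + (s : ℂ) * v) / g q)
    rwa [norm_div, h1, div_one] at h12
  linarith

theorem dbl_inner (h : PNormal phi F) {z1 z2 : ℂ} (h1 : ‖z1‖ = 1) (h2 : ‖z2‖ = 1) (hne : z1 ≠ z2)
    (he : phi z1 = phi z2) : ∃ x : ℤ, Inq phi (phi z1) x ∧ ∃ᶠ l in 𝓝 (phi z1), Wn phi l x := by
  -- the points of the circle sent to the double point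
  have hall : ∀ z : ℂ, ‖z‖ = 1 → phi z = phi z1 → z = z1 ∨ z = z2 := by
    intro z hz hzq
    rcases h.triple z (mem_sphere_zero_iff_norm.2 hz) z1 (mem_sphere_zero_iff_norm.2 h1) z2
      (mem_sphere_zero_iff_norm.2 h2) hzq he with h3 | h3 | h3
    · exact Or.inl h3
    · exact absurd h3 hne
    · exact Or.inr h3
  have hF1 : z1 ∉ F := fun hF => hne (h.simple_self h1 hF z2 h2 he.symm).symm
  have hF2 : z2 ∉ F := fun hF => hne (h.simple_self h2 hF z1 h1 he)
  obtain ⟨x, hI⟩ := exists_inq h.toPwA (q := phi z1) fun z hz hzq => by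
    rcases hall z (mem_sphere_zero_iff_norm.1 hz) hzq with h3 | h3
    · rw [h3]; exact hF1
    · rw [h3]; exact hF2
  refine ⟨x, hI, ?_⟩
  have hes : ∀ y : UnitAddCircle, e y ∈ sphere (0 : ℂ) 1 := fun y => by
    rw [mem_sphere_zero_iff_norm]
    exact norm_e y
  obtain ⟨c, hcx⟩ := exists_chart h.cont
    (Phi := ⟨fun y => phi (e y), h.cont.comp_continuous wi_e_cont hes⟩) (fun _ => rfl) hI
  have hqs : phi z1 ∈ ball (phi z1) c.s := mem_ball_self c.s_pos
  have hqR : phi z1 ∈ ball (phi z1) c.B.R := mem_ball_self c.B.R_pos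
  obtain ⟨v, hv1, hv2⟩ := half_plane (h.trans z1 (mem_sphere_zero_iff_norm.2 h1) z2
    (mem_sphere_zero_iff_norm.2 h2) hne he)
  have hgrow : ∀ j, ∀ᶠ s : ℝ in 𝓝[>] 0, 1 < ‖c.B.g j (phi z1 + s * v)‖ := by
    intro j
    have hn := c.B.norm_q j
    have hq := c.B.inv j _ hqR
    have hj := hall _ hn hq
    have hd : HasDerivAt (c.B.g j) (deriv (c.B.g j) (phi z1)) (phi z1) :=
      ((c.B.diff j).differentiableAt (ball_mem_nhds _ c.B.R_pos)).hasDerivAt
    have hreg : AnalyticAt ℂ phi (c.B.g j (phi z1)) ∧ deriv phi (c.B.g j (phi z1)) ≠ 0 := by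
      refine h.reg _ (mem_sphere_zero_iff_norm.2 hn) ?_
      rcases hj with h3 | h3
      · rw [h3]; exact hF1
      · rw [h3]; exact hF2
    have hchain : deriv phi (c.B.g j (phi z1)) * deriv (c.B.g j) (phi z1) = 1 := by
      have h3 : HasDerivAt (fun l => phi (c.B.g j l))
          (deriv phi (c.B.g j (phi z1)) * deriv (c.B.g j) (phi z1)) (phi z1) :=
        HasDerivAt.comp (phi z1) hreg.1.differentiableAt.hasDerivAt hd
      have h4 : (fun l => phi (c.B.g j l)) =ᶠ[𝓝 (phi z1)] fun l => l := by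
        filter_upwards [ball_mem_nhds (phi z1) c.B.R_pos] with l hl
        exact c.B.inv j l hl
      have h5 := h3.congr_of_eventuallyEq h4.symm
      exact h5.unique (hasDerivAt_id _)
    refine ray_grow hd hn ?_
    have hgj0 : c.B.g j (phi z1) ≠ 0 := norm_pos_iff.1 (by rw [hn]; exact one_pos)
    have h6 : v * deriv (c.B.g j) (phi z1) / c.B.g j (phi z1)
        = v / (c.B.g j (phi z1) * deriv phi (c.B.g j (phi z1))) := by
      have h7 : deriv (c.B.g j) (phi z1) = (deriv phi (c.B.g j (phi z1)))⁻¹ :=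
        eq_inv_of_mul_eq_one_right hchain
      rw [h7]
      field_simp
    rw [h6]
    rcases hj with h3 | h3
    · rw [h3]; exact hv1
    · rw [h3]; exact hv2
  have htend : Tendsto (fun s : ℝ => phi z1 + (s : ℂ) * v) (𝓝[>] 0) (𝓝 (phi z1)) := by
    have h3 : Continuous fun s : ℝ => phi z1 + (s : ℂ) * v := by fun_prop
    have h4 := (h3.tendsto 0).mono_left (nhdsWithin_le_nhds (s := Ioi (0 : ℝ)))
    simpa using h4
  have hev : ∀ᶠ s : ℝ in 𝓝[>] 0, Wn phi (phi z1 + (s : ℂ) * v) x := by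
    filter_upwards [eventually_all.2 hgrow, htend (ball_mem_nhds (phi z1) c.s_pos)] with s hs hsb
    have hJ : phi z1 + (s : ℂ) * v ∉ J phi := by
      rw [mem_J_iff c hsb]
      rintro ⟨j, hj⟩
      exact absurd hj (hs j).ne'
    have h5 := c.wn _ hsb hJ
    have h6 : (Finset.univ.filter fun j => ‖c.B.g j (phi z1 + (s : ℂ) * v)‖ < 1) = ∅ := by
      apply Finset.filter_eq_empty_iff.2
      intro j _
      exact not_lt.2 (hs j).le
    rw [h6, Finset.card_empty, hcx, Nat.cast_zero, add_zero] at h5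
    exact h5
  exact htend.frequently hev.frequently

end Pool.Agent.TBirP
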