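import Pool.Agent.TBirP.AdjP
import Pool.Agent.TBirP.NrmC

/-!
# Tangent vectors in an open half plane

`pc_half`: chart `c` at `q` (`exists_chart` from `hI`), branches `g j`, `g j q = t_j`, `deriv (g j) q = 1 / phi' (t_j)`. Put `v = - I * u`: `re (v / (t_j phi' (t_j))) = re (u / (I t_j phi' (t_j))) = re (conj (I t_j phi' (t_j)) u) / ‖..‖^2 > 0`, so for
small `s > 0` all `‖g j (q + s v)‖ > 1` (`ray_grow` in NrmC.lean, private there: copy or make it public) and the winding number is `x` (`c.wn`); with `- v` all `‖g j (q - s v)‖ < 1` and the winding number is `x + k`, `k = c.B.k`. `Onq phi q (x + k)`: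
the same `k`, `t`, `h` as in `Inq phi q x` (`k` in `Inq` equals `c.B.k`: both count the points of the circle over `q`; `t` is injective, `B.g _ q` is injective by `c.inj`).
-/

set_option autoImplicit false

open MeasureTheory Complex Set Filter Topology Metric AddCircle
open scoped ComplexConjugate InnerProductSpace ENNReal

namespace Pool.Agent.TBirP

open Pool.Agent.TBir Pool.Agent.TBirG Pool.Agent.TBirC

variable {phi : ℂ → ℂ} {F : Set ℂ}

/-- The norm grows along a ray. -/
private theorem hf_grow {g : ℂ → ℂ} {q v g' : ℂ} (hg : HasDerivAt g g' q) (h1 : ‖g q‖ = 1)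
    (hv : 0 < (v * g' / g q).re) : ∀ᶠ s : ℝ in 𝓝[>] 0, 1 < ‖g (q + s * v)‖ := by
  have hq0 : g q ≠ 0 := norm_pos_iff.1 (by rw [h1]; exact one_pos)
  have h2 : HasDerivAt (fun s : ℝ => q + (s : ℂ) * v) v 0 := by
    have h3 : HasDerivAt (fun s : ℝ => (s : ℂ)) 1 0 := Complex.ofRealCLM.hasDerivAt
    simpa using (h3.mul_const v).const_add q
  have h4 : HasDerivAt (fun s : ℝ => g (q + (s : ℂ) * v)) (g' * v) 0 := by
    have h5 : HasDerivAt g g' ((fun s : ℝ => q + (s : ℂ) * v) 0) := by simpa using hg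
    exact HasDerivAt.comp (0 : ℝ) h5 h2
  have h6 : HasDerivAt (fun s : ℝ => (g (q + (s : ℂ) * v) / g q).re) ((g' * v / g q).re) 0 := by
    have h7 := h4.div_const (g q)
    exact (Complex.reCLM.hasFDerivAt.comp_hasDerivAt (0 : ℝ) h7)
  rw [hasDerivAt_iff_tendsto_slope_zero] at h6
  have h8 := (h6.mono_left (nhdsGT_le_nhdsNE (0 : ℝ))).eventually
    (lt_mem_nhds (show 0 < (g' * v / g q).re by rwa [mul_comm g' v]))
  filter_upwards [h8, self_mem_nhdsWithin] with s hs hs0
  have hs0' : 0 < s := hs0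
  rw [zero_add, smul_eq_mul] at hs
  have h9 : 0 < (g (q + (s : ℂ) * v) / g q).re - (g (q + ((0 : ℝ) : ℂ) * v) / g q).re := by
    exact (pos_iff_pos_of_mul_pos hs).1 (inv_pos.2 hs0')
  have h10 : (g (q + ((0 : ℝ) : ℂ) * v) / g q) = 1 := by
    rw [Complex.ofReal_zero, zero_mul, add_zero, div_self hq0]
  rw [h10, one_re] at h9
  have h11 : (g (q + (s : ℂ) * v) / g q).re ≤ ‖g (q + (s : ℂ) * v)‖ := by
    have h12 := Complex.re_le_norm (g (q + (s : ℂ) * v) / g q)
    rwa [norm_div, h1, div_one] at h12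
  linarith

/-- The norm decreases along the opposite ray. -/
private theorem hf_fall {g : ℂ → ℂ} {q v g' : ℂ} (hg : HasDerivAt g g' q) (h1 : ‖g q‖ = 1)
    (hv : 0 < (v * g' / g q).re) : ∀ᶠ s : ℝ in 𝓝[>] 0, ‖g (q + s * (-v))‖ < 1 := by
  have hq0 : g q ≠ 0 := norm_pos_iff.1 (by rw [h1]; exact one_pos)
  have h2 : HasDerivAt (fun l => (g l)⁻¹) (-g' / g q ^ 2) q := hg.fun_inv hq0
  have h3 : ‖(fun l => (g l)⁻¹) q‖ = 1 := by
    simp only
    rw [norm_inv, h1, inv_one]
  have h4 : 0 < ((-v) * (-g' / g q ^ 2) / (fun l => (g l)⁻¹) q).re := by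
    have h5 : (-v) * (-g' / g q ^ 2) / (fun l => (g l)⁻¹) q = v * g' / g q := by
      simp only
      field_simp
    rw [h5]
    exact hv
  filter_upwards [hf_grow h2 h3 h4] with s hs
  rw [norm_inv] at hs
  exact (one_lt_inv_iff₀.1 hs).2

private theorem hf_div (u w : ℂ) :
    u / w = conj (conj u * w) / ((Complex.normSq w : ℝ) : ℂ) := by
  rw [div_eq_mul_inv u w, Complex.inv_def, map_mul, Complex.conj_conj, Complex.ofReal_inv,
    ← mul_assoc, div_eq_mul_inv]

theorem pc_half (h : PwA phi F) {q : ℂ} {x : ℤ} (hI : Inq phi q x) {u : ℂ}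
    (hu : ∀ z ∈ sphere (0 : ℂ) 1, phi z = q → 0 < (conj u * (I * (z * deriv phi z))).re) :
    (∃ᶠ l in 𝓝 q, Wn phi l x) ∧ ∃ y, Onq phi q y ∧ ∃ᶠ l in 𝓝 q, Wn phi l y := by
  classical
  have hes : ∀ y : UnitAddCircle, e y ∈ sphere (0 : ℂ) 1 := fun y => by
    rw [mem_sphere_zero_iff_norm]
    exact norm_e y
  obtain ⟨c, hcx⟩ := exists_chart h.cont
    (Phi := ⟨fun y => phi (e y), h.cont.comp_continuous wi_e_cont hes⟩) (fun _ => rfl) hI
  have hqs : q ∈ ball q c.s := mem_ball_self c.s_pos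
  have hqR : q ∈ ball q c.B.R := mem_ball_self c.B.R_pos
  have hreg := hI.not_F h
  obtain ⟨k, t, hinj, ht, hh, hhc, hhe⟩ := hI
  -- the numbers of the branches are the same
  have hk : c.B.k = k := by
    have h1 : (Finset.univ.image fun j => c.B.g j q) = Finset.univ.image t := by
      ext z
      rw [Finset.mem_image, Finset.mem_image]
      constructor
      · rintro ⟨j, -, rfl⟩
        have hn := c.B.norm_q j
        have h2 := hhe _ (mem_sphere_zero_iff_norm.2 hn)
        rw [c.B.inv j q hqR, sub_self] at h2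
        have h3 : ∏ i, (c.B.g j q - t i) = 0 := by
          by_contra h4
          exact mul_ne_zero (mul_ne_zero (zpow_ne_zero _ (lg_ne (mem_sphere_zero_iff_norm.2 hn))) h4)
            (Complex.exp_ne_zero _) h2.symm
        rw [Finset.prod_eq_zero_iff] at h3
        obtain ⟨i, -, hi⟩ := h3
        exact ⟨i, Finset.mem_univ _, (sub_eq_zero.1 hi).symm⟩
      · rintro ⟨i, -, rfl⟩
        obtain ⟨j, hj⟩ := (c.zer q hqs (t i) (ht i).1).1 (ht i).2.2.1
        exact ⟨j, Finset.mem_univ _, hj⟩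
    have h2 := congrArg Finset.card h1
    rw [Finset.card_image_of_injective _ fun i j hij => c.inj q hqs i j hij,
      Finset.card_image_of_injective _ hinj, Finset.card_univ, Finset.card_univ,
      Fintype.card_fin, Fintype.card_fin] at h2
    exact h2
  -- the derivatives
  have hd : ∀ j, HasDerivAt (c.B.g j) (deriv (c.B.g j) q) q := fun j =>
    ((c.B.diff j).differentiableAt (ball_mem_nhds _ c.B.R_pos)).hasDerivAt
  have hpos : ∀ j, 0 < ((-I * u) * deriv (c.B.g j) q / c.B.g j q).re := by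
    intro j
    have hn := c.B.norm_q j
    have hq := c.B.inv j q hqR
    have hgj0 : c.B.g j q ≠ 0 := norm_pos_iff.1 (by rw [hn]; exact one_pos)
    obtain ⟨han, hne⟩ := hreg _ (mem_sphere_zero_iff_norm.2 hn) hq
    have hchain : deriv phi (c.B.g j q) * deriv (c.B.g j) q = 1 := by
      have h3 : HasDerivAt (fun l => phi (c.B.g j l))
          (deriv phi (c.B.g j q) * deriv (c.B.g j) q) q :=
        HasDerivAt.comp q han.differentiableAt.hasDerivAt (hd j)
      have h4 : (fun l => phi (c.B.g j l)) =ᶠ[𝓝 q] fun l => l := by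
        filter_upwards [ball_mem_nhds q c.B.R_pos] with l hl
        exact c.B.inv j l hl
      exact (h3.congr_of_eventuallyEq h4.symm).unique (hasDerivAt_id _)
    have h7 : deriv (c.B.g j) q = (deriv phi (c.B.g j q))⁻¹ :=
      eq_inv_of_mul_eq_one_right hchain
    have h8 := hu _ (mem_sphere_zero_iff_norm.2 hn) hq
    set w : ℂ := I * (c.B.g j q * deriv phi (c.B.g j q)) with hw
    have hw0 : w ≠ 0 := mul_ne_zero I_ne_zero (mul_ne_zero hgj0 hne)
    have h9 : (-I * u) * deriv (c.B.g j) q / c.B.g j q = u / w := by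
      rw [h7, hw]
      field_simp
      rw [Complex.I_sq]
      ring
    rw [h9, hf_div u w, Complex.div_ofReal_re, Complex.conj_re]
    exact div_pos h8 (Complex.normSq_pos.2 hw0)
  have htend : ∀ v : ℂ, Tendsto (fun s : ℝ => q + (s : ℂ) * v) (𝓝[>] 0) (𝓝 q) := by
    intro v
    have h3 : Continuous fun s : ℝ => q + (s : ℂ) * v := by fun_prop
    have h4 := (h3.tendsto 0).mono_left (nhdsWithin_le_nhds (s := Ioi (0 : ℝ)))
    simpa using h4
  refine ⟨?_, x + k, ⟨k, t, hinj, ht, hh, hhc, fun z hz => ?_⟩, ?_⟩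
  · have hev : ∀ᶠ s : ℝ in 𝓝[>] 0, Wn phi (q + (s : ℂ) * (-I * u)) x := by
      filter_upwards [eventually_all.2 fun j => hf_grow (hd j) (c.B.norm_q j) (hpos j),
        htend _ (ball_mem_nhds q c.s_pos)] with s hs hsb
      have hJ : q + (s : ℂ) * (-I * u) ∉ J phi := by
        rw [mem_J_iff c hsb]
        rintro ⟨j, hj⟩
        exact absurd hj (hs j).ne'
      have h5 := c.wn _ hsb hJ
      have h6 : (Finset.univ.filter fun j => ‖c.B.g j (q + (s : ℂ) * (-I * u))‖ < 1) = ∅ := by
        apply Finset.filter_eq_empty_iff.2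
        intro j _
        exact not_lt.2 (hs j).le
      rw [h6, Finset.card_empty, hcx, Nat.cast_zero, add_zero] at h5
      exact h5
    exact (htend _).frequently hev.frequently
  · rw [add_sub_cancel_right]
    exact hhe z hz
  · have hev : ∀ᶠ s : ℝ in 𝓝[>] 0, Wn phi (q + (s : ℂ) * (-(-I * u))) (x + k) := by
      filter_upwards [eventually_all.2 fun j => hf_fall (hd j) (c.B.norm_q j) (hpos j),
        htend _ (ball_mem_nhds q c.s_pos)] with s hs hsb
      have hJ : q + (s : ℂ) * (-(-I * u)) ∉ J phi := by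
        rw [mem_J_iff c hsb]
        rintro ⟨j, hj⟩
        exact absurd hj (hs j).ne
      have h5 := c.wn _ hsb hJ
      have h6 : (Finset.univ.filter fun j => ‖c.B.g j (q + (s : ℂ) * (-(-I * u)))‖ < 1)
          = Finset.univ := Finset.filter_true_of_mem fun j _ => hs j
      rw [h6, Finset.card_univ, Fintype.card_fin, hcx, hk] at h5
      exact h5
    exact (htend _).frequently hev.frequently

end Pool.Agent.TBirP
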