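import Pool.Agent.TBirP.CrsA
import Pool.Agent.TBirP.CrsH

/-!
# One sign

`pc_good`: `q` off the curve: `Inq phi q n` with no points (`inq_iff_wn`, `exists_wn`), `n ≥ 0`. `q = phi t`, `t ∈ F`: `pc_corner`, `x ≥ 0` because `B` is not empty: second alternative with `m = x`. Otherwise all the points over `q` are
not in `F`, `exists_inq` gives `Inq phi q x`. If two different points are over `q`: `loc`: first alternative: `pc_half`, so `x ≥ 0`; second: directly. If one point `z1` is over `q`: it is simple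
(`Sim phi z1`), `sim_local` gives an `x` with `Inq phi q x` and winding number `x` on the nonempty set `B`. `pc_goodO`: the same with `n ≤ 0`, `Onq`, `GoodO`: off the curve `Onq phi q n` with no points; corner: `x + 1 ≤ 0`, `m = - (x + 1)` as a
natural number, with `A` and `B` exchanged; simple point: `Onq phi q (x + 1)` (one point over `q`).
-/

set_option autoImplicit false

open MeasureTheory Complex Set Filter Topology Metric AddCircle
open scoped ComplexConjugate InnerProductSpace ENNReal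

namespace Pool.Agent.TBirP

open Pool.Agent.TBir Pool.Agent.TBirG Pool.Agent.TBirC

variable {phi : ℂ → ℂ} {F : Set ℂ}

/-- The possible positions of a point. -/
private theorem cg_cases (h : PCross phi F) (q : ℂ) : q ∉ J phi ∨
    (∃ t, ‖t‖ = 1 ∧ t ∈ F ∧ phi t = q) ∨
    ((∀ z ∈ sphere (0 : ℂ) 1, phi z = q → z ∉ F) ∧ ∃ z1 ∈ sphere (0 : ℂ) 1,
      ∃ z2 ∈ sphere (0 : ℂ) 1, z1 ≠ z2 ∧ phi z1 = q ∧ phi z2 = q) ∨
    ∃ z1, Sim phi z1 ∧ z1 ∉ F ∧ phi z1 = q := by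
  by_cases h1 : q ∈ J phi
  · by_cases h2 : ∃ t, ‖t‖ = 1 ∧ t ∈ F ∧ phi t = q
    · exact Or.inr (Or.inl h2)
    · have h3 : ∀ z ∈ sphere (0 : ℂ) 1, phi z = q → z ∉ F := fun z hz hzq hF =>
        h2 ⟨z, mem_sphere_zero_iff_norm.1 hz, hF, hzq⟩
      obtain ⟨z1, hz1, hq1⟩ := h1
      by_cases h4 : ∀ z : ℂ, ‖z‖ = 1 → phi z = phi z1 → z = z1
      · refine Or.inr (Or.inr (Or.inr ⟨z1, ?_, h3 z1 hz1 hq1, hq1⟩))
        have h5 := h.reg z1 hz1 (h3 z1 hz1 hq1)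
        exact ⟨mem_sphere_zero_iff_norm.1 hz1, h5.1, h5.2, h4⟩
      · push Not at h4
        obtain ⟨z2, hz2, h5, h6⟩ := h4
        exact Or.inr (Or.inr (Or.inl ⟨h3, z1, hz1, z2, mem_sphere_zero_iff_norm.2 hz2,
          fun h => h6 h.symm, hq1, h5.trans hq1⟩))
  · exact Or.inl h1

theorem pc_good (h : PCross phi F) (hw : ∀ l n, Wn phi l n → 0 ≤ n) (q : ℂ) : Good phi q := by
  rcases cg_cases h q with h1 | ⟨t, ht, htF, rfl⟩ | ⟨h3, z1, hz1, z2, hz2, hne, hq1, hq2⟩ |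
    ⟨z1, hsim, hF, rfl⟩
  · obtain ⟨n, hn⟩ := exists_wn h.cont h1
    exact Or.inl ⟨n, hw q n hn, (inq_iff_wn h1).2 hn⟩
  · obtain ⟨x, A, B, hA, hB, -, ⟨b, hb⟩, hwA, hwB, hev⟩ := pc_corner h ht htF
    obtain ⟨m, rfl⟩ := Int.eq_ofNat_of_zero_le (hw b x (hwB b hb))
    exact Or.inr ⟨m, A, B, hA, Or.inl hB, hwA, hwB, hev⟩
  · obtain ⟨x, hI⟩ := exists_inq h.toPwA h3
    rcases h.loc z1 hz1 z2 hz2 hne (hq1.trans hq2.symm) with ⟨u, hu⟩ | ⟨h4, -⟩
    · obtain ⟨h5, -⟩ := pc_half h.toPwA hI (u := u) fun z hz hzq => hu z hz (hzq.trans hq1.symm)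
      obtain ⟨l, hl⟩ := h5.exists
      exact Or.inl ⟨x, hw l x hl, hI⟩
    · rw [hq1] at h4
      exact Or.inl (h4 (Eventually.of_forall hw))
  · obtain ⟨x, A, B, hI, -, -, -, hB, -, hBc, -⟩ := sim_local h.toPwA hsim hF
    obtain ⟨b, hb⟩ := closure_nonempty_iff.1 ⟨_, hBc⟩
    exact Or.inl ⟨x, hw b x (hB b hb), hI⟩

theorem pc_goodO (h : PCross phi F) (hw : ∀ l n, Wn phi l n → n ≤ 0) (q : ℂ) : GoodO phi q := by
  rcases cg_cases h q with h1 | ⟨t, ht, htF, rfl⟩ | ⟨h3, z1, hz1, z2, hz2, hne, hq1, hq2⟩ |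
    ⟨z1, hsim, hF, rfl⟩
  · obtain ⟨n, hn⟩ := exists_wn h.cont h1
    refine Or.inl ⟨n, hw q n hn, ?_⟩
    obtain ⟨g, hg, hg'⟩ := hn
    refine ⟨0, Fin.elim0, fun a => a.elim0, fun a => a.elim0, g, hg, fun z hz => ?_⟩
    rw [hg' z hz, Finset.univ_eq_empty, Finset.prod_empty, mul_one, Nat.cast_zero, sub_zero]
  · obtain ⟨x, A, B, hA, hB, ⟨a, ha⟩, -, hwA, hwB, hev⟩ := pc_corner h ht htF
    have h5 : x + 1 ≤ 0 := hw a _ (hwA a ha)
    obtain ⟨m, hm⟩ := Int.eq_ofNat_of_zero_le (show 0 ≤ -(x + 1) by omega)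
    refine Or.inr ⟨m, B, A, hB, Or.inl hA, fun l hl => ?_, fun l hl => ?_, ?_⟩
    · have h6 : (-((m : ℤ) + 1)) = x := by omega
      rw [h6]
      exact hwB l hl
    · have h6 : (-(m : ℤ)) = x + 1 := by omega
      rw [h6]
      exact hwA l hl
    · filter_upwards [hev] with l hl hlJ
      exact (hl hlJ).symm
  · obtain ⟨x, hI⟩ := exists_inq h.toPwA h3
    rcases h.loc z1 hz1 z2 hz2 hne (hq1.trans hq2.symm) with ⟨u, hu⟩ | ⟨-, h4⟩
    · obtain ⟨-, y, hy, h5⟩ := pc_half h.toPwA hI (u := u)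
        fun z hz hzq => hu z hz (hzq.trans hq1.symm)
      obtain ⟨l, hl⟩ := h5.exists
      exact Or.inl ⟨y, hw l y hl, hy⟩
    · rw [hq1] at h4
      exact Or.inl (h4 (Eventually.of_forall hw))
  · obtain ⟨x, A, B, hI, -, -, hA, -, hAc, -, -⟩ := sim_local h.toPwA hsim hF
    obtain ⟨a, ha⟩ := closure_nonempty_iff.1 ⟨_, hAc⟩
    refine Or.inl ⟨x + 1, hw a _ (hA a ha), ?_⟩
    obtain ⟨k, t, ht, ht', g, hg, hg'⟩ := hI
    have hall : ∀ j, t j = z1 := fun j => hsim.2.2.2 _ (ht' j).1 (ht' j).2.2.1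
    have hk0 : k ≠ 0 := by
      rintro rfl
      have h5 := hg' z1 (mem_sphere_zero_iff_norm.2 hsim.1)
      rw [sub_self, Finset.univ_eq_empty, Finset.prod_empty, mul_one] at h5
      exact mul_ne_zero (zpow_ne_zero _ (lg_ne (mem_sphere_zero_iff_norm.2 hsim.1)))
        (Complex.exp_ne_zero _) h5.symm
    have hk1 : k ≤ 1 := by
      by_contra hk
      have h5 : (⟨0, by omega⟩ : Fin k) = ⟨1, by omega⟩ := ht ((hall _).trans (hall _).symm)
      simp at h5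
    have hk : k = 1 := by omega
    subst hk
    refine ⟨1, t, ht, ht', g, hg, fun z hz => ?_⟩
    rw [hg' z hz, Nat.cast_one, add_sub_cancel_right]

end Pool.Agent.TBirP
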