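import Pool.Agent.TBirC.Psi
import Pool.Agent.TBirR.Main

/-!
# Continuous, piecewise analytic symbols: definitions

`PwA phi F`: `phi` is continuous on the circle, analytic with nonzero derivative at the points of the circle which are
not in the finite set `F`, and at the points of `F` it is given on each side by an analytic function.

`Wn phi l n`: the winding number of the curve `phi` about `l` is `n` (continuous logarithm). `Inq phi q x`: all points of
the circle sent to `q` are regular, `x` is the inner winding number at `q`. `Sim`: simple points. `Chart`: local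
factorisation of the Toeplitz operator near `q`.
-/

set_option autoImplicit false

open MeasureTheory Complex Set Filter Topology Metric AddCircle
open scoped ComplexConjugate InnerProductSpace ENNReal

namespace Pool.Agent.TBirP

open Pool.Agent.TBir Pool.Agent.TBirG Pool.Agent.TBirC

/-- The point of the circle with the argument `x`. -/
noncomputable def E (x : ℝ) : ℂ := exp (x * I)

/-- On the side `s` of the point `t` of the circle `phi` is given by the function `psi`, which is analytic at `t` and not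
constant near `t`. -/
def Side (phi psi : ℂ → ℂ) (t : ℂ) (s : ℝ) : Prop :=
  AnalyticAt ℂ psi t ∧ (¬ ∀ᶠ z in 𝓝 t, psi z = psi t) ∧
    ∀ᶠ x : ℝ in 𝓝[≥] 0, phi (t * E (s * x)) = psi (t * E (s * x))

/-- Continuous, piecewise analytic functions on the circle. -/
structure PwA (phi : ℂ → ℂ) (F : Set ℂ) : Prop where
  fin : F.Finite
  cont : ContinuousOn phi (sphere 0 1)
  reg : ∀ z ∈ sphere (0 : ℂ) 1, z ∉ F → AnalyticAt ℂ phi z ∧ deriv phi z ≠ 0
  side : ∀ t ∈ sphere (0 : ℂ) 1, t ∈ F → (∃ psi, Side phi psi t 1) ∧ ∃ psi, Side phi psi t (-1)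

/-- `n` is the winding number of `phi` about `l`. -/
def Wn (phi : ℂ → ℂ) (l : ℂ) (n : ℤ) : Prop :=
  ∃ h : ℂ → ℂ, ContinuousOn h (sphere 0 1) ∧ ∀ z ∈ sphere (0 : ℂ) 1, phi z - l = z ^ n * exp (h z)

/-- The points of the circle sent to `q` are regular, `x` is the inner winding number. -/
def Inq (phi : ℂ → ℂ) (q : ℂ) (x : ℤ) : Prop :=
  ∃ (k : ℕ) (t : Fin k → ℂ), Function.Injective t ∧
    (∀ j, ‖t j‖ = 1 ∧ AnalyticAt ℂ phi (t j) ∧ phi (t j) = q ∧ deriv phi (t j) ≠ 0) ∧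
    ∃ h : ℂ → ℂ, ContinuousOn h (sphere 0 1) ∧
      ∀ z ∈ sphere (0 : ℂ) 1, phi z - q = z ^ x * (∏ j, (z - t j)) * exp (h z)

/-- Simple points. -/
def Sim (phi : ℂ → ℂ) (z0 : ℂ) : Prop :=
  ‖z0‖ = 1 ∧ AnalyticAt ℂ phi z0 ∧ deriv phi z0 ≠ 0 ∧ ∀ z : ℂ, ‖z‖ = 1 → phi z = phi z0 → z = z0

/-- `f` is in the range of `T Phi - l`. -/
def Rg (Phi : CT) (f : Hardy) (l : ℂ) : Prop := ∃ h : Hardy, (T Phi - l • (1 : Op)) h = f

/-- The Toeplitz operator with the symbol `(phi - phi w) / (zeta - w)`. -/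
noncomputable def qT (phi : ℂ → ℂ) (w : ℂ) : Op :=
  TM (mf fun x => (phi (e x) - phi w) / (e x - w))

end Pool.Agent.TBirP

namespace Pool.Agent.TBirC

open Pool.Agent.TBir Pool.Agent.TBirG

/-- The polynomial `prod (zeta - g i l)`, `i ≠ j`. -/
noncomputable def Br.pj {phi : ℂ → ℂ} {q : ℂ} (B : Br phi q) (j : Fin B.k) (l : ℂ) : CT :=
  ∏ i ∈ Finset.univ.erase j, (fourier 1 - algebraMap ℂ CT (B.g i l))

end Pool.Agent.TBirC

namespace Pool.Agent.TBirP

open Pool.Agent.TBir Pool.Agent.TBirG Pool.Agent.TBirC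

/-- Local factorisation: `T Phi - l = Y l * T (fourier x * B.pz l)` for `l` near `q`, if `x ≥ 0`. -/
structure Chart (phi : ℂ → ℂ) (Phi : CT) (q : ℂ) where
  B : Br phi q
  x : ℤ
  s : ℝ
  Y : ℂ → Op
  Z : ℂ → Op
  s_pos : 0 < s
  s_le : s ≤ B.R
  dY : DifferentiableOn ℂ Y (ball q s)
  dZ : DifferentiableOn ℂ Z (ball q s)
  YZ : ∀ l ∈ ball q s, Y l * Z l = 1
  ZY : ∀ l ∈ ball q s, Z l * Y l = 1
  fac : 0 ≤ x → ∀ l ∈ ball q s, T Phi - l • (1 : Op) = Y l * T (fourier x * B.pz l)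
  qs : 0 ≤ x → ∀ j, ∀ l ∈ ball q s, ‖B.g j l‖ < 1 → qT phi (B.g j l) = Y l * T (fourier x * B.pj j l)
  zer : ∀ l ∈ ball q s, ∀ z : ℂ, ‖z‖ = 1 → (phi z = l ↔ ∃ j, B.g j l = z)
  inj : ∀ l ∈ ball q s, ∀ i j, B.g i l = B.g j l → i = j
  bd : ∀ l ∈ ball q s, ∀ j, 1 / 2 < ‖B.g j l‖ ∧ ‖B.g j l‖ < 2
  loc : ∀ j, ∀ᶠ w in 𝓝 (B.g j q), phi w ∈ ball q s ∧ B.g j (phi w) = w
  wn : ∀ l ∈ ball q s, l ∉ J phi →
    Wn phi l (x + ((Finset.univ.filter fun j => ‖B.g j l‖ < 1).card : ℤ))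

/-- The idempotent `P` acts as the scalar `c` at the point `w` of the disc near the curve. -/
def CF (phi : ℂ → ℂ) (Phi : CT) (P : Op) (w c : ℂ) : Prop :=
  ∀ h : Hardy, ∃ g : Hardy, P (qT phi w h) - c • qT phi w h = (T Phi - phi w • (1 : Op)) g

/-- The colour of the simple point `z0` is `c`. -/
def Col (phi : ℂ → ℂ) (Phi : CT) (P : Op) (z0 c : ℂ) : Prop :=
  ∃ s > 0, ∀ w ∈ ball z0 s, ‖w‖ < 1 → CF phi Phi P w c

/-- `tau` is the trace of the map induced by `P` on the quotient by the range of `T Phi - l`, a space of dimension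
`n`. -/
def Tr (Phi : CT) (P : Op) (l : ℂ) (n : ℕ) (tau : ℂ) : Prop :=
  ∃ (a : Fin n → (Hardy →L[ℂ] ℂ)) (v : Fin n → Hardy),
    (∀ i j, a i (v j) = if i = j then 1 else 0) ∧ (∀ f, Rg Phi f l ↔ ∀ i, a i f = 0) ∧
    tau = ∑ i, a i (P (v i))

/-- The condition at `q`: regular with nonnegative inner winding number, or two connected sets on which the winding
number is `m + 1` and `m` cover the complement of the curve near `q`. -/
def Good (phi : ℂ → ℂ) (q : ℂ) : Prop :=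
  (∃ x : ℤ, 0 ≤ x ∧ Inq phi q x) ∨ ∃ (m : ℕ) (A B : Set ℂ), IsPreconnected A ∧
    (IsPreconnected B ∨ m = 0) ∧ (∀ l ∈ A, Wn phi l (m + 1)) ∧ (∀ l ∈ B, Wn phi l m) ∧
    ∀ᶠ l in 𝓝 q, l ∉ J phi → l ∈ A ∨ l ∈ B

end Pool.Agent.TBirP
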