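import Pool.Agent.TBirP.Ext

/-!
# Inner winding numbers and the two sides of a simple point

`exists_inq`: the points `t_1, ..., t_k` of the circle with `phi = q` are finitely many (`level_fin`), not in `F`, so `phi` is analytic there with
nonzero derivative. The function `u = (phi - q) / prod (z - t_j)` (value `deriv phi t_j / prod_(i ≠ j) (t_j - t_i)` at `t_j`) is continuous on
the circle without zeros (`wi_cont`, `wi_ne`, `wiU` in TBirC/Wi.lean), `exists_log`. `Inq.unique`: different `k`, `t` are the same set (`BrAt`-like zeros), so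
`log_unique` after division (off the finite set of zeros, or compare with the winding numbers near `q` given by a chart).
`sim_local`: chart `c` at `q = phi z1` (`exists_chart`), one branch `g`, `g q = z1`; `A = phi '' {w ∈ ball z1 s, ‖w‖ < 1}`, `B = phi '' {w ∈ ball z1 s, 1 < ‖w‖}` with
small `s` (`c.loc`): images of connected sets under the continuous map `phi` (`{‖w‖ > 1} ∩ ball z1 s` is the image of a convex set, or
path connected: in the coordinate `log (w / z1)`; or take `U = exp (rectangle) * z1` in place of the ball for both sets); winding numbers by `c.wn`; for `l` near `q` off the curve `l = phi (g l)`,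
`‖g l‖ ≠ 1`. Existence of points: `tendsto_in`, `tendsto_out` of TBirG/Fr.lean.
-/

set_option autoImplicit false

open MeasureTheory Complex Set Filter Topology Metric AddCircle
open scoped ComplexConjugate InnerProductSpace ENNReal

namespace Pool.Agent.TBirP

open Pool.Agent.TBir Pool.Agent.TBirG Pool.Agent.TBirC

variable {phi : ℂ → ℂ} {F : Set ℂ}

private theorem inq_reg {q : ℂ} {x : ℤ} (hI : Inq phi q x) :
    ∀ z ∈ sphere (0 : ℂ) 1, phi z = q → AnalyticAt ℂ phi z ∧ deriv phi z ≠ 0 := by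
  obtain ⟨k, t, _, ht, h, _, hh'⟩ := hI
  intro z hz hzq
  have h1 := hh' z hz
  rw [hzq, sub_self] at h1
  have h2 : ∏ j, (z - t j) = 0 := by
    by_contra h3
    exact mul_ne_zero (mul_ne_zero (zpow_ne_zero _ (lg_ne hz)) h3) (Complex.exp_ne_zero _) h1.symm
  rw [Finset.prod_eq_zero_iff] at h2
  obtain ⟨j, -, hj⟩ := h2
  rw [sub_eq_zero] at hj
  rw [hj]
  exact ⟨(ht j).2.1, (ht j).2.2.2⟩

theorem exists_inq (h : PwA phi F) {q : ℂ} (hq : ∀ z ∈ sphere (0 : ℂ) 1, phi z = q → z ∉ F) :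
    ∃ x, Inq phi q x := by
  classical
  have hR : Reg2 phi q := ⟨h.cont, fun z hz hzq => h.reg z hz (hq z hz hzq)⟩
  have hfin := wi_finite hR
  set Z : Finset ℂ := hfin.toFinset with hZdef
  have hZ : ∀ z, z ∈ Z ↔ z ∈ sphere (0 : ℂ) 1 ∧ phi z = q := fun z => by
    rw [hZdef, Set.Finite.mem_toFinset]
    rfl
  have hreg : ∀ z ∈ Z, AnalyticAt ℂ phi z ∧ deriv phi z ≠ 0 := fun z hz =>
    hR.2 z ((hZ z).1 hz).1 ((hZ z).1 hz).2
  have hcont : ContinuousOn (wiU phi q Z) (sphere 0 1) :=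
    wi_cont hR.1 fun z hz => ⟨(hreg z hz).1.differentiableAt, ((hZ z).1 hz).2⟩
  have hne : ∀ z ∈ sphere (0 : ℂ) 1, wiU phi q Z z ≠ 0 := fun z hz =>
    wi_ne (fun w hw => (hreg w hw).2) fun h1 h2 => h1 ((hZ _).2 ⟨hz, h2⟩)
  obtain ⟨n, H, hH, hH'⟩ := exists_log hcont hne
  set t : Fin Z.card → ℂ := fun j => (Z.equivFin.symm j : ℂ) with ht
  have hinj : Function.Injective t := fun i j hij =>
    Z.equivFin.symm.injective (Subtype.ext hij)
  have htm : ∀ j, t j ∈ Z := fun j => (Z.equivFin.symm j).2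
  have hprod : ∀ w : ℂ, ∏ j, (w - t j) = ∏ i ∈ Z, (w - i) := fun w => by
    rw [← Finset.prod_coe_sort Z fun i => w - i]
    exact Equiv.prod_comp Z.equivFin.symm fun i => w - (i : ℂ)
  refine ⟨n, Z.card, t, hinj, fun j => ⟨?_, (hreg _ (htm j)).1, ((hZ _).1 (htm j)).2,
    (hreg _ (htm j)).2⟩, H, hH, fun z hz => ?_⟩
  · rw [← mem_sphere_zero_iff_norm]
    exact ((hZ _).1 (htm j)).1
  · rw [hprod]
    by_cases hzZ : z ∈ Z
    · rw [((hZ z).1 hzZ).2, sub_self, Finset.prod_eq_zero hzZ (sub_self z), mul_zero, zero_mul]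
    · have h1 := hH' z hz
      unfold wiU at h1
      rw [if_neg hzZ, div_eq_iff (wi_prod_ne hzZ)] at h1
      rw [h1]
      ring

theorem Inq.not_F (h : PwA phi F) {q : ℂ} {x : ℤ} (hI : Inq phi q x) :
    ∀ z ∈ sphere (0 : ℂ) 1, phi z = q → AnalyticAt ℂ phi z ∧ deriv phi z ≠ 0 :=
  inq_reg hI

theorem reg2_of_inq (hc : ContinuousOn phi (sphere 0 1)) {q : ℂ} {x : ℤ} (hI : Inq phi q x) :
    Reg2 phi q :=
  ⟨hc, inq_reg hI⟩

/-- Inversion in the circle. -/
private noncomputable def iv (u : ℂ) : ℂ := (conj u)⁻¹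

private theorem iv_iv (u : ℂ) : iv (iv u) = u := by
  unfold iv
  rw [map_inv₀, Complex.conj_conj, inv_inv]

private theorem norm_iv (u : ℂ) : ‖iv u‖ = ‖u‖⁻¹ := by
  unfold iv
  rw [norm_inv, Complex.norm_conj]

private theorem iv_cont {u : ℂ} (hu : u ≠ 0) : ContinuousAt iv u := by
  unfold iv
  exact (Complex.continuous_conj.continuousAt).inv₀ ((map_ne_zero _).2 hu)

private theorem iv_fix {z : ℂ} (hz : ‖z‖ = 1) : iv z = z := by
  have hz0 : z ≠ 0 := norm_pos_iff.1 (by rw [hz]; exact one_pos)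
  unfold iv
  rw [inv_eq_iff_eq_inv, eq_comm]
  apply inv_eq_of_mul_eq_one_left
  rw [Complex.conj_mul', hz]
  norm_num

/-- The two sides of a simple point. -/
theorem sim_local (h : PwA phi F) {z1 : ℂ} (h1 : Sim phi z1) (hF : z1 ∉ F) :
    ∃ (x : ℤ) (A B : Set ℂ), Inq phi (phi z1) x ∧ IsPreconnected A ∧ IsPreconnected B ∧
      (∀ l ∈ A, Wn phi l (x + 1)) ∧ (∀ l ∈ B, Wn phi l x) ∧ phi z1 ∈ closure A ∧
      phi z1 ∈ closure B ∧ ∀ᶠ l in 𝓝 (phi z1), l ∉ J phi → l ∈ A ∨ l ∈ B := by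
  obtain ⟨hn1, han, hd, hsim⟩ := h1
  obtain ⟨x, hI⟩ := exists_inq h (q := phi z1) fun z hz hzq => by
    rw [hsim z (mem_sphere_zero_iff_norm.1 hz) hzq]
    exact hF
  have he : ∀ y : UnitAddCircle, e y ∈ sphere (0 : ℂ) 1 := fun y => by
    rw [mem_sphere_zero_iff_norm]
    exact norm_e y
  obtain ⟨c, hcx⟩ := exists_chart h.cont
    (Phi := ⟨fun y => phi (e y), h.cont.comp_continuous wi_e_cont he⟩) (fun _ => rfl) hI
  have hqs : phi z1 ∈ ball (phi z1) c.s := mem_ball_self c.s_pos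
  have hz10 : z1 ≠ 0 := norm_pos_iff.1 (by rw [hn1]; exact one_pos)
  -- one branch
  obtain ⟨j0, hj0⟩ := (c.zer _ hqs z1 hn1).1 rfl
  have hone : ∀ j, j = j0 := by
    intro j
    have h2 := c.B.norm_q j
    have h3 := hsim _ h2 ((c.zer _ hqs _ h2).2 ⟨j, rfl⟩)
    exact c.inj _ hqs j j0 (by rw [h3, hj0])
  -- a small ball
  have hloc := c.loc j0
  rw [hj0] at hloc
  obtain ⟨r, hr, hball⟩ := Metric.eventually_nhds_iff_ball.1 (hloc.and han.eventually_analyticAt)
  have hcon : ContinuousOn phi (ball z1 r) := fun w hw =>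
    (hball w hw).2.continuousAt.continuousWithinAt
  -- the radius for the inversion
  have hiv : ∀ᶠ u in 𝓝 z1, iv u ∈ ball z1 r := by
    have h2 := (iv_cont hz10).eventually_mem (s := ball z1 r)
      (by rw [iv_fix hn1]; exact ball_mem_nhds _ hr)
    exact h2
  obtain ⟨r1, hr1, hball1⟩ := Metric.eventually_nhds_iff_ball.1 (hiv.and (eventually_ne_nhds hz10))
  set r2 : ℝ := min r r1 with hr2
  have hr20 : 0 < r2 := lt_min hr hr1
  set U : Set ℂ := ball z1 r2 ∩ ball 0 1 with hU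
  have hUpre : IsPreconnected U := ((convex_ball z1 r2).inter (convex_ball 0 1)).isPreconnected
  have hUr : ∀ u ∈ U, u ∈ ball z1 r := fun u hu => ball_subset_ball (min_le_left _ _) hu.1
  have hUr1 : ∀ u ∈ U, u ∈ ball z1 r1 := fun u hu => ball_subset_ball (min_le_right _ _) hu.1
  have hUcl : z1 ∈ closure U := by
    rw [Metric.mem_closure_iff]
    intro ε hε
    obtain ⟨w, hw, hw1⟩ := tendsto_in hn1 (lt_min hε hr20)
    refine ⟨w, ⟨ball_subset_ball (min_le_right _ _) hw, by simpa using hw1⟩, ?_⟩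
    rw [dist_comm]
    exact lt_of_lt_of_le (mem_ball.1 hw) (min_le_left _ _)
  -- off the curve
  have hoff : ∀ w ∈ ball z1 r, ‖w‖ ≠ 1 → phi w ∉ J phi := by
    rintro w hw hw1 ⟨z, hz, hzw⟩
    obtain ⟨h3, h4⟩ := (hball w hw).1
    obtain ⟨j, hj⟩ := (c.zer _ h3 z (mem_sphere_zero_iff_norm.1 hz)).1 hzw
    rw [hone j, h4] at hj
    rw [hj] at hw1
    exact hw1 (mem_sphere_zero_iff_norm.1 hz)
  have hivU : IsPreconnected (iv '' U) := by
    refine hUpre.image _ fun u hu => ?_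
    exact (iv_cont (hball1 u (hUr1 u hu)).2).continuousWithinAt
  refine ⟨x, phi '' U, phi '' (iv '' U), hI, hUpre.image _ (hcon.mono hUr), ?_, ?_, ?_, ?_, ?_, ?_⟩
  · refine hivU.image _ (hcon.mono ?_)
    rintro _ ⟨u, hu, rfl⟩
    exact (hball1 u (hUr1 u hu)).1
  · rintro _ ⟨w, hw, rfl⟩
    have hw1 : ‖w‖ < 1 := by simpa using hw.2
    obtain ⟨h3, h4⟩ := (hball w (hUr w hw)).1
    have h5 := c.wn _ h3 (hoff w (hUr w hw) hw1.ne)
    have h6 : (Finset.univ.filter fun j => ‖c.B.g j (phi w)‖ < 1) = {j0} := by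
      ext j
      rw [Finset.mem_filter, Finset.mem_singleton]
      refine ⟨fun _ => hone j, fun hj => ⟨Finset.mem_univ _, ?_⟩⟩
      rw [hj, h4]
      exact hw1
    rw [h6, Finset.card_singleton, hcx] at h5
    exact_mod_cast h5
  · rintro _ ⟨_, ⟨u, hu, rfl⟩, rfl⟩
    have hu1 : ‖u‖ < 1 := by simpa using hu.2
    have hu0 : 0 < ‖u‖ := norm_pos_iff.2 (hball1 u (hUr1 u hu)).2
    have hw1 : 1 < ‖iv u‖ := by
      rw [norm_iv]
      exact (one_lt_inv₀ hu0).2 hu1
    have hwr := (hball1 u (hUr1 u hu)).1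
    obtain ⟨h3, h4⟩ := (hball _ hwr).1
    have h5 := c.wn _ h3 (hoff _ hwr hw1.ne')
    have h6 : (Finset.univ.filter fun j => ‖c.B.g j (phi (iv u))‖ < 1) = ∅ := by
      apply Finset.filter_eq_empty_iff.2
      intro j _
      rw [hone j, h4]
      exact not_lt.2 hw1.le
    rw [h6, Finset.card_empty, hcx, Nat.cast_zero, add_zero] at h5
    exact h5
  · exact ContinuousWithinAt.mem_closure_image han.continuousAt.continuousWithinAt hUcl
  · refine ContinuousWithinAt.mem_closure_image han.continuousAt.continuousWithinAt ?_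
    have h2 := ContinuousWithinAt.mem_closure_image
      ((iv_cont hz10).continuousWithinAt (s := U)) hUcl
    rwa [iv_fix hn1] at h2
  · have hgc : ContinuousAt (c.B.g j0) (phi z1) :=
      ((c.B.diff j0).differentiableAt (ball_mem_nhds _ c.B.R_pos)).continuousAt
    have h2 : ∀ᶠ l in 𝓝 (phi z1), c.B.g j0 l ∈ ball z1 r2 :=
      hgc.eventually_mem (by rw [hj0]; exact ball_mem_nhds _ hr20)
    have h3 : ∀ᶠ l in 𝓝 (phi z1), iv (c.B.g j0 l) ∈ ball z1 r2 := by
      have h4 : ContinuousAt (fun l => iv (c.B.g j0 l)) (phi z1) :=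
        ContinuousAt.comp (g := iv) (f := c.B.g j0) (by rw [hj0]; exact iv_cont hz10) hgc
      exact h4.eventually_mem (by rw [hj0, iv_fix hn1]; exact ball_mem_nhds _ hr20)
    filter_upwards [h2, h3, ball_mem_nhds (phi z1) c.B.R_pos] with l hl2 hl3 hlR hlJ
    have hinv : phi (c.B.g j0 l) = l := c.B.inv j0 l hlR
    rcases lt_trichotomy ‖c.B.g j0 l‖ 1 with h5 | h5 | h5
    · exact Or.inl ⟨c.B.g j0 l, ⟨hl2, by simpa using h5⟩, hinv⟩
    · exact absurd ⟨c.B.g j0 l, mem_sphere_zero_iff_norm.2 h5, hinv⟩ hlJ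
    · refine Or.inr ⟨c.B.g j0 l, ⟨iv (c.B.g j0 l), ⟨hl3, ?_⟩, iv_iv _⟩, hinv⟩
      rw [mem_ball_zero_iff, norm_iv]
      exact inv_lt_one_of_one_lt₀ h5

end Pool.Agent.TBirP
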