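import Pool.Agent.TBirP.Inx
import Pool.Agent.TBirP.ColE

/-!
# Membership in all ranges

`P` commutes with `T Phi`, all colours are `0`, `P f = f`. Claim: `f` is in the range of `T Phi - l` for all `l` off the curve.
`loc_mem`: let `q` be off the curve or `q = phi z1` with `z1` simple (and not in `F`). Chart `c` at `q`, `x = c.x ≥ 0` (the value `x` is a winding number near `q`:
`c.wn`, for `q = phi z1` at points with `‖g l‖ > 1`; `hw`). Suppose `Rg Phi f l` for all `l` in a nonempty open set `O` in the ball (off the curve). By `rg_iff`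
`co (Z l f) i = 0` for `i < x` on `O`, this is differentiable in `l` on the ball: zero on the whole ball. So for `l` in the ball, off
the curve, with no branch inside the disc `Rg Phi f l` (`rg_iff`). For the simple point and `‖g l‖ < 1`, `w = g l`, `l = phi w`: `Z l f` is in the range of
`S ^ x = T (fourier x)`, so `f = Y l (T (fourier x) h) = qT phi w h` (`c.qs`, empty product), and the colour `0` at `w` (for `l` near `q`: `Col` holds in a ball around `z1`; shrink the ball) gives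
`P (qT w h) = (T Phi - l) g`, `P f = f`. So `Rg Phi f l` for all `l` off the curve in a ball around `q`.
`mem_all`: `V = {q ∈ U | exists s > 0, ∀ l ∈ ball q s, l off the curve → Rg Phi f l}` in `U` = the complement of the finite set of the values of non-simple
points and of points of `F`; `U` is connected (`Set.Countable.isConnected_compl_of_one_lt_rank`), `V` is open, closed in `U` by `loc_mem` (the complement of the curve is dense and open), nonempty
(large `l`: `InR_of_large`). Reference: `mem_all` in TBirG/Rng.lean.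
-/

set_option autoImplicit false

open MeasureTheory Complex Set Filter Topology Metric AddCircle
open scoped ComplexConjugate InnerProductSpace ENNReal

namespace Pool.Agent.TBirP

open Pool.Agent.TBir Pool.Agent.TBirG Pool.Agent.TBirC

variable {phi : ℂ → ℂ} {F : Set ℂ} {Phi : CT}

private theorem mp_co_neg (m : ℕ) (f : Hardy) (i : ℕ) :
    co (T (fourier (-(m : ℤ))) f) i = co f (m + i) := by
  have h1 := hasSum_co_T (fourier (-(m : ℤ))) f i
  have h2 : HasSum (fun k : ℕ => fourierCoeff (fourier (-(m : ℤ)) : CT) ((i : ℤ) - k) * co f k)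
      (fourierCoeff (fourier (-(m : ℤ)) : CT) ((i : ℤ) - ((m + i : ℕ) : ℤ)) * co f (m + i)) := by
    refine hasSum_single (m + i) fun k hk => ?_
    rw [idx_fourierCoeff_fourier, if_neg (by omega), zero_mul]
  have h3 := h1.unique h2
  rw [idx_fourierCoeff_fourier, if_pos (by push_cast; ring), one_mul] at h3
  exact h3

private theorem mp_co_lt {m : ℕ} (f : Hardy) {i : ℕ} (hi : i < m) :
    co (T (fourier (m : ℤ)) f) i = 0 := by
  have h1 := hasSum_co_T (fourier (m : ℤ)) f i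
  have h2 : HasSum (fun k : ℕ => fourierCoeff (fourier (m : ℤ) : CT) ((i : ℤ) - k) * co f k) 0 := by
    have : (fun k : ℕ => fourierCoeff (fourier (m : ℤ) : CT) ((i : ℤ) - k) * co f k) =
        fun _ => 0 := by
      funext k
      rw [idx_fourierCoeff_fourier, if_neg (by omega), zero_mul]
    rw [this]
    exact hasSum_zero
  exact h1.unique h2

private theorem mp_co_ge (m : ℕ) (f : Hardy) (i : ℕ) :
    co (T (fourier (m : ℤ)) f) (m + i) = co f i := by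
  have h1 := hasSum_co_T (fourier (m : ℤ)) f (m + i)
  have h2 : HasSum (fun k : ℕ => fourierCoeff (fourier (m : ℤ) : CT) (((m + i : ℕ) : ℤ) - k) *
      co f k) (fourierCoeff (fourier (m : ℤ) : CT) (((m + i : ℕ) : ℤ) - (i : ℤ)) * co f i) := by
    refine hasSum_single i fun k hk => ?_
    rw [idx_fourierCoeff_fourier, if_neg (by omega), zero_mul]
  have h3 := h1.unique h2
  rw [idx_fourierCoeff_fourier, if_pos (by push_cast; ring), one_mul] at h3
  exact h3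

/-- The range of `T (fourier n)`, `n ≥ 0`. -/
theorem mp_range {n : ℤ} (hn : 0 ≤ n) {f : Hardy} (h : ∀ i : ℕ, (i : ℤ) < n → co f i = 0) :
    ∃ u, T (fourier n) u = f := by
  obtain ⟨m, rfl⟩ := Int.eq_ofNat_of_zero_le hn
  refine ⟨T (fourier (-(m : ℤ))) f, ext_co fun j => ?_⟩
  rcases lt_or_ge j m with hj | hj
  · rw [mp_co_lt _ hj, h j (by exact_mod_cast hj)]
  · obtain ⟨i, rfl⟩ := Nat.exists_eq_add_of_le hj
    rw [mp_co_ge, mp_co_neg]

theorem Rg_of_large (Phi : CT) (f : Hardy) {l : ℂ} (hl : ‖T Phi‖ < ‖l‖) : Rg Phi f l := by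
  have h1 : l ∉ spectrum ℂ (T Phi) := by
    intro h
    have h2 := spectrum.norm_le_norm_mul_of_mem h
    have h3 : ‖(1 : Hardy →L[ℂ] Hardy)‖ ≤ 1 := ContinuousLinearMap.norm_id_le
    nlinarith [norm_nonneg (T Phi)]
  rw [spectrum.notMem_iff, Algebra.algebraMap_eq_smul_one] at h1
  obtain ⟨u, hu⟩ := h1
  refine ⟨-((u⁻¹ : (Hardy →L[ℂ] Hardy)ˣ) : Hardy →L[ℂ] Hardy) f, ?_⟩
  have h2 : T Phi - l • (1 : Hardy →L[ℂ] Hardy) = -(u : Hardy →L[ℂ] Hardy) := by
    rw [hu, neg_sub]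
  have h3 := congrArg (fun B : Hardy →L[ℂ] Hardy => B f) (Units.mul_inv u)
  rw [h2]
  change -((u : Hardy →L[ℂ] Hardy) (-(((u⁻¹ : (Hardy →L[ℂ] Hardy)ˣ) : Hardy →L[ℂ] Hardy) f))) = f
  rw [map_neg, neg_neg]
  exact h3

/-- The coefficients vanish on the whole ball. -/
theorem mp_coef {q : ℂ} (c : Chart phi Phi q) (hx : 0 ≤ c.x) (hd : Dense (J phi)ᶜ)
    (hJc : IsClosed (J phi)) {f : Hardy} {W : Set ℂ} (hW : IsOpen W)
    (hWne : (W ∩ ball q c.s).Nonempty) (hWR : ∀ μ ∈ W, μ ∉ J phi → Rg Phi f μ) :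
    ∀ μ ∈ ball q c.s, ∀ i : ℕ, (i : ℤ) < c.x → co (c.Z μ f) i = 0 := by
  intro μ hμ i hi
  obtain ⟨ν, ⟨hν1, hν2⟩, hν3⟩ := hd.inter_open_nonempty (W ∩ ball q c.s) (hW.inter isOpen_ball) hWne
  have h1 : DifferentiableOn ℂ (fun l => coL i (c.Z l f)) (ball q c.s) :=
    (coL i).differentiable.comp_differentiableOn (c.dZ.clm_apply (differentiableOn_const f))
  have h2 : (fun l => coL i (c.Z l f)) =ᶠ[𝓝 ν] 0 := by
    filter_upwards [hW.mem_nhds hν1, isOpen_ball.mem_nhds hν2, hJc.isOpen_compl.mem_nhds hν3] with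
      l h3 h4 h5
    change coL i (c.Z l f) = 0
    rw [coL_apply]
    exact ((rg_iff c hx h4 h5 f).1 (hWR l h3 h5)).1 i hi
  have h6 := (h1.analyticOnNhd isOpen_ball).eqOn_zero_of_preconnected_of_eventuallyEq_zero
    (convex_ball q c.s).isPreconnected hν2 h2 hμ
  rw [← coL_apply]
  exact h6

/-- Off the curve. -/
theorem mp_off (h : PwA phi F) (hPhi : ∀ x, Phi x = phi (e x)) (hJc : IsClosed (J phi))
    (hw : ∀ l n, Wn phi l n → 0 ≤ n) {q : ℂ} (hq : q ∉ J phi) (f : Hardy) :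
    ∃ ρ > 0, ∀ W : Set ℂ, IsOpen W → (W ∩ ball q ρ).Nonempty →
      (∀ μ ∈ W, μ ∉ J phi → Rg Phi f μ) → ∀ μ ∈ ball q ρ, μ ∉ J phi → Rg Phi f μ := by
  obtain ⟨n, hn⟩ := exists_wn h.cont hq
  obtain ⟨c, hcx⟩ := exists_chart h.cont hPhi ((inq_iff_wn hq).2 hn)
  have hx : 0 ≤ c.x := by rw [hcx]; exact hw q n hn
  refine ⟨c.s, c.s_pos, fun W hW hWne hWR μ hμ hμJ => ?_⟩
  refine (rg_iff c hx hμ hμJ f).2 ⟨mp_coef c hx (dense_J h) hJc hW hWne hWR μ hμ, fun j _ => ?_⟩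
  exact absurd ⟨c.B.g j q, mem_sphere_zero_iff_norm.2 (c.B.norm_q j),
    c.B.inv j q (mem_ball_self c.B.R_pos)⟩ hq

/-- At a simple point of the curve. -/
theorem mp_on (h : PwA phi F) (hPhi : ∀ x, Phi x = phi (e x)) (hJc : IsClosed (J phi))
    (hw : ∀ l n, Wn phi l n → 0 ≤ n) {z1 : ℂ} (h1 : Sim phi z1) (hF : z1 ∉ F) {P : Op}
    (hcol : Col phi Phi P z1 0) {f : Hardy} (hf : P f = f) :
    ∃ ρ > 0, ∀ W : Set ℂ, IsOpen W → (W ∩ ball (phi z1) ρ).Nonempty →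
      (∀ μ ∈ W, μ ∉ J phi → Rg Phi f μ) → ∀ μ ∈ ball (phi z1) ρ, μ ∉ J phi → Rg Phi f μ := by
  obtain ⟨x, A, B, hI, -, -, -, hB, -, hBc, -⟩ := sim_local h h1 hF
  obtain ⟨l0, hl0⟩ := closure_nonempty_iff.1 ⟨_, hBc⟩
  obtain ⟨c, hcx⟩ := exists_chart h.cont hPhi hI
  have hx : 0 ≤ c.x := by rw [hcx]; exact hw l0 x (hB l0 hl0)
  obtain ⟨s0, hs0, hcf⟩ := hcol
  have hg1 : ∀ j, c.B.g j (phi z1) = z1 := fun j =>
    h1.2.2.2 _ (c.B.norm_q j) (c.B.inv j _ (mem_ball_self c.B.R_pos))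
  have hall : ∀ i j : Fin c.B.k, i = j := by
    intro i j
    by_contra hij
    exact c.B.ne i j hij ((hg1 i).trans (hg1 j).symm)
  have hev : ∀ᶠ μ in 𝓝 (phi z1), ∀ j, c.B.g j μ ∈ ball z1 s0 := by
    refine Filter.eventually_all.2 fun j => ?_
    have hcont : ContinuousAt (c.B.g j) (phi z1) :=
      (c.B.diff j).continuousOn.continuousAt (ball_mem_nhds _ c.B.R_pos)
    refine hcont.eventually_mem ?_
    rw [hg1 j]
    exact ball_mem_nhds _ hs0
  obtain ⟨ρ1, hρ1, hρ1'⟩ := Metric.eventually_nhds_iff_ball.1 hev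
  refine ⟨min ρ1 c.s, lt_min hρ1 c.s_pos, fun W hW hWne hWR μ hμ hμJ => ?_⟩
  have hμ1 : μ ∈ ball (phi z1) ρ1 := ball_subset_ball (min_le_left _ _) hμ
  have hμs : μ ∈ ball (phi z1) c.s := ball_subset_ball (min_le_right _ _) hμ
  have hWne' : (W ∩ ball (phi z1) c.s).Nonempty :=
    hWne.mono (inter_subset_inter_right _ (ball_subset_ball (min_le_right _ _)))
  have hcoef := mp_coef c hx (dense_J h) hJc hW hWne' hWR μ hμs
  by_cases hex : ∃ j, ‖c.B.g j μ‖ < 1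
  · obtain ⟨j, hj⟩ := hex
    obtain ⟨u, hu⟩ := mp_range hx hcoef
    have hpj : c.B.pj j μ = 1 := by
      unfold Br.pj
      have : Finset.univ.erase j = (∅ : Finset (Fin c.B.k)) := by
        ext i
        simp [hall i j]
      rw [this, Finset.prod_empty]
    have hqT : qT phi (c.B.g j μ) = c.Y μ * T (fourier c.x) := by
      rw [c.qs hx j μ hμs hj, hpj, mul_one]
    have hphi : phi (c.B.g j μ) = μ := c.B.inv j μ (ball_subset_ball c.s_le hμs)
    have hqu : qT phi (c.B.g j μ) u = f := by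
      rw [hqT]
      change c.Y μ (T (fourier c.x) u) = f
      rw [hu]
      exact congrArg (fun A : Op => A f) (c.YZ μ hμs)
    obtain ⟨g, hg⟩ := hcf (c.B.g j μ) (hρ1' μ hμ1 j) hj u
    rw [hqu, hf, zero_smul, sub_zero, hphi] at hg
    exact ⟨g, hg.symm⟩
  · push Not at hex
    exact (rg_iff c hx hμs hμJ f).2 ⟨hcoef, fun j hj => absurd hj (not_lt.2 (hex j))⟩

theorem mem_all (h : PwA phi F) (hPhi : ∀ x, Phi x = phi (e x)) (hw : ∀ l n, Wn phi l n → 0 ≤ n)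
    (hsim : {z : ℂ | ‖z‖ = 1 ∧ ¬ Sim phi z}.Finite) {P : Op} (hP : P * T Phi = T Phi * P)
    (hcol : ∀ z, Sim phi z → z ∉ F → Col phi Phi P z 0) {f : Hardy} (hf : P f = f) :
    ∀ l ∉ J phi, Rg Phi f l := by
  have hJc : IsClosed (J phi) := ((isCompact_sphere (0 : ℂ) 1).image_of_continuousOn h.cont).isClosed
  obtain ⟨Sp, hSp⟩ : ∃ Sp : Set ℂ, Sp = phi '' {z : ℂ | ‖z‖ = 1 ∧ (¬ Sim phi z ∨ z ∈ F)} := ⟨_, rfl⟩
  have hSpf : Sp.Finite := by
    rw [hSp]
    refine Set.Finite.image _ ((hsim.union h.fin).subset ?_)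
    rintro z ⟨hz1, hz2 | hz2⟩
    · exact Or.inl ⟨hz1, hz2⟩
    · exact Or.inr hz2
  obtain ⟨G, hG⟩ : ∃ G : Set ℂ, G = {l | ∃ ρ > 0, ∀ μ ∈ ball l ρ, μ ∉ J phi → Rg Phi f μ} :=
    ⟨_, rfl⟩
  obtain ⟨B, hB⟩ : ∃ B : Set ℂ, B = {l | ∃ ρ > 0, ∀ μ ∈ ball l ρ, μ ∉ G} := ⟨_, rfl⟩
  have hop : ∀ p : ℂ → Prop, IsOpen {l : ℂ | ∃ ρ > 0, ∀ μ ∈ ball l ρ, p μ} := by
    intro p
    rw [Metric.isOpen_iff]
    rintro z ⟨ρ, hρ, h⟩
    refine ⟨ρ / 2, half_pos hρ, fun w hw => ⟨ρ / 2, half_pos hρ, fun z1 hz1 => h z1 ?_⟩⟩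
    rw [mem_ball] at hw hz1 ⊢
    linarith [dist_triangle z1 w z]
  have hGo : IsOpen G := by rw [hG]; exact hop _
  have hBo : IsOpen B := by rw [hB]; exact hop _
  have hcov : Spᶜ ⊆ G ∪ B := by
    intro l hl
    by_contra hcon
    rw [mem_union, not_or] at hcon
    obtain ⟨hlG, hlB⟩ := hcon
    -- every ball around `l` meets `G`
    have hmeet : ∀ ρ > 0, ∃ μ ∈ ball l ρ, μ ∈ G := by
      intro ρ hρ
      by_contra h
      push Not at h
      apply hlB
      rw [hB]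
      exact ⟨ρ, hρ, h⟩
    have hloc : ∃ ρ > 0, ∀ W : Set ℂ, IsOpen W → (W ∩ ball l ρ).Nonempty →
        (∀ μ ∈ W, μ ∉ J phi → Rg Phi f μ) → ∀ μ ∈ ball l ρ, μ ∉ J phi → Rg Phi f μ := by
      by_cases hlJ : l ∈ J phi
      · obtain ⟨z0, hz0, rfl⟩ := hlJ
        have hz0' : ‖z0‖ = 1 := by simpa using hz0
        have hboth : ¬ (¬ Sim phi z0 ∨ z0 ∈ F) := by
          intro h
          apply hl
          rw [hSp]
          exact ⟨z0, ⟨hz0', h⟩, rfl⟩
        rw [not_or, not_not] at hboth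
        exact mp_on h hPhi hJc hw hboth.1 hboth.2 (hcol z0 hboth.1 hboth.2) hf
      · exact mp_off h hPhi hJc hw hlJ f
    apply hlG
    rw [hG]
    obtain ⟨ρ, hρ, h1⟩ := hloc
    refine ⟨ρ, hρ, ?_⟩
    obtain ⟨μ, hμ, hμG⟩ := hmeet ρ hρ
    rw [hG] at hμG
    obtain ⟨ρ2, hρ2, h2⟩ := hμG
    exact h1 (ball μ ρ2) isOpen_ball ⟨μ, mem_ball_self hρ2, hμ⟩ h2
  have hconn : IsPreconnected Spᶜ := by
    refine (hSpf.countable.isPathConnected_compl_of_one_lt_rank ?_).isConnected.isPreconnected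
    rw [Complex.rank_real_complex]
    norm_num
  have hGne : (Spᶜ ∩ G).Nonempty := by
    have h1 : IsOpen {l : ℂ | ‖T Phi‖ < ‖l‖} := isOpen_lt continuous_const continuous_norm
    have h2 : {l : ℂ | ‖T Phi‖ < ‖l‖}.Nonempty := by
      refine ⟨((‖T Phi‖ + 1 : ℝ) : ℂ), ?_⟩
      change ‖T Phi‖ < ‖((‖T Phi‖ + 1 : ℝ) : ℂ)‖
      rw [Complex.norm_real, Real.norm_eq_abs, abs_of_nonneg (by positivity)]
      linarith
    obtain ⟨l, hl, hl'⟩ := (hSpf.countable.dense_compl ℝ).inter_open_nonempty _ h1 h2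
    refine ⟨l, hl', ?_⟩
    obtain ⟨ρ, hρ, h3⟩ := Metric.isOpen_iff.1 h1 l hl
    rw [hG]
    exact ⟨ρ, hρ, fun μ hμ _ => Rg_of_large Phi f (h3 hμ)⟩
  have hBe : ¬ (Spᶜ ∩ B).Nonempty := by
    intro hBne
    obtain ⟨l, _, hlG, hlB⟩ := hconn G B hGo hBo hcov hGne hBne
    rw [hB] at hlB
    obtain ⟨ρ, hρ, h⟩ := hlB
    exact h l (mem_ball_self hρ) hlG
  intro l hl
  have hlS : l ∈ Spᶜ := by
    intro h
    rw [hSp] at h
    obtain ⟨z, hz, rfl⟩ := h
    exact hl ⟨z, by simpa using hz.1, rfl⟩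
  have hlG : l ∈ G := (hcov hlS).resolve_right fun h => hBe ⟨l, hlS, h⟩
  rw [hG] at hlG
  obtain ⟨ρ, hρ, h⟩ := hlG
  exact h l (mem_ball_self hρ) hl

end Pool.Agent.TBirP
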