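import Pool.Agent.TBirP.MemP
import Pool.Agent.TBirP.ZerP
import Pool.Agent.TBirP.ColC
import Pool.Agent.TBirP.Trc

/-!
# Complete irreducibility under the local conditions `Good`

As TBirR/Main.lean. `good_nonneg`: all winding numbers are `≥ 0` (for `l` off the curve `Good phi l` gives it at `l`: `inq_iff_wn`, `Wn.unique`). At a simple point
not in `F` the inner winding number is `≥ 0` (`sim_local`). Bad points: `{q | ¬ ∃ x ≥ 0, Inq phi q x}` is in `phi '' ({non-simple points} ∪ F)`: finite.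
`loc_sets`: `t` on the circle, `m`, `A`, `B` as in `Good` at `phi t`: there are `s > 0` and `a` such that all simple points `z1` in `ball t s`, not in `F`, have colour `a` only:
`tr_preconnected` for `A` (value `tauA`) and for `B` (value `tauB`; if `m = 0` then `Tr Phi P l 0 tau` forces `tau = 0`, so `tauB = 0`; existence of a `Tr` on `B` in this case by
`exists_tr`); `tr_jump` at `z1` with `m1` = inner winding number: points `l = phi w` near `phi z1` with winding number `m1` and trace `tau`, and with `m1 + 1` and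
trace `tau + c1`; they are in `A ∪ B` for `z1` near `t`, winding numbers in `{m, m + 1}`, so `m1 = m` (`Wn.unique`), the first is in `B`, the second in `A`;
`Tr.unique`: `tau = tauB`, `tau + c1 = tauA`, so `c1 = tauA - tauB`.
`exists_const`: as `exists_const_good` of TBirR/Main.lean, with `exists_col`, `col_const`, `loc_sets`; `E = F ∪ {non-simple points}` finite. `main_good`: `mem_all`, `zero_P` for `P` or `1 - P`
(`Col.compl`).
-/

set_option autoImplicit false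

open MeasureTheory Complex Set Filter Topology Metric AddCircle
open scoped ComplexConjugate InnerProductSpace ENNReal

namespace Pool.Agent.TBirP

open Pool.Agent.TBir Pool.Agent.TBirG Pool.Agent.TBirC

variable {phi : ℂ → ℂ} {F : Set ℂ} {Phi : CT}

/-- Points of the circle outside a finite set. -/
private theorem mn_exists {E : Set ℂ} (hE : E.Finite) {z0 : ℂ} (hz0 : ‖z0‖ = 1) {eps : ℝ}
    (heps : 0 < eps) : ∃ z ∈ ball z0 eps, ‖z‖ = 1 ∧ z ∉ E := by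
  by_contra hcon
  push Not at hcon
  have h1 : sphere (0 : ℂ) 1 ∩ ball z0 eps ⊆ E := fun z hz => hcon z hz.2 (by simpa using hz.1)
  have h2 := hE.subset h1
  have hc : Continuous fun t : ℝ => z0 * Complex.exp (t * I) := by fun_prop
  have h3 : ∀ᶠ t : ℝ in 𝓝 0, z0 * Complex.exp (t * I) ∈ ball z0 eps := by
    refine hc.continuousAt.eventually (isOpen_ball.mem_nhds ?_)
    simp [heps]
  obtain ⟨δ, hδ, h4⟩ := Metric.eventually_nhds_iff_ball.1 h3
  have h5 : (fun t : ℝ => z0 * Complex.exp (t * I)) '' (Ioo 0 (min δ 1)) ⊆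
      sphere (0 : ℂ) 1 ∩ ball z0 eps := by
    rintro _ ⟨t, ht, rfl⟩
    refine ⟨?_, h4 t ?_⟩
    · simp [hz0, Complex.norm_exp_ofReal_mul_I]
    · rw [mem_ball, dist_zero_right, Real.norm_eq_abs, abs_of_pos ht.1]
      exact ht.2.trans_le (min_le_left _ _)
  have h6 : InjOn (fun t : ℝ => z0 * Complex.exp (t * I)) (Ioo 0 (min δ 1)) := by
    intro a ha b hb hab
    have hz : z0 ≠ 0 := by
      rintro rfl
      simp at hz0
    have h7 := mul_left_cancel₀ hz hab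
    rw [Complex.exp_eq_exp_iff_exists_int] at h7
    obtain ⟨n, hn⟩ := h7
    have h8 : (a : ℂ) = b + n * (2 * Real.pi) := by
      have hI := Complex.I_ne_zero
      apply mul_right_cancel₀ hI
      rw [hn]
      ring
    have h9 : a = b + n * (2 * Real.pi) := by exact_mod_cast h8
    have ha1 : a < 1 := ha.2.trans_le (min_le_right _ _)
    have hb1 : b < 1 := hb.2.trans_le (min_le_right _ _)
    have ha0 : 0 < a := ha.1
    have hb0 : 0 < b := hb.1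
    have hpi := Real.pi_gt_three
    have h10 : n = 0 := by
      by_contra hn0
      rcases lt_or_gt_of_ne hn0 with h | h
      · have : (n : ℝ) ≤ -1 := by exact_mod_cast (show n ≤ -1 by omega)
        nlinarith
      · have : (1 : ℝ) ≤ n := by exact_mod_cast (show 1 ≤ n by omega)
        nlinarith
    rw [h9, h10]
    simp
  exact (((Set.Ioo_infinite (lt_min hδ one_pos)).image h6).mono h5) h2

theorem good_nonneg (hg : ∀ q, Good phi q) {l : ℂ} {n : ℤ} (h : Wn phi l n) : 0 ≤ n := by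
  have hl := h.not_mem
  rcases hg l with ⟨x, hx, hI⟩ | ⟨m, A, B, -, -, hA, hB, hn⟩
  · rw [h.unique ((inq_iff_wn hl).1 hI)]
    exact hx
  · rcases hn.self_of_nhds hl with h1 | h1
    · rw [h.unique (hA l h1)]
      omega
    · rw [h.unique (hB l h1)]
      omega

/-- The inner winding number at a simple point is nonnegative. -/
private theorem mn_inq (h : PwA phi F) (hw : ∀ l n, Wn phi l n → 0 ≤ n) {z1 : ℂ}
    (h1 : Sim phi z1) (hF : z1 ∉ F) : ∃ x : ℤ, 0 ≤ x ∧ Inq phi (phi z1) x := by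
  obtain ⟨x, A, B, hI, -, -, -, hB, -, hclB, -⟩ := sim_local h h1 hF
  obtain ⟨l, hl⟩ : B.Nonempty := closure_nonempty_iff.1 ⟨_, hclB⟩
  exact ⟨x, hw l x (hB l hl), hI⟩

private theorem mn_bad (h : PwA phi F) (hw : ∀ l n, Wn phi l n → 0 ≤ n)
    (hsim : {z : ℂ | ‖z‖ = 1 ∧ ¬ Sim phi z}.Finite) :
    {q : ℂ | ¬ ∃ x : ℤ, 0 ≤ x ∧ Inq phi q x}.Finite := by
  refine ((hsim.union h.fin).image phi).subset ?_
  intro q hq
  have hqJ : q ∈ J phi := by
    by_contra hqJ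
    obtain ⟨n, hn⟩ := exists_wn h.cont hqJ
    exact hq ⟨n, hw _ _ hn, (inq_iff_wn hqJ).2 hn⟩
  obtain ⟨z, hz, rfl⟩ := hqJ
  refine ⟨z, ?_, rfl⟩
  by_contra hcon
  rw [mem_union, not_or] at hcon
  have hz1 : ‖z‖ = 1 := by simpa using hz
  refine hq (mn_inq h hw ?_ hcon.2)
  by_contra h2
  exact hcon.1 ⟨hz1, h2⟩

theorem loc_sets (h : PwA phi F) (hPhi : ∀ x, Phi x = phi (e x)) {P : Op} (hP2 : P * P = P)
    (hP : P * T Phi = T Phi * P) (hw : ∀ l n, Wn phi l n → 0 ≤ n) {t : ℂ} (ht : ‖t‖ = 1) {m : ℕ}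
    {A B : Set ℂ} (hA : IsPreconnected A) (hB : IsPreconnected B ∨ m = 0)
    (hA1 : ∀ l ∈ A, Wn phi l (m + 1)) (hB1 : ∀ l ∈ B, Wn phi l m)
    (hn : ∀ᶠ l in 𝓝 (phi t), l ∉ J phi → l ∈ A ∨ l ∈ B) :
    ∃ s > 0, ∃ a : ℂ, ∀ z1 ∈ ball t s, Sim phi z1 → z1 ∉ F → ∀ c, Col phi Phi P z1 c → c = a := by
  obtain ⟨tauA, htA⟩ := tr_preconnected h.cont hPhi hP2 hP (n := m + 1) hA
    (fun l hl => by push_cast; exact hA1 l hl)
  have hTB : ∃ tauB : ℂ, ∀ l ∈ B, ∀ tau, Tr Phi P l m tau → tau = tauB := by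
    rcases hB with hB | hB
    · obtain ⟨tauB, htB⟩ := tr_preconnected h.cont hPhi hP2 hP hB hB1
      exact ⟨tauB, fun l hl tau htau => (htau.unique hP (htB l hl)).2⟩
    · subst hB
      refine ⟨0, fun l _ tau htau => ?_⟩
      obtain ⟨a, v, -, -, hv⟩ := htau
      rw [hv]
      simp
  obtain ⟨tauB, htB⟩ := hTB
  obtain ⟨δ, hδ, h1⟩ := Metric.eventually_nhds_iff_ball.1 hn
  have hts : t ∈ sphere (0 : ℂ) 1 := by simpa using ht
  have h2 : ∀ᶠ z in 𝓝[sphere (0 : ℂ) 1] t, phi z ∈ ball (phi t) δ :=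
    (h.cont t hts).eventually (ball_mem_nhds _ hδ)
  obtain ⟨s, hs, h3⟩ := Metric.mem_nhdsWithin_iff.1 h2
  refine ⟨s, hs, tauA - tauB, fun z1 hz1 hsim hF c hc => ?_⟩
  have hz1s : z1 ∈ sphere (0 : ℂ) 1 := by simpa using hsim.1
  have h4 : phi z1 ∈ ball (phi t) δ := h3 ⟨hz1, hz1s⟩
  have h5 : ∀ᶠ w in 𝓝 z1, phi w ∈ ball (phi t) δ :=
    hsim.2.1.continuousAt.eventually (isOpen_ball.mem_nhds h4)
  obtain ⟨eps, heps, h6⟩ := Metric.eventually_nhds_iff_ball.1 h5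
  obtain ⟨x, hx, hI⟩ := mn_inq h hw hsim hF
  obtain ⟨m1, rfl⟩ := Int.eq_ofNat_of_zero_le hx
  obtain ⟨tau, htau⟩ := tr_jump h hPhi hP2 hP hsim hI hc
  obtain ⟨⟨w, hw1, hw2, hw3, hw4⟩, w', hv1, hv2, hv3, hv4⟩ := htau eps heps
  have hwm : m1 = m ∧ phi w ∈ B := by
    rcases h1 _ (h6 w hw1) hw2 with hwA | hwB
    · exfalso
      have e1 := hw3.unique (hA1 _ hwA)
      rcases h1 _ (h6 w' hv1) hv2 with hvA | hvB
      · have e2 := hv3.unique (hA1 _ hvA)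
        omega
      · have e2 := hv3.unique (hB1 _ hvB)
        omega
    · have e1 := hw3.unique (hB1 _ hwB)
      exact ⟨by exact_mod_cast e1, hwB⟩
  obtain ⟨rfl, hwB⟩ := hwm
  have hvA : phi w' ∈ A := by
    rcases h1 _ (h6 w' hv1) hv2 with hvA | hvB
    · exact hvA
    · exfalso
      have e2 := hv3.unique (hB1 _ hvB)
      omega
  have e1 := htB _ hwB _ hw4
  have e2 := (hv4.unique hP (htA _ hvA)).2
  rw [← e2, ← e1]
  ring

theorem exists_const (h : PwA phi F) (hPhi : ∀ x, Phi x = phi (e x))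
    (hsim : {z : ℂ | ‖z‖ = 1 ∧ ¬ Sim phi z}.Finite) (hg : ∀ q, Good phi q) {P : Op}
    (hP2 : P * P = P) (hP : P * T Phi = T Phi * P) :
    ∃ c : ℂ, (c = 0 ∨ c = 1) ∧ ∀ z, Sim phi z → z ∉ F → Col phi Phi P z c := by
  classical
  have hw : ∀ l n, Wn phi l n → 0 ≤ n := fun l n hl => good_nonneg hg hl
  have hex : ∀ z, Sim phi z ∧ z ∉ F → ∃ c : ℂ, (c = 0 ∨ c = 1) ∧ Col phi Phi P z c := by
    rintro z ⟨hz, hzF⟩
    obtain ⟨x, hx, hI⟩ := mn_inq h hw hz hzF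
    exact exists_col h.cont hPhi hz hx hI hP2 hP
  choose! cc hcc hcol using hex
  obtain ⟨V, hV⟩ : ∃ V : ℂ → Set ℂ, V = fun k => {z | ∃ ρ > 0, ∀ z1 ∈ ball z ρ,
      Sim phi z1 ∧ z1 ∉ F → cc z1 = k} := ⟨_, rfl⟩
  have hVo : ∀ k, IsOpen (V k) := by
    intro k
    rw [Metric.isOpen_iff, hV]
    rintro z ⟨ρ, hρ, h⟩
    refine ⟨ρ / 2, half_pos hρ, fun w hw => ⟨ρ / 2, half_pos hρ, fun z1 hz1 => h z1 ?_⟩⟩
    rw [mem_ball] at hw hz1 ⊢
    linarith [dist_triangle z1 w z]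
  have hloc : ∀ z : ℂ, ‖z‖ = 1 → ∃ s > 0, ∀ z1 ∈ ball z s, ∀ z2 ∈ ball z s,
      Sim phi z1 ∧ z1 ∉ F → Sim phi z2 ∧ z2 ∉ F → cc z1 = cc z2 := by
    intro z hz
    rcases hg (phi z) with ⟨x, hx, hI⟩ | ⟨m, A, B, hA, hB, hA1, hB1, hn⟩
    · obtain ⟨s, hs, h1⟩ := col_const h.cont hPhi hz hx hI P
      exact ⟨s, hs, fun z1 hz1 z2 hz2 s1 s2 =>
        h1 z1 hz1 z2 hz2 s1.1 s2.1 _ _ (hcol z1 s1) (hcol z2 s2)⟩
    · obtain ⟨s, hs, a, h1⟩ := loc_sets h hPhi hP2 hP hw hz hA hB hA1 hB1 hn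
      exact ⟨s, hs, fun z1 hz1 z2 hz2 s1 s2 =>
        (h1 z1 hz1 s1.1 s1.2 _ (hcol z1 s1)).trans (h1 z2 hz2 s2.1 s2.2 _ (hcol z2 s2)).symm⟩
  have hexs : ∀ z : ℂ, ‖z‖ = 1 → ∀ s : ℝ, 0 < s → ∃ z2 ∈ ball z s, Sim phi z2 ∧ z2 ∉ F := by
    intro z hz s hs
    obtain ⟨z2, h1, h2, h3⟩ := mn_exists (hsim.union h.fin) hz hs
    rw [mem_union, not_or] at h3
    refine ⟨z2, h1, ?_, h3.2⟩
    by_contra h4
    exact h3.1 ⟨h2, h4⟩
  have hcov : sphere (0 : ℂ) 1 ⊆ V 0 ∪ V 1 := by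
    intro z hz
    have hz' : ‖z‖ = 1 := by simpa using hz
    obtain ⟨s, hs, h⟩ := hloc z hz'
    obtain ⟨z2, hz2, hsim2⟩ := hexs z hz' s hs
    have h1 : ∀ z1 ∈ ball z s, Sim phi z1 ∧ z1 ∉ F → cc z1 = cc z2 := fun z1 hz1 hs1 =>
      h z1 hz1 z2 hz2 hs1 hsim2
    rcases hcc z2 hsim2 with h2 | h2
    · left
      rw [hV]
      exact ⟨s, hs, fun z1 hz1 hs1 => (h1 z1 hz1 hs1).trans h2⟩
    · right
      rw [hV]
      exact ⟨s, hs, fun z1 hz1 hs1 => (h1 z1 hz1 hs1).trans h2⟩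
  have hdisj : ∀ z ∈ sphere (0 : ℂ) 1, z ∈ V 0 → z ∈ V 1 → False := by
    intro z hz h0 h1
    rw [hV] at h0 h1
    obtain ⟨ρ0, hρ0, h0⟩ := h0
    obtain ⟨ρ1, hρ1, h1⟩ := h1
    obtain ⟨z2, hz2, hsim2⟩ := hexs z (by simpa using hz) _ (lt_min hρ0 hρ1)
    have e0 := h0 z2 (ball_subset_ball (min_le_left _ _) hz2) hsim2
    have e1 := h1 z2 (ball_subset_ball (min_le_right _ _) hz2) hsim2
    rw [e0] at e1
    exact zero_ne_one e1
  have hpre : IsPreconnected (sphere (0 : ℂ) 1) := by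
    refine isPreconnected_sphere ?_ _ _
    rw [Complex.rank_real_complex]
    norm_num
  have hone : ∀ k, sphere (0 : ℂ) 1 ⊆ V k → ∀ z, Sim phi z ∧ z ∉ F → cc z = k := by
    intro k hk z hz
    have h1 := hk (show z ∈ sphere (0 : ℂ) 1 by simpa using hz.1.1)
    rw [hV] at h1
    obtain ⟨ρ, hρ, h⟩ := h1
    exact h z (mem_ball_self hρ) hz
  by_cases h0 : (sphere (0 : ℂ) 1 ∩ V 0).Nonempty
  · have h1 : ¬ (sphere (0 : ℂ) 1 ∩ V 1).Nonempty := by
      intro h1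
      obtain ⟨z, hz, hz'⟩ := hpre (V 0) (V 1) (hVo 0) (hVo 1) hcov h0 h1
      exact hdisj z hz hz'.1 hz'.2
    have h2 : sphere (0 : ℂ) 1 ⊆ V 0 := fun z hz => (hcov hz).resolve_right
      fun h => h1 ⟨z, hz, h⟩
    refine ⟨0, Or.inl rfl, fun z hz hzF => ?_⟩
    have := hcol z ⟨hz, hzF⟩
    rwa [hone 0 h2 z ⟨hz, hzF⟩] at this
  · have h2 : sphere (0 : ℂ) 1 ⊆ V 1 := fun z hz => (hcov hz).resolve_left
      fun h => h0 ⟨z, hz, h⟩
    refine ⟨1, Or.inr rfl, fun z hz hzF => ?_⟩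
    have := hcol z ⟨hz, hzF⟩
    rwa [hone 1 h2 z ⟨hz, hzF⟩] at this

theorem main_good (h : PwA phi F) (hPhi : ∀ x, Phi x = phi (e x))
    (hsim : {z : ℂ | ‖z‖ = 1 ∧ ¬ Sim phi z}.Finite) (hg : ∀ q, Good phi q) :
    CompletelyIrreducible (T Phi) := by
  rw [bir_iff]
  intro P hP2 hP
  have hw : ∀ l n, Wn phi l n → 0 ≤ n := fun l n hl => good_nonneg hg hl
  have key : ∀ Q : Op, Q * Q = Q → Q * T Phi = T Phi * Q →
      (∀ z, Sim phi z → z ∉ F → Col phi Phi Q z 0) → Q = 0 := by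
    intro Q hQ2 hQ hcol
    refine zero_P h hPhi hw (mn_bad h hw hsim) hQ fun f l hl => ?_
    exact mem_all h hPhi hw hsim hQ hcol (f := Q f)
      (congrArg (fun B : Op => B f) hQ2) l hl
  obtain ⟨c, hc, hcol⟩ := exists_const h hPhi hsim hg hP2 hP
  rcases hc with rfl | rfl
  · exact Or.inl (key P hP2 hP hcol)
  · right
    have h1 : (1 - P) * (1 - P) = 1 - P := by
      rw [mul_sub, mul_one, sub_mul, one_mul, hP2, sub_self, sub_zero]
    have h2 : (1 - P) * T Phi = T Phi * (1 - P) := by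
      rw [sub_mul, mul_sub, hP, one_mul, mul_one]
    have h3 := key (1 - P) h1 h2 fun z hz hzF => by
      have := (hcol z hz hzF).compl
      rwa [sub_self] at this
    rw [sub_eq_zero] at h3
    exact h3.symm

end Pool.Agent.TBirP
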