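import Pool.Agent.TBirP.GrC
import Pool.Agent.TBirP.Inx

/-!
# Piecewise analytic normal curves

`PNormal phi F`: `phi` is continuous on the circle, analytic with nonzero derivative off the finite set `F`; at the points of `F` it is given on each side by a nonconstant analytic function (corners, cusps and
critical points), and the curve is simple near them (`simple`); there are no triple points, and at double points the branches are transversal.

Paper proofs.
`nsim_fin`: the points of the circle which are not simple are in `F` or are double points. Infinitely many double points `z1n` with partners `z2n ≠ z1n`: subsequence `z1n → z1`, `z2n → z2`, `phi z1 = phi z2`. `z1`, `z2` are not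
in `F` (`simple`). If `z1 ≠ z2`: `I z1 phi'(z1)`, `I z2 phi'(z2)` are independent over the reals (`trans`), so `(x, y) ↦ phi (z1 E x) - phi (z2 E y)` has an invertible derivative at `(0, 0)` and is injective near `(0, 0)`:
eventually `z1n = z1`, contradiction to infinitely many (pairwise different `z1n`). If `z1 = z2`: `phi` is injective near `z1` (`deriv ≠ 0`), contradiction.
`corner_sides`: `two_sides` at `t`, winding numbers constant on `A` and on `B` (`exists_wn`, `Wn.of_preconnected`); there are simple points `z1 ∉ F` of the circle near `t`, by `sim_local`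
the winding numbers `x` and `x + 1` occur near `phi z1`, so in `A` and `B`: one has `x`, the other `x + 1`; name them so.
`dbl_inner`: at a double point `q = phi z1 = phi z2` with the inner winding number `x` the winding number `x` occurs in each neighbourhood of `q`: chart `c` at `q` with two
branches; `a_j = deriv (g j) q / g j q = 1 / (z_j phi'(z_j))` are independent over the reals; choose `v` with `re (a_j v) > 0` for `j = 1, 2`; for small `s > 0` `‖g j (q + s v)‖ > 1` for both,
and `c.wn`. (Off the curve by `mem_J_iff`.)
-/

set_option autoImplicit false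

open MeasureTheory Complex Set Filter Topology Metric AddCircle
open scoped ComplexConjugate InnerProductSpace ENNReal

namespace Pool.Agent.TBirP

open Pool.Agent.TBir Pool.Agent.TBirG Pool.Agent.TBirC

/-- Continuous, piecewise analytic normal curves. -/
structure PNormal (phi : ℂ → ℂ) (F : Set ℂ) : Prop extends PwA phi F where
  simple : ∀ t ∈ sphere (0 : ℂ) 1, t ∈ F →
    ∀ᶠ z in 𝓝 t, ‖z‖ = 1 → ∀ z' : ℂ, ‖z'‖ = 1 → phi z' = phi z → z' = z
  triple : ∀ z1 ∈ sphere (0 : ℂ) 1, ∀ z2 ∈ sphere (0 : ℂ) 1, ∀ z3 ∈ sphere (0 : ℂ) 1,
    phi z1 = phi z2 → phi z2 = phi z3 → z1 = z2 ∨ z2 = z3 ∨ z1 = z3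
  trans : ∀ z1 ∈ sphere (0 : ℂ) 1, ∀ z2 ∈ sphere (0 : ℂ) 1, z1 ≠ z2 → phi z1 = phi z2 →
    ((z1 * deriv phi z1) * conj (z2 * deriv phi z2)).im ≠ 0

variable {phi : ℂ → ℂ} {F : Set ℂ}

theorem PNormal.simple_self (h : PNormal phi F) {t : ℂ} (ht : ‖t‖ = 1) (htF : t ∈ F) :
    ∀ z : ℂ, ‖z‖ = 1 → phi z = phi t → z = t :=
  (h.simple t (by simpa using ht) htF).self_of_nhds ht

end Pool.Agent.TBirP
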