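import Pool.Agent.TBirP.NrmN
import Pool.Agent.TBirP.NrmC
import Pool.Agent.TBirP.AdjP

/-!
# The criterion for piecewise analytic normal curves

`pn_good`: all winding numbers `≥ 0` imply `Good phi q` for all `q`: `q` off the curve: `Inq phi q n` (`inq_iff_wn`, `exists_wn`); `q = phi z`, `z ∈ F`: `corner_sides` with `x ≥ 0` (`B` is not empty); `q` a simple point not in `F`: `sim_local`; a double point: `dbl_inner`.
`pn_neg`: NrmN.lean. `PNormal.pstar`: as `PwA.pstar`; `deriv (pstar phi) z` for `z` on the circle is `- conj (z^2 ...)`; transversality is preserved (compute `z * deriv (pstar phi) z = - conj (z * deriv phi z)`).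
`pn_main`: `→`: `pn_neg`. `←`: no two signs: all `≥ 0` (`main_good`) or all `≤ 0` (`pstar`, `wn_pstar_iff`, `bir_adj`, `adjoint_T`).
-/

set_option autoImplicit false

open MeasureTheory Complex Set Filter Topology Metric AddCircle
open scoped ComplexConjugate InnerProductSpace ENNReal

namespace Pool.Agent.TBirP

open Pool.Agent.TBir Pool.Agent.TBirG Pool.Agent.TBirC

variable {phi : ℂ → ℂ} {F : Set ℂ}

private theorem np_eq {z z' : ℂ} (hz : ‖z‖ = 1) (hz' : ‖z'‖ = 1)
    (h : pstar phi z = pstar phi z') : phi z = phi z' := by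
  rw [pstar_sphere phi hz, pstar_sphere phi hz'] at h
  exact (starRingEnd ℂ).injective h

theorem PNormal.pstar (h : PNormal phi F) : PNormal (pstar phi) F := by
  refine { toPwA := h.toPwA.pstar, simple := ?_, triple := ?_, trans := ?_ }
  · intro t ht htF
    filter_upwards [h.simple t ht htF] with z hz hz1 z' hz' he
    exact hz hz1 z' hz' (np_eq hz' hz1 he)
  · intro z1 h1 z2 h2 z3 h3 h12 h23
    rw [mem_sphere_zero_iff_norm] at h1 h2 h3
    exact h.triple z1 (mem_sphere_zero_iff_norm.2 h1) z2 (mem_sphere_zero_iff_norm.2 h2) z3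
      (mem_sphere_zero_iff_norm.2 h3) (np_eq h1 h2 h12) (np_eq h2 h3 h23)
  · intro z1 h1 z2 h2 hne he
    have n1 : ‖z1‖ = 1 := mem_sphere_zero_iff_norm.1 h1
    have n2 : ‖z2‖ = 1 := mem_sphere_zero_iff_norm.1 h2
    have he' := np_eq n1 n2 he
    have f1 : z1 ∉ F := fun hF => hne (h.simple_self n1 hF z2 n2 he'.symm).symm
    have f2 : z2 ∉ F := fun hF => hne (h.simple_self n2 hF z1 n1 he')
    have d1 := (pstar_loc n1 (h.reg z1 h1 f1).1).2
    have d2 := (pstar_loc n2 (h.reg z2 h2 f2).1).2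
    have h3 := h.trans z1 h1 z2 h2 hne he'
    rw [d1, d2]
    intro h0
    apply h3
    have h4 : -conj (z1 * deriv phi z1) * conj (-conj (z2 * deriv phi z2)) =
        conj (z1 * deriv phi z1 * conj (z2 * deriv phi z2)) := by
      rw [map_neg, neg_mul_neg, map_mul (starRingEnd ℂ) (z1 * deriv phi z1)]
    rw [h4, Complex.conj_im] at h0
    linarith

theorem pn_good (h : PNormal phi F) (hw : ∀ l n, Wn phi l n → 0 ≤ n) (q : ℂ) : Good phi q := by
  by_cases hq : q ∈ J phi
  · obtain ⟨z, hz, rfl⟩ := hq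
    have n1 : ‖z‖ = 1 := mem_sphere_zero_iff_norm.1 hz
    by_cases hF : z ∈ F
    · obtain ⟨x, A, B, hA, hB, -, hBn, hA1, hB1, hn⟩ := corner_sides h n1 hF
      obtain ⟨l, hl⟩ := hBn
      obtain ⟨m, rfl⟩ := Int.eq_ofNat_of_zero_le (hw l x (hB1 l hl))
      exact Or.inr ⟨m, A, B, hA, Or.inl hB, hA1, hB1, hn⟩
    · by_cases hd : ∃ z2 : ℂ, ‖z2‖ = 1 ∧ z ≠ z2 ∧ phi z = phi z2
      · obtain ⟨z2, n2, hne, he⟩ := hd
        obtain ⟨x, hx, hfr⟩ := dbl_inner h n1 n2 hne he
        obtain ⟨l, hl⟩ := hfr.exists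
        exact Or.inl ⟨x, hw l x hl, hx⟩
      · push Not at hd
        have hs : Sim phi z := by
          refine ⟨n1, (h.reg z hz hF).1, (h.reg z hz hF).2, fun z' hz' he => ?_⟩
          by_contra hne
          exact hd z' hz' (fun h0 => hne h0.symm) he.symm
        obtain ⟨x, A, B, hx, -, -, -, hB1, -, hBc, -⟩ := sim_local h.toPwA hs hF
        obtain ⟨l, hl⟩ : B.Nonempty := closure_nonempty_iff.1 ⟨_, hBc⟩
        exact Or.inl ⟨x, hw l x (hB1 l hl), hx⟩
  · obtain ⟨n, hn⟩ := exists_wn h.cont hq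
    exact Or.inl ⟨n, hw q n hn, (inq_iff_wn hq).2 hn⟩

theorem pn_main (h : PNormal phi F) : (∀ f ∈ H2, ∃! g, IsToeplitz phi f g) ∧
    (BIR H2 (IsToeplitz phi) ↔
      ¬ ∃ (l l' : ℂ) (n n' : ℤ), Wn phi l n ∧ Wn phi l' n' ∧ n < 0 ∧ 0 < n') := by
  refine ⟨exists_unique_cont h.cont, ?_, ?_⟩
  · rintro hb ⟨l, l', n, n', hl, hl', hn, hn'⟩
    exact pn_neg h hl hn hl' hn' hb
  · intro hno
    obtain ⟨Phi, hPhi⟩ := exists_ct h.cont
    rw [bir_of_ct hPhi]
    by_cases hw : ∀ l n, Wn phi l n → 0 ≤ n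
    · exact main_good h.toPwA hPhi (nsim_fin h) (pn_good h hw)
    · push Not at hw
      obtain ⟨l, n, hl, hn⟩ := hw
      have hw' : ∀ l' n', Wn (Pool.Agent.TBir.pstar phi) l' n' → 0 ≤ n' := by
        intro l' n' h'
        have h1 : Wn (Pool.Agent.TBir.pstar phi) (conj (conj l')) n' := by
          rw [Complex.conj_conj]
          exact h'
        rw [wn_pstar_iff] at h1
        by_contra hc
        exact hno ⟨l, conj l', n, -n', hl, h1, hn, by omega⟩
      rw [← bir_adj, adjoint_T]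
      refine main_good h.pstar.toPwA (fun x => ?_) (nsim_fin h.pstar) (pn_good h.pstar hw')
      rw [pstar_e, ← hPhi]
      rfl

end Pool.Agent.TBirP
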