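import Pool.Agent.TBirP.Def

/-!
# Poisson means of a Lipschitz function

Paper proof. `r = 1 - δ`, `c_k` the Fourier coefficients of `h`, `|c_k| ≤ ‖h‖`. `p = c_0 / 2 + sum_(k ≥ 1) r^k c_k fourier k`,
`m = c_0 / 2 + sum_(k ≥ 1) r^k c_(-k) fourier (-k)` (norm convergent series in `CT`; `plusS` of TBir/Base). `p + m` is the Poisson mean
of `h`: `(p + m) x = ∫ h (x - t) P t dt`, `P t = (1 - r^2) / (1 - 2 r cos (2 pi t) + r^2)`, and `(p - m) x = i ∫ h (x - t) Q t dt`,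
`Q t = 2 r sin (2 pi t) / (1 - 2 r cos (2 pi t) + r^2)`, integrals over `[-1/2, 1/2]` (geometric series, integrate term by term).
`∫ P = 1`, `P ≥ 0`. So `2 re (p x) = ∫ re h P - ∫ im h Q`, `2 re (m x) = ∫ re h P + ∫ im h Q`, bounded by
`M1 + M2 ∫ |Q|`, and `∫ |Q| = 2 ∫_0^(1/2) Q = (2 / pi) log ((1 + r) / (1 - r)) ≤ 1 + log (1 / δ)` up to a constant (the primitive is
`log (1 - 2 r cos (2 pi t) + r^2) / (2 pi)`). `|h x - (p + m) x| ≤ ∫ |h x - h (x - t)| P t dt ≤ L ∫ |t| P t dt`, and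
`1 - 2 r cos (2 pi t) + r^2 = (1 - r)^2 + 4 r sin^2 (pi t) ≥ δ^2 + 8 t^2` for `|t| ≤ 1/2`, `r ≥ 1/2` (`sin (pi t) ≥ 2 t`), so
`∫ |t| P t dt ≤ 2 δ ∫ |t| / (δ^2 + 8 t^2) dt ≤ C δ (1 + log (1 / δ)) ≤ C' √δ` (simpler: `|t| / (δ^2 + 8 t^2) ≤ δ^(-1/2) |t|^(-1/2)`, as
`δ^2 + t^2 ≥ δ^(1/2) t^(3/2)`).
-/

set_option autoImplicit false

open MeasureTheory Complex Set Filter Topology Metric AddCircle
open scoped ComplexConjugate InnerProductSpace ENNReal

namespace Pool.Agent.TBirP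

open Pool.Agent.TBir Pool.Agent.TBirG Pool.Agent.TBirC

/-- The kernel `1 / 2 + sum_(k ≥ 1) r^k e(k t)`. -/
private noncomputable def Kr (r t : ℝ) : ℂ := (1 - (r : ℂ) * e (t : UnitAddCircle))⁻¹ - 1 / 2

private noncomputable def kj (r : ℝ) (j : ℕ) : ℂ := (r : ℂ) ^ j - if j = 0 then 1 / 2 else 0

private theorem norm_kj {r : ℝ} (hr : 0 ≤ r) (j : ℕ) : ‖kj r j‖ ≤ r ^ j := by
  unfold kj
  by_cases h : j = 0
  · subst h
    rw [if_pos rfl, pow_zero, pow_zero]
    norm_num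
  · rw [if_neg h, sub_zero, norm_pow, Complex.norm_real, Real.norm_of_nonneg hr]

private theorem norm_re {r : ℝ} (hr : 0 ≤ r) (x : UnitAddCircle) : ‖(r : ℂ) * e x‖ = r := by
  rw [norm_mul, norm_e, mul_one, Complex.norm_real, Real.norm_of_nonneg hr]

private theorem hasSum_Kr {r : ℝ} (hr0 : 0 ≤ r) (hr1 : r < 1) (t : ℝ) :
    HasSum (fun j : ℕ => kj r j * e (t : UnitAddCircle) ^ j) (Kr r t) := by
  have h1 : HasSum (fun j : ℕ => ((r : ℂ) * e (t : UnitAddCircle)) ^ j)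
      (1 - (r : ℂ) * e (t : UnitAddCircle))⁻¹ :=
    hasSum_geometric_of_norm_lt_one (by rw [norm_re hr0]; exact hr1)
  have h2 : HasSum (fun j : ℕ => if j = 0 then (1 / 2 : ℂ) else 0) (1 / 2) :=
    hasSum_ite_eq 0 (1 / 2)
  have h3 : (fun j : ℕ => kj r j * e (t : UnitAddCircle) ^ j) = fun j : ℕ =>
      ((r : ℂ) * e (t : UnitAddCircle)) ^ j - if j = 0 then (1 / 2 : ℂ) else 0 := by
    funext j
    unfold kj
    rw [sub_mul, mul_pow]
    congr 1
    by_cases h : j = 0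
    · subst h
      simp
    · rw [if_neg h, zero_mul]
  rw [h3]
  exact h1.sub h2

private theorem norm_fc_le (h : CT) (n : ℤ) : ‖fourierCoeff h n‖ ≤ ‖h‖ := by
  unfold fourierCoeff
  refine (norm_integral_le_of_norm_le_const (C := ‖h‖) (Eventually.of_forall fun t => ?_)).trans ?_
  · rw [norm_smul, fourier_eq_e, norm_zpow, norm_e, one_zpow, one_mul]
    exact h.norm_coe_le_norm t
  · simp

private theorem coef_int (h : CT) (j : ℕ) (x : ℝ) :
    fourierCoeff h (j : ℤ) * e (x : UnitAddCircle) ^ j =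
      ∫ t in (-(1 / 2) : ℝ)..(1 / 2), e (t : UnitAddCircle) ^ j * h ((x - t : ℝ) : UnitAddCircle) := by
  rw [fourierCoeff_eq_intervalIntegral h j (x - 1 / 2)]
  have h1 := intervalIntegral.integral_comp_sub_left (a := (-(1 / 2) : ℝ)) (b := 1 / 2)
    (fun s : ℝ => e ((x - s : ℝ) : UnitAddCircle) ^ j * h (s : UnitAddCircle)) x
  have h2 : (fun t : ℝ => e ((x - (x - t) : ℝ) : UnitAddCircle) ^ j *
      h ((x - t : ℝ) : UnitAddCircle)) = fun t : ℝ => e (t : UnitAddCircle) ^ j *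
      h ((x - t : ℝ) : UnitAddCircle) := by
    funext t
    rw [sub_sub_cancel]
  rw [h2] at h1
  rw [h1]
  have h3 : x - 1 / 2 + 1 = x - -(1 / 2) := by ring
  rw [h3, div_one, one_smul, mul_comm, ← intervalIntegral.integral_const_mul]
  refine intervalIntegral.integral_congr fun s _ => ?_
  change e (x : UnitAddCircle) ^ j * (fourier (-(j : ℤ)) (s : UnitAddCircle) • h s) =
    e ((x - s : ℝ) : UnitAddCircle) ^ j * h (s : UnitAddCircle)
  rw [fourier_eq_e, smul_eq_mul, ← mul_assoc]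
  congr 1
  have h4 : e ((x - s : ℝ) : UnitAddCircle) = e (x : UnitAddCircle) * (e (s : UnitAddCircle))⁻¹ := by
    rw [AddCircle.coe_sub]
    unfold e
    rw [sub_eq_add_neg, toCircle_add, toCircle_neg]
    simp
  rw [h4, mul_pow, zpow_neg, zpow_natCast, inv_pow]

private theorem plus_int (h : CT) {r : ℝ} (hr0 : 0 ≤ r) (hr1 : r < 1) :
    Plus (plusS fun j => kj r j * fourierCoeff h (j : ℤ)) ∧ ∀ x : ℝ,
    plusS (fun j => kj r j * fourierCoeff h (j : ℤ)) (x : UnitAddCircle) =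
      ∫ t in (-(1 / 2) : ℝ)..(1 / 2), Kr r t * h ((x - t : ℝ) : UnitAddCircle) := by
  have hs : Summable fun j => ‖kj r j * fourierCoeff h (j : ℤ)‖ := by
    refine Summable.of_nonneg_of_le (fun _ => norm_nonneg _) (fun j => ?_)
      ((summable_geometric_of_lt_one hr0 hr1).mul_right ‖h‖)
    rw [norm_mul]
    exact mul_le_mul (norm_kj hr0 j) (norm_fc_le h j) (norm_nonneg _) (pow_nonneg hr0 j)
  refine ⟨plus_plusS hs, fun x => ?_⟩
  rw [plusS_apply hs]
  have hc : Continuous fun t : ℝ => h ((x - t : ℝ) : UnitAddCircle) :=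
    h.continuous.comp ((AddCircle.continuous_mk' 1).comp (continuous_const.sub continuous_id))
  have he : Continuous fun t : ℝ => e (t : UnitAddCircle) :=
    continuous_e.comp (AddCircle.continuous_mk' 1)
  have key : HasSum (fun j : ℕ => ∫ t in (-(1 / 2) : ℝ)..(1 / 2),
      (kj r j * e (t : UnitAddCircle) ^ j) * h ((x - t : ℝ) : UnitAddCircle))
      (∫ t in (-(1 / 2) : ℝ)..(1 / 2), Kr r t * h ((x - t : ℝ) : UnitAddCircle)) := by
    refine intervalIntegral.hasSum_integral_of_dominated_convergence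
      (fun j _ => r ^ j * ‖h‖) (fun j => ?_) (fun j => Eventually.of_forall fun t _ => ?_)
      (Eventually.of_forall fun t _ => (summable_geometric_of_lt_one hr0 hr1).mul_right _)
      intervalIntegrable_const (Eventually.of_forall fun t _ => (hasSum_Kr hr0 hr1 t).mul_right _)
    · exact ((continuous_const.mul (he.pow j)).mul hc).aestronglyMeasurable
    · rw [norm_mul, norm_mul, norm_pow, norm_e, one_pow, mul_one]
      exact mul_le_mul (norm_kj hr0 j) (h.norm_coe_le_norm _) (norm_nonneg _) (pow_nonneg hr0 j)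
  rw [← key.tsum_eq]
  refine tsum_congr fun j => ?_
  rw [mul_assoc, coef_int, ← intervalIntegral.integral_const_mul]
  refine intervalIntegral.integral_congr fun t _ => ?_
  change kj r j * (e (t : UnitAddCircle) ^ j * h ((x - t : ℝ) : UnitAddCircle)) = _
  rw [mul_assoc]

private theorem int_Kr {r : ℝ} (hr0 : 0 ≤ r) (hr1 : r < 1) :
    ∫ t in (-(1 / 2) : ℝ)..(1 / 2), Kr r t = 1 / 2 := by
  have h1 := (plus_int (fourier 0 : CT) hr0 hr1).2 0
  have hs : Summable fun j => ‖kj r j * fourierCoeff (fourier 0 : CT) (j : ℤ)‖ := by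
    refine Summable.of_nonneg_of_le (fun _ => norm_nonneg _) (fun j => ?_)
      ((summable_geometric_of_lt_one hr0 hr1).mul_right ‖(fourier 0 : CT)‖)
    rw [norm_mul]
    exact mul_le_mul (norm_kj hr0 j) (norm_fc_le _ j) (norm_nonneg _) (pow_nonneg hr0 j)
  rw [plusS_apply hs, tsum_eq_single 0] at h1
  · have h2 : (fun t : ℝ => Kr r t * (fourier 0 : CT) ((0 - t : ℝ) : UnitAddCircle)) =
        fun t => Kr r t := by
      funext t
      rw [fourier_zero, mul_one]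
    rw [h2] at h1
    rw [← h1, fourierCoeff_fourier]
    simp [kj]
    norm_num
  · intro j hj
    rw [fourierCoeff_fourier, Pi.single_eq_of_ne (by exact_mod_cast hj), mul_zero, zero_mul]

private theorem cont_Kr {r : ℝ} (hr0 : 0 ≤ r) (hr1 : r < 1) : Continuous (Kr r) := by
  have he : Continuous fun t : ℝ => e (t : UnitAddCircle) :=
    continuous_e.comp (AddCircle.continuous_mk' 1)
  refine ((continuous_const.sub (continuous_const.mul he)).inv₀ fun t h => ?_).sub continuous_const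
  have h1 := norm_re hr0 (t : UnitAddCircle)
  have h2 : 1 - (r : ℂ) * e (t : UnitAddCircle) = 0 := h
  rw [← sub_eq_zero.1 h2, norm_one] at h1
  linarith

private theorem Kr_bound {r δ t : ℝ} (hr : r = 1 - δ) (hδ0 : 0 < δ) (hδ1 : δ ≤ 1 / 2)
    (ht : |t| ≤ 1 / 2) : 0 ≤ (Kr r t).re ∧ (Kr r t).re ≤ δ / (δ ^ 2 + 8 * t ^ 2) ∧
      |(Kr r t).im| ≤ 7 * (|t| / (δ ^ 2 + 8 * t ^ 2)) := by
  obtain ⟨a, ha⟩ : ∃ a : ℝ, a = r * Real.cos (2 * Real.pi * t) := ⟨_, rfl⟩
  obtain ⟨b, hb⟩ : ∃ b : ℝ, b = r * Real.sin (2 * Real.pi * t) := ⟨_, rfl⟩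
  have hw : (r : ℂ) * e (t : UnitAddCircle) = ⟨a, b⟩ := by
    have h1 : e (t : UnitAddCircle) = Complex.exp (((2 * Real.pi * t : ℝ) : ℂ) * I) := by
      rw [e_coe, circleMap]
      simp
    rw [h1]
    apply Complex.ext
    · rw [Complex.re_ofReal_mul, Complex.exp_ofReal_mul_I_re, ha]
    · rw [Complex.im_ofReal_mul, Complex.exp_ofReal_mul_I_im, hb]
  obtain ⟨D, hD⟩ : ∃ D : ℝ, D = (1 - a) * (1 - a) + b * b := ⟨_, rfl⟩
  have hab : a ^ 2 + b ^ 2 = r ^ 2 := by
    rw [ha, hb]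
    have := Real.sin_sq_add_cos_sq (2 * Real.pi * t)
    linear_combination r ^ 2 * this
  have hns : Complex.normSq (1 - (⟨a, b⟩ : ℂ)) = D := by
    rw [Complex.normSq_apply, hD]
    simp
  have hre : (Kr r t).re = (1 - a) / D - 1 / 2 := by
    unfold Kr
    rw [hw, Complex.sub_re, Complex.inv_re, hns]
    simp
  have him : (Kr r t).im = b / D := by
    unfold Kr
    rw [hw, Complex.sub_im, Complex.inv_im, hns]
    simp
  -- the lower bound of the denominator
  have hs2 : 4 * t ^ 2 ≤ Real.sin (Real.pi * t) ^ 2 := by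
    have h1 : Real.sin (Real.pi * t) ^ 2 = Real.sin (Real.pi * |t|) ^ 2 := by
      rcases abs_cases t with ⟨h, -⟩ | ⟨h, -⟩
      · rw [h]
      · rw [h, mul_neg, Real.sin_neg, neg_sq]
    have h2 := Real.mul_le_sin (x := Real.pi * |t|) (by positivity)
      (by nlinarith [Real.pi_pos, abs_nonneg t])
    have h3 : 2 / Real.pi * (Real.pi * |t|) = 2 * |t| := by
      field_simp
    rw [h3] at h2
    rw [h1]
    have h4 : (2 * |t|) ^ 2 ≤ Real.sin (Real.pi * |t|) ^ 2 :=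
      pow_le_pow_left₀ (by positivity) h2 2
    have h5 : (2 * |t|) ^ 2 = 4 * t ^ 2 := by rw [mul_pow, sq_abs]; norm_num
    linarith
  have hcos : Real.cos (2 * Real.pi * t) = 1 - 2 * Real.sin (Real.pi * t) ^ 2 := by
    have h1 : 2 * Real.pi * t = 2 * (Real.pi * t) := by ring
    rw [h1, Real.cos_two_mul, Real.cos_sq']
    ring
  have hDe : D = δ ^ 2 + 4 * r * Real.sin (Real.pi * t) ^ 2 := by
    have h1 : D = 1 - 2 * a + r ^ 2 := by
      rw [hD, ← hab]
      ring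
    rw [h1, ha, hcos, hr]
    ring
  have hr2 : 1 / 2 ≤ r := by linarith
  have hD8 : δ ^ 2 + 8 * t ^ 2 ≤ D := by
    rw [hDe]
    nlinarith [sq_nonneg t, sq_nonneg (Real.sin (Real.pi * t))]
  have hp : 0 < δ ^ 2 + 8 * t ^ 2 := by positivity
  have hDp : 0 < D := hp.trans_le hD8
  have hre2 : (Kr r t).re = (δ * (2 - δ)) / (2 * D) := by
    have h1 : D = 1 - 2 * a + r ^ 2 := by
      rw [hD, ← hab]
      ring
    rw [hre, eq_div_iff (by positivity)]
    field_simp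
    rw [h1, hr]
    ring
  refine ⟨?_, ?_, ?_⟩
  · rw [hre2]
    apply div_nonneg (mul_nonneg hδ0.le (by linarith)) (by positivity)
  · rw [hre2, div_le_div_iff₀ (by positivity) hp]
    nlinarith [mul_le_mul_of_nonneg_left hD8 hδ0.le, mul_pos hδ0 hDp]
  · rw [him, abs_div, abs_of_pos hDp, ← mul_div_assoc]
    have hb2 : |b| ≤ 7 * |t| := by
      rw [hb, abs_mul, abs_of_nonneg (by linarith : (0 : ℝ) ≤ r)]
      have h1 : |Real.sin (2 * Real.pi * t)| ≤ |2 * Real.pi * t| := Real.abs_sin_le_abs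
      have h2 : |2 * Real.pi * t| = 2 * Real.pi * |t| := by
        rw [abs_mul, abs_of_pos (by positivity)]
      rw [h2] at h1
      have h3 := Real.pi_lt_d2
      have h4 : 0 ≤ |t| := abs_nonneg t
      calc r * |Real.sin (2 * Real.pi * t)| ≤ 1 * (2 * Real.pi * |t|) :=
            mul_le_mul (by linarith) h1 (abs_nonneg _) zero_le_one
        _ ≤ 7 * |t| := by nlinarith
    exact div_le_div₀ (by positivity) hb2 hp hD8

/-- The integral of the majorant. -/
private theorem int_J {δ : ℝ} (hδ0 : 0 < δ) (hδ1 : δ ≤ 1 / 2) :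
    ∫ t in (-(1 / 2) : ℝ)..(1 / 2), |t| / (δ ^ 2 + 8 * t ^ 2) ≤ 1 + Real.log (1 / δ) := by
  have hpos : ∀ t : ℝ, 0 < δ ^ 2 + 8 * t ^ 2 := fun t => by positivity
  have hcont : Continuous fun t : ℝ => |t| / (δ ^ 2 + 8 * t ^ 2) :=
    continuous_abs.div (by fun_prop) fun t => (hpos t).ne'
  have hcont2 : Continuous fun t : ℝ => t / (δ ^ 2 + 8 * t ^ 2) :=
    continuous_id.div (by fun_prop) fun t => (hpos t).ne'
  have hder : ∀ t : ℝ, HasDerivAt (fun t : ℝ => Real.log (δ ^ 2 + 8 * t ^ 2) / 16)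
      (t / (δ ^ 2 + 8 * t ^ 2)) t := by
    intro t
    have h1 : HasDerivAt (fun t : ℝ => δ ^ 2 + 8 * t ^ 2) (8 * (2 * t)) t := by
      have h2 := ((hasDerivAt_pow 2 t).const_mul 8).const_add (δ ^ 2)
      simpa using h2
    have h3 := (h1.log (hpos t).ne').div_const 16
    have h4 : 8 * (2 * t) / (δ ^ 2 + 8 * t ^ 2) / 16 = t / (δ ^ 2 + 8 * t ^ 2) := by
      field_simp
      ring
    rwa [h4] at h3
  have h1 : ∫ t in (0 : ℝ)..(1 / 2), |t| / (δ ^ 2 + 8 * t ^ 2) =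
      Real.log (δ ^ 2 + 8 * (1 / 2) ^ 2) / 16 - Real.log (δ ^ 2 + 8 * 0 ^ 2) / 16 := by
    rw [← intervalIntegral.integral_eq_sub_of_hasDerivAt (fun t _ => hder t)
      (hcont2.intervalIntegrable _ _)]
    refine intervalIntegral.integral_congr fun t ht => ?_
    rw [Set.uIcc_of_le (by norm_num)] at ht
    rw [abs_of_nonneg ht.1]
  have h2 : ∫ t in (-(1 / 2) : ℝ)..0, |t| / (δ ^ 2 + 8 * t ^ 2) =
      ∫ t in (0 : ℝ)..(1 / 2), |t| / (δ ^ 2 + 8 * t ^ 2) := by
    have h3 := intervalIntegral.integral_comp_neg (a := (-(1 / 2) : ℝ)) (b := 0)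
      (fun t : ℝ => |t| / (δ ^ 2 + 8 * t ^ 2))
    simp only [abs_neg, neg_sq, neg_zero, neg_neg] at h3
    exact h3
  rw [← intervalIntegral.integral_add_adjacent_intervals (b := 0)
    (hcont.intervalIntegrable _ _) (hcont.intervalIntegrable _ _), h2, h1]
  have h4 : Real.log (δ ^ 2 + 8 * 0 ^ 2) = -(2 * Real.log (1 / δ)) := by
    have h5 : δ ^ 2 + 8 * 0 ^ 2 = δ ^ 2 := by ring
    rw [h5, Real.log_pow, one_div, Real.log_inv]
    push_cast
    ring
  have h6 : Real.log (δ ^ 2 + 8 * (1 / 2) ^ 2) ≤ 2 := by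
    have h7 : δ ^ 2 + 8 * (1 / 2) ^ 2 ≤ 3 := by nlinarith
    have h8 := Real.log_le_sub_one_of_pos (show 0 < δ ^ 2 + 8 * (1 / 2) ^ 2 by positivity)
    linarith
  have h9 : 0 ≤ Real.log (1 / δ) := Real.log_nonneg (by rw [le_div_iff₀ hδ0]; linarith)
  rw [h4]
  linarith

private theorem conj_int (f : ℝ → ℂ) (a b : ℝ) :
    conj (∫ t in a..b, f t) = ∫ t in a..b, conj (f t) := by
  rw [intervalIntegral, intervalIntegral, map_sub, integral_conj, integral_conj]

private theorem re_bound {g : CT} {M1 M2 r δ : ℝ} (hr : r = 1 - δ) (hδ0 : 0 < δ) (hδ1 : δ ≤ 1 / 2)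
    (h1 : ∀ x, |(g x).re| ≤ M1) (h2 : ∀ x, |(g x).im| ≤ M2) (x : ℝ) :
    |(∫ t in (-(1 / 2) : ℝ)..(1 / 2), Kr r t * g ((x - t : ℝ) : UnitAddCircle)).re| ≤
      M1 + 7 * (1 + Real.log (1 / δ)) * M2 := by
  have hr0 : 0 ≤ r := by linarith
  have hr1 : r < 1 := by linarith
  have hM1 : 0 ≤ M1 := (abs_nonneg _).trans (h1 0)
  have hM2 : 0 ≤ M2 := (abs_nonneg _).trans (h2 0)
  have hc : Continuous fun t : ℝ => g ((x - t : ℝ) : UnitAddCircle) :=
    g.continuous.comp ((AddCircle.continuous_mk' 1).comp (continuous_const.sub continuous_id))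
  have hK := cont_Kr hr0 hr1
  have hcK : Continuous fun t : ℝ => (Kr r t).re := Complex.continuous_re.comp hK
  have hpos : ∀ t : ℝ, 0 < δ ^ 2 + 8 * t ^ 2 := fun t => by positivity
  have hcJ : Continuous fun t : ℝ => |t| / (δ ^ 2 + 8 * t ^ 2) :=
    continuous_abs.div (by fun_prop) fun t => (hpos t).ne'
  have e1 := Complex.reCLM.intervalIntegral_comp_comm
    ((hK.mul hc).intervalIntegrable (μ := volume) (-(1 / 2) : ℝ) (1 / 2))
  have e2 : ∫ t in (-(1 / 2) : ℝ)..(1 / 2), (Kr r t).re = 1 / 2 := by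
    have e3 := Complex.reCLM.intervalIntegral_comp_comm
      (hK.intervalIntegrable (μ := volume) (-(1 / 2) : ℝ) (1 / 2))
    rw [int_Kr hr0 hr1] at e3
    have e4 : Complex.reCLM (1 / 2 : ℂ) = 1 / 2 := by
      rw [Complex.reCLM_apply]
      norm_num
    rw [e4] at e3
    exact e3
  change |Complex.reCLM (∫ t in (-(1 / 2) : ℝ)..(1 / 2), (Kr r * fun t : ℝ =>
    g ((x - t : ℝ) : UnitAddCircle)) t)| ≤ _
  rw [← e1, ← Real.norm_eq_abs]
  have e5 : ‖∫ t in (-(1 / 2) : ℝ)..(1 / 2), Complex.reCLM ((Kr r * fun t : ℝ =>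
      g ((x - t : ℝ) : UnitAddCircle)) t)‖ ≤ ∫ t in (-(1 / 2) : ℝ)..(1 / 2),
        ((Kr r t).re * M1 + 7 * (|t| / (δ ^ 2 + 8 * t ^ 2)) * M2) := by
    refine intervalIntegral.norm_integral_le_of_norm_le (by norm_num)
      (Eventually.of_forall fun t ht => ?_)
      (((hcK.mul continuous_const).add ((continuous_const.mul hcJ).mul
        continuous_const)).intervalIntegrable _ _)
    have ht2 : |t| ≤ 1 / 2 := abs_le.2 ⟨by linarith [ht.1], ht.2⟩
    obtain ⟨k1, -, k3⟩ := Kr_bound hr hδ0 hδ1 ht2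
    change ‖(Kr r t * g ((x - t : ℝ) : UnitAddCircle)).re‖ ≤ _
    rw [Complex.mul_re, Real.norm_eq_abs]
    refine (abs_sub _ _).trans ?_
    rw [abs_mul, abs_mul, abs_of_nonneg k1]
    exact add_le_add (mul_le_mul_of_nonneg_left (h1 _) k1)
      (mul_le_mul k3 (h2 _) (abs_nonneg _) ((abs_nonneg _).trans k3))
  refine e5.trans ?_
  have i1 : IntervalIntegrable (fun t : ℝ => (Kr r t).re * M1) volume (-(1 / 2)) (1 / 2) :=
    (hcK.mul continuous_const).intervalIntegrable _ _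
  have i2 : IntervalIntegrable (fun t : ℝ => 7 * (|t| / (δ ^ 2 + 8 * t ^ 2)) * M2) volume
      (-(1 / 2)) (1 / 2) :=
    ((continuous_const.mul hcJ).mul continuous_const).intervalIntegrable _ _
  rw [intervalIntegral.integral_add i1 i2,
    intervalIntegral.integral_mul_const, intervalIntegral.integral_mul_const,
    intervalIntegral.integral_const_mul, e2]
  have e6 := int_J hδ0 hδ1
  nlinarith [mul_le_mul_of_nonneg_right e6 hM2]

private theorem diff_eq (h : CT) {r : ℝ} (hr0 : 0 ≤ r) (hr1 : r < 1) (x : ℝ) :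
    h (x : UnitAddCircle) -
      (∫ t in (-(1 / 2) : ℝ)..(1 / 2), Kr r t * h ((x - t : ℝ) : UnitAddCircle)) -
      conj (∫ t in (-(1 / 2) : ℝ)..(1 / 2), Kr r t * (star h : CT) ((x - t : ℝ) : UnitAddCircle)) =
    ∫ t in (-(1 / 2) : ℝ)..(1 / 2), ((2 * (Kr r t).re : ℝ) : ℂ) *
      (h (x : UnitAddCircle) - h ((x - t : ℝ) : UnitAddCircle)) := by
  have hc : Continuous fun t : ℝ => h ((x - t : ℝ) : UnitAddCircle) :=
    h.continuous.comp ((AddCircle.continuous_mk' 1).comp (continuous_const.sub continuous_id))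
  have hK := cont_Kr hr0 hr1
  have hK2 : Continuous fun t : ℝ => conj (Kr r t) := Complex.continuous_conj.comp hK
  have e1 : ∫ t in (-(1 / 2) : ℝ)..(1 / 2), conj (Kr r t) = 1 / 2 := by
    rw [← conj_int, int_Kr hr0 hr1, map_div₀, map_one, Complex.conj_ofNat]
  have e2 : conj (∫ t in (-(1 / 2) : ℝ)..(1 / 2), Kr r t *
      (star h : CT) ((x - t : ℝ) : UnitAddCircle)) =
      ∫ t in (-(1 / 2) : ℝ)..(1 / 2), conj (Kr r t) * h ((x - t : ℝ) : UnitAddCircle) := by
    rw [conj_int]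
    refine intervalIntegral.integral_congr fun t _ => ?_
    rw [map_mul, ContinuousMap.star_apply]
    simp
  have e3 : h (x : UnitAddCircle) = ∫ t in (-(1 / 2) : ℝ)..(1 / 2),
      (Kr r t + conj (Kr r t)) * h (x : UnitAddCircle) := by
    rw [intervalIntegral.integral_mul_const, intervalIntegral.integral_add
      (hK.intervalIntegrable _ _) (hK2.intervalIntegrable _ _), int_Kr hr0 hr1, e1]
    norm_num
  have i1 : IntervalIntegrable (fun t : ℝ => (Kr r t + conj (Kr r t)) * h (x : UnitAddCircle))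
      volume (-(1 / 2)) (1 / 2) := ((hK.add hK2).mul continuous_const).intervalIntegrable _ _
  have i2 : IntervalIntegrable (fun t : ℝ => Kr r t * h ((x - t : ℝ) : UnitAddCircle))
      volume (-(1 / 2)) (1 / 2) := (hK.mul hc).intervalIntegrable _ _
  have i3 : IntervalIntegrable (fun t : ℝ => conj (Kr r t) * h ((x - t : ℝ) : UnitAddCircle))
      volume (-(1 / 2)) (1 / 2) := (hK2.mul hc).intervalIntegrable _ _
  rw [e2]
  nth_rewrite 1 [e3]
  rw [← intervalIntegral.integral_sub i1 i2, ← intervalIntegral.integral_sub (i1.sub i2) i3]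
  refine intervalIntegral.integral_congr fun t _ => ?_
  have e4 : Kr r t + conj (Kr r t) = ((2 * (Kr r t).re : ℝ) : ℂ) := Complex.add_conj _
  change (Kr r t + conj (Kr r t)) * h (x : UnitAddCircle) - Kr r t *
    h ((x - t : ℝ) : UnitAddCircle) - conj (Kr r t) * h ((x - t : ℝ) : UnitAddCircle) =
    ((2 * (Kr r t).re : ℝ) : ℂ) * (h (x : UnitAddCircle) - h ((x - t : ℝ) : UnitAddCircle))
  rw [← e4]
  ring

private theorem log_est {δ : ℝ} (hδ0 : 0 < δ) (hδ1 : δ ≤ 1 / 2) :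
    δ * (1 + Real.log (1 / δ)) ≤ 3 * Real.sqrt δ := by
  have hs0 : 0 < Real.sqrt δ := Real.sqrt_pos.2 hδ0
  have hs2 : Real.sqrt δ * Real.sqrt δ = δ := Real.mul_self_sqrt hδ0.le
  have hs1 : Real.sqrt δ ≤ 1 := Real.sqrt_le_one.2 (by linarith)
  generalize Real.sqrt δ = s at *
  have h1 : Real.log (1 / δ) = 2 * Real.log (1 / s) := by
    rw [← hs2, one_div, one_div, Real.log_inv, Real.log_inv, Real.log_mul hs0.ne' hs0.ne']
    ring
  have h2 : Real.log (1 / s) ≤ 1 / s - 1 := Real.log_le_sub_one_of_pos (by positivity)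
  have h3 : s * (1 / s) = 1 := by field_simp
  rw [h1, ← hs2]
  have h4 : s * (s * Real.log (1 / s)) ≤ s * (s * (1 / s - 1)) :=
    mul_le_mul_of_nonneg_left (mul_le_mul_of_nonneg_left h2 hs0.le) hs0.le
  have h5 : s * (s * (1 / s - 1)) = s - s * s := by
    calc s * (s * (1 / s - 1)) = s * (s * (1 / s)) - s * s := by ring
      _ = s - s * s := by rw [h3, mul_one]
  nlinarith

theorem poi : ∃ C : ℝ, 0 < C ∧ ∀ (h : CT) (L M1 M2 δ : ℝ), 0 ≤ L → 0 < δ → δ ≤ 1 / 2 →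
    (∀ x y : ℝ, ‖h (x : UnitAddCircle) - h (y : UnitAddCircle)‖ ≤ L * |x - y|) →
    (∀ x, |(h x).re| ≤ M1) → (∀ x, |(h x).im| ≤ M2) →
    ∃ p m : CT, Plus p ∧ Minus m ∧ ‖h - p - m‖ ≤ C * L * Real.sqrt δ ∧
      (∀ x, |(p x).re| ≤ M1 + C * (1 + Real.log (1 / δ)) * M2) ∧
      ∀ x, |(m x).re| ≤ M1 + C * (1 + Real.log (1 / δ)) * M2 := by
  refine ⟨7, by norm_num, fun h L M1 M2 δ hL hδ0 hδ1 hLip h1 h2 => ?_⟩
  obtain ⟨r, hr⟩ : ∃ r : ℝ, r = 1 - δ := ⟨_, rfl⟩
  have hr0 : 0 ≤ r := by linarith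
  have hr1 : r < 1 := by linarith
  obtain ⟨p, hp⟩ : ∃ p : CT, p = plusS fun j => kj r j * fourierCoeff h (j : ℤ) := ⟨_, rfl⟩
  obtain ⟨q, hq⟩ : ∃ q : CT, q = plusS fun j => kj r j * fourierCoeff (star h : CT) (j : ℤ) :=
    ⟨_, rfl⟩
  obtain ⟨p1, p2⟩ := plus_int h hr0 hr1
  obtain ⟨q1, q2⟩ := plus_int (star h) hr0 hr1
  rw [← hp] at p1 p2
  rw [← hq] at q1 q2
  refine ⟨p, star q, p1, fun n hn => ?_, ?_, fun x => ?_, fun x => ?_⟩
  · rw [fourierCoeff_star, q1 (-n) (by omega), map_zero]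
  · refine (ContinuousMap.norm_le _ (by positivity)).2 fun x => ?_
    obtain ⟨x, rfl⟩ := QuotientAddGroup.mk_surjective x
    change ‖h (x : UnitAddCircle) - p (x : UnitAddCircle) - (star q : CT) (x : UnitAddCircle)‖ ≤ _
    have e0 : (star q : CT) (x : UnitAddCircle) = conj (q (x : UnitAddCircle)) := rfl
    rw [e0, p2, q2, diff_eq h hr0 hr1]
    have hpos : ∀ t : ℝ, 0 < δ ^ 2 + 8 * t ^ 2 := fun t => by positivity
    have hcJ : Continuous fun t : ℝ => |t| / (δ ^ 2 + 8 * t ^ 2) :=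
      continuous_abs.div (by fun_prop) fun t => (hpos t).ne'
    have e1 : ‖∫ t in (-(1 / 2) : ℝ)..(1 / 2), ((2 * (Kr r t).re : ℝ) : ℂ) *
        (h (x : UnitAddCircle) - h ((x - t : ℝ) : UnitAddCircle))‖ ≤
        ∫ t in (-(1 / 2) : ℝ)..(1 / 2), 2 * δ * L * (|t| / (δ ^ 2 + 8 * t ^ 2)) := by
      refine intervalIntegral.norm_integral_le_of_norm_le (by norm_num)
        (Eventually.of_forall fun t ht => ?_) ((continuous_const.mul hcJ).intervalIntegrable _ _)
      have ht2 : |t| ≤ 1 / 2 := abs_le.2 ⟨by linarith [ht.1], ht.2⟩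
      obtain ⟨k1, k2, -⟩ := Kr_bound hr hδ0 hδ1 ht2
      rw [norm_mul, Complex.norm_real, Real.norm_of_nonneg (by linarith)]
      have e2 : ‖h (x : UnitAddCircle) - h ((x - t : ℝ) : UnitAddCircle)‖ ≤ L * |t| := by
        have := hLip x (x - t)
        rwa [sub_sub_cancel] at this
      calc 2 * (Kr r t).re * ‖h (x : UnitAddCircle) - h ((x - t : ℝ) : UnitAddCircle)‖ ≤
          2 * (δ / (δ ^ 2 + 8 * t ^ 2)) * (L * |t|) :=
            mul_le_mul (by linarith) e2 (norm_nonneg _) (by positivity)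
        _ = 2 * δ * L * (|t| / (δ ^ 2 + 8 * t ^ 2)) := by ring
    refine e1.trans ?_
    rw [intervalIntegral.integral_const_mul]
    have e3 := int_J hδ0 hδ1
    have e4 := log_est hδ0 hδ1
    calc 2 * δ * L * ∫ t in (-(1 / 2) : ℝ)..(1 / 2), |t| / (δ ^ 2 + 8 * t ^ 2) ≤
        2 * δ * L * (1 + Real.log (1 / δ)) := mul_le_mul_of_nonneg_left e3 (by positivity)
      _ = 2 * L * (δ * (1 + Real.log (1 / δ))) := by ring
      _ ≤ 2 * L * (3 * Real.sqrt δ) := mul_le_mul_of_nonneg_left e4 (by positivity)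
      _ ≤ 7 * L * Real.sqrt δ := by nlinarith [mul_nonneg hL (Real.sqrt_nonneg δ)]
  · obtain ⟨x, rfl⟩ := QuotientAddGroup.mk_surjective x
    have e5 := re_bound (g := h) hr hδ0 hδ1 h1 h2 x
    rw [← p2] at e5
    exact e5
  · obtain ⟨x, rfl⟩ := QuotientAddGroup.mk_surjective x
    have e5 := re_bound (g := star h) (M1 := M1) (M2 := M2) hr hδ0 hδ1
      (fun y => by
        have e6 : ((star h : CT) y).re = (h y).re := Complex.conj_re _
        rw [e6]
        exact h1 y)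
      (fun y => by
        have e6 : ((star h : CT) y).im = -(h y).im := Complex.conj_im _
        rw [e6, abs_neg]
        exact h2 y) x
    rw [← q2] at e5
    have e7 : ((star q : CT) (x : UnitAddCircle)).re = (q (x : UnitAddCircle)).re :=
      Complex.conj_re _
    change |((star q : CT) (x : UnitAddCircle)).re| ≤ _
    rw [e7]
    exact e5

end Pool.Agent.TBirP
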