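import Pool.Agent.TBirP.AdjQ
import Pool.Agent.TBirP.SpQ

/-!
# Regions: disconnected

`reg_neg`: `Om phi` not preconnected: `Om phi = U1 ∪ U2`, disjoint, open, nonempty (`isOpen_Om`). `Q = closure U1 ∩ closure U2` is in the curve and contains no value of a simple point not in `F`
(`sim_local`: near it the points with nonzero winding number are in one of `A`, `B`, because `x`, `x + 1` are in `{-1, 0, 1}`; this set is connected and in `Om phi`, so it is in `U1` or in `U2`), so it is finite; no value of a point of `F` (hypothesis): `neg_core`.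
-/

set_option autoImplicit false

open MeasureTheory Complex Set Filter Topology Metric AddCircle
open scoped ComplexConjugate InnerProductSpace ENNReal

namespace Pool.Agent.TBirP

open Pool.Agent.TBir Pool.Agent.TBirG Pool.Agent.TBirC

variable {phi : ℂ → ℂ} {F : Set ℂ}

theorem reg_neg (h : PwA phi F) {D : Set ℂ} (hD : D.Finite) (hinj : InjOn phi (sphere 0 1 \ D))
    (hw : ∀ l n, Wn phi l n → |n| ≤ 1)
    (hF : ∀ t ∈ sphere (0 : ℂ) 1, t ∈ F → ∃ A : Set ℂ, IsPreconnected A ∧ A ⊆ Om phi ∧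
      ∀ᶠ l in 𝓝 (phi t), l ∈ Om phi → l ∈ A)
    (hO : ¬ IsPreconnected (Om phi)) : ¬ BIR H2 (IsToeplitz phi) := by
  have hsim := fin_sim h hD hinj
  have hop := isOpen_Om h.cont
  -- the splitting
  unfold IsPreconnected at hO
  push Not at hO
  obtain ⟨u, v, hu, hv, hs, nu, nv, huv⟩ := hO
  have hU : Om phi ∩ u ∪ Om phi ∩ v = Om phi := by
    rw [← inter_union_distrib_left, inter_eq_left.2 hs]
  have hd : Disjoint (Om phi ∩ u) (Om phi ∩ v) := by
    rw [Set.disjoint_left]
    rintro l ⟨h1, h2⟩ ⟨-, h3⟩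
    have h4 : l ∈ Om phi ∩ (u ∩ v) := ⟨h1, h2, h3⟩
    rw [huv] at h4
    exact h4
  -- a connected set containing all the points of `Om phi` near `q`
  have key : ∀ (q : ℂ) (A : Set ℂ), IsPreconnected A → A ⊆ Om phi →
      (∀ᶠ l in 𝓝 q, l ∈ Om phi → l ∈ A) →
      q ∉ closure (Om phi ∩ u) ∩ closure (Om phi ∩ v) := by
    rintro q A hA hAO hev ⟨h1, h2⟩
    obtain ⟨l1, h1U, h1A⟩ := ((mem_closure_iff_frequently.1 h1).and_eventually hev).exists
    obtain ⟨l2, h2U, h2A⟩ := ((mem_closure_iff_frequently.1 h2).and_eventually hev).exists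
    obtain ⟨l, hlA, hlu, hlv⟩ := hA u v hu hv (hAO.trans hs) ⟨l1, h1A h1U.1, h1U.2⟩
      ⟨l2, h2A h2U.1, h2U.2⟩
    have h4 : l ∈ Om phi ∩ (u ∩ v) := ⟨hAO hlA, hlu, hlv⟩
    rw [huv] at h4
    exact h4
  -- simple points
  have hs1 : ∀ z, Sim phi z → z ∉ F →
      phi z ∉ closure (Om phi ∩ u) ∩ closure (Om phi ∩ v) := by
    intro z hz hzF
    obtain ⟨x, A, B, -, hA, hB, hwA, hwB, cA, cB, hev⟩ := sim_local h hz hzF
    obtain ⟨a, ha⟩ : A.Nonempty := closure_nonempty_iff.1 ⟨_, cA⟩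
    obtain ⟨b, hb⟩ : B.Nonempty := closure_nonempty_iff.1 ⟨_, cB⟩
    have h1 := abs_le.1 (hw a _ (hwA a ha))
    have h2 := abs_le.1 (hw b _ (hwB b hb))
    by_cases hx : x = 0
    · refine key _ A hA (fun l hl => ⟨x + 1, by omega, hwA l hl⟩) ?_
      filter_upwards [hev] with l hl hlO
      obtain ⟨n, hn, hnW⟩ := hlO
      rcases hl hnW.not_mem with h3 | h3
      · exact h3
      · have h4 := hnW.unique (hwB l h3)
        omega
    · refine key _ B hB (fun l hl => ⟨x, hx, hwB l hl⟩) ?_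
      filter_upwards [hev] with l hl hlO
      obtain ⟨n, hn, hnW⟩ := hlO
      rcases hl hnW.not_mem with h3 | h3
      · have h4 := hnW.unique (hwA l h3)
        omega
      · exact h3
  -- points of `F`
  have hs2 : ∀ z ∈ sphere (0 : ℂ) 1, z ∈ F →
      phi z ∉ closure (Om phi ∩ u) ∩ closure (Om phi ∩ v) := by
    intro z hz hzF
    obtain ⟨A, hA, hAO, hev⟩ := hF z hz hzF
    exact key _ A hA hAO hev
  -- points off the curve
  have hs3 : ∀ q, q ∉ J phi → q ∉ closure (Om phi ∩ u) ∩ closure (Om phi ∩ v) := by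
    intro q hq
    obtain ⟨n, hn⟩ := exists_wn h.cont hq
    have hev := hn.nhds h.cont
    by_cases hn0 : n = 0
    · rintro ⟨h1, -⟩
      obtain ⟨l, ⟨⟨m, hm, hmW⟩, -⟩, hl⟩ :=
        ((mem_closure_iff_frequently.1 h1).and_eventually hev).exists
      exact hm ((hmW.unique hl).trans hn0)
    · obtain ⟨r, hr, hball⟩ := Metric.eventually_nhds_iff_ball.1 hev
      refine key q (ball q r) (convex_ball q r).isPreconnected
        (fun l hl => ⟨n, hn0, hball l hl⟩) ?_
      filter_upwards [ball_mem_nhds q hr] with l hl _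
      exact hl
  have hfin : (closure (Om phi ∩ u) ∩ closure (Om phi ∩ v)).Finite := by
    refine (hsim.image phi).subset ?_
    intro q hq
    by_cases hqJ : q ∈ J phi
    · obtain ⟨z, hz, hzq⟩ := hqJ
      refine ⟨z, ⟨mem_sphere_zero_iff_norm.1 hz, fun hsz => ?_⟩, hzq⟩
      by_cases hzF : z ∈ F
      · exact hs2 z hz hzF (by rw [hzq]; exact hq)
      · exact hs1 z hsz hzF (by rw [hzq]; exact hq)
    · exact absurd hq (hs3 q hqJ)
  refine neg_core h hsim (hop.inter hu) (hop.inter hv) hU hd nu nv hfin ?_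
  intro q hq z hz hzq hzF
  exact hs2 z hz hzF (by rw [hzq]; exact hq)

end Pool.Agent.TBirP
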