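import Pool.Agent.TBirP.AdjP
import Pool.Agent.TBirP.RegN

/-!
# Regions: winding numbers 0, 1, -1

`reg_pos`: `Om phi` preconnected and `|n| ≤ 1`: all winding numbers are `≥ 0` or all are `≤ 0` (`Wn.of_preconnected`); in the first case `Good phi q` for all `q` (second alternative with `m = 0`, `A = Om phi`, `B` =
the set of the points with winding number `0`, `exists_wn`), `main_good`; in the second `GoodO`, `main_goodO`; `bir_of_ct`, `exists_ct`.
`reg_neg`: RegN.lean.
-/

set_option autoImplicit false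

open MeasureTheory Complex Set Filter Topology Metric AddCircle
open scoped ComplexConjugate InnerProductSpace ENNReal

namespace Pool.Agent.TBirP

open Pool.Agent.TBir Pool.Agent.TBirG Pool.Agent.TBirC

variable {phi : ℂ → ℂ} {F : Set ℂ}

theorem reg_pos (h : PwA phi F) {D : Set ℂ} (hD : D.Finite) (hinj : InjOn phi (sphere 0 1 \ D))
    (hw : ∀ l n, Wn phi l n → |n| ≤ 1) (hO : IsPreconnected (Om phi)) : BIR H2 (IsToeplitz phi) := by
  obtain ⟨Phi, hPhi⟩ := exists_ct h.cont
  refine (bir_of_ct hPhi).2 ?_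
  have hJ : ∀ l ∈ Om phi, l ∉ J phi := by
    rintro l ⟨n, -, hn⟩
    exact hn.not_mem
  by_cases hp : ∀ l ∈ Om phi, Wn phi l 1
  · refine main_good h hPhi (fin_sim h hD hinj) fun q =>
      Or.inr ⟨0, Om phi, {l | Wn phi l 0}, hO, Or.inr rfl, ?_, ?_, ?_⟩
    · intro l hl
      simpa using hp l hl
    · intro l hl
      simpa using hl
    · refine Eventually.of_forall fun l hl => ?_
      obtain ⟨n, hn⟩ := exists_wn h.cont hl
      by_cases h0 : n = 0
      · right
        subst h0
        exact hn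
      · left
        exact ⟨n, h0, hn⟩
  · push Not at hp
    obtain ⟨l0, hl0, h1⟩ := hp
    obtain ⟨n, hn0, hn⟩ := id hl0
    have hn1 : n = -1 := by
      have h2 := hw l0 n hn
      have h3 : n ≠ 1 := by
        rintro rfl
        exact h1 hn
      rw [abs_le] at h2
      omega
    subst hn1
    refine main_goodO h hPhi (fin_sim h hD hinj) fun q =>
      Or.inr ⟨0, Om phi, {l | Wn phi l 0}, hO, Or.inr rfl, ?_, ?_, ?_⟩
    · intro l hl
      have h2 := Wn.of_preconnected h.cont hO hJ hl0 hl hn
      simpa using h2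
    · intro l hl
      simpa using hl
    · refine Eventually.of_forall fun l hl => ?_
      obtain ⟨n, hn⟩ := exists_wn h.cont hl
      by_cases h0 : n = 0
      · right
        subst h0
        exact hn
      · left
        exact ⟨n, h0, hn⟩

theorem reg_main (h : PwA phi F) {D : Set ℂ} (hD : D.Finite) (hinj : InjOn phi (sphere 0 1 \ D))
    (hw : ∀ l n, Wn phi l n → |n| ≤ 1)
    (hF : ∀ t ∈ sphere (0 : ℂ) 1, t ∈ F → ∃ A : Set ℂ, IsPreconnected A ∧ A ⊆ Om phi ∧
      ∀ᶠ l in 𝓝 (phi t), l ∈ Om phi → l ∈ A) :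
    (∀ f ∈ H2, ∃! g, IsToeplitz phi f g) ∧ (BIR H2 (IsToeplitz phi) ↔ IsPreconnected (Om phi)) :=
  ⟨exists_unique_cont h.cont, by
    constructor
    · intro hb
      by_contra hO
      exact reg_neg h hD hinj hw hF hO hb
    · exact reg_pos h hD hinj hw⟩

end Pool.Agent.TBirP
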