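import Pool.Agent.TBirP.Inx
import Pool.Agent.TBirC.Fin

/-!
# The spectrum, and the splitting for piecewise analytic symbols

`spec_cont`: `l` off the curve with winding number `n`: `phi - l = z ^ n exp h`; `T` of `exp h` is a unit (`isUnit_exp`), so (`TM_plus`, `TM_minus`) `T Phi - l` is a unit times a power of the shift or of the
backward shift: bijective iff `n = 0` (`bij_iff`, `spec_eq` of TBirC/Stm.lean). `l` on the curve: if `l` is not in the spectrum of `TM M`, `M = mf (phi e)`, then `M - l` is a unit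
(`resolventSet_of_TM` in TBirC/HW.lean), so `‖phi (e x) - l‖ ≥ c` a.e. (`ae_ge_of_isUnit`), but it is small on a nonempty open set.
`neg_core`: `S = J phi ∪ Om`, and `J phi` is in the closure of `Om`: simple points which are not in `F` are dense in the circle and by `sim_local` one of the
winding numbers `x`, `x + 1` is not `0`. So `S = closure U1 ∪ closure U2`, and `S \ Q = (closure U1 \ Q) ∪ (closure U2 \ Q)`, disjoint, relatively
closed, nonempty (`U1` is open and infinite): not preconnected; `main_disc` (TBirC/Fin.lean) with `Reg2`.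
-/

set_option autoImplicit false

open MeasureTheory Complex Set Filter Topology Metric AddCircle
open scoped ComplexConjugate InnerProductSpace ENNReal

namespace Pool.Agent.TBirP

open Pool.Agent.TBir Pool.Agent.TBirG Pool.Agent.TBirC

variable {phi : ℂ → ℂ} {F : Set ℂ}

/-- The set of the points with nonzero winding number. -/
def Om (phi : ℂ → ℂ) : Set ℂ := {l | ∃ n : ℤ, n ≠ 0 ∧ Wn phi l n}

private theorem spp_not_unit_neg {n : ℤ} (hn : n < 0) : ¬ IsUnit (T (fourier n)) := by
  intro h
  rw [ContinuousLinearMap.isUnit_iff_bijective] at h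
  refine idx_mono_ne_zero 0 (h.1 ?_)
  rw [idx_T_neg_mono hn, map_zero]

private theorem spp_not_unit {n : ℤ} (hn : n ≠ 0) : ¬ IsUnit (T (fourier n)) := by
  rcases lt_or_gt_of_ne hn with h | h
  · exact spp_not_unit_neg h
  · intro hU
    obtain ⟨k, rfl⟩ := Int.eq_ofNat_of_zero_le h.le
    have h1 : T (fourier (-(k : ℤ))) * T (fourier (k : ℤ)) = 1 := T_fourier_neg_mul
    obtain ⟨u, hu⟩ := hU
    have h2 : T (fourier (-(k : ℤ))) = ((u⁻¹ : Opˣ) : Op) := by
      rw [← hu] at h1
      calc T (fourier (-(k : ℤ))) = T (fourier (-(k : ℤ))) * ((u : Op) * ((u⁻¹ : Opˣ) : Op)) := by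
            rw [Units.mul_inv, mul_one]
        _ = ((u⁻¹ : Opˣ) : Op) := by rw [← mul_assoc, h1, one_mul]
    exact spp_not_unit_neg (n := -(k : ℤ)) (by omega) (h2 ▸ (u⁻¹).isUnit)

private theorem spp_he (x : UnitAddCircle) : e x ∈ sphere (0 : ℂ) 1 := by
  rw [mem_sphere_zero_iff_norm]
  exact norm_e x

private theorem spp_memLp (hc : ContinuousOn phi (sphere 0 1)) :
    MemLp (fun x : UnitAddCircle => phi (e x)) ∞ mu0 :=
  memLp_ct (⟨fun x => phi (e x), hc.comp_continuous wi_e_cont spp_he⟩ : CT)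

private theorem spp_spec (hc : ContinuousOn phi (sphere 0 1)) (l : ℂ) :
    l ∈ Spec phi ↔ ¬ IsUnit (TM (mf fun x => phi (e x) - l)) := by
  have hb := spp_memLp hc
  have h1 : MemLp (fun x : UnitAddCircle => phi (e x) - l) ∞ mu0 := hb.sub (memLp_const l)
  rw [← bij_iff (phi := fun w => phi w - l) h1]
  exact Iff.rfl

private theorem spp_wn {l : ℂ} {n : ℤ} (h : Wn phi l n) :
    IsUnit (TM (mf fun x => phi (e x) - l)) ↔ n = 0 := by
  obtain ⟨g, hg, hg'⟩ := h
  let EE : CT := ⟨fun x => exp (g (e x)), (hg.comp_continuous wi_e_cont spp_he).cexp⟩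
  have hEE : IsUnit (T EE) := by
    have h1 := isUnit_exp hg
    have h2 : (fun x : UnitAddCircle => exp (g (e x))) = fun x => EE x := rfl
    rw [h2, mf_ct, TM_mul] at h1
    exact h1
  have h1 : (fun x : UnitAddCircle => phi (e x) - l) = fun x => (fourier n * EE : CT) x := by
    funext x
    rw [ContinuousMap.mul_apply, wi_fourier_e, hg' _ (spp_he x)]
    rfl
  rw [h1, mf_ct, TM_mul]
  have hF : IsUnit (T (fourier n * EE)) ↔ IsUnit (T (fourier n)) := by
    obtain ⟨u, hu⟩ := hEE
    rcases le_total 0 n with hn | hn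
    · rw [mul_comm (fourier n : CT) EE, T_mul_right _ (plus_fourier hn), ← hu,
        Units.isUnit_units_mul]
    · have hm : Minus (fourier n) := fun m hm => by
        rw [idx_fourierCoeff_fourier, if_neg (by omega)]
      rw [T_mul_left hm, ← hu, Units.isUnit_mul_units]
  rw [hF]
  constructor
  · intro h
    by_contra hn
    exact spp_not_unit hn h
  · rintro rfl
    rw [idx_fourier_zero, T_one]
    exact isUnit_one

private theorem spp_curve (hc : ContinuousOn phi (sphere 0 1)) {l : ℂ} (hl : l ∈ J phi) :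
    l ∈ Spec phi := by
  by_contra hcon
  have hb := spp_memLp hc
  rw [spec_eq hb] at hcon
  have h1 := resolventSet_of_TM (Cm.mf fun x => phi (e x)) hcon
  rw [spectrum.mem_resolventSet_iff, ← mf_const, ← mf_sub (memLp_const l) hb] at h1
  obtain ⟨c, hc0, hae⟩ := ae_ge_of_isUnit ((memLp_const l).sub hb) h1
  obtain ⟨z, hz, hzl⟩ := hl
  obtain ⟨x0, rfl⟩ := wi_exists_e hz
  have hcont : Continuous fun x : UnitAddCircle => ‖l - phi (e x)‖ :=
    (continuous_const.sub (hc.comp_continuous wi_e_cont spp_he)).norm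
  have hopen : IsOpen {x : UnitAddCircle | ‖l - phi (e x)‖ < c} := isOpen_lt hcont continuous_const
  have hne : {x : UnitAddCircle | ‖l - phi (e x)‖ < c}.Nonempty := by
    refine ⟨x0, ?_⟩
    show ‖l - phi (e x0)‖ < c
    rw [hzl, sub_self, norm_zero]
    exact hc0
  have hpos := hopen.measure_pos mu0 hne
  refine hpos.ne' ?_
  rw [ae_iff] at hae
  have hset : {x : UnitAddCircle | ‖l - phi (e x)‖ < c} =
      {x : UnitAddCircle | ¬ c ≤ ‖l - phi (e x)‖} := by
    ext x
    exact (not_le (a := c) (b := ‖l - phi (e x)‖)).symm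
  rw [hset]
  exact hae

theorem spec_cont (hc : ContinuousOn phi (sphere 0 1)) : Spec phi = J phi ∪ Om phi := by
  ext l
  constructor
  · intro hl
    by_cases hJ : l ∈ J phi
    · exact Or.inl hJ
    · obtain ⟨n, hn⟩ := exists_wn hc hJ
      refine Or.inr ⟨n, fun h0 => ?_, hn⟩
      rw [spp_spec hc, spp_wn hn] at hl
      exact hl h0
  · rintro (hJ | ⟨n, hn0, hn⟩)
    · exact spp_curve hc hJ
    · rw [spp_spec hc, spp_wn hn]
      exact hn0

theorem isOpen_Om (hc : ContinuousOn phi (sphere 0 1)) : IsOpen (Om phi) := by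
  rw [isOpen_iff_mem_nhds]
  rintro l ⟨n, hn0, hn⟩
  filter_upwards [hn.nhds hc] with l' hl'
  exact ⟨n, hn0, hl'⟩

end Pool.Agent.TBirP
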